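import Mathlib

/-!
# The lemma of Buser (first theorem of Bieberbach)

A discrete group of affine isometries `x ↦ ρ g x + t g` of a Euclidean space, which contains
elements with small rotation and translation in an arbitrary direction, contains no element with a
small nontrivial rotation.  Only Mathlib.
-/

set_option autoImplicit false
set_option linter.unusedSectionVars false

namespace Pool.Agent.CYC

variable {E : Type*} [NormedAddCommGroup E] [InnerProductSpace ℝ E] [FiniteDimensional ℝ E]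
  {S : Type*} [Group S]

open scoped InnerProductSpace

/-- Among the elements with a property there is one with the shortest translation. -/
lemma buser_min (t : S → E) (hfin : ∀ R : ℝ, {g : S | ‖t g‖ ≤ R}.Finite) (P : S → Prop)
    (h : ∃ g, P g) : ∃ g, P g ∧ ∀ k, P k → ‖t g‖ ≤ ‖t k‖ := by
  obtain ⟨g₀, hg₀⟩ := h
  obtain ⟨g, hg, hmin⟩ := Set.exists_min_image {g : S | ‖t g‖ ≤ ‖t g₀‖ ∧ P g} (fun g => ‖t g‖)
    ((hfin ‖t g₀‖).subset fun g hg => hg.1) ⟨g₀, le_rfl, hg₀⟩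
  refine ⟨g, hg.2, fun k hk => ?_⟩
  by_cases h : ‖t k‖ ≤ ‖t g₀‖
  · exact hmin k ⟨h, hk⟩
  · exact hg.1.trans (not_le.mp h).le

/-- The space `F` on which the displacement of a linear isometry `A ≠ 1` is largest. -/
lemma buser_top (A A' : E →L[ℝ] E) (hA : ∀ x, ‖A x‖ = ‖x‖) (h1 : ∀ x, A (A' x) = x)
    (h2 : ∀ x, A' (A x) = x) (hne : ∃ x, A x ≠ x) :
    ∃ (F : Submodule ℝ E) (m m' : ℝ), 0 ≤ m' ∧ m' < m ∧ (∃ u ∈ F, ‖u‖ = 1) ∧
      (∀ x, ‖A x - x‖ ≤ m * ‖x‖) ∧ (∀ x ∈ F, ‖A x - x‖ = m * ‖x‖) ∧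
      (∀ x ∈ Fᗮ, ‖A x - x‖ ≤ m' * ‖x‖) ∧ (∀ x ∈ F, A x ∈ F) ∧ (∀ x ∈ Fᗮ, A x ∈ Fᗮ) := by
  have hin : ∀ x y, ⟪A x, A y⟫_ℝ = ⟪x, y⟫_ℝ := fun x y =>
    (⟨A.toLinearMap, hA⟩ : E →ₗᵢ[ℝ] E).inner_map_map x y
  have hin' : ∀ x y, ⟪A' x, y⟫_ℝ = ⟪x, A y⟫_ℝ := fun x y => by
    rw [← hin (A' x) y, h1]
  have hin'' : ∀ x y, ⟪A x, y⟫_ℝ = ⟪x, A' y⟫_ℝ := fun x y => by
    rw [real_inner_comm, ← hin' y x, real_inner_comm]
  let T : E →ₗ[ℝ] E := (2 : ℝ) • LinearMap.id - A.toLinearMap - A'.toLinearMap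
  have hTx : ∀ x, T x = (2 : ℝ) • x - A x - A' x := fun x => rfl
  have hT : T.IsSymmetric := by
    intro x y
    rw [hTx, hTx]
    simp only [inner_sub_left, inner_sub_right, inner_smul_left, inner_smul_right]
    rw [hin', hin'' x y]
    simp only [conj_trivial]
    ring
  have hTin : ∀ x, ‖A x - x‖ ^ 2 = ⟪T x, x⟫_ℝ := by
    intro x
    rw [hTx, inner_sub_left, inner_sub_left, inner_smul_left, hin', ← real_inner_self_eq_norm_sq,
      inner_sub_left, inner_sub_right, inner_sub_right, hin, real_inner_comm (A x) x]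
    simp only [conj_trivial]
    ring
  have hTA : ∀ x, T (A x) = A (T x) := by
    intro x
    rw [hTx, hTx, map_sub, map_sub, map_smul, h1, h2]
  have hTA' : ∀ x, T (A' x) = A' (T x) := by
    intro x
    rw [hTx, hTx, map_sub, map_sub, map_smul, h1, h2]
  let b := hT.eigenvectorBasis rfl
  let l := hT.eigenvalues rfl
  have hb : ∀ i, T (b i) = l i • b i := fun i => hT.apply_eigenvectorBasis rfl i
  have hsum : ∀ x, ‖A x - x‖ ^ 2 = ∑ i, l i * ⟪b i, x⟫_ℝ ^ 2 := by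
    intro x
    rw [hTin, ← b.sum_inner_mul_inner (T x) x]
    refine Finset.sum_congr rfl fun i _ => ?_
    rw [hT x (b i), hb, inner_smul_right, real_inner_comm]
    ring
  have hnorm : ∀ x, ‖x‖ ^ 2 = ∑ i, ⟪b i, x⟫_ℝ ^ 2 := by
    intro x
    rw [← real_inner_self_eq_norm_sq, ← b.sum_inner_mul_inner x x]
    refine Finset.sum_congr rfl fun i _ => ?_
    rw [real_inner_comm x (b i)]
    ring
  have hl0 : ∀ i, 0 ≤ l i := by
    intro i
    have := hTin (b i)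
    rw [hb, inner_smul_left, real_inner_self_eq_norm_sq, b.norm_eq_one] at this
    simp only [conj_trivial, one_pow, mul_one] at this
    rw [← this]
    positivity
  obtain ⟨x₀, hx₀⟩ := hne
  have hpos : ∃ i, 0 < l i := by
    by_contra hcon
    push Not at hcon
    apply hx₀
    have : ‖A x₀ - x₀‖ ^ 2 = 0 := by
      rw [hsum]
      refine Finset.sum_eq_zero fun i _ => ?_
      rw [le_antisymm (hcon i) (hl0 i), zero_mul]
    rw [← sub_eq_zero, ← norm_eq_zero]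
    exact pow_eq_zero_iff (two_ne_zero) |>.mp this
  obtain ⟨i₁, hi₁⟩ := hpos
  obtain ⟨i₀, -, hi₀⟩ := Finset.exists_max_image Finset.univ l ⟨i₁, Finset.mem_univ _⟩
  have hi₀pos : 0 < l i₀ := hi₁.trans_le (hi₀ i₁ (Finset.mem_univ _))
  obtain ⟨μ, hμ0, hμ, hμi⟩ : ∃ μ : ℝ, 0 ≤ μ ∧ μ < l i₀ ∧ ∀ i, l i ≠ l i₀ → l i ≤ μ := by
    classical
    let s : Finset ℝ := insert 0 ((Finset.univ.image l).filter (· < l i₀))
    have hs : s.Nonempty := ⟨0, Finset.mem_insert_self _ _⟩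
    have hmem := s.max'_mem hs
    refine ⟨s.max' hs, s.le_max' 0 (Finset.mem_insert_self _ _), ?_, fun i hi => ?_⟩
    · rcases Finset.mem_insert.mp hmem with h | h
      · rw [h]; exact hi₀pos
      · exact (Finset.mem_filter.mp h).2
    · refine s.le_max' _ (Finset.mem_insert_of_mem (Finset.mem_filter.mpr ⟨?_, ?_⟩))
      · exact Finset.mem_image_of_mem _ (Finset.mem_univ _)
      · exact lt_of_le_of_ne (hi₀ i (Finset.mem_univ _)) hi
  let F : Submodule ℝ E := Module.End.eigenspace T (l i₀)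
  have hF : ∀ x, x ∈ F ↔ T x = l i₀ • x := fun x => Module.End.mem_eigenspace_iff
  have hFA : ∀ x ∈ F, A x ∈ F := by
    intro x hx
    rw [hF] at hx ⊢
    rw [hTA, hx, map_smul]
  have hFA' : ∀ x ∈ F, A' x ∈ F := by
    intro x hx
    rw [hF] at hx ⊢
    rw [hTA', hx, map_smul]
  refine ⟨F, √(l i₀), √μ, Real.sqrt_nonneg _, Real.sqrt_lt_sqrt hμ0 hμ,
    ⟨b i₀, (hF _).mpr (hb i₀), b.norm_eq_one i₀⟩, ?_, ?_, ?_, hFA, ?_⟩
  · intro x
    refine le_of_sq_le_sq ?_ (by positivity)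
    rw [mul_pow, Real.sq_sqrt hi₀pos.le, hsum, hnorm, Finset.mul_sum]
    exact Finset.sum_le_sum fun i _ =>
      mul_le_mul_of_nonneg_right (hi₀ i (Finset.mem_univ _)) (sq_nonneg _)
  · intro x hx
    have : ‖A x - x‖ ^ 2 = (√(l i₀) * ‖x‖) ^ 2 := by
      rw [mul_pow, Real.sq_sqrt hi₀pos.le, hTin, (hF x).mp hx, inner_smul_left,
        real_inner_self_eq_norm_sq]
      simp
    exact (sq_eq_sq₀ (norm_nonneg _) (by positivity)).mp this
  · intro x hx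
    refine le_of_sq_le_sq ?_ (by positivity)
    rw [mul_pow, Real.sq_sqrt hμ0, hsum, hnorm, Finset.mul_sum]
    refine Finset.sum_le_sum fun i _ => ?_
    by_cases h : l i = l i₀
    · have : ⟪b i, x⟫_ℝ = 0 := (Submodule.mem_orthogonal F x).mp hx (b i)
        ((hF _).mpr (by rw [hb, h]))
      rw [this]
      simp
    · exact mul_le_mul_of_nonneg_right (hμi i h) (sq_nonneg _)
  · intro x hx
    rw [Submodule.mem_orthogonal] at hx ⊢
    intro y hy
    rw [← hin' y x]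
    exact hx _ (hFA' y hy)

/-- **Buser's lemma**. -/
theorem buser (ρ : S →* (E →L[ℝ] E)) (t : S → E)
    (hρ : ∀ g x, ‖ρ g x‖ = ‖x‖)
    (ht : ∀ g h, t (g * h) = t g + ρ g (t h))
    (hfin : ∀ R : ℝ, {g : S | ‖t g‖ ≤ R}.Finite)
    (hrec : ∀ u : E, ‖u‖ = 1 → ∀ ε : ℝ, 0 < ε → ∃ g : S, t g ≠ 0 ∧
      ‖t g - ‖t g‖ • u‖ ≤ ε * ‖t g‖ ∧ ∀ x, ‖ρ g x - x‖ ≤ ε * ‖x‖)
    (g : S) (hg : ∀ x, ‖ρ g x - x‖ ≤ 1 / 2 * ‖x‖) (x : E) : ρ g x = x := by
  by_contra hcon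
  -- the element `g` with the shortest translation among those with a small nontrivial rotation
  obtain ⟨a, ⟨ha, hane⟩, hamin⟩ := buser_min t hfin
    (fun g => (∀ x, ‖ρ g x - x‖ ≤ 1 / 2 * ‖x‖) ∧ ∃ x, ρ g x ≠ x) ⟨g, hg, x, hcon⟩
  have hinv1 : ∀ (k : S) (x : E), ρ k (ρ k⁻¹ x) = x := fun k x => by
    have : ρ k * ρ k⁻¹ = 1 := by rw [← map_mul, mul_inv_cancel, map_one]
    exact DFunLike.congr_fun this x
  have hinv2 : ∀ (k : S) (x : E), ρ k⁻¹ (ρ k x) = x := fun k x => by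
    have : ρ k⁻¹ * ρ k = 1 := by rw [← map_mul, inv_mul_cancel, map_one]
    exact DFunLike.congr_fun this x
  have hmul : ∀ (k l : S) (x : E), ρ (k * l) x = ρ k (ρ l x) := fun k l x => by
    rw [map_mul]; rfl
  obtain ⟨F, m, m', hm'0, hmm', ⟨u, huF, hu⟩, hle, heq, hperp, hFA, hFpA⟩ :=
    buser_top (ρ a) (ρ a⁻¹) (hρ a) (hinv1 a) (hinv2 a) hane
  have hm : m ≤ 1 / 2 := by
    have := ha u
    rwa [heq u huF, hu, mul_one, mul_one] at this
  -- decomposition of the vectors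
  let P : E →L[ℝ] E := F.starProjection
  have hPF : ∀ x, P x ∈ F := fun x => Submodule.starProjection_apply_mem F x
  have hPp : ∀ x, x - P x ∈ Fᗮ := fun x => Submodule.sub_starProjection_mem_orthogonal x
  have hPid : ∀ x ∈ F, P x = x := fun x hx => Submodule.starProjection_eq_self_iff.mpr hx
  have hP0 : ∀ x ∈ Fᗮ, P x = 0 := fun x hx =>
    (Submodule.starProjection_apply_eq_zero_iff F).mpr hx
  have hPle : ∀ x, ‖P x‖ ≤ ‖x‖ := fun x => Submodule.norm_starProjection_apply_le F x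
  have hQle : ∀ x, ‖x - P x‖ ≤ ‖x‖ := by
    intro x
    have h1 : x - P x = Fᗮ.starProjection x := by
      rw [Submodule.starProjection_orthogonal_val]
    rw [h1]
    exact Submodule.norm_starProjection_apply_le Fᗮ x
  have hδ : 0 < (m - m') / 8 := by linarith
  -- the element with the shortest translation close to `F`
  obtain ⟨k, ⟨hk0, hkF, hkδ⟩, hkmin⟩ := buser_min t hfin
    (fun k => t k ≠ 0 ∧ ‖t k - P (t k)‖ < ‖P (t k)‖ ∧
      ∀ x, ‖ρ k x - x‖ ≤ (m - m') / 8 * ‖x‖) (by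
      obtain ⟨k, hk0, hkd, hkr⟩ := hrec u hu (min (1 / 4) ((m - m') / 8)) (lt_min (by norm_num) hδ)
      refine ⟨k, hk0, ?_, fun x => (hkr x).trans
        (mul_le_mul_of_nonneg_right (min_le_right _ _) (norm_nonneg _))⟩
      have hpos : 0 < ‖t k‖ := norm_pos_iff.mpr hk0
      have hd : ‖t k - ‖t k‖ • u‖ ≤ 1 / 4 * ‖t k‖ := hkd.trans
        (mul_le_mul_of_nonneg_right (min_le_left _ _) (norm_nonneg _))
      have hPu : P (‖t k‖ • u) = ‖t k‖ • u := hPid _ (F.smul_mem _ huF)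
      have e1 : P (t k) = ‖t k‖ • u + P (t k - ‖t k‖ • u) := by
        rw [map_sub, hPu]; abel
      have e2 : t k - P (t k) = (t k - ‖t k‖ • u) - P (t k - ‖t k‖ • u) := by
        rw [map_sub, hPu]; abel
      have n1 : ‖t k - P (t k)‖ ≤ 1 / 4 * ‖t k‖ := by
        rw [e2]
        exact (hQle _).trans hd
      have n2 : ‖t k‖ ≤ ‖P (t k)‖ + 1 / 4 * ‖t k‖ := by
        calc ‖t k‖ = ‖P (t k) + (t k - P (t k))‖ := by rw [add_sub_cancel]
          _ ≤ _ := norm_add_le _ _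
          _ ≤ _ := by linarith
      linarith)
  -- the commutator
  obtain ⟨c, hc⟩ : ∃ c : S, c * (k * a) = a * k := ⟨a * k * (k * a)⁻¹, by group⟩
  have htc : t c = (ρ a (t k) - t k) + ((t k - ρ c (t k)) + (t a - ρ c (ρ k (t a)))) := by
    have h1 : t c + ρ c (t k + ρ k (t a)) = t a + ρ a (t k) := by
      rw [← ht, ← ht, ← ht, hc]
    rw [map_add] at h1
    rw [eq_sub_of_add_eq h1]
    abel
  have hcba : ∀ y, ρ c (ρ k (ρ a y)) = ρ a (ρ k y) := fun y => by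
    rw [← hmul, ← hmul, ← hmul, mul_assoc, hc]
  have hcx : ∀ x, ρ c x - x = (ρ a (ρ k (ρ a⁻¹ (ρ k⁻¹ x)) - ρ a⁻¹ (ρ k⁻¹ x)) -
      (ρ k (ρ a⁻¹ (ρ k⁻¹ x)) - ρ a⁻¹ (ρ k⁻¹ x))) -
      (ρ k (ρ a (ρ a⁻¹ (ρ k⁻¹ x)) - ρ a⁻¹ (ρ k⁻¹ x)) -
      (ρ a (ρ a⁻¹ (ρ k⁻¹ x)) - ρ a⁻¹ (ρ k⁻¹ x))) := by
    intro x
    have h1 := hcba (ρ a⁻¹ (ρ k⁻¹ x))
    rw [hinv1 a, hinv1 k] at h1
    rw [h1]
    simp only [map_sub, hinv1]
    abel
  have hinvn : ∀ x, ‖ρ a⁻¹ (ρ k⁻¹ x)‖ = ‖x‖ := fun x => by rw [hρ, hρ]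
  have hcδ : ∀ x, ‖ρ c x - x‖ ≤ (m - m') / 8 * ‖x‖ := by
    intro x
    rw [hcx, ← hinvn x]
    generalize ρ a⁻¹ (ρ k⁻¹ x) = y
    refine (norm_sub_le _ _).trans ?_
    have b1 := hle (ρ k y - y)
    have b2 := hkδ y
    have b3 := hkδ (ρ a y - y)
    have b4 := hle y
    have b5 : m * ‖ρ k y - y‖ ≤ 1 / 2 * ((m - m') / 8 * ‖y‖) := by
      refine mul_le_mul hm b2 (norm_nonneg _) (by norm_num)
    have b6 : (m - m') / 8 * ‖ρ a y - y‖ ≤ (m - m') / 8 * (1 / 2 * ‖y‖) := by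
      refine mul_le_mul_of_nonneg_left (b4.trans ?_) hδ.le
      exact mul_le_mul_of_nonneg_right hm (norm_nonneg _)
    linarith
  have hrb : ‖(t k - ρ c (t k)) + (t a - ρ c (ρ k (t a)))‖ ≤ (m - m') / 4 * ‖t k‖ := by
    have ha' : t a - ρ c (ρ k (t a)) = ρ a (ρ a⁻¹ (t a) - ρ k (ρ a⁻¹ (t a))) := by
      rw [map_sub, ← hcba, hinv1]
    by_cases hk1 : ∀ x, ρ k x = x
    · have h1 : ρ c (t k) = t k := by
        rw [← sub_eq_zero, hcx]
        simp only [hk1, sub_self, map_zero]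
      have h2 : t a - ρ c (ρ k (t a)) = 0 := by
        rw [ha', hk1, sub_self, map_zero]
      rw [h1, h2, sub_self, add_zero, norm_zero]
      have := norm_nonneg (t k)
      nlinarith
    · push Not at hk1
      have hak : ‖t a‖ ≤ ‖t k‖ := hamin k ⟨fun x => (hkδ x).trans
        (mul_le_mul_of_nonneg_right (by linarith) (norm_nonneg _)), hk1⟩
      have h1 := hcδ (t k)
      rw [norm_sub_rev] at h1
      have h2 := hkδ (ρ a⁻¹ (t a))
      rw [norm_sub_rev, hρ] at h2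
      have h3 : ‖t a - ρ c (ρ k (t a))‖ ≤ (m - m') / 8 * ‖t k‖ := by
        rw [ha', hρ]
        exact h2.trans (mul_le_mul_of_nonneg_left hak hδ.le)
      refine (norm_add_le _ _).trans ?_
      linarith
  set r : E := (t k - ρ c (t k)) + (t a - ρ c (ρ k (t a))) with hr
  -- the decomposition of the displacement
  have hd1 : P (ρ a (t k) - t k) = ρ a (P (t k)) - P (t k) := by
    have h1 : ρ a (t k) - t k = (ρ a (P (t k)) - P (t k)) +
        (ρ a (t k - P (t k)) - (t k - P (t k))) := by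
      rw [map_sub]; abel
    rw [h1, map_add, hPid _ (F.sub_mem (hFA _ (hPF _)) (hPF _)),
      hP0 _ (Fᗮ.sub_mem (hFpA _ (hPp _)) (hPp _)), add_zero]
  have hd2 : (ρ a (t k) - t k) - P (ρ a (t k) - t k) =
      ρ a (t k - P (t k)) - (t k - P (t k)) := by
    rw [hd1, map_sub]; abel
  have hpos : 0 < ‖P (t k)‖ := (norm_nonneg _).trans_lt hkF
  have hk2 : ‖t k‖ < 2 * ‖P (t k)‖ := by
    calc ‖t k‖ = ‖P (t k) + (t k - P (t k))‖ := by rw [add_sub_cancel]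
      _ ≤ _ := norm_add_le _ _
      _ < _ := by linarith
  have hr2 : ‖r‖ < (m - m') / 2 * ‖P (t k)‖ := by
    refine hrb.trans_lt ?_
    have : (m - m') / 4 * ‖t k‖ < (m - m') / 4 * (2 * ‖P (t k)‖) :=
      mul_lt_mul_of_pos_left hk2 (by linarith)
    linarith
  have f1 : m * ‖P (t k)‖ - ‖r‖ ≤ ‖P (t c)‖ := by
    have h1 : ρ a (P (t k)) - P (t k) = P (t c) - P r := by
      rw [htc, map_add, hd1, add_sub_cancel_right]
    have h2 := heq _ (hPF (t k))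
    rw [h1] at h2
    have h3 := norm_sub_le (P (t c)) (P r)
    have h4 := hPle r
    linarith
  have f2 : ‖t c - P (t c)‖ ≤ m' * ‖t k - P (t k)‖ + ‖r‖ := by
    have h1 : t c - P (t c) = (ρ a (t k - P (t k)) - (t k - P (t k))) + (r - P r) := by
      rw [← hd2, htc, map_add]
      abel
    rw [h1]
    refine (norm_add_le _ _).trans (add_le_add (hperp _ (hPp _)) (hQle r))
  have f3 : m' * ‖t k - P (t k)‖ ≤ m' * ‖P (t k)‖ := mul_le_mul_of_nonneg_left hkF.le hm'0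
  have g1 : ‖t c - P (t c)‖ < ‖P (t c)‖ := by linarith
  have g0 : t c ≠ 0 := by
    intro h0
    rw [h0] at g1
    simp at g1
  have hlast := hkmin c ⟨g0, g1, hcδ⟩
  have g2 : ‖t c‖ ≤ m * ‖t k‖ + (m - m') / 4 * ‖t k‖ := by
    rw [htc]
    exact (norm_add_le _ _).trans (add_le_add (hle _) hrb)
  have g3 : m * ‖t k‖ ≤ 1 / 2 * ‖t k‖ := mul_le_mul_of_nonneg_right hm (norm_nonneg _)
  have g4 : (m - m') / 4 * ‖t k‖ ≤ 1 / 4 * ‖t k‖ :=
    mul_le_mul_of_nonneg_right (by linarith) (norm_nonneg _)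
  have g5 : 0 < ‖t k‖ := norm_pos_iff.mpr hk0
  linarith

end Pool.Agent.CYC
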