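import Pool.Agent.CYC.Slab

/-!
# Discreteness modulo the complete directions

Any rank.  First the translations: there are no arbitrarily small translations transverse to the
complete directions.
-/

set_option autoImplicit false
set_option linter.unusedSectionVars false

open Set Filter Topology

namespace Pool.Agent.CYC

open Pool.Agent.Helper2.MK Pool.Agent.Helper50.HL Pool.Agent.Helper2.RO

variable {V G Y : Type*} [NormedAddCommGroup V] [NormedSpace ℝ V] [FiniteDimensional ℝ V]
  [Group G] [TopologicalSpace Y] [T2Space Y] [MulAction G Y] {M : AffineDeveloping V G Y}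

theorem xg_dev (g : G) (y : Y) : M.dev (g • y) = M.dev y + xg M g y := by
  unfold xg; abel

theorem xg_const {g : G} (hg : ∀ v, lin M g v = v) (y y' : Y) : xg M g y' = xg M g y := by
  rw [xg_eq M g y y', hg, sub_self, add_zero]

variable {P : V →L[ℝ] V} (hP : IsProj M P) (hinc : ∀ y, dom M.dev y ≠ univ)
include hP hinc

/-- powers of a small translation -/
theorem transl_pow {g : G} (hg : ∀ v, lin M g v = v) {y : Y} (hn : Nr M g y) (n : ℕ)
    (h : (n : ℝ) * ‖P (xg M g y)‖ < rr M P y) :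
    g ^ n • y = mv M.dev y ((n : ℝ) • xg M g y) := by
  induction n with
  | zero =>
    rw [pow_zero, one_smul, Nat.cast_zero, zero_smul, mv_zero M.dev_local]
  | succ n ih =>
    set τ := xg M g y with hτ
    have hx := norm_nonneg (P τ)
    have hn0 : (0 : ℝ) ≤ n := Nat.cast_nonneg n
    have h1 : (n : ℝ) * ‖P τ‖ < rr M P y := by
      push_cast at h
      nlinarith
    have h2 : ‖P τ‖ < rr M P y := by
      push_cast at h
      nlinarith
    have e1 : ‖P ((n : ℝ) • τ)‖ < rr M P y := by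
      rw [map_smul, norm_smul, Real.norm_of_nonneg hn0]; exact h1
    have e2 : ‖P (((n + 1 : ℕ) : ℝ) • τ)‖ < rr M P y := by
      rw [map_smul, norm_smul, Real.norm_of_nonneg (Nat.cast_nonneg _)]; exact h
    rw [pow_succ', mul_smul, ih h1, ← mv_smul M g (mem_E_of_lt hP e1), hg, hn.2]
    have h3 := (slab_tri hP hinc h2 e2).2
    have e3 : ((n + 1 : ℕ) : ℝ) • τ - τ = (n : ℝ) • τ := by
      push_cast; module
    rwa [e3] at h3

theorem lin_pow_eq {g : G} (hg : ∀ v, lin M g v = v) (n : ℕ) (v : V) : lin M (g ^ n) v = v := by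
  induction n with
  | zero => rw [pow_zero, lin_one]
  | succ n ih => rw [pow_succ, lin_mul, hg, ih]

/-- the inverse of a small translation -/
theorem nr_inv {g : G} (hg : ∀ v, lin M g v = v) {y : Y} (hn : Nr M g y)
    (h : ‖P (xg M g y)‖ < rr M P y) : Nr M g⁻¹ y ∧ xg M g⁻¹ y = -xg M g y := by
  set τ := xg M g y with hτ
  have e1 : ‖P (-τ)‖ < rr M P y := by rw [map_neg, norm_neg]; exact h
  have hr := rr_pos hP hinc y
  have h1 : Nr M g (mv M.dev y (-τ)) := by
    refine nr_move hP hinc hn h e1 ?_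
    rw [hg, add_neg_cancel, map_zero, norm_zero]
    exact hr
  have h2 : xg M g (mv M.dev y (-τ)) = τ := xg_const hg _ _
  have h3 : g • mv M.dev y (-τ) = y := by
    rw [h1.2, h2]
    have h4 := (slab_tri hP hinc (u := -τ) (u' := 0) e1 (by
      rw [map_zero, norm_zero]; exact hr)).2
    rwa [zero_sub, neg_neg, mv_zero M.dev_local] at h4
  have h4 : g⁻¹ • y = mv M.dev y (-τ) := by rw [inv_smul_eq_iff, h3]
  have h5 : xg M g⁻¹ y = -τ := by
    unfold xg
    rw [h4, dev_mv M.dev_local (mem_E_of_lt hP e1)]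
    abel
  exact ⟨⟨by rw [h5]; exact mem_E_of_lt hP e1, by rw [h4, h5]⟩, h5⟩

/-- limit directions of small translations: invariance of the radius -/
theorem rr_limit [ConnectedSpace Y] {g : ℕ → G} {y0 : Y} (hg : ∀ k v, lin M (g k) v = v)
    (hn : ∀ k, Nr M (g k) y0) (hne : ∀ k, P (xg M (g k) y0) ≠ 0)
    (h0 : Tendsto (fun k => P (xg M (g k) y0)) atTop (𝓝 0)) {e : V}
    (he : Tendsto (fun k => ‖P (xg M (g k) y0)‖⁻¹ • P (xg M (g k) y0)) atTop (𝓝 e))
    (y : Y) {s : ℝ} (hs0 : 0 ≤ s) (hs : s < rr M P y) :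
    s • e ∈ E M.dev y ∧ rr M P (mv M.dev y (s • e)) = rr M P y := by
  set x : ℕ → V := fun k => P (xg M (g k) y0) with hx
  have hxg : ∀ k, xg M (g k) y = xg M (g k) y0 := fun k => xg_const (hg k) _ _
  have hPe : P e = e := by
    have h1 : Tendsto (fun k => P (‖x k‖⁻¹ • x k)) atTop (𝓝 (P e)) :=
      (P.continuous.tendsto e).comp he
    refine tendsto_nhds_unique h1 (he.congr fun k => ?_)
    rw [map_smul, hx]
    simp only
    rw [P_P hP]
  have hne1 : ‖e‖ = 1 := by
    have h1 : Tendsto (fun k => ‖‖x k‖⁻¹ • x k‖) atTop (𝓝 ‖e‖) := he.norm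
    refine tendsto_nhds_unique h1 (tendsto_const_nhds.congr fun k => ?_)
    rw [norm_smul, norm_inv, norm_norm, inv_mul_cancel₀ (norm_ne_zero_iff.2 (hne k))]
  have hse : ‖P (s • e)‖ < rr M P y := by
    rw [map_smul, hPe, norm_smul, hne1, mul_one, Real.norm_of_nonneg hs0]
    exact hs
  have hmem := mem_E_of_lt hP hse
  refine ⟨hmem, ?_⟩
  -- the multiples
  set n : ℕ → ℕ := fun k => ⌊s / ‖x k‖⌋₊ with hnn
  have hxpos : ∀ k, 0 < ‖x k‖ := fun k => norm_pos_iff.2 (hne k)
  have hle : ∀ k, (n k : ℝ) * ‖x k‖ ≤ s := fun k => by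
    have h1 := Nat.floor_le (div_nonneg hs0 (hxpos k).le)
    rwa [le_div_iff₀ (hxpos k)] at h1
  have hge : ∀ k, s - ‖x k‖ ≤ (n k : ℝ) * ‖x k‖ := fun k => by
    have h1 := Nat.lt_floor_add_one (s / ‖x k‖)
    rw [div_lt_iff₀ (hxpos k)] at h1
    have h2 : ((n k : ℝ) + 1) * ‖x k‖ = (n k : ℝ) * ‖x k‖ + ‖x k‖ := by ring
    linarith
  have hx0 : Tendsto (fun k => ‖x k‖) atTop (𝓝 0) := by simpa using h0.norm
  have hlim : Tendsto (fun k => (n k : ℝ) * ‖x k‖) atTop (𝓝 s) := by
    have h1 : Tendsto (fun k => s - ‖x k‖) atTop (𝓝 s) := by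
      simpa using tendsto_const_nhds.sub hx0
    exact tendsto_of_tendsto_of_tendsto_of_le_of_le h1 tendsto_const_nhds hge hle
  have hlim2 : Tendsto (fun k => (n k : ℝ) • x k) atTop (𝓝 (s • e)) := by
    refine (hlim.smul he).congr fun k => ?_
    rw [smul_smul, mul_assoc, mul_inv_cancel₀ (hxpos k).ne', mul_one]
  have hlim3 : Tendsto (fun k => rr M P (mv M.dev y ((n k : ℝ) • x k))) atTop
      (𝓝 (rr M P (mv M.dev y (s • e)))) := by
    have h1 : Tendsto (fun k => ((y, (n k : ℝ) • x k) : Y × V)) atTop (𝓝 (y, s • e)) :=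
      tendsto_const_nhds.prodMk_nhds hlim2
    have h2 := (continuousAt_mv M.dev_local hmem).tendsto.comp h1
    exact ((rr_cont hP hinc).tendsto _).comp h2
  refine tendsto_nhds_unique hlim3 (tendsto_const_nhds.congr' ?_)
  have h0' : Tendsto (fun k => P (xg M (g k) y0)) atTop (𝓝 0) := h0
  have hall := (nr_all hP hinc hn h0' (fun v => by simp only [hg]; exact tendsto_const_nhds) y).1
  filter_upwards [hall] with k hk
  have e1 : ‖P (xg M (g k) y)‖ = ‖x k‖ := by rw [hxg]
  have h1 : (n k : ℝ) * ‖P (xg M (g k) y)‖ < rr M P y := by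
    rw [e1]; exact (hle k).trans_lt hs
  have h2 := transl_pow hP hinc (hg k) hk (n k) h1
  have h3 : rr M P (g k ^ n k • y) = rr M P y :=
    rr_smul_eq hP hinc _ _ fun v => by rw [lin_pow_eq hP hinc (hg k)]
  rw [h2] at h3
  rw [← h3]
  -- replace the translation by its projection
  set τ := xg M (g k) y with hτ
  have h4 : (n k : ℝ) • τ = (n k : ℝ) • x k + (n k : ℝ) • (τ - P τ) := by
    rw [hx]
    simp only
    rw [← hxg k]
    module
  have h5 : (n k : ℝ) • (τ - P τ) ∈ Cd M.dev M.dev_local :=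
    Submodule.smul_mem _ _ (hP.sub_mem τ)
  have h6 : (n k : ℝ) • x k ∈ E M.dev y := by
    refine mem_E_of_lt hP ?_
    rw [map_smul, norm_smul, Real.norm_of_nonneg (Nat.cast_nonneg _), hx]
    simp only
    rw [P_P hP]
    exact (hle k).trans_lt hs
  rw [h4, (add_Cd M.dev_local h6 h5).2, rr_Cd hP hinc h5]

/-- limit directions of small translations can be followed for ever -/
theorem pos_limit [ConnectedSpace Y] {g : ℕ → G} {y0 : Y} (hg : ∀ k v, lin M (g k) v = v)
    (hn : ∀ k, Nr M (g k) y0) (hne : ∀ k, P (xg M (g k) y0) ≠ 0)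
    (h0 : Tendsto (fun k => P (xg M (g k) y0)) atTop (𝓝 0)) {e : V}
    (he : Tendsto (fun k => ‖P (xg M (g k) y0)‖⁻¹ • P (xg M (g k) y0)) atTop (𝓝 e))
    (y : Y) {s : ℝ} (hs0 : 0 ≤ s) : s • e ∈ E M.dev y := by
  have hr := rr_pos hP hinc y
  have key : ∀ n : ℕ, ((n : ℝ) * (rr M P y / 2)) • e ∈ E M.dev y ∧
      rr M P (mv M.dev y (((n : ℝ) * (rr M P y / 2)) • e)) = rr M P y := by
    intro n
    induction n with
    | zero =>
      rw [Nat.cast_zero, zero_mul, zero_smul, mv_zero M.dev_local]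
      exact ⟨zero_mem_E M.dev_local y, rfl⟩
    | succ n ih =>
      obtain ⟨h1, h2⟩ := ih
      have h3 := rr_limit hP hinc hg hn hne h0 he
        (mv M.dev y (((n : ℝ) * (rr M P y / 2)) • e)) (s := rr M P y / 2) (by linarith)
        (by rw [h2]; linarith)
      have h4 := ray_extend M.dev_local (v := e) (by positivity) (by linarith) h1 h3.1
      have e1 : (n : ℝ) * (rr M P y / 2) + rr M P y / 2 = ((n + 1 : ℕ) : ℝ) * (rr M P y / 2) := by
        push_cast; ring
      rw [e1] at h4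
      refine ⟨h4.1, ?_⟩
      rw [h4.2, h3.2, h2]
  obtain ⟨n, hn⟩ := exists_nat_gt (s / (rr M P y / 2))
  rw [div_lt_iff₀ (by linarith)] at hn
  exact smul_mem_E' (key n).1 hs0 hn.le

/-- **No small transverse translations.** -/
theorem no_small_transl [ConnectedSpace Y] {g : ℕ → G} {y0 : Y} (hg : ∀ k v, lin M (g k) v = v)
    (hn : ∀ k, Nr M (g k) y0)
    (h0 : Tendsto (fun k => P (xg M (g k) y0)) atTop (𝓝 0)) :
    ∀ᶠ k in atTop, P (xg M (g k) y0) = 0 := by
  by_contra hcon
  rw [Filter.not_eventually] at hcon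
  obtain ⟨φ, hφ, hφ'⟩ := Filter.extraction_of_frequently_atTop hcon
  have hr := rr_pos hP hinc y0
  -- pass to a tail on which the translations are small
  have hsm : ∀ᶠ k in atTop, ‖P (xg M (g k) y0)‖ < rr M P y0 := by
    have h1 : Tendsto (fun k => ‖P (xg M (g k) y0)‖) atTop (𝓝 0) := by simpa using h0.norm
    exact h1.eventually (gt_mem_nhds hr)
  obtain ⟨N, hN⟩ := eventually_atTop.1 hsm
  have hsph : ∀ k, ‖P (xg M (g (φ k)) y0)‖⁻¹ • P (xg M (g (φ k)) y0) ∈
      Metric.sphere (0 : V) 1 := by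
    intro k
    rw [mem_sphere_zero_iff_norm, norm_smul, norm_inv, norm_norm,
      inv_mul_cancel₀ (norm_ne_zero_iff.2 (hφ' k))]
  have : ProperSpace V := FiniteDimensional.proper ℝ V
  obtain ⟨e, he, ψ, hψ, hlim⟩ := (isCompact_sphere (0 : V) 1).tendsto_subseq hsph
  have hmono : StrictMono (fun k => φ (ψ k)) := hφ.comp hψ
  set θ : ℕ → ℕ := fun k => φ (ψ (k + N)) with hθ
  have hshift : Tendsto (fun k : ℕ => k + N) atTop atTop := tendsto_add_atTop_nat N
  have hθt : Tendsto θ atTop atTop := hmono.tendsto_atTop.comp hshift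
  have hθN : ∀ k, N ≤ θ k := fun k => by
    have h1 := hmono.id_le (k + N)
    have h2 : k + N ≤ θ k := h1
    omega
  have hlim' : Tendsto (fun k => ‖P (xg M (g (θ k)) y0)‖⁻¹ • P (xg M (g (θ k)) y0)) atTop
      (𝓝 e) := hlim.comp hshift
  have hmem : e ∈ Cd M.dev M.dev_local := by
    intro y t
    rcases le_total 0 t with ht | ht
    · exact pos_limit hP hinc (g := fun k => g (θ k)) (y0 := y0) (fun k v => hg _ v)
        (fun k => hn _) (fun k => hφ' _) (h0.comp hθt) hlim' y ht
    · have hinv : ∀ k, Nr M (g (θ k))⁻¹ y0 ∧ xg M (g (θ k))⁻¹ y0 = -xg M (g (θ k)) y0 :=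
        fun k => nr_inv hP hinc (hg _) (hn _) (hN _ (hθN k))
      have h1 := pos_limit hP hinc (g := fun k => (g (θ k))⁻¹) (y0 := y0) (e := -e)
        (fun k v => by
          have h2 := lin_inv_lin M (g (θ k)) v
          rwa [hg] at h2)
        (fun k => (hinv k).1)
        (fun k => by
          rw [(hinv k).2, map_neg]
          exact neg_ne_zero.2 (hφ' _))
        (by
          have h3 : Tendsto (fun k => -P (xg M (g (θ k)) y0)) atTop (𝓝 (-0)) :=
            (h0.comp hθt).neg
          rw [neg_zero] at h3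
          exact h3.congr fun k => by rw [(hinv k).2, map_neg])
        (by
          refine hlim'.neg.congr fun k => ?_
          rw [(hinv k).2, map_neg, norm_neg, smul_neg])
        y (s := -t) (by linarith)
      have e1 : (-t) • (-e) = t • e := by module
      rwa [e1] at h1
  have h1 := hP.ker e hmem
  have h2 : P e = e := by
    have h3 : Tendsto (fun k => P (‖P (xg M (g (θ k)) y0)‖⁻¹ • P (xg M (g (θ k)) y0))) atTop
        (𝓝 (P e)) := (P.continuous.tendsto e).comp hlim'
    refine tendsto_nhds_unique h3 (hlim'.congr fun k => ?_)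
    rw [map_smul, P_P hP]
  rw [h1] at h2
  rw [← h2, mem_sphere_zero_iff_norm, norm_zero] at he
  exact zero_ne_one he

end Pool.Agent.CYC
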