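import Mathlib

/-! # Stable and unstable subspaces (project MP_df2bd8, Theorem CYC, row CY1)

`B : V ≃ₗ[ℝ] V`, `Es B` the vectors contracted by `B ^ m`, `Eu B = Es B⁻¹`.  If a `B`-invariant
subspace `C` contains all vectors whose orbit is bounded modulo `C` then `V = Es + Eu + C`. -/

set_option autoImplicit false

namespace Pool.Agent.CYC
open Filter Topology

variable {V : Type*} [NormedAddCommGroup V] [NormedSpace ℝ V]

/-- the stable subspace -/
def Es (B : V ≃ₗ[ℝ] V) : Submodule ℝ V where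
  carrier := {v | Tendsto (fun m : ℕ => (B ^ m) v) atTop (𝓝 0)}
  zero_mem' := by
    show Tendsto (fun m : ℕ => (B ^ m) (0 : V)) atTop (𝓝 0)
    simp
  add_mem' := by
    intro a b ha hb
    have ha' : Tendsto (fun m : ℕ => (B ^ m) a) atTop (𝓝 0) := ha
    have hb' : Tendsto (fun m : ℕ => (B ^ m) b) atTop (𝓝 0) := hb
    show Tendsto (fun m : ℕ => (B ^ m) (a + b)) atTop (𝓝 0)
    simpa using ha'.add hb'
  smul_mem' := by
    intro c a ha
    have ha' : Tendsto (fun m : ℕ => (B ^ m) a) atTop (𝓝 0) := ha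
    show Tendsto (fun m : ℕ => (B ^ m) (c • a)) atTop (𝓝 0)
    simpa using ha'.const_smul c

/-- the unstable subspace -/
def Eu (B : V ≃ₗ[ℝ] V) : Submodule ℝ V := Es B⁻¹

theorem mem_Es {B : V ≃ₗ[ℝ] V} {v : V} :
    v ∈ Es B ↔ Tendsto (fun m : ℕ => (B ^ m) v) atTop (𝓝 0) := Iff.rfl

theorem mem_Eu {B : V ≃ₗ[ℝ] V} {v : V} :
    v ∈ Eu B ↔ Tendsto (fun m : ℕ => ((B⁻¹) ^ m) v) atTop (𝓝 0) := Iff.rfl

/-! ### generalised eigenvectors -/

/-- exponential decay on generalised eigenvectors of modulus `< 1` -/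
theorem decay {E : Type*} [NormedAddCommGroup E] [NormedSpace ℂ E] (f : Module.End ℂ E) (μ : ℂ)
    {r : ℝ} (hr : ‖μ‖ < r) (k : ℕ) :
    ∀ x : E, ((f - μ • (1 : Module.End ℂ E)) ^ k) x = 0 → ∃ C : ℝ, ∀ m : ℕ, ‖(f ^ m) x‖ ≤ C * r ^ m := by
  have hr0 : 0 < r := (norm_nonneg μ).trans_lt hr
  induction k with
  | zero =>
    intro x hx
    have hx0 : x = 0 := by simpa using hx
    exact ⟨0, fun m => by simp [hx0]⟩
  | succ k ih =>
    intro x hx
    set y := (f - μ • (1 : Module.End ℂ E)) x with hy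
    have hky : ((f - μ • (1 : Module.End ℂ E)) ^ k) y = 0 := by
      rw [hy, ← Module.End.mul_apply, ← pow_succ]
      exact hx
    obtain ⟨C, hC⟩ := ih y hky
    have hfx : f x = μ • x + y := by
      rw [hy]; simp
    refine ⟨max ‖x‖ (C / (r - ‖μ‖)), ?_⟩
    set C' := max ‖x‖ (C / (r - ‖μ‖)) with hC'
    have hC'1 : C ≤ C' * (r - ‖μ‖) := by
      have h1 : C / (r - ‖μ‖) ≤ C' := le_max_right _ _
      rwa [div_le_iff₀ (by linarith)] at h1
    intro m
    induction m with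
    | zero =>
      have h0 : ‖x‖ ≤ C' := le_max_left _ _
      simpa using h0
    | succ m ihm =>
      have h1 : (f ^ (m + 1)) x = μ • (f ^ m) x + (f ^ m) y := by
        rw [pow_succ, Module.End.mul_apply, hfx, map_add, map_smul]
      rw [h1]
      have hrm : 0 < r ^ m := pow_pos hr0 m
      calc ‖μ • (f ^ m) x + (f ^ m) y‖ ≤ ‖μ‖ * ‖(f ^ m) x‖ + ‖(f ^ m) y‖ := by
            refine (norm_add_le _ _).trans ?_
            rw [norm_smul]
        _ ≤ ‖μ‖ * (C' * r ^ m) + C * r ^ m := by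
            have := mul_le_mul_of_nonneg_left ihm (norm_nonneg μ)
            linarith [hC m]
        _ ≤ ‖μ‖ * (C' * r ^ m) + (C' * (r - ‖μ‖)) * r ^ m := by
            have := mul_le_mul_of_nonneg_right hC'1 hrm.le
            linarith
        _ = C' * r ^ (m + 1) := by ring

/-- generalised eigenvectors of the inverse -/
theorem ker_inv {E : Type*} [AddCommGroup E] [Module ℂ E] (f g : Module.End ℂ E)
    (hfg : f * g = 1) (hgf : g * f = 1) (μ : ℂ) (hμ : μ ≠ 0) (k : ℕ) (x : E)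
    (hx : ((f - μ • (1 : Module.End ℂ E)) ^ k) x = 0) :
    ((g - μ⁻¹ • (1 : Module.End ℂ E)) ^ k) x = 0 := by
  have hc : Commute (-(μ⁻¹ • g)) (f - μ • (1 : Module.End ℂ E)) := by
    have h1 : Commute g f := by rw [commute_iff_eq, hgf, hfg]
    have h2 : Commute g (f - μ • (1 : Module.End ℂ E)) :=
      h1.sub_right ((Commute.one_right g).smul_right μ)
    exact (h2.smul_left μ⁻¹).neg_left
  have h1 : g - μ⁻¹ • (1 : Module.End ℂ E) = (-(μ⁻¹ • g)) * (f - μ • (1 : Module.End ℂ E)) := by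
    rw [mul_sub, neg_mul, smul_mul_assoc, hgf, neg_mul, smul_mul_smul_comm, mul_one,
      inv_mul_cancel₀ hμ, one_smul]
    abel
  rw [h1, hc.mul_pow, Module.End.mul_apply, hx, map_zero]

/-! ### complexification by a basis -/

section
variable [FiniteDimensional ℝ V]

/-- a complex model: `R : ℂ^n → V` real linear, surjective, intertwining -/
theorem exists_model (B : V ≃ₗ[ℝ] V) :
    ∃ (n : ℕ) (f g : Module.End ℂ (Fin n → ℂ)) (R : (Fin n → ℂ) →ₗ[ℝ] V),
      f * g = 1 ∧ g * f = 1 ∧ Function.Surjective R ∧ (∀ x, R (f x) = B (R x)) ∧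
      ∀ x, R (g x) = B⁻¹ (R x) := by
  classical
  obtain ⟨n, ⟨b⟩⟩ : ∃ n : ℕ, Nonempty (Module.Basis (Fin n) ℝ V) := ⟨_, ⟨Module.finBasis ℝ V⟩⟩
  set cm : (V →ₗ[ℝ] V) → Module.End ℂ (Fin n → ℂ) := fun T =>
    Matrix.toLin' ((LinearMap.toMatrix b b T).map (algebraMap ℝ ℂ)) with hcm
  have hmul : ∀ S T : V →ₗ[ℝ] V, cm (S ∘ₗ T) = cm S * cm T := by
    intro S T
    simp only [hcm]
    rw [LinearMap.toMatrix_comp b b b, Matrix.map_mul, Matrix.toLin'_mul]
    rfl
  have hone : cm LinearMap.id = 1 := by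
    simp only [hcm]
    rw [LinearMap.toMatrix_id, Matrix.map_one _ (map_zero _) (map_one _), Matrix.toLin'_one]
    rfl
  set R : (Fin n → ℂ) →ₗ[ℝ] V :=
    { toFun := fun x => ∑ i, (x i).re • b i
      map_add' := by
        intro x y
        simp [add_smul, Finset.sum_add_distrib]
      map_smul' := by
        intro c x
        simp [Finset.smul_sum, mul_smul] } with hR
  have hRa : ∀ x, R x = ∑ i, (x i).re • b i := fun _ => rfl
  have hRT : ∀ (T : V →ₗ[ℝ] V) (x : Fin n → ℂ), R (cm T x) = T (R x) := by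
    intro T x
    have h1 : ∀ j, T (b j) = ∑ i, (LinearMap.toMatrix b b T i j) • b i := by
      intro j
      conv_lhs => rw [← b.sum_repr (T (b j))]
      simp [LinearMap.toMatrix_apply]
    have h2 : ∀ i, (cm T x i).re = ∑ j, LinearMap.toMatrix b b T i j * (x j).re := by
      intro i
      simp only [hcm, Matrix.toLin'_apply, Matrix.mulVec, dotProduct, Matrix.map_apply,
        Complex.re_sum]
      refine Finset.sum_congr rfl fun j _ => ?_
      simp
    rw [hRa, hRa, map_sum]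
    simp_rw [h2, map_smul, h1, Finset.sum_smul, Finset.smul_sum]
    rw [Finset.sum_comm]
    refine Finset.sum_congr rfl fun j _ => Finset.sum_congr rfl fun i _ => ?_
    rw [smul_smul, mul_comm]
  refine ⟨n, cm B.toLinearMap, cm (B⁻¹).toLinearMap, R, ?_, ?_, ?_, ?_, ?_⟩
  · rw [← hmul, ← hone]
    congr 1
    ext v
    exact B.apply_symm_apply v
  · rw [← hmul, ← hone]
    congr 1
    ext v
    exact B.symm_apply_apply v
  · intro v
    refine ⟨fun i => ((b.repr v i : ℝ) : ℂ), ?_⟩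
    rw [hRa]
    simp [b.sum_repr v]
  · intro x
    exact hRT _ x
  · intro x
    exact hRT _ x

omit [FiniteDimensional ℝ V] in
/-- the model commutes with the powers -/
theorem model_pow {E : Type*} [AddCommGroup E] [Module ℂ E] (f : Module.End ℂ E)
    (R : E →+ V) (B : V ≃ₗ[ℝ] V) (h : ∀ x, R (f x) = B (R x)) (m : ℕ) (x : E) :
    R ((f ^ m) x) = (B ^ m) (R x) := by
  induction m generalizing x with
  | zero => simp
  | succ m ih =>
    rw [pow_succ, Module.End.mul_apply, ih, h, pow_succ]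
    rfl

/-- powers on a generalised eigenvector -/
theorem pow_sub_mem {E : Type*} [AddCommGroup E] [Module ℂ E] (f : Module.End ℂ E) (μ : ℂ)
    (k : ℕ) (x : E) (hx : ((f - μ • (1 : Module.End ℂ E)) ^ (k + 1)) x = 0) (m : ℕ) :
    ((f - μ • (1 : Module.End ℂ E)) ^ k) ((f ^ m) x - μ ^ m • x) = 0 := by
  have hcomm : Commute f (f - μ • (1 : Module.End ℂ E)) :=
    (Commute.refl f).sub_right ((Commute.one_right f).smul_right μ)
  induction m with
  | zero => simp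
  | succ m ih =>
    have h1 : (f ^ (m + 1)) x - μ ^ (m + 1) • x =
        f ((f ^ m) x - μ ^ m • x) + μ ^ m • (f - μ • (1 : Module.End ℂ E)) x := by
      rw [pow_succ', Module.End.mul_apply, map_sub, map_smul]
      simp only [LinearMap.sub_apply, LinearMap.smul_apply, Module.End.one_apply, smul_sub,
        smul_smul]
      rw [pow_succ]
      abel
    rw [h1, map_add, map_smul]
    have h2 : ((f - μ • (1 : Module.End ℂ E)) ^ k) (f ((f ^ m) x - μ ^ m • x)) = 0 := by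
      rw [← Module.End.mul_apply, ← (hcomm.pow_right k).eq, Module.End.mul_apply, ih, map_zero]
    have h3 : ((f - μ • (1 : Module.End ℂ E)) ^ k) ((f - μ • (1 : Module.End ℂ E)) x) = 0 := by
      rw [← Module.End.mul_apply, ← pow_succ]
      exact hx
    rw [h2, h3, smul_zero, add_zero]

/-- **(1)** the decomposition -/
theorem sup_eq_top (B : V ≃ₗ[ℝ] V) (C : Submodule ℝ V)
    (hC : ∀ v : V, (∃ R : ℝ, ∀ m : ℤ, ∃ c ∈ C, ‖(B ^ m) v - c‖ ≤ R) → v ∈ C) :
    Es B ⊔ Eu B ⊔ C = ⊤ := by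
  obtain ⟨n, f, g, R, hfg, hgf, hsurj, hRf, hRg⟩ := exists_model B
  have hRcont : Continuous R := R.continuous_of_finiteDimensional
  have hRbd : ∃ K : ℝ, ∀ x, ‖R x‖ ≤ K * ‖x‖ :=
    ⟨‖R.toContinuousLinearMap‖, fun x => R.toContinuousLinearMap.le_opNorm x⟩
  obtain ⟨K, hK⟩ := hRbd
  have hRf' : ∀ m x, R ((f ^ m) x) = (B ^ m) (R x) := fun m x =>
    model_pow f R.toAddMonoidHom B hRf m x
  have hRg' : ∀ m x, R ((g ^ m) x) = ((B⁻¹) ^ m) (R x) := fun m x =>
    model_pow g R.toAddMonoidHom B⁻¹ hRg m x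
  -- decay under `R`
  have hdec : ∀ (f' : Module.End ℂ (Fin n → ℂ)) (μ : ℂ), ‖μ‖ < 1 → ∀ (k : ℕ) (x : Fin n → ℂ),
      ((f' - μ • (1 : Module.End ℂ (Fin n → ℂ))) ^ k) x = 0 →
      Tendsto (fun m : ℕ => R ((f' ^ m) x)) atTop (𝓝 0) := by
    intro f' μ hμ k x hx
    obtain ⟨r, hr1, hr2⟩ := exists_between hμ
    obtain ⟨c, hc⟩ := decay f' μ hr1 k x hx
    have h1 : Tendsto (fun m : ℕ => (f' ^ m) x) atTop (𝓝 0) := by
      refine squeeze_zero_norm hc ?_
      have := (tendsto_pow_atTop_nhds_zero_of_lt_one ((norm_nonneg μ).trans hr1.le) hr2).const_mul c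
      simpa using this
    have h2 := (hRcont.tendsto 0).comp h1
    rw [map_zero] at h2
    exact h2
  -- modulus one
  have hone : ∀ (μ : ℂ), ‖μ‖ = 1 → ∀ (k : ℕ) (x : Fin n → ℂ),
      ((f - μ • (1 : Module.End ℂ (Fin n → ℂ))) ^ k) x = 0 → R x ∈ C := by
    intro μ hμ k
    have hμ0 : μ ≠ 0 := by
      rintro rfl
      simp at hμ
    induction k with
    | zero =>
      intro x hx
      have hx0 : x = 0 := by simpa using hx
      rw [hx0, map_zero]
      exact C.zero_mem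
    | succ k ih =>
      intro x hx
      have hxg := ker_inv f g hfg hgf μ hμ0 (k + 1) x hx
      refine hC _ ⟨K * ‖x‖, fun m => ?_⟩
      have key : ∀ (j : ℕ), (∃ c ∈ C, ‖(B ^ j) (R x) - c‖ ≤ K * ‖x‖) ∧
          (∃ c ∈ C, ‖((B⁻¹) ^ j) (R x) - c‖ ≤ K * ‖x‖) := by
        intro j
        constructor
        · refine ⟨R ((f ^ j) x - μ ^ j • x), ih _ (pow_sub_mem f μ k x hx j), ?_⟩
          rw [← hRf', ← map_sub, sub_sub_cancel]
          refine (hK _).trans_eq ?_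
          rw [norm_smul, norm_pow, hμ, one_pow, one_mul]
        · have h1 := pow_sub_mem g μ⁻¹ k x hxg j
          have h2 := ker_inv g f hgf hfg μ⁻¹ (inv_ne_zero hμ0) k _ h1
          rw [inv_inv] at h2
          refine ⟨R ((g ^ j) x - μ⁻¹ ^ j • x), ih _ h2, ?_⟩
          rw [← hRg', ← map_sub, sub_sub_cancel]
          refine (hK _).trans_eq ?_
          rw [norm_smul, norm_pow, norm_inv, hμ, inv_one, one_pow, one_mul]
      rcases Int.eq_nat_or_neg m with ⟨j, rfl | rfl⟩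
      · rw [zpow_natCast]
        exact (key j).1
      · rw [zpow_neg, zpow_natCast, ← inv_pow]
        exact (key j).2
  -- all eigenvalues
  have hall : ∀ (μ : ℂ) (x : Fin n → ℂ), x ∈ f.maxGenEigenspace μ → R x ∈ Es B ⊔ Eu B ⊔ C := by
    intro μ x hx
    rw [Module.End.mem_maxGenEigenspace] at hx
    obtain ⟨k, hk⟩ := hx
    rcases lt_trichotomy ‖μ‖ 1 with h | h | h
    · refine Submodule.mem_sup_left (Submodule.mem_sup_left ?_)
      rw [mem_Es]
      have := hdec f μ h k x hk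
      simpa only [hRf'] using this
    · exact Submodule.mem_sup_right (hone μ h k x hk)
    · have hμ0 : μ ≠ 0 := by
        rintro rfl
        simp at h
        linarith
      refine Submodule.mem_sup_left (Submodule.mem_sup_right ?_)
      rw [mem_Eu]
      have hinv : ‖μ⁻¹‖ < 1 := by
        rw [norm_inv]
        exact inv_lt_one_of_one_lt₀ h
      have := hdec g μ⁻¹ hinv k x (ker_inv f g hfg hgf μ hμ0 k x hk)
      simpa only [hRg'] using this
  rw [eq_top_iff]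
  intro v _
  obtain ⟨x, rfl⟩ := hsurj v
  have hx : x ∈ ⨆ μ, f.maxGenEigenspace μ := by
    rw [Module.End.iSup_maxGenEigenspace_eq_top f]
    exact Submodule.mem_top
  induction hx using Submodule.iSup_induction' with
  | mem μ x hx => exact hall μ x hx
  | zero => rw [map_zero]; exact Submodule.zero_mem _
  | add x y _ _ hx hy =>
    rw [map_add]
    exact Submodule.add_mem _ (hx trivial) (hy trivial)

/-! ### uniform estimates -/

/-- pointwise convergence to zero on a subspace is uniform -/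
theorem unif_of_pointwise (W : Submodule ℝ V) (T : ℕ → V →ₗ[ℝ] V)
    (h : ∀ v ∈ W, Tendsto (fun m => T m v) atTop (𝓝 0)) :
    ∀ ε > 0, ∃ m0 : ℕ, ∀ m ≥ m0, ∀ v ∈ W, ‖T m v‖ ≤ ε * ‖v‖ := by
  intro ε hε
  set b := Module.finBasis ℝ W
  have hcoord : ∃ K : ℝ, 0 ≤ K ∧ ∀ (i : Fin (Module.finrank ℝ W)) (w : W), |b.repr w i| ≤ K * ‖w‖ := by
    refine ⟨∑ i, ‖(b.coord i).toContinuousLinearMap‖, by positivity, ?_⟩
    intro i w
    have h1 := (b.coord i).toContinuousLinearMap.le_opNorm w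
    have h2 : ‖(b.coord i).toContinuousLinearMap‖ ≤ ∑ i, ‖(b.coord i).toContinuousLinearMap‖ :=
      Finset.single_le_sum (f := fun i => ‖(b.coord i).toContinuousLinearMap‖)
        (fun i _ => by positivity) (Finset.mem_univ i)
    exact h1.trans (mul_le_mul_of_nonneg_right h2 (norm_nonneg _))
  obtain ⟨K, hK0, hK⟩ := hcoord
  have hsum : Tendsto (fun m => K * ∑ i, ‖T m (b i : V)‖) atTop (𝓝 0) := by
    have h1 : ∀ i, Tendsto (fun m => ‖T m (b i : V)‖) atTop (𝓝 0) := by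
      intro i
      have := (h (b i : V) (b i).2).norm
      simpa using this
    have h2 := (tendsto_finsetSum Finset.univ fun i _ => h1 i).const_mul K
    simpa using h2
  obtain ⟨m0, hm0⟩ := Filter.eventually_atTop.1 (hsum.eventually (ge_mem_nhds hε))
  refine ⟨m0, fun m hm v hv => ?_⟩
  have hexp : T m v = ∑ i, b.repr ⟨v, hv⟩ i • T m (b i : V) := by
    have h1 := b.sum_repr ⟨v, hv⟩
    have h2 := congrArg (fun w : W => T m (w : V)) h1
    refine h2.symm.trans ?_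
    rw [Submodule.coe_sum, map_sum]
    refine Finset.sum_congr rfl fun i _ => ?_
    rw [Submodule.coe_smul, map_smul]
  rw [hexp]
  calc ‖∑ i, b.repr ⟨v, hv⟩ i • T m (b i : V)‖ ≤ ∑ i, ‖b.repr ⟨v, hv⟩ i • T m (b i : V)‖ :=
        norm_sum_le _ _
    _ ≤ ∑ i, (K * ‖v‖) * ‖T m (b i : V)‖ := by
        refine Finset.sum_le_sum fun i _ => ?_
        rw [norm_smul]
        exact mul_le_mul_of_nonneg_right (hK i ⟨v, hv⟩) (norm_nonneg _)
    _ = (K * ∑ i, ‖T m (b i : V)‖) * ‖v‖ := by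
        rw [← Finset.mul_sum]; ring
    _ ≤ ε * ‖v‖ := mul_le_mul_of_nonneg_right (hm0 m hm) (norm_nonneg _)

/-- **(2)** uniform contraction of the stable subspace -/
theorem Es_unif (B : V ≃ₗ[ℝ] V) :
    ∀ ε > 0, ∃ m0 : ℕ, ∀ m ≥ m0, ∀ v ∈ Es B, ‖(B ^ m) v‖ ≤ ε * ‖v‖ :=
  unif_of_pointwise (Es B) (fun m => (B ^ m).toLinearMap) fun _ hv => hv

theorem Eu_unif (B : V ≃ₗ[ℝ] V) :
    ∀ ε > 0, ∃ m0 : ℕ, ∀ m ≥ m0, ∀ v ∈ Eu B, ‖((B⁻¹) ^ m) v‖ ≤ ε * ‖v‖ :=
  Es_unif B⁻¹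

/-- bounds for all exponents bounded below -/
theorem Es_bdd (B : V ≃ₗ[ℝ] V) (k : ℕ) :
    ∃ R > 0, ∀ m : ℤ, -(k : ℤ) ≤ m → ∀ v ∈ Es B, ‖(B ^ m) v‖ ≤ R * ‖v‖ := by
  obtain ⟨m0, hm0⟩ := Es_unif B 1 one_pos
  set S : ℝ := ∑ m ∈ Finset.Icc (-(k : ℤ)) m0, ‖((B ^ m).toLinearMap).toContinuousLinearMap‖ with hS
  have hS0 : 0 ≤ S := Finset.sum_nonneg fun _ _ => norm_nonneg _
  refine ⟨S + 1, by linarith, fun m hm v hv => ?_⟩
  rcases le_total m m0 with h | h
  · have h1 := ((B ^ m).toLinearMap).toContinuousLinearMap.le_opNorm v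
    have h2 : ‖((B ^ m).toLinearMap).toContinuousLinearMap‖ ≤ S :=
      Finset.single_le_sum (f := fun m : ℤ => ‖((B ^ m).toLinearMap).toContinuousLinearMap‖)
        (fun _ _ => norm_nonneg _) (Finset.mem_Icc.2 ⟨hm, h⟩)
    have h3 : ‖(B ^ m) v‖ ≤ ‖((B ^ m).toLinearMap).toContinuousLinearMap‖ * ‖v‖ := h1
    refine h3.trans ?_
    have := mul_le_mul_of_nonneg_right h2 (norm_nonneg v)
    nlinarith [norm_nonneg v]
  · obtain ⟨j, rfl⟩ : ∃ j : ℕ, m = j := ⟨m.toNat, by omega⟩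
    rw [zpow_natCast]
    have h1 := hm0 j (by exact_mod_cast h) v hv
    nlinarith [norm_nonneg v]

theorem Eu_bdd (B : V ≃ₗ[ℝ] V) (k : ℕ) :
    ∃ R > 0, ∀ m : ℤ, m ≤ k → ∀ v ∈ Eu B, ‖(B ^ m) v‖ ≤ R * ‖v‖ := by
  obtain ⟨R, hR, h⟩ := Es_bdd B⁻¹ k
  refine ⟨R, hR, fun m hm v hv => ?_⟩
  have h1 := h (-m) (by omega) v hv
  rwa [inv_zpow', neg_neg] at h1

/-- `B ^ j` preserves the stable subspace -/
theorem zpow_mem_Es {B : V ≃ₗ[ℝ] V} {v : V} (hv : v ∈ Es B) (j : ℤ) : (B ^ j) v ∈ Es B := by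
  have h1 : Tendsto (fun m : ℕ => (B ^ m) v) atTop (𝓝 0) := hv
  have hcont : Continuous (B ^ j) := (B ^ j).toLinearMap.continuous_of_finiteDimensional
  have h2 := (hcont.tendsto 0).comp h1
  rw [map_zero] at h2
  have h3 : (⇑(B ^ j) ∘ fun m : ℕ => (B ^ m) v) = fun m : ℕ => (B ^ m) ((B ^ j) v) := by
    funext m
    show (B ^ j * B ^ m) v = (B ^ m * B ^ j) v
    rw [← zpow_natCast B m, ← zpow_add, ← zpow_add, add_comm]
  rw [h3] at h2
  exact h2

theorem zpow_mem_Eu {B : V ≃ₗ[ℝ] V} {v : V} (hv : v ∈ Eu B) (j : ℤ) : (B ^ j) v ∈ Eu B := by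
  have h1 := zpow_mem_Es (B := B⁻¹) hv (-j)
  rwa [inv_zpow', neg_neg] at h1

/-- **(3)** `B⁻¹` contracts modulo `C` -/
theorem quot_contr (B : V ≃ₗ[ℝ] V) (C : Submodule ℝ V) (hBC : ∀ v ∈ C, B⁻¹ v ∈ C)
    (hsup : Eu B ⊔ C = ⊤) :
    ∀ ε > 0, ∃ m0 : ℕ, ∀ m ≥ m0, ∀ v : V, ∀ c ∈ C, ∃ c' ∈ C,
      ‖((B⁻¹) ^ m) v - c'‖ ≤ ε * ‖v - c‖ := by
  intro ε hε
  -- a linear section
  have hsec : ∃ s : V →ₗ[ℝ] V, (∀ v, s v ∈ Eu B) ∧ (∀ v, v - s v ∈ C) ∧ ∀ c ∈ C, s c = 0 := by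
    set q : Eu B →ₗ[ℝ] (V ⧸ C) := C.mkQ ∘ₗ (Eu B).subtype with hq
    have hqsurj : Function.Surjective q := by
      intro x
      obtain ⟨v, rfl⟩ := C.mkQ_surjective x
      have hv : v ∈ Eu B ⊔ C := by rw [hsup]; exact Submodule.mem_top
      obtain ⟨u, hu, c, hc, rfl⟩ := Submodule.mem_sup.1 hv
      refine ⟨⟨u, hu⟩, ?_⟩
      show C.mkQ u = C.mkQ (u + c)
      rw [map_add, (Submodule.mkQ_apply C c), (Submodule.Quotient.mk_eq_zero C).2 hc, add_zero]
    obtain ⟨σ, hσ⟩ := q.exists_rightInverse_of_surjective (LinearMap.range_eq_top.2 hqsurj)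
    refine ⟨(Eu B).subtype ∘ₗ σ ∘ₗ C.mkQ, fun v => (σ (C.mkQ v)).2, ?_, ?_⟩
    · intro v
      have h1 : q (σ (C.mkQ v)) = C.mkQ v := LinearMap.congr_fun hσ (C.mkQ v)
      have h2 : C.mkQ (v - (σ (C.mkQ v) : V)) = 0 := by
        rw [map_sub]
        have h3 : C.mkQ (σ (C.mkQ v) : V) = C.mkQ v := h1
        rw [h3, sub_self]
      exact (Submodule.Quotient.mk_eq_zero C).1 h2
    · intro c hc
      show ((σ (C.mkQ c) : Eu B) : V) = 0
      have h1 : C.mkQ c = 0 := (Submodule.Quotient.mk_eq_zero C).2 hc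
      rw [h1, map_zero]
      rfl
  obtain ⟨s, hs1, hs2, hs3⟩ := hsec
  set K : ℝ := ‖s.toContinuousLinearMap‖ + 1 with hK
  have hK0 : 0 < K := by positivity
  have hsK : ∀ v, ‖s v‖ ≤ K * ‖v‖ := by
    intro v
    have h1 : ‖s v‖ ≤ ‖s.toContinuousLinearMap‖ * ‖v‖ := s.toContinuousLinearMap.le_opNorm v
    rw [hK, add_mul, one_mul]
    linarith [norm_nonneg v]
  obtain ⟨m0, hm0⟩ := Eu_unif B (ε / K) (by positivity)
  have hpow : ∀ (m : ℕ), ∀ v ∈ C, ((B⁻¹) ^ m) v ∈ C := by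
    intro m
    induction m with
    | zero => intro v hv; simpa using hv
    | succ m ih =>
      intro v hv
      rw [pow_succ]
      exact ih _ (hBC v hv)
  refine ⟨m0, fun m hm v c hc => ⟨((B⁻¹) ^ m) (v - s v), hpow m _ (hs2 v), ?_⟩⟩
  rw [← map_sub, sub_sub_cancel]
  have h1 := hm0 m hm (s v) (hs1 v)
  have h2 : s v = s (v - c) := by rw [map_sub, hs3 c hc, sub_zero]
  calc ‖((B⁻¹) ^ m) (s v)‖ ≤ ε / K * ‖s v‖ := h1
    _ ≤ ε / K * (K * ‖v - c‖) := by
        refine mul_le_mul_of_nonneg_left ?_ (by positivity)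
        rw [h2]
        exact hsK _
    _ = ε * ‖v - c‖ := by field_simp

end

end Pool.Agent.CYC
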