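import Pool.Agent.CYC.Disc
import Pool.Agent.CYC.Lin
import Pool.Agent.Helper2.MK.StarShaped

/-!
# Discreteness modulo the complete directions for commuting linear parts

Any rank: if the linear parts commute and one of them has no eigenvalue one modulo the complete
directions, then elements of the group close to the identity modulo the complete directions are
trivial modulo the complete directions.
-/

set_option autoImplicit false
set_option linter.unusedSectionVars false

open Set Filter Topology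

namespace Pool.Agent.CYC

open Pool.Agent.Helper2.MK Pool.Agent.Helper50.HL Pool.Agent.Helper2.RO

variable {V G Y : Type*} [NormedAddCommGroup V] [NormedSpace ℝ V] [FiniteDimensional ℝ V]
  [Group G] [TopologicalSpace Y] [T2Space Y] [MulAction G Y] {M : AffineDeveloping V G Y}

theorem hol_add_vec (g : G) (z v : V) : M.hol g (z + v) = M.hol g z + lin M g v := by
  have h := hol_sub M g (z + v) z
  rw [add_sub_cancel_left, sub_eq_iff_eq_add] at h
  rw [h, add_comm]

theorem hol_of_lin {c : G} (hc : ∀ v, lin M c v = v) (y : Y) (z : V) :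
    M.hol c z = z + xg M c y := by
  have h := hol_sub M c z (M.dev y)
  rw [hc, sub_eq_iff_eq_add] at h
  rw [h]
  unfold xg
  rw [M.dev_smul]
  abel

theorem comm_lin (hcomm : ∀ (g h : G) (v : V), lin M g (lin M h v) = lin M h (lin M g v))
    (g h : G) (v : V) : lin M (h⁻¹ * g⁻¹ * h * g) v = v := by
  rw [lin_mul, lin_mul, lin_mul, hcomm h g, lin_inv_lin, lin_inv_lin]

variable {P : V →L[ℝ] V} (hP : IsProj M P) (hinc : ∀ y, dom M.dev y ≠ univ)
include hP

theorem P_Cd {c : V} (hc : P c = 0) (g : G) : P (lin M g c) = 0 := by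
  have h1 := (mem_Cd_iff_P hP c).2 hc
  exact hP.ker _ (lin_Cd M g h1)

theorem tendsto_P_lin {u : ℕ → V} (hu : Tendsto (fun k => P (u k)) atTop (𝓝 0)) (h : G) :
    Tendsto (fun k => P (lin M h (u k))) atTop (𝓝 0) := by
  have hc : Continuous fun v : V => P (lin M h v) :=
    P.continuous.comp (LinearMap.continuous_of_finiteDimensional
      ((lin M h : V ≃ₗ[ℝ] V) : V →ₗ[ℝ] V))
  have h1 := (hc.tendsto 0).comp hu
  rw [lin_zero, map_zero] at h1
  exact h1.congr fun k => P_lin hP h (u k)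

theorem unif_P {g : ℕ → G} (hl : ∀ v, Tendsto (fun k => P (lin M (g k) v)) atTop (𝓝 (P v)))
    {ε : ℝ} (hε : 0 < ε) : ∀ᶠ k in atTop, ∀ v, ‖P (lin M (g k) v) - P v‖ ≤ ε * ‖P v‖ := by
  obtain ⟨m0, hm0⟩ := unif_of_pointwise (⊤ : Submodule ℝ V)
    (fun k => (P : V →ₗ[ℝ] V) ∘ₗ ((lin M (g k) : V ≃ₗ[ℝ] V) : V →ₗ[ℝ] V) - (P : V →ₗ[ℝ] V))
    (fun v _ => by
      have h1 : Tendsto (fun k => P (lin M (g k) v) - P v) atTop (𝓝 (P v - P v)) :=
        (hl v).sub tendsto_const_nhds
      rw [sub_self] at h1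
      exact h1) ε hε
  filter_upwards [eventually_ge_atTop m0] with k hk v
  have h1 := hm0 k hk (P v) trivial
  have h2 : ‖P (lin M (g k) (P v)) - P (P v)‖ ≤ ε * ‖P v‖ := h1
  rwa [P_lin hP, P_P hP] at h2

theorem inv_P {g : ℕ → G} (hl : ∀ v, Tendsto (fun k => P (lin M (g k) v)) atTop (𝓝 (P v))) :
    ∀ᶠ k in atTop, ∀ w, ‖P (lin M (g k)⁻¹ w)‖ ≤ 2 * ‖P w‖ := by
  filter_upwards [unif_P hP hl (half_pos one_pos)] with k hk w
  have h1 := hk (lin M (g k)⁻¹ w)
  rw [lin_lin_inv] at h1
  have h2 := norm_sub_norm_le (P (lin M (g k)⁻¹ w)) (P w)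
  rw [norm_sub_rev] at h2
  linarith

include hinc

theorem comm_small [ConnectedSpace Y]
    (hcomm : ∀ (g h : G) (v : V), lin M g (lin M h v) = lin M h (lin M g v))
    {g : ℕ → G} {y0 : Y} (hn : ∀ k, Nr M (g k) y0)
    (hx : Tendsto (fun k => P (xg M (g k) y0)) atTop (𝓝 0))
    (hl : ∀ v, Tendsto (fun k => P (lin M (g k) v)) atTop (𝓝 (P v))) (h : G) (y : Y) :
    ∀ᶠ k in atTop, P (xg M (h⁻¹ * (g k)⁻¹ * h * g k) y) = 0 := by
  obtain ⟨hny, hxy⟩ := nr_all hP hinc hn hx hl y
  obtain ⟨hnq, hxq⟩ := nr_all hP hinc hn hx hl (h • y)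
  set q := h • y with hq
  set x : ℕ → V := fun k => xg M (g k) y with hxdef
  set x' : ℕ → V := fun k => xg M (g k) q with hxdef'
  set u : ℕ → V := fun k => lin M h (x k) with hu
  have hPu : Tendsto (fun k => P (u k)) atTop (𝓝 0) := tendsto_P_lin hP hxy h
  set e : ℕ → V := fun k => lin M (g k)⁻¹ (u k - x' k) with he
  have hPe : Tendsto (fun k => P (e k)) atTop (𝓝 0) := by
    have h1 : Tendsto (fun k => 2 * ‖P (u k - x' k)‖) atTop (𝓝 0) := by
      have h2 : Tendsto (fun k => P (u k) - P (x' k)) atTop (𝓝 (0 - 0)) := hPu.sub hxq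
      rw [sub_zero] at h2
      have h3 := (h2.norm).const_mul 2
      rw [norm_zero, mul_zero] at h3
      exact h3.congr fun k => by rw [map_sub]
    refine squeeze_zero_norm' ?_ h1
    filter_upwards [inv_P hP hl] with k hk
    exact hk _
  set f : ℕ → V := fun k => lin M h⁻¹ (e k) with hf
  have hPf : Tendsto (fun k => P (f k)) atTop (𝓝 0) := tendsto_P_lin hP hPe h⁻¹
  set c : ℕ → G := fun k => h⁻¹ * (g k)⁻¹ * h * g k with hc
  have hlt : ∀ {w : ℕ → V} (p : Y), Tendsto (fun k => P (w k)) atTop (𝓝 0) →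
      ∀ᶠ k in atTop, ‖P (w k)‖ < rr M P p := by
    intro w p hw
    have h1 : Tendsto (fun k => ‖P (w k)‖) atTop (𝓝 0) := by simpa using hw.norm
    exact h1.eventually (gt_mem_nhds (rr_pos hP hinc p))
  have hev : ∀ᶠ k in atTop, Nr M (c k) y ∧ xg M (c k) y = f k := by
    filter_upwards [hny, hnq, hlt q hxq, hlt q hPe, hlt q hPu, hlt y hPf] with k k1 k2 k3 k4 k5 k6
    have e1 : lin M (g k) (e k) = u k - x' k := by rw [he]; exact lin_lin_inv M _ _
    have m1 := mem_E_of_lt hP k4
    have e2 : g k • mv M.dev q (e k) = mv M.dev q (u k) := by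
      rw [← mv_smul M (g k) m1, e1, k2.2]
      exact (slab_tri hP hinc k3 k5).2
    have e3 : (g k)⁻¹ • mv M.dev q (u k) = mv M.dev q (e k) := by
      rw [← e2, inv_smul_smul]
    have e4 : c k • y = mv M.dev y (f k) := by
      rw [hc]
      simp only
      rw [mul_smul, mul_smul, mul_smul, k1.2, ← mv_smul M h k1.1, e3, ← mv_smul M h⁻¹ m1, hq,
        inv_smul_smul]
    have e5 : xg M (c k) y = f k := by
      unfold xg
      rw [e4, dev_mv M.dev_local (mem_E_of_lt hP k6)]
      abel
    exact ⟨⟨by rw [e5]; exact mem_E_of_lt hP k6, by rw [e4, e5]⟩, e5⟩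
  obtain ⟨N, hN⟩ := eventually_atTop.1 hev
  have h1 := no_small_transl hP hinc (g := fun k => c (k + N)) (y0 := y)
    (fun k v => comm_lin hcomm (g (k + N)) h v) (fun k => (hN (k + N) (by omega)).1)
    (by
      have h2 := hPf.comp (tendsto_add_atTop_nat N)
      refine h2.congr fun k => ?_
      show P (f (k + N)) = _
      rw [(hN (k + N) (by omega)).2])
  obtain ⟨N', hN'⟩ := eventually_atTop.1 h1
  filter_upwards [eventually_ge_atTop (N' + N)] with k hk
  have h2 := hN' (k - N) (by omega)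
  have e1 : k - N + N = k := by omega
  simp only [e1] at h2
  exact h2

/-- commutation of the affine holonomy modulo the complete directions -/
theorem comm_hol [ConnectedSpace Y]
    (hcomm : ∀ (g h : G) (v : V), lin M g (lin M h v) = lin M h (lin M g v))
    {g : ℕ → G} {y0 : Y} (hn : ∀ k, Nr M (g k) y0)
    (hx : Tendsto (fun k => P (xg M (g k) y0)) atTop (𝓝 0))
    (hl : ∀ v, Tendsto (fun k => P (lin M (g k) v)) atTop (𝓝 (P v))) (h : G) :
    ∀ᶠ k in atTop, ∀ z, P (M.hol h (M.hol (g k) z)) = P (M.hol (g k) (M.hol h z)) := by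
  filter_upwards [comm_small hP hinc hcomm hn hx hl h y0] with k hk z
  set c := h⁻¹ * (g k)⁻¹ * h * g k with hc
  have e1 : g k * (h * c) = h * g k := by rw [hc]; group
  rw [← M.hol_mul, ← e1, M.hol_mul, M.hol_mul, hol_of_lin (comm_lin hcomm (g k) h) y0 z,
    hol_add_vec, hol_add_vec, map_add, P_Cd hP (P_Cd hP hk h) (g k), add_zero]

omit hinc in
/-- the points which are eventually fixed modulo the complete directions form everything, if the
sequence commutes asymptotically with every element -/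
theorem all_fixed_of [ConnectedSpace Y] (hfix : ∃ h : G, ∀ v, P (lin M h v) = P v → P v = 0)
    {g : ℕ → G} (hch : ∀ h : G, ∀ᶠ k in atTop, ∀ z,
      P (M.hol h (M.hol (g k) z)) = P (M.hol (g k) (M.hol h z))) (z : V) :
    ∀ᶠ k in atTop, P (M.hol (g k) z) = P z := by
  set F : Set V := {z | ∀ᶠ k in atTop, P (M.hol (g k) z) = P z} with hF
  have hPhol : ∀ (a : G) (z w : V), P (M.hol a z) - P (M.hol a w) = P (lin M a (z - w)) := by
    intro a z w
    rw [← map_sub, hol_sub]
  have hinv : M.Invariant F := by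
    intro h z hz
    filter_upwards [hch h, hz] with k hk hk'
    rw [← hk z]
    have h1 := hPhol h (M.hol (g k) z) z
    rw [P_Cd hP (by rw [map_sub, hk', sub_self]) h, sub_eq_zero] at h1
    exact h1
  have hconv : Convex ℝ F := by
    intro z hz w hw a b ha hb hab
    have ha' : a = 1 - b := by linarith
    filter_upwards [hz, hw] with k hk hk'
    have e1 : a • z + b • w - z = b • (w - z) := by rw [ha']; module
    have h1 := hPhol (g k) (a • z + b • w) z
    have h2 := hPhol (g k) w z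
    rw [e1, lin_smul, map_smul, ← h2, hk, hk'] at h1
    have h3 : P (M.hol (g k) (a • z + b • w)) = b • (P w - P z) + P z := by
      rw [← h1]; abel
    rw [h3, map_add, map_smul, map_smul, ha']
    module
  have hne : F.Nonempty := by
    obtain ⟨h, hh⟩ := hfix
    -- a fixed point of `h` modulo the complete directions
    set A : V →ₗ[ℝ] V := (P : V →ₗ[ℝ] V) ∘ₗ ((lin M h : V ≃ₗ[ℝ] V) : V →ₗ[ℝ] V) -
      (P : V →ₗ[ℝ] V) + (LinearMap.id - (P : V →ₗ[ℝ] V)) with hA
    have hAv : ∀ v, A v = P (lin M h v) - P v + (v - P v) := fun v => rfl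
    have hPA : ∀ v, P (A v) = P (lin M h v) - P v := by
      intro v
      rw [hAv, map_add, map_sub, map_sub, P_P hP, P_P hP, sub_self, add_zero]
    have hinj : Function.Injective A := by
      rw [injective_iff_map_eq_zero]
      intro v hv
      have h1 := hPA v
      rw [hv, map_zero] at h1
      have h2 : P (lin M h v) = P v := (sub_eq_zero.1 h1.symm)
      have h3 := hh v h2
      have h4 := hAv v
      rw [hv, h2, h3, sub_self, zero_add, sub_zero] at h4
      exact h4.symm
    obtain ⟨z0, hz0⟩ := (LinearMap.injective_iff_surjective.1 hinj) (-(P (M.hol h 0)))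
    have hz1 : P (M.hol h z0) = P z0 := by
      have h1 := hPA z0
      rw [hz0, map_neg, P_P hP] at h1
      have h2 := hPhol h z0 0
      rw [sub_zero] at h2
      have h3 : P (M.hol h z0) = P (lin M h z0) + P (M.hol h 0) := by rw [← h2]; abel
      rw [h3]
      have h4 : P (lin M h z0) = -P (M.hol h 0) + P z0 := by rw [h1]; abel
      rw [h4]; abel
    refine ⟨z0, ?_⟩
    filter_upwards [hch h] with k hk
    have h1 := hk z0
    have h2 := hPhol (g k) (M.hol h z0) z0
    rw [P_Cd hP (by rw [map_sub, hz1, sub_self]) (g k), sub_eq_zero, ← h1] at h2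
    have h3 := hPhol h (M.hol (g k) z0) z0
    rw [h2, hz1] at h3
    have h4 := hh (M.hol (g k) z0 - z0) (by rw [← h3, map_sub])
    rwa [map_sub, sub_eq_zero] at h4
  obtain ⟨c, hc⟩ := hne
  have hstar : StarConvex ℝ c F := hconv hc
  obtain ⟨y⟩ := (inferInstance : Nonempty Y)
  have huniv := Pool.Agent.Results.MP_df2bd8_gt.NoInvariantStarShaped.result M F hinv c hc hstar
  have : z ∈ F := by rw [huniv]; trivial
  exact this

omit hP hinc in
/-- from the points to the element -/
theorem triv_of_fixed {g : ℕ → G} (h1 : ∀ z, ∀ᶠ k in atTop, P (M.hol (g k) z) = P z) (y0 : Y) :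
    ∀ᶠ k in atTop, P (xg M (g k) y0) = 0 ∧ ∀ v, P (lin M (g k) v) = P v := by
  set b := Module.finBasis ℝ V with hb
  have h2 : ∀ᶠ k in atTop, ∀ i, P (M.hol (g k) (b i)) = P (b i) :=
    eventually_all.2 fun i => h1 (b i)
  filter_upwards [h1 0, h2, h1 (M.dev y0)] with k k0 k1 k2
  constructor
  · unfold xg
    rw [M.dev_smul, map_sub, k2, sub_self]
  · intro v
    have h3 : (P : V →ₗ[ℝ] V) ∘ₗ ((lin M (g k) : V ≃ₗ[ℝ] V) : V →ₗ[ℝ] V) =
        (P : V →ₗ[ℝ] V) := by
      refine b.ext fun i => ?_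
      show P (lin M (g k) (b i)) = P (b i)
      have h4 : M.hol (g k) (b i) = M.hol (g k) 0 + lin M (g k) (b i) := by
        rw [← hol_add_vec, zero_add]
      have h5 := k1 i
      rw [h4, map_add, k0, map_zero, zero_add] at h5
      exact h5
    exact LinearMap.congr_fun h3 v

/-- **Discreteness modulo the complete directions** for commuting linear parts, any rank. -/
theorem disc [ConnectedSpace Y]
    (hcomm : ∀ (g h : G) (v : V), lin M g (lin M h v) = lin M h (lin M g v))
    (hfix : ∃ h : G, ∀ v, P (lin M h v) = P v → P v = 0)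
    {g : ℕ → G} {y0 : Y} (hn : ∀ k, Nr M (g k) y0)
    (hx : Tendsto (fun k => P (xg M (g k) y0)) atTop (𝓝 0))
    (hl : ∀ v, Tendsto (fun k => P (lin M (g k) v)) atTop (𝓝 (P v))) :
    ∀ᶠ k in atTop, P (xg M (g k) y0) = 0 ∧ ∀ v, P (lin M (g k) v) = P v :=
  triv_of_fixed (all_fixed_of hP hfix (comm_hol hP hinc hcomm hn hx hl)) y0

/-- the same in terms of a threshold -/
theorem disc_eps [ConnectedSpace Y]
    (hcomm : ∀ (g h : G) (v : V), lin M g (lin M h v) = lin M h (lin M g v))
    (hfix : ∃ h : G, ∀ v, P (lin M h v) = P v → P v = 0) (y0 : Y) :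
    ∃ ε : ℝ, 0 < ε ∧ ∀ g : G, Nr M g y0 → ‖P (xg M g y0)‖ < ε →
      (∀ v, ‖P (lin M g v) - P v‖ ≤ ε * ‖v‖) →
      P (xg M g y0) = 0 ∧ ∀ v, P (lin M g v) = P v := by
  by_contra hcon
  push Not at hcon
  have hpos : ∀ k : ℕ, (0 : ℝ) < 1 / ((k : ℝ) + 1) := fun k => by positivity
  choose g h1 h2 h3 h4 using fun k : ℕ => hcon (1 / ((k : ℝ) + 1)) (hpos k)
  have hlim : Tendsto (fun k : ℕ => 1 / ((k : ℝ) + 1)) atTop (𝓝 0) :=
    tendsto_one_div_add_atTop_nhds_zero_nat
  have h5 := disc hP hinc hcomm hfix (g := g) (y0 := y0) h1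
    (squeeze_zero_norm (fun k => (h2 k).le) hlim)
    (fun v => by
      have h6 : Tendsto (fun k => P (lin M (g k) v) - P v) atTop (𝓝 0) := by
        refine squeeze_zero_norm (fun k => h3 k v) ?_
        have := hlim.mul_const ‖v‖
        rwa [zero_mul] at this
      have h7 := h6.add_const (P v)
      simpa using h7)
  obtain ⟨k, hk⟩ := h5.exists
  obtain ⟨v, hv⟩ := h4 k hk.1
  exact hv (hk.2 v)

end Pool.Agent.CYC
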