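import Mathlib

/-!
# Bounded linear groups are orthogonal; comparison of the displacement with the trace

Only Mathlib.  A bounded representation `ρ : G →* Matrix (Fin n) (Fin n) ℝ` preserves a positive
definite form: on the compact convex invariant set `K` of forms we take the infimum of
`F X = sup_g |ρ(g)ᵀ X ρ(g)|²`; by the parallelogram law a minimising sequence is almost invariant.
-/

set_option autoImplicit false
set_option linter.unusedSectionVars false

namespace Pool.Agent.CYC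

open Matrix Filter Topology
open scoped MatrixOrder ComplexOrder

section matrix

variable {n : ℕ} {G : Type*} [Group G]

/-- the square of the Hilbert–Schmidt norm -/
def hsn (X : Matrix (Fin n) (Fin n) ℝ) : ℝ := ∑ i, ∑ j, X i j ^ 2

theorem hsn_nonneg (X : Matrix (Fin n) (Fin n) ℝ) : 0 ≤ hsn X :=
  Finset.sum_nonneg fun _ _ => Finset.sum_nonneg fun _ _ => sq_nonneg _

theorem hsn_eq_zero {X : Matrix (Fin n) (Fin n) ℝ} (h : hsn X ≤ 0) : X = 0 := by
  have h0 : hsn X = 0 := le_antisymm h (hsn_nonneg X)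
  ext i j
  have h1 := (Finset.sum_eq_zero_iff_of_nonneg
    (fun i _ => Finset.sum_nonneg fun j _ => sq_nonneg (X i j))).1 h0 i (Finset.mem_univ i)
  have h2 := (Finset.sum_eq_zero_iff_of_nonneg (fun j _ => sq_nonneg (X i j))).1 h1 j
    (Finset.mem_univ j)
  simpa using h2

theorem hsn_le {X : Matrix (Fin n) (Fin n) ℝ} {C : ℝ} (hX : ∀ i j, |X i j| ≤ C) :
    hsn X ≤ n * (n * C ^ 2) := by
  have : hsn X ≤ ∑ _i : Fin n, ∑ _j : Fin n, C ^ 2 := by
    refine Finset.sum_le_sum fun i _ => Finset.sum_le_sum fun j _ => ?_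
    rw [← sq_abs]
    exact pow_le_pow_left₀ (abs_nonneg _) (hX i j) 2
  simpa using this

theorem abs_le_hsn (X : Matrix (Fin n) (Fin n) ℝ) (i j : Fin n) : |X i j| ≤ Real.sqrt (hsn X) := by
  rw [← Real.sqrt_sq_eq_abs]
  apply Real.sqrt_le_sqrt
  have h1 : X i j ^ 2 ≤ ∑ j, X i j ^ 2 :=
    Finset.single_le_sum (f := fun j => X i j ^ 2) (fun j _ => sq_nonneg _) (Finset.mem_univ j)
  have h2 : ∑ j, X i j ^ 2 ≤ hsn X :=
    Finset.single_le_sum (f := fun i => ∑ j, X i j ^ 2)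
      (fun i _ => Finset.sum_nonneg fun j _ => sq_nonneg _) (Finset.mem_univ i)
  exact h1.trans h2

/-- the action on forms -/
def act (A X : Matrix (Fin n) (Fin n) ℝ) : Matrix (Fin n) (Fin n) ℝ := Aᵀ * X * A

theorem act_apply (A X : Matrix (Fin n) (Fin n) ℝ) (i j : Fin n) :
    act A X i j = ∑ l, (∑ k, A k i * X k l) * A l j := by
  simp only [act, Matrix.mul_apply, Matrix.transpose_apply]

theorem act_abs {A X : Matrix (Fin n) (Fin n) ℝ} {C D : ℝ} (hA : ∀ i j, |A i j| ≤ C)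
    (hX : ∀ i j, |X i j| ≤ D) (i j : Fin n) : |act A X i j| ≤ n * (n * (C * D)) * C := by
  have hC : 0 ≤ C := (abs_nonneg _).trans (hA i i)
  have hD : 0 ≤ D := (abs_nonneg _).trans (hX i i)
  rw [act_apply]
  calc |∑ l, (∑ k, A k i * X k l) * A l j| ≤ ∑ l, |(∑ k, A k i * X k l) * A l j| :=
        Finset.abs_sum_le_sum_abs _ _
    _ ≤ ∑ _l : Fin n, (n * (C * D)) * C := by
        refine Finset.sum_le_sum fun l _ => ?_
        rw [abs_mul]
        refine mul_le_mul ?_ (hA l j) (abs_nonneg _) (by positivity)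
        calc |∑ k, A k i * X k l| ≤ ∑ k, |A k i * X k l| := Finset.abs_sum_le_sum_abs _ _
          _ ≤ ∑ _k : Fin n, C * D := by
              refine Finset.sum_le_sum fun k _ => ?_
              rw [abs_mul]
              exact mul_le_mul (hA k i) (hX k l) (abs_nonneg _) hC
          _ = n * (C * D) := by simp
    _ = n * (n * (C * D)) * C := by simp; ring

theorem act_mul (A B X : Matrix (Fin n) (Fin n) ℝ) : act B (act A X) = act (A * B) X := by
  simp only [act, Matrix.transpose_mul, Matrix.mul_assoc]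

theorem act_one (X : Matrix (Fin n) (Fin n) ℝ) : act 1 X = X := by
  simp [act]

theorem act_add (A X Y : Matrix (Fin n) (Fin n) ℝ) : act A (X + Y) = act A X + act A Y := by
  simp [act, Matrix.mul_add, Matrix.add_mul]

theorem act_sub (A X Y : Matrix (Fin n) (Fin n) ℝ) : act A (X - Y) = act A X - act A Y := by
  simp [act, Matrix.mul_sub, Matrix.sub_mul]

theorem act_smul (A X : Matrix (Fin n) (Fin n) ℝ) (c : ℝ) : act A (c • X) = c • act A X := by
  simp [act]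

theorem hsn_par (X Y : Matrix (Fin n) (Fin n) ℝ) :
    hsn ((1 / 2 : ℝ) • (X + Y)) = (hsn X + hsn Y) / 2 - hsn (X - Y) / 4 := by
  simp only [hsn, Matrix.smul_apply, Matrix.add_apply, Matrix.sub_apply, smul_eq_mul]
  rw [← Finset.sum_add_distrib, Finset.sum_div, Finset.sum_div, ← Finset.sum_sub_distrib]
  refine Finset.sum_congr rfl fun i _ => ?_
  rw [← Finset.sum_add_distrib, Finset.sum_div, Finset.sum_div, ← Finset.sum_sub_distrib]
  refine Finset.sum_congr rfl fun j _ => ?_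
  ring

theorem continuous_hsn : Continuous (hsn : Matrix (Fin n) (Fin n) ℝ → ℝ) := by
  unfold hsn
  refine continuous_finsetSum _ fun i _ => continuous_finsetSum _ fun j _ => ?_
  exact (continuous_id.matrix_elem i j).pow 2

theorem continuous_act (A : Matrix (Fin n) (Fin n) ℝ) : Continuous (act A) := by
  unfold act
  fun_prop

/-- **bounded representations preserve a positive definite form** -/
theorem exists_form (ρ : G →* Matrix (Fin n) (Fin n) ℝ) (C : ℝ)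
    (hC : ∀ g i j, |ρ g i j| ≤ C) :
    ∃ P : Matrix (Fin n) (Fin n) ℝ, P.PosDef ∧ ∀ g, act (ρ g) P = P := by
  classical
  rcases Nat.eq_zero_or_pos n with hn | hn
  · subst hn
    exact ⟨1, Matrix.PosDef.one, fun g => Subsingleton.elim _ _⟩
  have hC0 : 0 ≤ C := (abs_nonneg _).trans (hC 1 ⟨0, hn⟩ ⟨0, hn⟩)
  -- uniform bounds
  set D : ℝ := n * (n * (n * (n * C) * C) ^ 2) + 1 with hD
  have hDpos : 0 < D := by positivity
  have hact : ∀ g X, hsn (act (ρ g) X) ≤ D * hsn X := by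
    intro g X
    have h1 := hsn_le (act_abs (hC g) (abs_le_hsn X))
    have h2 : (n : ℝ) * (n * ((n * (n * (C * Real.sqrt (hsn X))) * C)) ^ 2)
        = (n * (n * (n * (n * C) * C) ^ 2)) * Real.sqrt (hsn X) ^ 2 := by ring
    rw [h2, Real.sq_sqrt (hsn_nonneg X)] at h1
    have h3 := hsn_nonneg X
    rw [hD]
    linarith
  have hact' : ∀ g X, hsn X ≤ D * hsn (act (ρ g) X) := by
    intro g X
    have h1 := hact g⁻¹ (act (ρ g) X)
    rwa [act_mul, ← map_mul, mul_inv_cancel, map_one, act_one] at h1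
  -- the functional
  set F : Matrix (Fin n) (Fin n) ℝ → ℝ := fun X => ⨆ g, hsn (act (ρ g) X) with hF
  have hbdd : ∀ X, BddAbove (Set.range fun g => hsn (act (ρ g) X)) := by
    intro X
    exact ⟨D * hsn X, by rintro _ ⟨g, rfl⟩; exact hact g X⟩
  have hle : ∀ X g, hsn (act (ρ g) X) ≤ F X := fun X g => le_ciSup (hbdd X) g
  have hF0 : ∀ X, 0 ≤ F X := fun X => (hsn_nonneg _).trans (hle X 1)
  have hinv : ∀ h X, F (act (ρ h) X) = F X := by
    intro h X
    apply le_antisymm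
    · refine ciSup_le fun g => ?_
      rw [act_mul, ← map_mul]
      exact hle X (h * g)
    · refine ciSup_le fun g => ?_
      have := hle (act (ρ h) X) (h⁻¹ * g)
      rwa [act_mul, ← map_mul, mul_inv_cancel_left] at this
  have hconv : ∀ X Y, F ((1 / 2 : ℝ) • (X + Y)) ≤ (F X + F Y) / 2 - hsn (X - Y) / (4 * D) := by
    intro X Y
    refine ciSup_le fun g => ?_
    rw [act_smul, act_add, hsn_par, ← act_sub]
    have h1 := hle X g
    have h2 := hle Y g
    have h3 := hact' g (X - Y)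
    have h4 : hsn (X - Y) / (4 * D) ≤ hsn (act (ρ g) (X - Y)) / 4 := by
      rw [div_le_div_iff₀ (by positivity) (by norm_num)]
      nlinarith
    linarith
  -- the invariant compact convex set
  obtain ⟨c₀, hc₀, hc₀'⟩ : ∃ c₀ : ℝ, 0 < c₀ ∧
      ∀ g (v : Fin n → ℝ), c₀ * (v ⬝ᵥ v) ≤ v ⬝ᵥ (act (ρ g) 1 *ᵥ v) := by
    have key : ∀ g (v : Fin n → ℝ), (ρ g *ᵥ v) ⬝ᵥ (ρ g *ᵥ v) ≤ (n * (n * C ^ 2) + 1) * (v ⬝ᵥ v) := by
      intro g v
      have hvv : 0 ≤ v ⬝ᵥ v := by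
        simp only [dotProduct]
        exact Finset.sum_nonneg fun i _ => mul_self_nonneg _
      have h1 : ∀ i, (ρ g *ᵥ v) i * (ρ g *ᵥ v) i ≤ (n * C ^ 2) * (v ⬝ᵥ v) := by
        intro i
        have h2 := Finset.sum_mul_sq_le_sq_mul_sq Finset.univ (fun j => ρ g i j) v
        have h3 : ∑ j, ρ g i j ^ 2 ≤ n * C ^ 2 := by
          have : ∑ j, ρ g i j ^ 2 ≤ ∑ _j : Fin n, C ^ 2 := by
            refine Finset.sum_le_sum fun j _ => ?_
            rw [← sq_abs]
            exact pow_le_pow_left₀ (abs_nonneg _) (hC g i j) 2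
          simpa using this
        have h4 : v ⬝ᵥ v = ∑ j, v j ^ 2 := by
          simp only [dotProduct]
          exact Finset.sum_congr rfl fun j _ => by ring
        have h5 : (ρ g *ᵥ v) i = ∑ j, ρ g i j * v j := rfl
        rw [h5, ← sq, h4]
        refine h2.trans (mul_le_mul_of_nonneg_right h3 ?_)
        exact Finset.sum_nonneg fun j _ => sq_nonneg _
      calc (ρ g *ᵥ v) ⬝ᵥ (ρ g *ᵥ v) = ∑ i, (ρ g *ᵥ v) i * (ρ g *ᵥ v) i := rfl
        _ ≤ ∑ _i : Fin n, (n * C ^ 2) * (v ⬝ᵥ v) := Finset.sum_le_sum fun i _ => h1 i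
        _ = (n * (n * C ^ 2)) * (v ⬝ᵥ v) := by simp; ring
        _ ≤ (n * (n * C ^ 2) + 1) * (v ⬝ᵥ v) := by linarith
    have hpos : (0 : ℝ) < n * (n * C ^ 2) + 1 := by positivity
    refine ⟨1 / (n * (n * C ^ 2) + 1), by positivity, fun g v => ?_⟩
    have h1 := key g⁻¹ (ρ g *ᵥ v)
    rw [Matrix.mulVec_mulVec, ← map_mul, inv_mul_cancel, map_one, Matrix.one_mulVec] at h1
    have h2 : v ⬝ᵥ (act (ρ g) 1 *ᵥ v) = (ρ g *ᵥ v) ⬝ᵥ (ρ g *ᵥ v) := by
      rw [act, Matrix.mul_one, ← Matrix.mulVec_mulVec, Matrix.dotProduct_mulVec,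
        Matrix.vecMul_transpose]
    rw [h2, div_mul_eq_mul_div, div_le_iff₀ hpos]
    linarith
  set C₁ : ℝ := n * (n * (C * 1)) * C with hC₁
  set K : Set (Matrix (Fin n) (Fin n) ℝ) := {X | Xᵀ = X ∧ (∀ g i j, |act (ρ g) X i j| ≤ C₁) ∧
    ∀ g (v : Fin n → ℝ), c₀ * (v ⬝ᵥ v) ≤ v ⬝ᵥ (act (ρ g) X *ᵥ v)} with hK
  have hK1 : (1 : Matrix (Fin n) (Fin n) ℝ) ∈ K := by
    refine ⟨Matrix.transpose_one, fun g i j => ?_, hc₀'⟩
    refine act_abs (hC g) (fun i j => ?_) i j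
    rw [Matrix.one_apply]
    split_ifs <;> simp
  have hKinv : ∀ h, ∀ X ∈ K, act (ρ h) X ∈ K := by
    intro h X hX
    refine ⟨?_, fun g i j => ?_, fun g v => ?_⟩
    · simp only [act, Matrix.transpose_mul, Matrix.transpose_transpose, hX.1, Matrix.mul_assoc]
    · rw [act_mul, ← map_mul]
      exact hX.2.1 _ i j
    · rw [act_mul, ← map_mul]
      exact hX.2.2 _ v
  have hKmid : ∀ X ∈ K, ∀ Y ∈ K, (1 / 2 : ℝ) • (X + Y) ∈ K := by
    intro X hX Y hY
    refine ⟨?_, fun g i j => ?_, fun g v => ?_⟩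
    · rw [Matrix.transpose_smul, Matrix.transpose_add, hX.1, hY.1]
    · rw [act_smul, act_add, Matrix.smul_apply, Matrix.add_apply, smul_eq_mul, abs_mul]
      have h1 := hX.2.1 g i j
      have h2 := hY.2.1 g i j
      have h3 := abs_add_le (act (ρ g) X i j) (act (ρ g) Y i j)
      rw [abs_of_pos (by norm_num : (0 : ℝ) < 1 / 2)]
      linarith
    · rw [act_smul, act_add, Matrix.smul_mulVec, Matrix.add_mulVec, dotProduct_smul,
        dotProduct_add, smul_eq_mul]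
      have h1 := hX.2.2 g v
      have h2 := hY.2.2 g v
      linarith
  have hKclosed : IsClosed K := by
    have e1 : IsClosed {X : Matrix (Fin n) (Fin n) ℝ | Xᵀ = X} :=
      isClosed_eq (continuous_id.matrix_transpose) continuous_id
    have e2 : IsClosed {X : Matrix (Fin n) (Fin n) ℝ | ∀ g i j, |act (ρ g) X i j| ≤ C₁} := by
      simp only [Set.ofPred_forall]
      refine isClosed_iInter fun g => isClosed_iInter fun i => isClosed_iInter fun j => ?_
      exact isClosed_le (((continuous_act (ρ g)).matrix_elem i j).abs) continuous_const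
    have e3 : IsClosed {X : Matrix (Fin n) (Fin n) ℝ |
        ∀ g (v : Fin n → ℝ), c₀ * (v ⬝ᵥ v) ≤ v ⬝ᵥ (act (ρ g) X *ᵥ v)} := by
      simp only [Set.ofPred_forall]
      refine isClosed_iInter fun g => isClosed_iInter fun v => ?_
      refine isClosed_le continuous_const ?_
      exact continuous_const.dotProduct ((continuous_act (ρ g)).matrix_mulVec continuous_const)
    exact e1.inter (e2.inter e3)
  have hKcomp : IsCompact K := by
    have hbox : IsCompact (Set.pi Set.univ fun _ : Fin n => Set.pi Set.univ fun _ : Fin n =>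
        Set.Icc (-C₁) C₁) :=
      isCompact_univ_pi fun _ => isCompact_univ_pi fun _ => isCompact_Icc
    refine IsCompact.of_isClosed_subset hbox hKclosed fun X hX i _ j _ => ?_
    have := hX.2.1 1 i j
    rw [map_one, act_one] at this
    exact abs_le.1 this
  -- the minimising sequence
  set m : ℝ := sInf (F '' K) with hm
  have hmb : BddBelow (F '' K) := ⟨0, by rintro _ ⟨X, -, rfl⟩; exact hF0 X⟩
  have hmle : ∀ X ∈ K, m ≤ F X := fun X hX => csInf_le hmb ⟨X, hX, rfl⟩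
  have hseq : ∀ k : ℕ, ∃ X ∈ K, F X < m + 1 / ((k : ℝ) + 1) := by
    intro k
    have hlt : sInf (F '' K) < m + 1 / ((k : ℝ) + 1) := by
      rw [← hm]
      have : (0 : ℝ) < 1 / ((k : ℝ) + 1) := by positivity
      linarith
    have hne : (F '' K).Nonempty := ⟨F 1, 1, hK1, rfl⟩
    obtain ⟨_, ⟨X, hX, rfl⟩, hlt'⟩ := exists_lt_of_csInf_lt hne hlt
    exact ⟨X, hX, hlt'⟩
  choose X hXK hXF using hseq
  have : FirstCountableTopology (Matrix (Fin n) (Fin n) ℝ) :=
    inferInstanceAs (FirstCountableTopology (Fin n → Fin n → ℝ))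
  obtain ⟨P, hPK, φ, hφ, hlim⟩ := hKcomp.tendsto_subseq hXK
  refine ⟨P, ?_, fun g => ?_⟩
  · refine Matrix.PosDef.of_dotProduct_mulVec_pos ?_ fun v hv => ?_
    · rw [Matrix.IsHermitian, Matrix.conjTranspose_eq_transpose_of_trivial]
      exact hPK.1
    · have h1 := hPK.2.2 1 v
      rw [map_one, act_one] at h1
      have h2 : 0 < v ⬝ᵥ v := by
        have h3 : 0 ≤ v ⬝ᵥ v := by
          simp only [dotProduct]
          exact Finset.sum_nonneg fun i _ => mul_self_nonneg _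
        rcases h3.lt_or_eq with h | h
        · exact h
        · exact absurd (dotProduct_self_eq_zero.1 h.symm) hv
      have h3 : 0 < c₀ * (v ⬝ᵥ v) := mul_pos hc₀ h2
      simpa using h3.trans_le h1
  · have hlim1 : Tendsto (fun k => hsn (X (φ k) - act (ρ g) (X (φ k)))) atTop
        (𝓝 (hsn (P - act (ρ g) P))) := by
      have hc : Continuous fun Y : Matrix (Fin n) (Fin n) ℝ => hsn (Y - act (ρ g) Y) :=
        continuous_hsn.comp (continuous_id.sub (continuous_act (ρ g)))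
      exact (hc.tendsto P).comp hlim
    have hlim2 : Tendsto (fun k : ℕ => 4 * D * (1 / ((φ k : ℝ) + 1))) atTop (𝓝 (4 * D * 0)) :=
      (tendsto_one_div_add_atTop_nhds_zero_nat.comp hφ.tendsto_atTop).const_mul _
    have hle2 : ∀ k, hsn (X (φ k) - act (ρ g) (X (φ k))) ≤ 4 * D * (1 / ((φ k : ℝ) + 1)) := by
      intro k
      have h1 := hconv (X (φ k)) (act (ρ g) (X (φ k)))
      rw [hinv] at h1
      have h2 := hmle _ (hKmid _ (hXK (φ k)) _ (hKinv g _ (hXK (φ k))))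
      have h3 := hXF (φ k)
      have h4 : hsn (X (φ k) - act (ρ g) (X (φ k))) / (4 * D) ≤ 1 / ((φ k : ℝ) + 1) := by linarith
      rwa [div_le_iff₀ (by positivity), mul_comm] at h4
    have h5 := le_of_tendsto_of_tendsto' hlim1 hlim2 hle2
    rw [mul_zero] at h5
    exact (sub_eq_zero.1 (hsn_eq_zero h5)).symm

end matrix

variable {W : Type*} [NormedAddCommGroup W] [NormedSpace ℝ W] [FiniteDimensional ℝ W]

/-- a bounded group of linear automorphisms preserves a Euclidean norm -/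
theorem exists_euclid (Γ : Subgroup (W ≃ₗ[ℝ] W)) (κ : ℝ)
    (hb : ∀ A ∈ Γ, ∀ v : W, ‖A v‖ ≤ κ * ‖v‖) :
    ∃ e : W ≃L[ℝ] EuclideanSpace ℝ (Fin (Module.finrank ℝ W)),
      ∀ A ∈ Γ, ∀ v : W, ‖e (A v)‖ = ‖e v‖ := by
  classical
  set n := Module.finrank ℝ W with hn
  set b : Module.Basis (Fin n) ℝ W := Module.finBasis ℝ W with hb'
  let ρ : Γ →* Matrix (Fin n) (Fin n) ℝ :=
    { toFun := fun A => LinearMap.toMatrix b b ((A : W ≃ₗ[ℝ] W) : W →ₗ[ℝ] W)
      map_one' := by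
        have : (((1 : Γ) : W ≃ₗ[ℝ] W) : W →ₗ[ℝ] W) = LinearMap.id := by ext; rfl
        rw [this, LinearMap.toMatrix_id]
      map_mul' := fun A B => by
        have : (((A * B : Γ) : W ≃ₗ[ℝ] W) : W →ₗ[ℝ] W)
            = ((A : W ≃ₗ[ℝ] W) : W →ₗ[ℝ] W) ∘ₗ ((B : W ≃ₗ[ℝ] W) : W →ₗ[ℝ] W) := by ext; rfl
        rw [this, LinearMap.toMatrix_comp b b b] }
  -- the coordinates are bounded
  have hbound : ∃ C : ℝ, ∀ (A : Γ) i j, |ρ A i j| ≤ C := by
    set R : W →L[ℝ] (Fin n → ℝ) := b.equivFun.toContinuousLinearEquiv.toContinuousLinearMap with hR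
    refine ⟨‖R‖ * (|κ| * ∑ j, ‖b j‖), fun A i j => ?_⟩
    have h1 : ρ A i j = R ((A : W ≃ₗ[ℝ] W) (b j)) i := by
      change LinearMap.toMatrix b b _ i j = _
      rw [LinearMap.toMatrix_apply]
      rfl
    have h2 : |R ((A : W ≃ₗ[ℝ] W) (b j)) i| ≤ ‖R ((A : W ≃ₗ[ℝ] W) (b j))‖ := by
      rw [← Real.norm_eq_abs]
      exact norm_le_pi_norm _ i
    have h3 := R.le_opNorm ((A : W ≃ₗ[ℝ] W) (b j))
    have h4 := hb A A.2 (b j)
    have h5 : ‖b j‖ ≤ ∑ j, ‖b j‖ :=
      Finset.single_le_sum (f := fun j => ‖b j‖) (fun _ _ => norm_nonneg _) (Finset.mem_univ j)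
    have h6 : κ * ‖b j‖ ≤ |κ| * ∑ j, ‖b j‖ :=
      (mul_le_mul_of_nonneg_right (le_abs_self κ) (norm_nonneg _)).trans
        (mul_le_mul_of_nonneg_left h5 (abs_nonneg κ))
    rw [h1]
    exact h2.trans (h3.trans (mul_le_mul_of_nonneg_left (h4.trans h6) (norm_nonneg _)))
  obtain ⟨C, hC⟩ := hbound
  obtain ⟨P, hP, hPinv⟩ := exists_form ρ C hC
  obtain ⟨y, hy, hPy⟩ := CStarAlgebra.isStrictlyPositive_iff_eq_star_mul_self.mp
    hP.isStrictlyPositive
  -- the square of the norm of `y x` is the form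
  have hnorm : ∀ x : Fin n → ℝ, ‖(WithLp.toLp 2 (y *ᵥ x) : EuclideanSpace ℝ (Fin n))‖ ^ 2
      = x ⬝ᵥ (P *ᵥ x) := by
    intro x
    rw [EuclideanSpace.norm_sq_eq, hPy, Matrix.star_eq_conjTranspose,
      Matrix.conjTranspose_eq_transpose_of_trivial, ← Matrix.mulVec_mulVec,
      Matrix.dotProduct_mulVec, Matrix.vecMul_transpose]
    simp only [dotProduct, Real.norm_eq_abs, sq_abs]
    exact Finset.sum_congr rfl fun i _ => by ring
  let f : W →ₗ[ℝ] EuclideanSpace ℝ (Fin n) :=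
    (WithLp.linearEquiv 2 ℝ (Fin n → ℝ)).symm.toLinearMap ∘ₗ y.mulVecLin ∘ₗ
      b.equivFun.toLinearMap
  have hf : ∀ v, f v = WithLp.toLp 2 (y *ᵥ b.equivFun v) := fun v => rfl
  have hinj : Function.Injective f := by
    rw [← LinearMap.ker_eq_bot, LinearMap.ker_eq_bot']
    intro v hv
    have h1 := hnorm (b.equivFun v)
    rw [← hf, hv, norm_zero, zero_pow two_ne_zero] at h1
    by_contra hne
    have h2 : b.equivFun v ≠ 0 := fun h => hne (b.equivFun.map_eq_zero_iff.1 h)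
    have h3 := hP.dotProduct_mulVec_pos h2
    simp only [star_trivial] at h3
    linarith
  have hfr : Module.finrank ℝ W = Module.finrank ℝ (EuclideanSpace ℝ (Fin n)) := by
    rw [finrank_euclideanSpace_fin]
  have hsurj : Function.Surjective f :=
    (LinearMap.injective_iff_surjective_of_finrank_eq_finrank hfr).1 hinj
  refine ⟨(LinearEquiv.ofBijective f ⟨hinj, hsurj⟩).toContinuousLinearEquiv, fun A hA v => ?_⟩
  change ‖f (A v)‖ = ‖f v‖
  have h1 : b.equivFun (A v) = ρ ⟨A, hA⟩ *ᵥ b.equivFun v := by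
    change b.equivFun (A v) = LinearMap.toMatrix b b (A : W →ₗ[ℝ] W) *ᵥ b.equivFun v
    exact (LinearMap.toMatrix_mulVec_repr b b (A : W →ₗ[ℝ] W) v).symm
  have h2 : ‖f (A v)‖ ^ 2 = ‖f v‖ ^ 2 := by
    rw [hf, hf, hnorm, hnorm, h1]
    have h3 := hPinv ⟨A, hA⟩
    conv_rhs => rw [← h3]
    rw [act, ← Matrix.mulVec_mulVec, ← Matrix.mulVec_mulVec, Matrix.dotProduct_mulVec _ (ρ ⟨A, hA⟩)ᵀ,
      Matrix.vecMul_transpose]
  exact (sq_eq_sq₀ (norm_nonneg _) (norm_nonneg _)).1 h2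

/-- for the elements of a bounded group, `dim - trace` is comparable with the square of the
displacement -/
theorem rot_trace (Γ : Subgroup (W ≃ₗ[ℝ] W)) (κ : ℝ)
    (hb : ∀ A ∈ Γ, ∀ v : W, ‖A v‖ ≤ κ * ‖v‖) :
    ∃ c : ℝ, 0 < c ∧ ∀ A ∈ Γ,
      (∀ v : W, ‖A v - v‖ ^ 2 ≤
        c * (Module.finrank ℝ W - LinearMap.trace ℝ W (A : W →ₗ[ℝ] W)) * ‖v‖ ^ 2) ∧
      (∀ δ : ℝ, (∀ v : W, ‖A v - v‖ ≤ δ * ‖v‖) →
        (Module.finrank ℝ W - LinearMap.trace ℝ W (A : W →ₗ[ℝ] W) : ℝ) ≤ c * δ ^ 2) := by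
  classical
  set n := Module.finrank ℝ W with hn
  obtain ⟨e, he⟩ : ∃ e : W ≃L[ℝ] EuclideanSpace ℝ (Fin n),
      ∀ A ∈ Γ, ∀ v : W, ‖e (A v)‖ = ‖e v‖ := exists_euclid Γ κ hb
  set p : ℝ := ‖(e : W →L[ℝ] EuclideanSpace ℝ (Fin n))‖ with hp
  set q : ℝ := ‖(e.symm : EuclideanSpace ℝ (Fin n) →L[ℝ] W)‖ with hq
  have hp0 : 0 ≤ p := norm_nonneg _
  have hq0 : 0 ≤ q := norm_nonneg _
  have hep : ∀ v, ‖e v‖ ≤ p * ‖v‖ := fun v =>
    (e : W →L[ℝ] EuclideanSpace ℝ (Fin n)).le_opNorm v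
  have heq : ∀ x, ‖e.symm x‖ ≤ q * ‖x‖ := fun x =>
    (e.symm : EuclideanSpace ℝ (Fin n) →L[ℝ] W).le_opNorm x
  -- the trace in the coordinates `e`
  set u := EuclideanSpace.basisFun (Fin n) ℝ with hu
  have hu1 : ∀ i, ‖u i‖ = 1 := fun i => u.orthonormal.1 i
  have htr : ∀ A ∈ Γ, 2 * ((n : ℝ) - LinearMap.trace ℝ W (A : W →ₗ[ℝ] W))
      = ∑ i, ‖e (A (e.symm (u i))) - u i‖ ^ 2 := by
    intro A hA
    have h1 : LinearMap.trace ℝ W (A : W →ₗ[ℝ] W)
        = LinearMap.trace ℝ (EuclideanSpace ℝ (Fin n))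
            (e.toLinearEquiv.conj (A : W →ₗ[ℝ] W)) := by
      rw [LinearMap.trace_conj']
    rw [h1, LinearMap.trace_eq_sum_inner _ u]
    have h2 : ∀ i, ‖e (A (e.symm (u i))) - u i‖ ^ 2
        = 2 - 2 * inner ℝ (u i) (e.toLinearEquiv.conj (A : W →ₗ[ℝ] W) (u i)) := by
      intro i
      have h3 : e.toLinearEquiv.conj (A : W →ₗ[ℝ] W) (u i) = e (A (e.symm (u i))) := rfl
      rw [h3, norm_sub_sq_real, he A hA, e.apply_symm_apply, hu1, real_inner_comm]
      ring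
    rw [Finset.sum_congr rfl fun i _ => h2 i, Finset.sum_sub_distrib, ← Finset.mul_sum]
    simp
    ring
  have hpq0 : 0 ≤ (q * p) ^ 2 := sq_nonneg _
  refine ⟨2 * (q * p) ^ 2 + n * (q * p) ^ 2 + 1, by positivity, fun A hA => ⟨fun v => ?_,
    fun δ hδ => ?_⟩⟩
  · -- the displacement in terms of the trace
    set s : ℝ := ∑ i, ‖e (A (e.symm (u i))) - u i‖ ^ 2 with hs
    have hs0 : 0 ≤ s := Finset.sum_nonneg fun i _ => sq_nonneg _
    have h1 : ∀ x : EuclideanSpace ℝ (Fin n), ‖e (A (e.symm x)) - x‖ ^ 2 ≤ s * ‖x‖ ^ 2 := by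
      intro x
      have h2 : e (A (e.symm x)) - x = ∑ i, inner ℝ (u i) x • (e (A (e.symm (u i))) - u i) := by
        conv_lhs => rw [← u.sum_repr' x]
        simp only [map_sum, map_smul, smul_sub, Finset.sum_sub_distrib]
      have h3 : ‖e (A (e.symm x)) - x‖ ≤ ∑ i, ‖inner ℝ (u i) x‖ * ‖e (A (e.symm (u i))) - u i‖ := by
        rw [h2]
        refine (norm_sum_le _ _).trans (Finset.sum_le_sum fun i _ => ?_)
        rw [norm_smul]
      have h4 := Finset.sum_mul_sq_le_sq_mul_sq Finset.univ (fun i => ‖inner ℝ (u i) x‖)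
        (fun i => ‖e (A (e.symm (u i))) - u i‖)
      rw [u.sum_sq_norm_inner_right x] at h4
      have h5 := pow_le_pow_left₀ (norm_nonneg _) h3 2
      rw [← hs] at h4
      linarith
    have h6 : A v - v = e.symm (e (A (e.symm (e v))) - e v) := by
      rw [map_sub, e.symm_apply_apply, e.symm_apply_apply]
    have h7 : ‖A v - v‖ ≤ q * ‖e (A (e.symm (e v))) - e v‖ := by
      rw [h6]
      exact heq _
    have h8 : ‖A v - v‖ ^ 2 ≤ q ^ 2 * ‖e (A (e.symm (e v))) - e v‖ ^ 2 := by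
      rw [← mul_pow]
      exact pow_le_pow_left₀ (norm_nonneg _) h7 2
    have h9 : ‖e v‖ ^ 2 ≤ p ^ 2 * ‖v‖ ^ 2 := by
      rw [← mul_pow]
      exact pow_le_pow_left₀ (norm_nonneg _) (hep v) 2
    have h10 : ‖A v - v‖ ^ 2 ≤ q ^ 2 * (s * (p ^ 2 * ‖v‖ ^ 2)) :=
      h8.trans (mul_le_mul_of_nonneg_left ((h1 (e v)).trans
        (mul_le_mul_of_nonneg_left h9 hs0)) (sq_nonneg q))
    have h11 := htr A hA
    rw [← hs] at h11
    have h12 : q ^ 2 * (s * (p ^ 2 * ‖v‖ ^ 2)) = 2 * (q * p) ^ 2 *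
        ((n : ℝ) - LinearMap.trace ℝ W (A : W →ₗ[ℝ] W)) * ‖v‖ ^ 2 := by
      rw [← h11]
      ring
    rw [h12] at h10
    refine h10.trans ?_
    have h13 : 0 ≤ (n : ℝ) - LinearMap.trace ℝ W (A : W →ₗ[ℝ] W) := by linarith
    have h14 : 0 ≤ ((n : ℝ) * (q * p) ^ 2 + 1) *
        ((n : ℝ) - LinearMap.trace ℝ W (A : W →ₗ[ℝ] W)) * ‖v‖ ^ 2 := by positivity
    linarith
  · have h1 : ∀ v : W, ‖A v - v‖ ^ 2 ≤ δ ^ 2 * ‖v‖ ^ 2 := by
      intro v
      rw [← mul_pow]
      exact pow_le_pow_left₀ (norm_nonneg _) (hδ v) 2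
    have h2 : ∀ i, ‖e (A (e.symm (u i))) - u i‖ ^ 2 ≤ (q * p) ^ 2 * δ ^ 2 := by
      intro i
      have h3 : e (A (e.symm (u i))) - u i = e (A (e.symm (u i)) - e.symm (u i)) := by
        rw [map_sub, e.apply_symm_apply]
      have h4 : ‖e (A (e.symm (u i)) - e.symm (u i))‖ ^ 2
          ≤ p ^ 2 * ‖A (e.symm (u i)) - e.symm (u i)‖ ^ 2 := by
        rw [← mul_pow]
        exact pow_le_pow_left₀ (norm_nonneg _) (hep _) 2
      have h5 : ‖e.symm (u i)‖ ^ 2 ≤ q ^ 2 := by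
        have := pow_le_pow_left₀ (norm_nonneg _) (heq (u i)) 2
        rwa [hu1, mul_one] at this
      rw [h3]
      calc ‖e (A (e.symm (u i)) - e.symm (u i))‖ ^ 2
          ≤ p ^ 2 * (δ ^ 2 * ‖e.symm (u i)‖ ^ 2) :=
            h4.trans (mul_le_mul_of_nonneg_left (h1 _) (sq_nonneg p))
        _ ≤ p ^ 2 * (δ ^ 2 * q ^ 2) :=
            mul_le_mul_of_nonneg_left (mul_le_mul_of_nonneg_left h5 (sq_nonneg δ)) (sq_nonneg p)
        _ = (q * p) ^ 2 * δ ^ 2 := by ring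
    have h6 : ∑ i, ‖e (A (e.symm (u i))) - u i‖ ^ 2 ≤ n * ((q * p) ^ 2 * δ ^ 2) := by
      have := Finset.sum_le_sum fun i (_ : i ∈ Finset.univ) => h2 i
      simpa using this
    have h7 := htr A hA
    have h8 : 0 ≤ (2 * (q * p) ^ 2 + 1) * δ ^ 2 := by positivity
    have h9 : 0 ≤ (n : ℝ) * ((q * p) ^ 2 * δ ^ 2) := by positivity
    nlinarith

end Pool.Agent.CYC
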