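import Pool.Agent.CYC.Disc2

/-!
# Rank one: bounded levels and recurrence of the leaves of complete directions
-/

set_option autoImplicit false
set_option linter.unusedSectionVars false

open Set Filter Topology

namespace Pool.Agent.CYC

open Pool.Agent.Helper2.MK Pool.Agent.Helper50.HL Pool.Agent.Helper2.RO

variable {V G Y : Type*} [NormedAddCommGroup V] [NormedSpace ℝ V] [FiniteDimensional ℝ V]
  [Group G] [TopologicalSpace Y] [T2Space Y] [MulAction G Y] {M : AffineDeveloping V G Y}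

/-- nearby points are small moves of each other -/
theorem exists_nhd_mv (z : Y) {δ : ℝ} (hδ : 0 < δ) : ∃ U ∈ 𝓝 z, ∀ z1 ∈ U, ∀ z2 ∈ U,
    ∃ e : V, ‖e‖ < δ ∧ e ∈ E M.dev z1 ∧ z2 = mv M.dev z1 e := by
  obtain ⟨r, hr, hball⟩ := exists_radius M.dev_local (isCompact_singleton (x := z))
  have hball := hball z rfl
  have hm : 0 < min r (δ / 2) := lt_min hr (by linarith)
  have h1 := near_convex M.dev_local Metric.isOpen_ball (convex_ball (M.dev z) r)
    (Metric.mem_ball_self hr) hball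
  have h2 : ∀ᶠ y' in 𝓝 z, M.dev y' ∈ Metric.ball (M.dev z) (min r (δ / 2)) :=
    M.dev_local.continuous.continuousAt.eventually_mem
      (Metric.isOpen_ball.mem_nhds (Metric.mem_ball_self hm))
  refine ⟨_, h1.and (h2.and (near M.dev_local z)), ?_⟩
  rintro z1 ⟨⟨a1, b1⟩, c1, -, d1, -⟩ z2 ⟨-, c2, -, d2, -⟩
  have hsub : Metric.ball (M.dev z) (min r (δ / 2)) ⊆ Metric.ball (M.dev z) r :=
    Metric.ball_subset_ball (min_le_left _ _)
  refine ⟨M.dev z2 - M.dev z1, ?_, ?_, ?_⟩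
  · have e1 := (Metric.mem_ball.1 c1).trans_le (min_le_right _ _)
    have e2 := (Metric.mem_ball.1 c2).trans_le (min_le_right _ _)
    rw [← dist_eq_norm]
    have := dist_triangle_right (M.dev z2) (M.dev z1) (M.dev z)
    linarith
  · rw [mem_E, add_sub_cancel]
    exact a1 (hsub c2)
  · unfold mv
    rw [add_sub_cancel, b1 (hsub c2), d2]

variable {P : V →L[ℝ] V} (hP : IsProj M P) (hinc : ∀ y, dom M.dev y ≠ univ)
include hP hinc

/-- **Bounded levels**: the frames along a leaf of complete directions have bounded height. -/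
theorem bounded_levels (Q : Cpt M) {χ : G → ℝ} (hχi : ∀ g, χ g⁻¹ = -χ g)
    (hcP : ∀ ε : ℝ, 0 < ε → ∃ T : ℝ, ∀ g, χ g ≤ -T → ∀ v, ‖P (lin M g v)‖ ≤ ε * ‖P v‖) (y0 : Y) :
    ∃ T0 : ℝ, ∀ c ∈ Cd M.dev M.dev_local, ∀ a : G, ∀ z ∈ Q.K, mv M.dev y0 c = a • z →
      |χ a| ≤ T0 := by
  have hr0 := rr_pos hP hinc y0
  by_cases hne : Q.K.Nonempty
  swap
  · refine ⟨0, fun c _ a z hz => ?_⟩
    exact absurd ⟨z, hz⟩ hne
  obtain ⟨z1, hz1, hmin⟩ := Q.hK.exists_isMinOn hne (rr_cont hP hinc).continuousOn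
  obtain ⟨z2, hz2, hmax⟩ := Q.hK.exists_isMaxOn hne (rr_cont hP hinc).continuousOn
  have h1 := rr_pos hP hinc z1
  have h2 := rr_pos hP hinc z2
  obtain ⟨T1, hT1⟩ := hcP (rr M P y0 / (2 * rr M P z2)) (by positivity)
  obtain ⟨T2, hT2⟩ := hcP (rr M P z1 / (2 * rr M P y0)) (by positivity)
  refine ⟨max T1 T2, fun c hc a z hz haz => ?_⟩
  have e0 : rr M P (a • z) = rr M P y0 := by rw [← haz, rr_Cd hP hinc hc]
  rw [abs_le]
  constructor
  · by_contra hlt
    push Not at hlt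
    have h3 : χ a ≤ -T1 := by
      have := le_max_left T1 T2
      linarith
    have h4 := rr_smul_le hP hinc a z (by positivity) (hT1 a h3)
    rw [e0] at h4
    have h5 : rr M P z ≤ rr M P z2 := hmax hz
    have h6 : rr M P y0 / (2 * rr M P z2) * rr M P z ≤ rr M P y0 / (2 * rr M P z2) * rr M P z2 :=
      mul_le_mul_of_nonneg_left h5 (by positivity)
    have h7 : rr M P y0 / (2 * rr M P z2) * rr M P z2 = rr M P y0 / 2 := by
      field_simp
    linarith
  · by_contra hlt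
    push Not at hlt
    have h3 : χ a⁻¹ ≤ -T2 := by
      rw [hχi]
      have := le_max_right T1 T2
      linarith
    have h4 := rr_smul_le hP hinc a⁻¹ (a • z) (by positivity) (hT2 a⁻¹ h3)
    rw [inv_smul_smul, e0] at h4
    have h5 : rr M P z1 ≤ rr M P z := hmin hz
    have h7 : rr M P z1 / (2 * rr M P y0) * rr M P y0 = rr M P z1 / 2 := by
      field_simp
    linarith

/-- **Recurrence** of the leaves of complete directions. -/
theorem recurrence (Q : Cpt M) {χ : G → ℝ} (hχi : ∀ g, χ g⁻¹ = -χ g)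
    (hb : ∀ T : ℝ, ∃ κ : ℝ, ∀ g, |χ g| ≤ T → ∀ v, ‖lin M g v‖ ≤ κ * ‖v‖)
    (hcP : ∀ ε : ℝ, 0 < ε → ∃ T : ℝ, ∀ g, χ g ≤ -T → ∀ v, ‖P (lin M g v)‖ ≤ ε * ‖P v‖) (y0 : Y)
    {c : ℕ → V} (hc : ∀ j, c j ∈ Cd M.dev M.dev_local) {ε : ℝ} (hε : 0 < ε) :
    ∃ (j j' : ℕ) (g : G) (e : V), j < j' ∧ ‖e‖ < ε ∧ (∀ v, ‖lin M g v - v‖ ≤ ε * ‖v‖) ∧
      e ∈ E M.dev y0 ∧ g • mv M.dev y0 (c j) = mv M.dev y0 (c j' + e) := by
  obtain ⟨T0, hT0⟩ := bounded_levels hP hinc Q hχi hcP y0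
  obtain ⟨κ', hκ'⟩ := hb T0
  set κ := max κ' 1 with hκ
  have hκ0 : 0 < κ := lt_of_lt_of_le one_pos (le_max_right _ _)
  have hκb : ∀ g, |χ g| ≤ T0 → ∀ v, ‖lin M g v‖ ≤ κ * ‖v‖ := fun g hg v =>
    (hκ' g hg v).trans (mul_le_mul_of_nonneg_right (le_max_left _ _) (norm_nonneg _))
  choose a z hz haz using fun j => Q.cover (mv M.dev y0 (c j))
  have hlev : ∀ j, |χ (a j)| ≤ T0 := fun j => hT0 (c j) (hc j) (a j) (z j) (hz j) (haz j)
  have hlevi : ∀ j, |χ (a j)⁻¹| ≤ T0 := fun j => by rw [hχi, abs_neg]; exact hlev j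
  set L : ℕ → (V →L[ℝ] V) := fun j =>
    LinearMap.toContinuousLinearMap ((lin M (a j) : V ≃ₗ[ℝ] V) : V →ₗ[ℝ] V) with hL
  have hLv : ∀ j v, L j v = lin M (a j) v := fun j v => rfl
  have hLn : ∀ j, ‖L j‖ ≤ κ := fun j =>
    ContinuousLinearMap.opNorm_le_bound _ hκ0.le fun v => by rw [hLv]; exact hκb _ (hlev j) v
  have : ProperSpace (V →L[ℝ] V) := FiniteDimensional.proper ℝ _
  have hcomp : IsCompact (Q.K ×ˢ Metric.closedBall (0 : V →L[ℝ] V) κ) :=
    Q.hK.prod (isCompact_closedBall _ _)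
  have hmem : ∀ j, (z j, L j) ∈ Q.K ×ˢ Metric.closedBall (0 : V →L[ℝ] V) κ := fun j =>
    ⟨hz j, by rw [mem_closedBall_zero_iff]; exact hLn j⟩
  obtain ⟨⟨zi, Li⟩, -, hcl⟩ := hcomp.exists_mapClusterPt_of_frequently (l := atTop)
    (f := fun j => (z j, L j)) (Frequently.of_forall hmem)
  set δ := ε / (2 * κ) with hδ
  have hδ0 : 0 < δ := by positivity
  obtain ⟨U, hU, hUp⟩ := exists_nhd_mv (M := M) zi hδ0
  have hW : U ×ˢ Metric.ball Li (δ / 2) ∈ 𝓝 (zi, Li) :=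
    prod_mem_nhds hU (Metric.ball_mem_nhds _ (by linarith))
  have hfreq := hcl.frequently hW
  obtain ⟨j, hj⟩ := hfreq.exists
  obtain ⟨j', hj', hjj'⟩ := (hfreq.and_eventually (eventually_gt_atTop j)).exists
  obtain ⟨hj1, hj2⟩ := hj
  obtain ⟨hj1', hj2'⟩ := hj'
  obtain ⟨e, he, heE, hze⟩ := hUp (z j) hj1 (z j') hj1'
  set e' := lin M (a j') e with he'
  have he'n : ‖e'‖ < ε := by
    have h1 := hκb (a j') (hlev j') e
    have h2 : κ * ‖e‖ < κ * δ := mul_lt_mul_of_pos_left he hκ0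
    have h3 : κ * δ = ε / 2 := by rw [hδ]; field_simp
    linarith
  refine ⟨j, j', a j' * (a j)⁻¹, -e', hjj', by rw [norm_neg]; exact he'n, ?_, ?_, ?_⟩
  · intro v
    rw [lin_mul]
    have h1 : lin M (a j') (lin M (a j)⁻¹ v) - v = (L j' - L j) (lin M (a j)⁻¹ v) := by
      show _ = lin M (a j') (lin M (a j)⁻¹ v) - lin M (a j) (lin M (a j)⁻¹ v)
      rw [lin_lin_inv]
    rw [h1]
    have h2 := (L j' - L j).le_opNorm (lin M (a j)⁻¹ v)
    have h3 : ‖L j' - L j‖ ≤ δ := by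
      have e1 := Metric.mem_ball.1 hj2
      have e2 := Metric.mem_ball.1 hj2'
      rw [← dist_eq_norm]
      have := dist_triangle_right (L j') (L j) Li
      linarith
    have h4 := hκb _ (hlevi j) v
    calc ‖(L j' - L j) (lin M (a j)⁻¹ v)‖ ≤ ‖L j' - L j‖ * ‖lin M (a j)⁻¹ v‖ := h2
      _ ≤ δ * (κ * ‖v‖) := mul_le_mul h3 h4 (norm_nonneg _) hδ0.le
      _ = ε / 2 * ‖v‖ := by rw [hδ]; field_simp
      _ ≤ ε * ‖v‖ := mul_le_mul_of_nonneg_right (by linarith) (norm_nonneg _)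
  · -- `-e'` is visible from `y0`
    rw [← E_mv_Cd M.dev_local (hc j'), haz j', hze, ← mv_smul M (a j') heE]
    have h1 : e' ∈ E M.dev (a j' • z j) := (E_smul M _ _ _).2 heE
    have h2 := (tri M.dev_local (y := a j' • z j) (u := e') (w := -e') ?_).1
    · exact h2
    · intro t ht
      have e1 : e' + t • -e' = (1 - t) • e' := by module
      rw [e1]
      exact smul_mem_E h1 (by linarith [ht.2]) (by linarith [ht.1])
  · have h1 : e' ∈ E M.dev (a j' • z j) := (E_smul M _ _ _).2 heE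
    have h2 := tri M.dev_local (y := a j' • z j) (u := e') (w := -e') (by
      intro t ht
      have e1 : e' + t • -e' = (1 - t) • e' := by module
      rw [e1]
      exact smul_mem_E h1 (by linarith [ht.2]) (by linarith [ht.1]))
    have h3 : mv M.dev (a j' • z j) e' = mv M.dev y0 (c j') := by
      rw [haz j', hze, ← mv_smul M (a j') heE]
    rw [h3, add_neg_cancel, mv_zero M.dev_local] at h2
    have h4 : -e' ∈ E M.dev y0 := by
      rw [← E_mv_Cd M.dev_local (hc j')]; exact h2.1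
    have h5 := (Cd_add M.dev_local h4 (hc j')).2
    rw [haz j, mul_smul, inv_smul_smul, ← h2.2, h5, add_comm]

/-- elements trivial modulo the complete directions have bounded powers -/
theorem bdd_pow_of_triv {χ : G → ℝ} (hχ : ∀ g h, χ (g * h) = χ g + χ h)
    (hb : ∀ T : ℝ, ∃ κ : ℝ, ∀ g, |χ g| ≤ T → ∀ v, ‖lin M g v‖ ≤ κ * ‖v‖)
    (hcP : ∀ ε : ℝ, 0 < ε → ∃ T : ℝ, ∀ g, χ g ≤ -T → ∀ v, ‖P (lin M g v)‖ ≤ ε * ‖P v‖)
    (hPne : ∃ v, P v ≠ 0) {g : G} (hg : ∀ v, P (lin M g v) = P v) :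
    χ g = 0 ∧ ∃ κ : ℝ, ∀ (n : ℕ) (v : V), ‖lin M (g ^ n) v‖ ≤ κ * ‖v‖ := by
  have h1 : χ 1 = 0 := by
    have := hχ 1 1
    rw [mul_one] at this
    linarith
  have hi : ∀ g, χ g⁻¹ = -χ g := fun g => by
    have := hχ g g⁻¹
    rw [mul_inv_cancel, h1] at this
    linarith
  have hpow : ∀ (g : G) (n : ℕ), χ (g ^ n) = n * χ g := by
    intro g n
    induction n with
    | zero => rw [pow_zero, h1, Nat.cast_zero, zero_mul]
    | succ n ih => rw [pow_succ, hχ, ih]; push_cast; ring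
  have key : ∀ g : G, (∀ v, P (lin M g v) = P v) → ¬ χ g < 0 := by
    intro g hg hlt
    obtain ⟨v, hv⟩ := hPne
    obtain ⟨T, hT⟩ := hcP (1 / 2) (by norm_num)
    obtain ⟨n, hn⟩ := exists_nat_gt (T / (-χ g))
    rw [div_lt_iff₀ (by linarith)] at hn
    have h2 := hT (g ^ n) (by rw [hpow]; linarith) v
    have h3 : ∀ n : ℕ, P (lin M (g ^ n) v) = P v := by
      intro n
      induction n with
      | zero => rw [pow_zero, lin_one]
      | succ n ih => rw [pow_succ', lin_mul, hg, ih]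
    rw [h3] at h2
    have := norm_pos_iff.2 hv
    linarith
  have h0 : χ g = 0 := by
    apply le_antisymm
    · by_contra hlt
      push Not at hlt
      refine key g⁻¹ (fun v => ?_) (by rw [hi]; linarith)
      have := hg (lin M g⁻¹ v)
      rw [lin_lin_inv] at this
      exact this.symm
    · exact not_lt.1 (key g hg)
  refine ⟨h0, ?_⟩
  obtain ⟨κ, hκ⟩ := hb 0
  exact ⟨κ, fun n v => hκ _ (by rw [hpow, h0, mul_zero, abs_zero]) v⟩

end Pool.Agent.CYC
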