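import Pool.Agent.CYC.Small
import Pool.Agent.CYC.Euclid
import Pool.Agent.CYC.Rec

/-!
# Discreteness modulo the complete directions without commutativity

`chi` is a homomorphism to the reals such that the linear parts are bounded where `chi` is, and the
elements of very negative height contract modulo the complete directions.
-/

set_option autoImplicit false
set_option linter.unusedSectionVars false

open Set Filter Topology

namespace Pool.Agent.CYC

open Pool.Agent.Helper2.MK Pool.Agent.Helper50.HL Pool.Agent.Helper2.RO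

variable {V G Y : Type*} [NormedAddCommGroup V] [NormedSpace ℝ V] [FiniteDimensional ℝ V]
  [Group G] [TopologicalSpace Y] [T2Space Y] [MulAction G Y] {M : AffineDeveloping V G Y}

/-- `chi` is a homomorphism and the linear holonomy is bounded where `chi` is -/
structure IsHt (M : AffineDeveloping V G Y) (χ : G → ℝ) : Prop where
  hom : ∀ g h, χ (g * h) = χ g + χ h
  bdd : ∀ T : ℝ, ∃ κ : ℝ, ∀ g, |χ g| ≤ T → ∀ v, ‖lin M g v‖ ≤ κ * ‖v‖

theorem IsHt.one {χ : G → ℝ} (h : IsHt M χ) : χ 1 = 0 := by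
  have := h.hom 1 1
  rw [mul_one] at this
  linarith

theorem IsHt.inv {χ : G → ℝ} (h : IsHt M χ) (g : G) : χ g⁻¹ = -χ g := by
  have := h.hom g g⁻¹
  rw [mul_inv_cancel, h.one] at this
  linarith

theorem IsHt.npow {χ : G → ℝ} (h : IsHt M χ) (g : G) (n : ℕ) : χ (g ^ n) = n * χ g := by
  induction n with
  | zero => rw [pow_zero, h.one, Nat.cast_zero, zero_mul]
  | succ n ih => rw [pow_succ, h.hom, ih]; push_cast; ring

theorem IsHt.zpow {χ : G → ℝ} (h : IsHt M χ) (g : G) (n : ℤ) : χ (g ^ n) = n * χ g := by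
  obtain ⟨n, rfl | rfl⟩ := n.eq_nat_or_neg
  · rw [zpow_natCast, h.npow, Int.cast_natCast]
  · rw [zpow_neg, zpow_natCast, h.inv, h.npow]; push_cast; ring

theorem IsHt.neg {χ : G → ℝ} (h : IsHt M χ) : IsHt M fun g => -χ g where
  hom a b := by rw [h.hom]; ring
  bdd T := by
    obtain ⟨κ, hκ⟩ := h.bdd T
    exact ⟨κ, fun g hg v => hκ g (by rwa [abs_neg] at hg) v⟩

variable {P : V →L[ℝ] V} (hP : IsProj M P)

/-- the action on `V` modulo the complete directions, extended by the identity -/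
def hatL (hP : IsProj M P) (g : G) : V ≃ₗ[ℝ] V where
  toFun v := P (lin M g v) + (v - P v)
  map_add' v w := by simp only [map_add]; abel
  map_smul' a v := by simp only [map_smul, RingHom.id_apply]; module
  invFun v := P (lin M g⁻¹ v) + (v - P v)
  left_inv v := by
    have h1 : P (v - P v) = 0 := hP.ker _ (hP.sub_mem v)
    have h2 : P (lin M g⁻¹ (v - P v)) = 0 := P_Cd hP h1 g⁻¹
    have h3 : P (lin M g⁻¹ (P (lin M g v))) = P v := by rw [P_lin hP, lin_inv_lin]
    simp only [map_add]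
    rw [h3, h2, P_P hP, h1]
    abel
  right_inv v := by
    have h1 : P (v - P v) = 0 := hP.ker _ (hP.sub_mem v)
    have h2 : P (lin M g (v - P v)) = 0 := P_Cd hP h1 g
    have h3 : P (lin M g (P (lin M g⁻¹ v))) = P v := by rw [P_lin hP, lin_lin_inv]
    simp only [map_add]
    rw [h3, h2, P_P hP, h1]
    abel

theorem hatL_apply (g : G) (v : V) : hatL hP g v = P (lin M g v) + (v - P v) := rfl

theorem hatL_sub (g : G) (v : V) : hatL hP g v - v = P (lin M g v) - P v := by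
  rw [hatL_apply]; abel

/-- the same as a homomorphism -/
def hatHom (hP : IsProj M P) : G →* (V ≃ₗ[ℝ] V) :=
  MonoidHom.mk' (hatL hP) fun g h => by
    refine LinearEquiv.ext fun v => ?_
    have h1 : P (v - P v) = 0 := hP.ker _ (hP.sub_mem v)
    have h2 : P (lin M g (v - P v)) = 0 := P_Cd hP h1 g
    have h3 : P (lin M g (P (lin M h v))) = P (lin M (g * h) v) := by
      rw [P_lin hP, lin_mul]
    show P (lin M (g * h) v) + (v - P v) = P (lin M g (P (lin M h v) + (v - P v))) +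
      ((P (lin M h v) + (v - P v)) - P (P (lin M h v) + (v - P v)))
    rw [lin_add, map_add, map_add, h3, h2, P_P hP, h1]
    abel

include hP

/-- the rotation function: invariant under conjugation and comparable with the displacement of the
linear part modulo the complete directions -/
theorem exists_rho {χ : G → ℝ} (h : IsHt M χ) :
    ∃ (ρ : G → ℝ) (c : ℝ), 0 < c ∧ (∀ g, 0 ≤ ρ g) ∧ (∀ k g, ρ (k * g * k⁻¹) = ρ g) ∧
      (∀ g, χ g = 0 → ∀ v, ‖P (lin M g v) - P v‖ ≤ ρ g * ‖P v‖) ∧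
      (∀ g, χ g = 0 → ∀ δ : ℝ, 0 ≤ δ → (∀ v, ‖P (lin M g v) - P v‖ ≤ δ * ‖v‖) →
        ρ g ≤ c * δ) := by
  set N : Subgroup G :=
    { carrier := {g | χ g = 0}
      one_mem' := h.one
      mul_mem' := fun {a b} ha hb => by
        have ha' : χ a = 0 := ha
        have hb' : χ b = 0 := hb
        show χ (a * b) = 0
        rw [h.hom, ha', hb', add_zero]
      inv_mem' := fun {a} ha => by
        have ha' : χ a = 0 := ha
        show χ a⁻¹ = 0
        rw [h.inv, ha', neg_zero] } with hN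
  have hNmem : ∀ g, g ∈ N ↔ χ g = 0 := fun g => Iff.rfl
  obtain ⟨κ, hκ⟩ := h.bdd 0
  set Γ : Subgroup (V ≃ₗ[ℝ] V) := N.map (hatHom hP) with hΓ
  have hbΓ : ∀ A ∈ Γ, ∀ v : V, ‖A v‖ ≤ (‖P‖ * κ + (1 + ‖P‖)) * ‖v‖ := by
    rintro _ ⟨g, hg, rfl⟩ v
    have hg' : χ g = 0 := hg
    show ‖P (lin M g v) + (v - P v)‖ ≤ _
    have e1 := hκ g (by rw [hg', abs_zero]) v
    have e2 := P.le_opNorm (lin M g v)
    have e3 := P.le_opNorm v
    have e4 := norm_add_le (P (lin M g v)) (v - P v)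
    have e5 := norm_sub_le v (P v)
    have e6 := mul_le_mul_of_nonneg_left e1 (norm_nonneg P)
    nlinarith
  obtain ⟨c, hc, hrot⟩ := rot_trace Γ _ hbΓ
  set θ : G → ℝ := fun g => Module.finrank ℝ V -
    LinearMap.trace ℝ V ((hatHom hP g : V ≃ₗ[ℝ] V) : V →ₗ[ℝ] V) with hθ
  refine ⟨fun g => √(c * θ g), c, hc, fun g => Real.sqrt_nonneg _, ?_, ?_, ?_⟩
  · intro k g
    have e1 : θ (k * g * k⁻¹) = θ g := by
      rw [hθ]
      simp only
      congr 1
      have e2 : ((hatHom hP (k * g * k⁻¹) : V ≃ₗ[ℝ] V) : V →ₗ[ℝ] V) =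
          (hatHom hP k).conj ((hatHom hP g : V ≃ₗ[ℝ] V) : V →ₗ[ℝ] V) := by
        rw [map_mul, map_mul, map_inv]
        rfl
      rw [e2, LinearMap.trace_conj']
    simp only [e1]
  · intro g hg v
    have e1 := (hrot (hatHom hP g) ⟨g, hg, rfl⟩).1 (P v)
    have e2 : (hatHom hP g) (P v) - P v = P (lin M g v) - P v := by
      have e3 := hatL_sub hP g (P v)
      rw [P_lin hP, P_P hP] at e3
      exact e3
    rw [e2] at e1
    have e4 := Real.sqrt_le_sqrt e1
    rw [Real.sqrt_sq (norm_nonneg _), Real.sqrt_mul' _ (sq_nonneg _),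
      Real.sqrt_sq (norm_nonneg _)] at e4
    exact e4
  · intro g hg δ hδ hd
    have e1 := (hrot (hatHom hP g) ⟨g, hg, rfl⟩).2 δ (fun v => by
      have e3 := hatL_sub hP g v
      have e4 : (hatHom hP g) v - v = P (lin M g v) - P v := e3
      rw [e4]
      exact hd v)
    have e2 : c * θ g ≤ (c * δ) ^ 2 := by
      have e3 : c * θ g ≤ c * (c * δ ^ 2) := mul_le_mul_of_nonneg_left e1 hc.le
      calc c * θ g ≤ c * (c * δ ^ 2) := e3
        _ = (c * δ) ^ 2 := by ring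
    calc √(c * θ g) ≤ √((c * δ) ^ 2) := Real.sqrt_le_sqrt e2
      _ = c * δ := Real.sqrt_sq (by positivity)

variable (hinc : ∀ y, dom M.dev y ≠ univ)

omit hP in
/-- sequences tending to the identity modulo the complete directions -/
structure Tds (M : AffineDeveloping V G Y) (P : V →L[ℝ] V) (y0 : Y) (g : ℕ → G) : Prop where
  nr : ∀ᶠ k in atTop, Nr M (g k) y0
  disp : Tendsto (fun k => P (xg M (g k) y0)) atTop (𝓝 0)
  lpart : ∀ v, Tendsto (fun k => P (lin M (g k) v)) atTop (𝓝 (P v))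

include hinc

/-- change of the base point -/
theorem Tds.change [ConnectedSpace Y] {y0 : Y} {g : ℕ → G} (h : Tds M P y0 g) (y : Y) :
    Tds M P y g := by
  obtain ⟨N, hN⟩ := eventually_atTop.1 h.nr
  have h1 := nr_all hP hinc (g := fun k => g (k + N)) (y0 := y0)
    (fun k => hN (k + N) (by omega)) (h.disp.comp (tendsto_add_atTop_nat N))
    (fun v => (h.lpart v).comp (tendsto_add_atTop_nat N)) y
  refine ⟨?_, ?_, h.lpart⟩
  · obtain ⟨N', hN'⟩ := eventually_atTop.1 h1.1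
    filter_upwards [eventually_ge_atTop (N' + N)] with k hk
    have h2 := hN' (k - N) (by omega)
    have e1 : k - N + N = k := by omega
    simpa only [e1] using h2
  · exact (tendsto_add_atTop_iff_nat N).1 h1.2

/-- conjugation -/
theorem Tds.conj [ConnectedSpace Y] {y0 : Y} {g : ℕ → G} (h : Tds M P y0 g) (k : G) :
    Tds M P y0 (fun n => k * g n * k⁻¹) := by
  have h1 := h.change hP hinc (k⁻¹ • y0)
  have e0 : ∀ n, Nr M (g n) (k⁻¹ • y0) → (k * g n * k⁻¹) • y0 =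
      mv M.dev y0 (lin M k (xg M (g n) (k⁻¹ • y0))) := by
    intro n hn
    rw [mul_smul, mul_smul, hn.2, ← mv_smul M k hn.1, smul_inv_smul]
  have e1 : ∀ n, Nr M (g n) (k⁻¹ • y0) → lin M k (xg M (g n) (k⁻¹ • y0)) ∈ E M.dev y0 := by
    intro n hn
    have := (E_smul M k _ _).2 hn.1
    rwa [smul_inv_smul] at this
  have e2 : ∀ n, Nr M (g n) (k⁻¹ • y0) → xg M (k * g n * k⁻¹) y0 =
      lin M k (xg M (g n) (k⁻¹ • y0)) := by
    intro n hn
    unfold xg
    rw [e0 n hn, dev_mv M.dev_local (e1 n hn)]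
    unfold xg
    abel
  refine ⟨?_, ?_, fun v => ?_⟩
  · filter_upwards [h1.nr] with n hn
    exact ⟨by rw [e2 n hn]; exact e1 n hn, by rw [e2 n hn]; exact e0 n hn⟩
  · refine (tendsto_P_lin hP h1.disp k).congr' ?_
    filter_upwards [h1.nr] with n hn
    rw [e2 n hn]
  · have h2 : Tendsto (fun n => P (lin M (g n) (lin M k⁻¹ v) - lin M k⁻¹ v)) atTop (𝓝 0) := by
      have h3 := (h.lpart (lin M k⁻¹ v)).sub_const (P (lin M k⁻¹ v))
      rw [sub_self] at h3
      exact h3.congr fun n => by rw [map_sub]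
    have h4 := (tendsto_P_lin hP h2 k).add_const (P v)
    rw [zero_add] at h4
    refine h4.congr fun n => ?_
    rw [lin_sub, lin_lin_inv, map_sub, lin_mul, lin_mul]
    abel

/-- elements expanding modulo the complete directions -/
theorem exists_expand {χ : G → ℝ} (h : IsHt M χ) {g0 : G} (h0 : 0 < χ g0)
    (hcP : ∀ ε : ℝ, 0 < ε → ∃ T : ℝ, ∀ g, χ g ≤ -T → ∀ v, ‖P (lin M g v)‖ ≤ ε * ‖P v‖)
    (m : ℕ) : ∃ j : ℕ, ∀ v, ((m : ℝ) + 1) * ‖P v‖ ≤ ‖P (lin M (g0 ^ j) v)‖ := by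
  obtain ⟨T, hT⟩ := hcP (1 / ((m : ℝ) + 1)) (by positivity)
  obtain ⟨j, hj⟩ := exists_nat_gt (T / χ g0)
  rw [div_lt_iff₀ h0] at hj
  refine ⟨j, fun v => ?_⟩
  have h1 := hT (g0 ^ j)⁻¹ (by rw [h.inv, h.npow]; linarith) (lin M (g0 ^ j) v)
  rw [lin_inv_lin] at h1
  have h2 : (0 : ℝ) < (m : ℝ) + 1 := by positivity
  calc ((m : ℝ) + 1) * ‖P v‖ ≤ ((m : ℝ) + 1) * (1 / ((m : ℝ) + 1) * ‖P (lin M (g0 ^ j) v)‖) :=
        mul_le_mul_of_nonneg_left h1 h2.le
    _ = ‖P (lin M (g0 ^ j) v)‖ := by field_simp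

/-- displacement of the fixed point of an expanding element -/
theorem disp_fixed [ConnectedSpace Y] {χ : G → ℝ} (h : IsHt M χ) {g0 : G} (h0 : 0 < χ g0)
    (hcP : ∀ ε : ℝ, 0 < ε → ∃ T : ℝ, ∀ g, χ g ≤ -T → ∀ v, ‖P (lin M g v)‖ ≤ ε * ‖P v‖)
    {ρ : G → ℝ} (hρ0 : ∀ g, 0 ≤ ρ g) (hρc : ∀ k g, ρ (k * g * k⁻¹) = ρ g)
    (hρ : ∀ g, χ g = 0 → ∀ v, ‖P (lin M g v) - P v‖ ≤ ρ g * ‖P v‖) {p : V}
    (hp : P (M.hol g0 p) = P p) {y0 : Y} {g : ℕ → G} (hχg : ∀ k, χ (g k) = 0)
    (hg : Tds M P y0 g) {ε : ℝ} (hε : 0 < ε) :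
    ∀ᶠ k in atTop, ‖P (M.hol (g k) p) - P p‖ ≤ ε * ρ (g k) := by
  by_contra hcon
  rw [Filter.not_eventually] at hcon
  set U : ℝ := ‖P (M.dev y0 - p)‖ with hU
  have hU0 : 0 ≤ U := norm_nonneg _
  obtain ⟨m1, hm1⟩ := exists_nat_gt ((U + 1) / ε)
  rw [div_lt_iff₀ hε] at hm1
  -- powers of `g0` fix `p` modulo the complete directions
  have hpj : ∀ j : ℕ, P (M.hol (g0 ^ j) p) = P p := by
    intro j
    induction j with
    | zero => rw [pow_zero, hol_one]
    | succ j ih =>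
      rw [pow_succ', M.hol_mul]
      have e1 : M.hol (g0 ^ j) p = p + (M.hol (g0 ^ j) p - p) := by abel
      rw [e1, hol_add_vec, map_add, hp, P_Cd hP (by rw [map_sub, ih, sub_self]), add_zero]
  have hpji : ∀ j : ℕ, P (M.hol (g0 ^ j)⁻¹ p - p) = 0 := by
    intro j
    have e1 : M.hol (g0 ^ j)⁻¹ p - p = lin M (g0 ^ j)⁻¹ (p - M.hol (g0 ^ j) p) := by
      rw [← hol_sub, hol_inv_hol]
    rw [e1]
    exact P_Cd hP (by rw [map_sub, hpj, sub_self]) _
  have hstep : ∀ m : ℕ, ∃ f : G, χ f = 0 ∧ Nr M f y0 ∧ ‖P (xg M f y0)‖ < 1 / ((m : ℝ) + 1) ∧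
      P (xg M f y0) ≠ 0 ∧ (((m + m1 : ℕ) : ℝ) * ε - U) * ρ f ≤ ‖P (xg M f y0)‖ := by
    intro m
    obtain ⟨j, hj⟩ := exists_expand hP hinc h h0 hcP (m + m1)
    have hconj := hg.conj hP hinc (g0 ^ j)
    have hsm : ∀ᶠ k in atTop, ‖P (xg M (g0 ^ j * g k * (g0 ^ j)⁻¹) y0)‖ < 1 / ((m : ℝ) + 1) := by
      have h1 : Tendsto (fun k => ‖P (xg M (g0 ^ j * g k * (g0 ^ j)⁻¹) y0)‖) atTop (𝓝 0) := by
        simpa using hconj.disp.norm
      exact h1.eventually (gt_mem_nhds (by positivity))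
    obtain ⟨k, hk, hk1, hk2⟩ := (hcon.and_eventually (hconj.nr.and hsm)).exists
    push Not at hk
    set f := g0 ^ j * g k * (g0 ^ j)⁻¹ with hf
    have hχf : χ f = 0 := by
      rw [hf, h.hom, h.hom, h.inv, hχg]; ring
    have hρf : ρ f = ρ (g k) := hρc _ _
    -- displacement at `p`
    set c' := M.hol (g0 ^ j)⁻¹ p - p with hc'
    have hPc' : P c' = 0 := hpji j
    have e1 : M.hol f p = M.hol (g0 ^ j) (M.hol (g k) p) +
        lin M (g0 ^ j) (lin M (g k) c') := by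
      rw [hf, M.hol_mul, M.hol_mul]
      have e2 : M.hol (g0 ^ j)⁻¹ p = p + c' := by rw [hc']; abel
      rw [e2, hol_add_vec, hol_add_vec]
    have e2 : P (M.hol f p) - P p = P (lin M (g0 ^ j) (M.hol (g k) p - p)) := by
      rw [e1, map_add, P_Cd hP (P_Cd hP hPc' (g k)), add_zero, ← hol_sub, map_sub, hpj]
    have e3 : (((m + m1 : ℕ) : ℝ) + 1) * ‖P (M.hol (g k) p) - P p‖ ≤ ‖P (M.hol f p) - P p‖ := by
      rw [e2, ← map_sub]
      exact hj _
    -- displacement at the base point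
    have e4 : P (xg M f y0) = (P (M.hol f p) - P p) +
        (P (lin M f (M.dev y0 - p)) - P (M.dev y0 - p)) := by
      have e5 : M.hol f (M.dev y0) = M.hol f p + lin M f (M.dev y0 - p) := by
        rw [← hol_add_vec, add_sub_cancel]
      unfold xg
      rw [M.dev_smul, e5, map_sub, map_add, map_sub P (M.dev y0) p]
      abel
    have e5 := hρ f hχf (M.dev y0 - p)
    have e6 : ‖P (M.hol f p) - P p‖ - ρ f * U ≤ ‖P (xg M f y0)‖ := by
      rw [e4]
      have e7 := norm_sub_le ((P (M.hol f p) - P p) +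
        (P (lin M f (M.dev y0 - p)) - P (M.dev y0 - p)))
        (P (lin M f (M.dev y0 - p)) - P (M.dev y0 - p))
      rw [add_sub_cancel_right] at e7
      linarith
    have hd0 : 0 < ‖P (M.hol (g k) p) - P p‖ :=
      lt_of_le_of_lt (mul_nonneg hε.le (hρ0 _)) hk
    have hρk := hρ0 (g k)
    have hmm : ((m + m1 : ℕ) : ℝ) = m + m1 := by push_cast; ring
    have hm0 : (0 : ℝ) ≤ m := Nat.cast_nonneg m
    have hbig : U + 1 < ((m + m1 : ℕ) : ℝ) * ε := by
      rw [hmm]; nlinarith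
    have e8 : (((m + m1 : ℕ) : ℝ) + 1) * ‖P (M.hol (g k) p) - P p‖ - ρ (g k) * U ≤
        ‖P (xg M f y0)‖ := by
      rw [hρf] at e6; linarith
    have hmm1 : (0 : ℝ) ≤ ((m + m1 : ℕ) : ℝ) := Nat.cast_nonneg _
    have e9 : ((m + m1 : ℕ) : ℝ) * (ε * ρ (g k)) ≤
        ((m + m1 : ℕ) : ℝ) * ‖P (M.hol (g k) p) - P p‖ :=
      mul_le_mul_of_nonneg_left hk.le hmm1
    have e10 : (((m + m1 : ℕ) : ℝ) * ε - U) * ρ (g k) + ‖P (M.hol (g k) p) - P p‖ ≤
        ‖P (xg M f y0)‖ := by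
      nlinarith
    refine ⟨f, hχf, hk1, hk2, ?_, ?_⟩
    · rw [← norm_pos_iff]
      have e11 : 0 ≤ (((m + m1 : ℕ) : ℝ) * ε - U) * ρ (g k) :=
        mul_nonneg (by linarith) hρk
      linarith
    · rw [hρf]; linarith
  choose f hf1 hf2 hf3 hf4 hf5 using hstep
  refine no_approx_transl hP hinc (g := f) (y0 := y0) hf2 hf4
    (squeeze_zero_norm (fun m => (hf3 m).le) tendsto_one_div_add_atTop_nhds_zero_nat)
    (η := fun m => (((m + m1 : ℕ) : ℝ) * ε - U)⁻¹) ?_ ?_ ?_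
  · intro m
    refine inv_nonneg.2 ?_
    push_cast
    have hm0 : (0 : ℝ) ≤ m := Nat.cast_nonneg m
    nlinarith
  · refine Tendsto.inv_tendsto_atTop ?_
    have h1 : Tendsto (fun m : ℕ => ((m + m1 : ℕ) : ℝ)) atTop atTop :=
      tendsto_natCast_atTop_atTop.comp (tendsto_add_atTop_nat m1)
    have h2 := (h1.atTop_mul_const hε)
    exact tendsto_atTop_add_const_right _ (-U) h2
  · intro m v
    have hpos : 0 < ((m + m1 : ℕ) : ℝ) * ε - U := by
      push_cast
      have hm0 : (0 : ℝ) ≤ m := Nat.cast_nonneg m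
      nlinarith
    refine (hρ (f m) (hf1 m) v).trans (mul_le_mul_of_nonneg_right ?_ (norm_nonneg _))
    rw [inv_mul_eq_div, le_div_iff₀ hpos, mul_comm]
    exact hf5 m

/-- a fixed point modulo the complete directions -/
theorem exists_fixed_mod {g0 : G} (hfix : ∀ v, P (lin M g0 v) = P v → P v = 0) :
    ∃ p, P (M.hol g0 p) = P p := by
  set A : V →ₗ[ℝ] V := (P : V →ₗ[ℝ] V) ∘ₗ ((lin M g0 : V ≃ₗ[ℝ] V) : V →ₗ[ℝ] V) -
    (P : V →ₗ[ℝ] V) + (LinearMap.id - (P : V →ₗ[ℝ] V)) with hA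
  have hAv : ∀ v, A v = P (lin M g0 v) - P v + (v - P v) := fun v => rfl
  have hPA : ∀ v, P (A v) = P (lin M g0 v) - P v := by
    intro v
    rw [hAv, map_add, map_sub, map_sub, P_P hP, P_P hP, sub_self, add_zero]
  have hinj : Function.Injective A := by
    rw [injective_iff_map_eq_zero]
    intro v hv
    have h1 := hPA v
    rw [hv, map_zero] at h1
    have h2 : P (lin M g0 v) = P v := (sub_eq_zero.1 h1.symm)
    have h3 := hfix v h2
    have h4 := hAv v
    rw [hv, h2, h3, sub_self, zero_add, sub_zero] at h4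
    exact h4.symm
  obtain ⟨z0, hz0⟩ := (LinearMap.injective_iff_surjective.1 hinj) (-(P (M.hol g0 0)))
  refine ⟨z0, ?_⟩
  have h1 := hPA z0
  rw [hz0, map_neg, P_P hP] at h1
  have h3 : P (M.hol g0 z0) = P (lin M g0 z0) + P (M.hol g0 0) := by
    have h2 := hol_add_vec (M := M) g0 0 z0
    rw [zero_add] at h2
    rw [h2, map_add, add_comm]
  rw [h3]
  have h4 : P (lin M g0 z0) = -P (M.hol g0 0) + P z0 := by rw [h1]; abel
  rw [h4]; abel

/-- **sequences in the kernel of the height are eventually trivial** -/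
theorem ker_triv [ConnectedSpace Y] {χ : G → ℝ} (h : IsHt M χ) {g0 : G} (h0 : 0 < χ g0)
    (hcP : ∀ ε : ℝ, 0 < ε → ∃ T : ℝ, ∀ g, χ g ≤ -T → ∀ v, ‖P (lin M g v)‖ ≤ ε * ‖P v‖)
    (hfix : ∀ v, P (lin M g0 v) = P v → P v = 0) {y0 : Y} {g : ℕ → G} (hχg : ∀ k, χ (g k) = 0)
    (hg : Tds M P y0 g) :
    ∀ᶠ k in atTop, P (xg M (g k) y0) = 0 ∧ ∀ v, P (lin M (g k) v) = P v := by
  obtain ⟨ρ, c, hc, hρ0, hρc, hρ, hρ'⟩ := exists_rho hP h
  obtain ⟨p, hp⟩ := exists_fixed_mod hP hinc hfix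
  -- the points whose displacement is negligible
  set Z : Set V := {z | ∀ g : ℕ → G, (∀ k, χ (g k) = 0) → Tds M P y0 g → ∀ ε : ℝ, 0 < ε →
    ∀ᶠ k in atTop, ‖P (M.hol (g k) z) - P z‖ ≤ ε * ρ (g k)} with hZ
  have hpZ : p ∈ Z := fun g hχg hg ε hε =>
    disp_fixed hP hinc h h0 hcP hρ0 hρc hρ hp hχg hg hε
  have hconv : Convex ℝ Z := by
    intro z hz w hw a b ha hb hab g hχg hg ε hε
    filter_upwards [hz g hχg hg ε hε, hw g hχg hg ε hε] with k hk hk'
    have ha' : a = 1 - b := by linarith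
    have e1 : M.hol (g k) (a • z + b • w) = M.hol (g k) z + b • lin M (g k) (w - z) := by
      rw [← lin_smul, ← hol_add_vec]
      congr 1
      rw [ha']; module
    have e2 : lin M (g k) (w - z) = M.hol (g k) w - M.hol (g k) z := (hol_sub M _ _ _).symm
    have e3 : P (M.hol (g k) (a • z + b • w)) - P (a • z + b • w) =
        a • (P (M.hol (g k) z) - P z) + b • (P (M.hol (g k) w) - P w) := by
      rw [e1, e2, map_add, map_smul, map_sub, map_add, map_smul, map_smul, ha']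
      module
    rw [e3]
    have e4 := norm_add_le (a • (P (M.hol (g k) z) - P z)) (b • (P (M.hol (g k) w) - P w))
    rw [norm_smul, norm_smul, Real.norm_of_nonneg ha, Real.norm_of_nonneg hb] at e4
    have e5 := mul_le_mul_of_nonneg_left hk ha
    have e6 := mul_le_mul_of_nonneg_left hk' hb
    have e7 : a * (ε * ρ (g k)) + b * (ε * ρ (g k)) = ε * ρ (g k) := by
      rw [← add_mul, hab, one_mul]
    linarith
  have hinv : M.Invariant Z := by
    intro l z hz g hχg hg ε hε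
    have hconj := hg.conj hP hinc l⁻¹
    set L : V →L[ℝ] V := P.comp (LinearMap.toContinuousLinearMap
      ((lin M l : V ≃ₗ[ℝ] V) : V →ₗ[ℝ] V)) with hL
    have hLv : ∀ v, L v = P (lin M l v) := fun v => rfl
    have hC0 : 0 < ‖L‖ + 1 := by positivity
    filter_upwards [hz (fun n => l⁻¹ * g n * l⁻¹⁻¹) (fun k => by
      rw [h.hom, h.hom, h.inv l⁻¹, h.inv l, hχg]; ring) hconj (ε / (‖L‖ + 1)) (by positivity)]
      with k hk
    rw [hρc] at hk
    have e1 : M.hol (g k) (M.hol l z) = M.hol l (M.hol (l⁻¹ * g k * l⁻¹⁻¹) z) := by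
      rw [← M.hol_mul, ← M.hol_mul]
      congr 2
      group
    have e2 : P (M.hol (g k) (M.hol l z)) - P (M.hol l z) =
        L (P (M.hol (l⁻¹ * g k * l⁻¹⁻¹) z) - P z) := by
      rw [e1, ← map_sub, hol_sub, ← map_sub P, hLv, P_lin hP]
    rw [e2]
    calc ‖L (P (M.hol (l⁻¹ * g k * l⁻¹⁻¹) z) - P z)‖
        ≤ ‖L‖ * ‖P (M.hol (l⁻¹ * g k * l⁻¹⁻¹) z) - P z‖ := L.le_opNorm _
      _ ≤ (‖L‖ + 1) * (ε / (‖L‖ + 1) * ρ (g k)) :=
          mul_le_mul (by linarith) hk (norm_nonneg _) hC0.le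
      _ = ε * ρ (g k) := by field_simp
  have huniv : Z = univ := by
    obtain ⟨y⟩ := (inferInstance : Nonempty Y)
    exact Pool.Agent.Results.MP_df2bd8_gt.NoInvariantStarShaped.result M Z hinv p hpZ
      (hconv hpZ)
  have hall : ∀ z : V, ∀ ε : ℝ, 0 < ε →
      ∀ᶠ k in atTop, ‖P (M.hol (g k) z) - P z‖ ≤ ε * ρ (g k) := by
    intro z ε hε
    have : z ∈ Z := by rw [huniv]; trivial
    exact this g hχg hg ε hε
  -- hence the linear parts are trivial
  have hlinv : ∀ v : V, ∀ ε : ℝ, 0 < ε →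
      ∀ᶠ k in atTop, ‖P (lin M (g k) v) - P v‖ ≤ ε * ρ (g k) := by
    intro v ε hε
    filter_upwards [hall v (ε / 2) (by linarith), hall 0 (ε / 2) (by linarith)] with k k1 k2
    have e1 : P (lin M (g k) v) - P v = (P (M.hol (g k) v) - P v) -
        (P (M.hol (g k) 0) - P 0) := by
      have e2 := hol_add_vec (M := M) (g k) 0 v
      have e3 : P (0 : V) = 0 := map_zero P
      rw [zero_add] at e2
      rw [e2, map_add, e3]
      abel
    rw [e1]
    have := norm_sub_le (P (M.hol (g k) v) - P v) (P (M.hol (g k) 0) - P 0)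
    linarith
  obtain ⟨m0, hm0⟩ := unif_of_pointwise (⊤ : Submodule ℝ V)
    (fun k => (ρ (g k))⁻¹ • ((P : V →ₗ[ℝ] V) ∘ₗ ((lin M (g k) : V ≃ₗ[ℝ] V) : V →ₗ[ℝ] V) -
      (P : V →ₗ[ℝ] V)))
    (fun v _ => by
      rw [NormedAddGroup.tendsto_nhds_zero]
      intro ε hε
      filter_upwards [hlinv v (ε / 2) (by linarith)] with k hk
      show ‖(ρ (g k))⁻¹ • (P (lin M (g k) v) - P v)‖ < ε
      rw [norm_smul, norm_inv, Real.norm_of_nonneg (hρ0 _)]
      rcases eq_or_lt_of_le (hρ0 (g k)) with h1 | h1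
      · rw [← h1, inv_zero, zero_mul]; exact hε
      · rw [inv_mul_eq_div, div_lt_iff₀ h1]
        have : ε / 2 * ρ (g k) < ε * ρ (g k) := mul_lt_mul_of_pos_right (by linarith) h1
        linarith) (1 / (2 * c)) (by positivity)
  have hρz : ∀ k, m0 ≤ k → ρ (g k) = 0 := by
    intro k hk
    by_contra hne
    have hpos : 0 < ρ (g k) := lt_of_le_of_ne (hρ0 _) (Ne.symm hne)
    have h1 := hρ' (g k) (hχg k) (ρ (g k) * (1 / (2 * c))) (by positivity) (fun v => by
      have h2 := hm0 k hk v trivial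
      have h3 : ‖(ρ (g k))⁻¹ • (P (lin M (g k) v) - P v)‖ ≤ 1 / (2 * c) * ‖v‖ := h2
      rw [norm_smul, norm_inv, Real.norm_of_nonneg (hρ0 _), inv_mul_eq_div,
        div_le_iff₀ hpos] at h3
      linarith)
    have h4 : c * (ρ (g k) * (1 / (2 * c))) = ρ (g k) / 2 := by field_simp
    linarith
  filter_upwards [eventually_ge_atTop m0, hall (M.dev y0) 1 one_pos] with k k1 k2
  have h1 := hρz k k1
  constructor
  · rw [h1, mul_zero] at k2
    have h2 := norm_le_zero_iff.1 k2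
    unfold xg
    rw [M.dev_smul, map_sub, h2]
  · intro v
    have h2 := hρ (g k) (hχg k) v
    rw [h1, zero_mul] at h2
    exact sub_eq_zero.1 (norm_le_zero_iff.1 h2)

/-- commutators with a fixed element -/
theorem Tds.comm [ConnectedSpace Y] {y0 : Y} {g : ℕ → G} (hg : Tds M P y0 g) (l : G) :
    Tds M P y0 (fun k => l⁻¹ * (g k)⁻¹ * l * g k) := by
  have hgq := hg.change hP hinc (l • y0)
  set q := l • y0 with hq
  set x : ℕ → V := fun k => xg M (g k) y0 with hxdef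
  set x' : ℕ → V := fun k => xg M (g k) q with hxdef'
  set u : ℕ → V := fun k => lin M l (x k) with hu
  have hPu : Tendsto (fun k => P (u k)) atTop (𝓝 0) := tendsto_P_lin hP hg.disp l
  set e : ℕ → V := fun k => lin M (g k)⁻¹ (u k - x' k) with he
  have hPe : Tendsto (fun k => P (e k)) atTop (𝓝 0) := by
    have h1 : Tendsto (fun k => 2 * ‖P (u k - x' k)‖) atTop (𝓝 0) := by
      have h2 : Tendsto (fun k => P (u k) - P (x' k)) atTop (𝓝 (0 - 0)) := hPu.sub hgq.disp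
      rw [sub_zero] at h2
      have h3 := (h2.norm).const_mul 2
      rw [norm_zero, mul_zero] at h3
      exact h3.congr fun k => by rw [map_sub]
    refine squeeze_zero_norm' ?_ h1
    filter_upwards [inv_P hP hg.lpart] with k hk
    exact hk _
  set f : ℕ → V := fun k => lin M l⁻¹ (e k) with hf
  have hPf : Tendsto (fun k => P (f k)) atTop (𝓝 0) := tendsto_P_lin hP hPe l⁻¹
  have hlt : ∀ {w : ℕ → V} (p : Y), Tendsto (fun k => P (w k)) atTop (𝓝 0) →
      ∀ᶠ k in atTop, ‖P (w k)‖ < rr M P p := by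
    intro w p hw
    have h1 : Tendsto (fun k => ‖P (w k)‖) atTop (𝓝 0) := by simpa using hw.norm
    exact h1.eventually (gt_mem_nhds (rr_pos hP hinc p))
  have hev : ∀ᶠ k in atTop, Nr M (l⁻¹ * (g k)⁻¹ * l * g k) y0 ∧
      xg M (l⁻¹ * (g k)⁻¹ * l * g k) y0 = f k := by
    filter_upwards [hg.nr, hgq.nr, hlt q hgq.disp, hlt q hPe, hlt q hPu, hlt y0 hPf]
      with k k1 k2 k3 k4 k5 k6
    have e1 : lin M (g k) (e k) = u k - x' k := by rw [he]; exact lin_lin_inv M _ _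
    have m1 := mem_E_of_lt hP k4
    have e2 : g k • mv M.dev q (e k) = mv M.dev q (u k) := by
      rw [← mv_smul M (g k) m1, e1, k2.2]
      exact (slab_tri hP hinc k3 k5).2
    have e3 : (g k)⁻¹ • mv M.dev q (u k) = mv M.dev q (e k) := by
      rw [← e2, inv_smul_smul]
    have e4 : (l⁻¹ * (g k)⁻¹ * l * g k) • y0 = mv M.dev y0 (f k) := by
      rw [mul_smul, mul_smul, mul_smul, k1.2, ← mv_smul M l k1.1, e3, ← mv_smul M l⁻¹ m1, hq,
        inv_smul_smul]
    have e5 : xg M (l⁻¹ * (g k)⁻¹ * l * g k) y0 = f k := by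
      unfold xg
      rw [e4, dev_mv M.dev_local (mem_E_of_lt hP k6)]
      abel
    exact ⟨⟨by rw [e5]; exact mem_E_of_lt hP k6, by rw [e4, e5]⟩, e5⟩
  refine ⟨hev.mono fun k hk => hk.1, ?_, fun v => ?_⟩
  · refine hPf.congr' ?_
    filter_upwards [hev] with k hk
    rw [hk.2]
  · -- the linear parts
    have h1 : Tendsto (fun k => P (lin M (g k) v - v)) atTop (𝓝 0) := by
      have h2 := (hg.lpart v).sub_const (P v)
      rw [sub_self] at h2
      exact h2.congr fun n => by rw [map_sub]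
    have h2 := tendsto_P_lin hP h1 l
    have h3 : Tendsto (fun k => P (lin M (g k)⁻¹ (lin M l (lin M (g k) v - v)))) atTop
        (𝓝 0) := by
      have h4 := (h2.norm).const_mul 2
      rw [norm_zero, mul_zero] at h4
      refine squeeze_zero_norm' ?_ h4
      filter_upwards [inv_P hP hg.lpart] with k hk
      exact hk _
    have h5 : Tendsto (fun k => P (lin M (g k)⁻¹ (lin M l v) - lin M l v)) atTop (𝓝 0) := by
      have h6 : Tendsto (fun k => P (lin M (g k) (lin M l v) - lin M l v)) atTop (𝓝 0) := by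
        have h7 := (hg.lpart (lin M l v)).sub_const (P (lin M l v))
        rw [sub_self] at h7
        exact h7.congr fun n => by rw [map_sub]
      have h8 := (h6.norm).const_mul 2
      rw [norm_zero, mul_zero] at h8
      refine squeeze_zero_norm' ?_ h8
      filter_upwards [inv_P hP hg.lpart] with k hk
      have e1 : lin M (g k)⁻¹ (lin M l v) - lin M l v =
          -lin M (g k)⁻¹ (lin M (g k) (lin M l v) - lin M l v) := by
        rw [lin_sub, lin_inv_lin]; abel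
      rw [e1, map_neg, norm_neg]
      exact hk _
    have h9 := tendsto_P_lin hP (u := fun k => lin M (g k)⁻¹ (lin M l (lin M (g k) v - v)) +
      (lin M (g k)⁻¹ (lin M l v) - lin M l v)) (by
        have h10 := h3.add h5
        rw [add_zero] at h10
        exact h10.congr fun k => by rw [map_add]) l⁻¹
    have h11 := h9.add_const (P v)
    rw [zero_add] at h11
    refine h11.congr fun k => ?_
    rw [lin_mul, lin_mul, lin_mul, ← map_add]
    congr 1
    simp only [lin_add, lin_sub, lin_inv_lin]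
    abel

/-- **Discreteness modulo the complete directions**, no commutativity. -/
theorem discG [ConnectedSpace Y] {χ : G → ℝ} (h : IsHt M χ) {g0 : G} (h0 : 0 < χ g0)
    (hcP : ∀ ε : ℝ, 0 < ε → ∃ T : ℝ, ∀ g, χ g ≤ -T → ∀ v, ‖P (lin M g v)‖ ≤ ε * ‖P v‖)
    (hfix : ∀ v, P (lin M g0 v) = P v → P v = 0) {y0 : Y} {g : ℕ → G} (hg : Tds M P y0 g) :
    ∀ᶠ k in atTop, P (xg M (g k) y0) = 0 ∧ ∀ v, P (lin M (g k) v) = P v := by
  refine triv_of_fixed (all_fixed_of hP ⟨g0, hfix⟩ fun l => ?_) y0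
  have h1 := ker_triv hP hinc h h0 hcP hfix (g := fun k => l⁻¹ * (g k)⁻¹ * l * g k)
    (fun k => by
      rw [h.hom, h.hom, h.hom, h.inv, h.inv]; ring) (hg.comm hP hinc l)
  filter_upwards [h1] with k hk z
  obtain ⟨k1, k2⟩ := hk
  set c := l⁻¹ * (g k)⁻¹ * l * g k with hc
  have e1 : g k * (l * c) = l * g k := by rw [hc]; group
  have e2 : P (M.hol c z - z) = 0 := by
    have e3 : M.hol c z - z = xg M c y0 + (lin M c (z - M.dev y0) - (z - M.dev y0)) := by
      have e4 : M.hol c z = M.hol c (M.dev y0) + lin M c (z - M.dev y0) := by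
        rw [← hol_add_vec, add_sub_cancel]
      unfold xg
      rw [M.dev_smul, e4]
      abel
    rw [e3, map_add, k1, map_sub, k2, sub_self, add_zero]
  have e3 : M.hol c z = z + (M.hol c z - z) := by abel
  rw [← M.hol_mul, ← e1, M.hol_mul, M.hol_mul, e3, hol_add_vec, hol_add_vec, map_add,
    P_Cd hP (P_Cd hP e2 l) (g k), add_zero]

/-- the same in terms of a threshold -/
theorem discG_eps [ConnectedSpace Y] {χ : G → ℝ} (h : IsHt M χ) {g0 : G} (h0 : 0 < χ g0)
    (hcP : ∀ ε : ℝ, 0 < ε → ∃ T : ℝ, ∀ g, χ g ≤ -T → ∀ v, ‖P (lin M g v)‖ ≤ ε * ‖P v‖)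
    (hfix : ∀ v, P (lin M g0 v) = P v → P v = 0) (y0 : Y) :
    ∃ ε : ℝ, 0 < ε ∧ ∀ g : G, Nr M g y0 → ‖P (xg M g y0)‖ < ε →
      (∀ v, ‖P (lin M g v) - P v‖ ≤ ε * ‖v‖) →
      P (xg M g y0) = 0 ∧ ∀ v, P (lin M g v) = P v := by
  by_contra hcon
  push Not at hcon
  have hpos : ∀ k : ℕ, (0 : ℝ) < 1 / ((k : ℝ) + 1) := fun k => by positivity
  choose g h1 h2 h3 h4 using fun k : ℕ => hcon (1 / ((k : ℝ) + 1)) (hpos k)
  have hlim : Tendsto (fun k : ℕ => 1 / ((k : ℝ) + 1)) atTop (𝓝 0) :=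
    tendsto_one_div_add_atTop_nhds_zero_nat
  have htds : Tds M P y0 g := by
    refine ⟨Eventually.of_forall h1, squeeze_zero_norm (fun k => (h2 k).le) hlim, fun v => ?_⟩
    have h6 : Tendsto (fun k => P (lin M (g k) v) - P v) atTop (𝓝 0) := by
      refine squeeze_zero_norm (fun k => h3 k v) ?_
      have := hlim.mul_const ‖v‖
      rwa [zero_mul] at this
    have h7 := h6.add_const (P v)
    simpa using h7
  obtain ⟨k, hk⟩ := (discG hP hinc h h0 hcP hfix htds).exists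
  obtain ⟨v, hv⟩ := h4 k hk.1
  exact hv (hk.2 v)

end Pool.Agent.CYC
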