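import Pool.Agent.Helper2.RO.Aff
import Pool.Agent.Helper2.RO.Rad

/-!
# Straight paths in an affine manifold

`E dev y` is the set of vectors `v` for which the straight path from `y` with velocity `v` exists
up to time one, `mv dev y v` its end point, `Cd dev` the subspace of complete directions.
-/

set_option autoImplicit false
set_option linter.unusedSectionVars false

open Set Filter Topology

namespace Pool.Agent.CYC

open Pool.Agent.Helper2.MK Pool.Agent.Helper50.HL Pool.Agent.Helper2.RO

section basic

variable {V Y : Type*} [NormedAddCommGroup V] [NormedSpace ℝ V] [TopologicalSpace Y] {dev : Y → V}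

/-- the vectors `v` such that the straight path from `y` with velocity `v` exists up to time 1 -/
def E (dev : Y → V) (y : Y) : Set V := {v | dev y + v ∈ dom dev y}

/-- the end point of the straight path from `y` with velocity `v` -/
noncomputable def mv (dev : Y → V) (y : Y) (v : V) : Y := sec dev y (dev y + v)

theorem mem_E {y : Y} {v : V} : v ∈ E dev y ↔ dev y + v ∈ dom dev y := Iff.rfl

theorem zero_mem_E (hdev : IsLocalHomeomorph dev) (y : Y) : (0 : V) ∈ E dev y := by
  rw [mem_E, add_zero]
  exact mem_dom_self hdev y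

theorem smul_mem_E {y : Y} {v : V} (hv : v ∈ E dev y) {t : ℝ} (h0 : 0 ≤ t) (h1 : t ≤ 1) :
    t • v ∈ E dev y := by
  have h := starConvex_dom (dev := dev) y hv (a := 1 - t) (b := t) (by linarith) h0 (by ring)
  rw [mem_E]
  have h2 : (1 - t) • dev y + t • (dev y + v) = dev y + t • v := by module
  rwa [h2] at h

/-- version for two times -/
theorem smul_mem_E' {y : Y} {v : V} {s t : ℝ} (hv : t • v ∈ E dev y) (h0 : 0 ≤ s) (h1 : s ≤ t) :
    s • v ∈ E dev y := by
  rcases eq_or_lt_of_le (h0.trans h1) with h | h
  · have hs : s = t := le_antisymm h1 (by rw [← h]; exact h0)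
    rw [hs]; exact hv
  · have h2 := smul_mem_E hv (t := s / t) (div_nonneg h0 h.le) ((div_le_one h).2 h1)
    rwa [smul_smul, div_mul_cancel₀ s h.ne'] at h2

theorem isOpen_E (y : Y) : IsOpen (E dev y) :=
  (isOpen_dom y).preimage (continuous_const.add continuous_id)

variable [T2Space Y]

theorem mv_zero (hdev : IsLocalHomeomorph dev) (y : Y) : mv dev y 0 = y := by
  unfold mv
  rw [add_zero]
  exact sec_self hdev y

theorem dev_mv (hdev : IsLocalHomeomorph dev) {y : Y} {v : V} (hv : v ∈ E dev y) :
    dev (mv dev y v) = dev y + v := dev_sec hdev hv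

theorem isOpen_graphE (hdev : IsLocalHomeomorph dev) : IsOpen {p : Y × V | p.2 ∈ E dev p.1} :=
  (isOpen_graph hdev).preimage (f := fun p : Y × V => (p.1, dev p.1 + p.2))
    (continuous_fst.prodMk ((hdev.continuous.comp continuous_fst).add continuous_snd))

theorem continuousOn_mv (hdev : IsLocalHomeomorph dev) :
    ContinuousOn (fun p : Y × V => mv dev p.1 p.2) {p : Y × V | p.2 ∈ E dev p.1} := by
  have h := continuousOn_graph hdev
  have h2 : Continuous (fun p : Y × V => (p.1, dev p.1 + p.2)) :=
    continuous_fst.prodMk ((hdev.continuous.comp continuous_fst).add continuous_snd)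
  exact h.comp h2.continuousOn fun p hp => hp

/-- continuity of the end point in both variables -/
theorem continuousAt_mv (hdev : IsLocalHomeomorph dev) {y : Y} {v : V} (hv : v ∈ E dev y) :
    ContinuousAt (fun p : Y × V => mv dev p.1 p.2) (y, v) :=
  (continuousOn_mv hdev).continuousAt ((isOpen_graphE hdev).mem_nhds hv)

/-- continuity of the end point along a path of base points and vectors -/
theorem continuousOn_mv_comp (hdev : IsLocalHomeomorph dev) {X : Type*} [TopologicalSpace X]
    {f : X → Y} {g : X → V} {S : Set X} (hf : ContinuousOn f S) (hg : ContinuousOn g S)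
    (h : ∀ x ∈ S, g x ∈ E dev (f x)) : ContinuousOn (fun x => mv dev (f x) (g x)) S :=
  (continuousOn_mv hdev).comp (hf.prodMk hg) h

theorem eventually_mem_E (hdev : IsLocalHomeomorph dev) {y : Y} {v : V} (hv : v ∈ E dev y) :
    ∀ᶠ p : Y × V in 𝓝 (y, v), p.2 ∈ E dev p.1 := (isOpen_graphE hdev).mem_nhds hv

/-- step lemma for the path lemma -/
theorem step (hdev : IsLocalHomeomorph dev) {y : Y} {v : V} {t t' : ℝ} (ht : 0 ≤ t) (ht' : 0 ≤ t')
    (hx : t • v ∈ E dev y) {C : Set V} (hC : IsOpen C) (hconv : Convex ℝ C)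
    (hxC : dev y + t • v ∈ C) (hbC : dev y + t' • v ∈ C)
    (hCd : C ⊆ dom dev (mv dev y (t • v))) :
    t' • v ∈ E dev y ∧ mv dev y (t' • v) = sec dev (mv dev y (t • v)) (dev y + t' • v) := by
  have hseg : ∀ r : ℝ, ∀ z ∈ segment ℝ (dev y + t • v) (dev y + r • v), ∃ s : ℝ,
      min t r ≤ s ∧ s ≤ max t r ∧ z = dev y + s • v := by
    rintro r z ⟨a, b, ha, hb, hab, rfl⟩
    refine ⟨a * t + b * r, ?_, ?_, ?_⟩
    · have h1 := mul_le_mul_of_nonneg_left (min_le_left t r) ha
      have h2 := mul_le_mul_of_nonneg_left (min_le_right t r) hb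
      have h3 : a * min t r + b * min t r = min t r := by rw [← add_mul, hab, one_mul]
      linarith
    · have h1 := mul_le_mul_of_nonneg_left (le_max_left t r) ha
      have h2 := mul_le_mul_of_nonneg_left (le_max_right t r) hb
      have h3 : a * max t r + b * max t r = max t r := by rw [← add_mul, hab, one_mul]
      linarith
    · have h4 : a • dev y + b • dev y = dev y := by rw [← add_smul, hab, one_smul]
      calc a • (dev y + t • v) + b • (dev y + r • v)
          = (a • dev y + b • dev y) + (a * t + b * r) • v := by module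
        _ = _ := by rw [h4]
  have hmem : t' • v ∈ E dev y := by
    rcases le_total t' t with h | h
    · exact smul_mem_E' hx ht' h
    · refine mem_dom_of_ray hdev (x := dev y + t • v) hx ?_ hC hconv hxC hCd hbC
      rcases eq_or_lt_of_le (ht.trans h) with h0 | h0
      · have e1 : t = 0 := le_antisymm (by rw [h0]; exact h) ht
        rw [e1, zero_smul, add_zero]
        exact left_mem_segment ℝ _ _
      · refine ⟨1 - t / t', t / t', ?_, div_nonneg ht h0.le, by ring, ?_⟩
        · have := (div_le_one h0).2 h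
          linarith
        · have e2 : (t / t') • (t' • v) = t • v := by
            rw [smul_smul, div_mul_cancel₀ t h0.ne']
          rw [smul_add, e2]
          module
  refine ⟨hmem, ?_⟩
  refine (sec_sec_of_segment hdev (x := dev y + t • v) hx ?_ ?_).symm
  · intro z hz
    obtain ⟨s, hs1, hs2, rfl⟩ := hseg t' z hz
    rcases le_total t t' with h | h
    · rw [max_eq_right h] at hs2
      exact smul_mem_E' hmem ((le_min ht ht').trans hs1) hs2
    · rw [max_eq_left h] at hs2
      exact smul_mem_E' hx ((le_min ht ht').trans hs1) hs2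
  · exact (hconv.segment_subset hxC hbC).trans hCd

/-- **Path lemma**: a path in `Y` which develops to a straight segment is the straight path. -/
theorem path (hdev : IsLocalHomeomorph dev) {γ : ℝ → Y} {v : V} (hγ : ContinuousOn γ (Icc 0 1))
    (h : ∀ t ∈ Icc (0 : ℝ) 1, dev (γ t) = dev (γ 0) + t • v) :
    v ∈ E dev (γ 0) ∧ mv dev (γ 0) v = γ 1 := by
  set y := γ 0 with hy
  set P : ℝ → Prop := fun t => t • v ∈ E dev y ∧ mv dev y (t • v) = γ t with hP
  have key : ∀ x ∈ Icc (0 : ℝ) 1, ∀ᶠ x' in 𝓝[Icc (0 : ℝ) 1] x, (P x ↔ P x') := by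
    intro t ht
    obtain ⟨r, hr, hball⟩ := exists_radius hdev (isCompact_singleton (x := γ t))
    have hball := hball (γ t) rfl
    have h1 : ∀ᶠ y' in 𝓝 (γ t), Metric.ball (dev (γ t)) r ⊆ dom dev y' ∧
        EqOn (sec dev y') (sec dev (γ t)) (Metric.ball (dev (γ t)) r) :=
      near_convex hdev Metric.isOpen_ball (convex_ball _ _) (Metric.mem_ball_self hr) hball
    have h2 := near hdev (γ t)
    have h3 : ∀ᶠ y' in 𝓝 (γ t), dev y' ∈ Metric.ball (dev (γ t)) r :=
      hdev.continuous.continuousAt.eventually_mem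
        (Metric.isOpen_ball.mem_nhds (Metric.mem_ball_self hr))
    have h4 := (hγ t ht).eventually (h1.and (h2.and h3))
    filter_upwards [h4, self_mem_nhdsWithin] with t' h5 ht'
    obtain ⟨⟨h6, h7⟩, ⟨h8, h9, h10, h11⟩, h12⟩ := h5
    have e1 := h t ht
    have e2 := h t' ht'
    have hself := Metric.mem_ball_self (x := dev (γ t)) hr
    constructor
    · rintro ⟨h13, h14⟩
      have hs := step hdev ht.1 ht'.1 h13 Metric.isOpen_ball (convex_ball (dev (γ t)) r)
        (by rw [← e1]; exact hself) (by rw [← e2]; exact h12) (by rw [h14]; exact hball)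
      refine ⟨hs.1, ?_⟩
      rw [hs.2, h14, ← e2]
      exact h9
    · rintro ⟨h13, h14⟩
      have hs := step hdev ht'.1 ht.1 h13 Metric.isOpen_ball (convex_ball (dev (γ t)) r)
        (by rw [← e2]; exact h12) (by rw [← e1]; exact hself) (by rw [h14]; exact h6)
      refine ⟨hs.1, ?_⟩
      rw [hs.2, h14, ← e1]
      exact h11
  have h0 : P 0 := by
    refine ⟨by rw [zero_smul]; exact zero_mem_E hdev y, ?_⟩
    rw [zero_smul, mv_zero hdev]
  have h01 : P 0 ↔ P 1 := by
    refine isPreconnected_Icc.induction₂ (fun x y => (P x ↔ P y)) key ?_ ?_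
      (left_mem_Icc.2 zero_le_one) (right_mem_Icc.2 zero_le_one)
    · intro a b c _ _ _ h1 h2
      exact h1.trans h2
    · intro a b _ _ h1
      exact h1.symm
  have h1 := h01.1 h0
  simp only [hP, one_smul] at h1
  exact h1

/-- **Triangle rule**: if the path `u + t w` stays in `E dev y`, then `w` can be followed from
`mv dev y u`, with end point `mv dev y (u + w)`. -/
theorem tri (hdev : IsLocalHomeomorph dev) {y : Y} {u w : V}
    (h : ∀ t ∈ Icc (0 : ℝ) 1, u + t • w ∈ E dev y) :
    w ∈ E dev (mv dev y u) ∧ mv dev (mv dev y u) w = mv dev y (u + w) := by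
  have hu : u ∈ E dev y := by
    have := h 0 (left_mem_Icc.2 zero_le_one)
    rwa [zero_smul, add_zero] at this
  have h1 := path hdev (γ := fun t => mv dev y (u + t • w)) (v := w) ?_ ?_
  · simpa using h1
  · exact continuousOn_mv_comp hdev continuousOn_const
      (continuous_const.add (continuous_id.smul continuous_const)).continuousOn h
  · intro t ht
    simp only [zero_smul, add_zero]
    rw [dev_mv hdev (h t ht), dev_mv hdev hu]
    abel

/-- Triangle rule for a convex set. -/
theorem tri_convex (hdev : IsLocalHomeomorph dev) {y : Y} {D : Set V} (hD : Convex ℝ D)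
    (hDE : D ⊆ E dev y) {u u' : V} (hu : u ∈ D) (hu' : u' ∈ D) :
    u' - u ∈ E dev (mv dev y u) ∧ mv dev (mv dev y u) (u' - u) = mv dev y u' := by
  have h := tri hdev (y := y) (u := u) (w := u' - u) ?_
  · rwa [add_sub_cancel] at h
  · intro t ht
    have h2 := hD hu hu' (a := 1 - t) (b := t) (by linarith [ht.2]) ht.1 (by ring)
    have h3 : (1 - t) • u + t • u' = u + t • (u' - u) := by module
    rw [h3] at h2
    exact hDE h2

/-- moving along a straight path in two steps -/
theorem ray_split (hdev : IsLocalHomeomorph dev) {y : Y} {v : V} (hv : v ∈ E dev y) {t : ℝ}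
    (h0 : 0 ≤ t) (h1 : t ≤ 1) : (1 - t) • v ∈ E dev (mv dev y (t • v)) ∧
      mv dev (mv dev y (t • v)) ((1 - t) • v) = mv dev y v := by
  have h := tri hdev (y := y) (u := t • v) (w := (1 - t) • v) ?_
  · have e : t • v + (1 - t) • v = v := by module
    rwa [e] at h
  · intro s hs
    have e : t • v + s • (1 - t) • v = (t + s * (1 - t)) • v := by module
    rw [e]
    refine smul_mem_E hv ?_ ?_
    · have := mul_nonneg hs.1 (by linarith : (0 : ℝ) ≤ 1 - t)
      linarith
    · have := mul_le_mul_of_nonneg_right hs.2 (by linarith : (0 : ℝ) ≤ 1 - t)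
      linarith

/-- extending a straight path beyond its end point -/
theorem ray_extend (hdev : IsLocalHomeomorph dev) {y : Y} {v : V} {s t : ℝ} (hs : 0 ≤ s)
    (ht : 0 ≤ t) (hv : s • v ∈ E dev y) (hv' : t • v ∈ E dev (mv dev y (s • v))) :
    (s + t) • v ∈ E dev y ∧ mv dev y ((s + t) • v) = mv dev (mv dev y (s • v)) (t • v) := by
  obtain ⟨C, hC, hconv, hy, hx, σ, hσ, hσy⟩ := hv'
  have hd := dev_mv hdev hv
  have hsub := (chart_convex hdev hC hconv hy hσ hσy).1
  have e : dev (mv dev y (s • v)) + t • v = dev y + (s + t) • v := by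
    rw [hd]; module
  have h := step hdev (t := s) (t' := s + t) hs (add_nonneg hs ht) hv hC hconv
    (by rw [← hd]; exact hy) (by rw [← e]; exact hx) hsub
  refine ⟨h.1, ?_⟩
  rw [h.2]
  unfold mv
  unfold mv at e
  rw [e]

/-- **Limit rule**: if the straight path from `y` converges in `Y` then it can be continued. -/
theorem limit (hdev : IsLocalHomeomorph dev) {y q : Y} {v : V}
    (h : ∀ t : ℝ, 0 ≤ t → t < 1 → t • v ∈ E dev y)
    (hq : Tendsto (fun t : ℝ => mv dev y (t • v)) (𝓝[<] 1) (𝓝 q)) :
    v ∈ E dev y ∧ mv dev y v = q := by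
  classical
  set γ : ℝ → Y := fun t => if t < 1 then mv dev y (t • v) else q with hγ
  have hγ0 : γ 0 = y := by
    rw [hγ]
    simp only [zero_smul]
    rw [if_pos zero_lt_one, mv_zero hdev]
  have hγlt : ∀ t < 1, γ t = mv dev y (t • v) := fun t ht => if_pos ht
  have hγ1 : γ 1 = q := if_neg (lt_irrefl 1)
  have hlim : Tendsto γ (𝓝[<] 1) (𝓝 q) := by
    refine hq.congr' ?_
    filter_upwards [self_mem_nhdsWithin] with t ht
    exact (hγlt t ht).symm
  have hdevq : dev q = dev y + (1 : ℝ) • v := by
    have h1 : Tendsto (fun t => dev (γ t)) (𝓝[<] 1) (𝓝 (dev q)) :=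
      (hdev.continuous.tendsto q).comp hlim
    have h2 : Tendsto (fun t : ℝ => dev y + t • v) (𝓝[<] 1) (𝓝 (dev y + (1 : ℝ) • v)) := by
      have : Continuous fun t : ℝ => dev y + t • v :=
        continuous_const.add (continuous_id.smul continuous_const)
      exact (this.tendsto 1).mono_left nhdsWithin_le_nhds
    refine tendsto_nhds_unique h1 (h2.congr' ?_)
    have h3 : ∀ᶠ t : ℝ in 𝓝[<] 1, 0 ≤ t :=
      nhdsWithin_le_nhds (Ici_mem_nhds zero_lt_one)
    filter_upwards [self_mem_nhdsWithin, h3] with t ht ht0
    rw [hγlt t ht, dev_mv hdev (h t ht0 ht)]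
  have hcont : ContinuousOn γ (Icc 0 1) := by
    intro t ht
    rcases eq_or_lt_of_le ht.2 with h1 | h1
    · rw [h1]
      have h2 : ContinuousWithinAt γ (Iio 1) 1 := by
        unfold ContinuousWithinAt
        rw [hγ1]
        exact hlim
      have h3 : ContinuousWithinAt γ (insert 1 (Iio 1)) 1 := h2.insert
      exact h3.mono fun s hs => by
        rcases eq_or_lt_of_le hs.2 with h4 | h4
        · rw [h4]; exact mem_insert _ _
        · exact mem_insert_of_mem _ h4
    · have h2 : ContinuousOn (fun t : ℝ => mv dev y (t • v)) (Ico 0 1) :=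
        continuousOn_mv_comp hdev continuousOn_const
          (continuous_id.smul continuous_const).continuousOn fun s hs => h s hs.1 hs.2
      have h3 : ContinuousWithinAt (fun t : ℝ => mv dev y (t • v)) (Icc 0 1) t := by
        refine (h2 t ⟨ht.1, h1⟩).mono_of_mem_nhdsWithin ?_
        refine mem_nhdsWithin.2 ⟨Iio 1, isOpen_Iio, h1, ?_⟩
        rintro s ⟨hs1, hs2⟩
        exact ⟨hs2.1, hs1⟩
      refine h3.congr_of_eventuallyEq ?_ (hγlt t h1)
      refine nhdsWithin_le_nhds ?_
      filter_upwards [Iio_mem_nhds h1] with s hs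
      exact hγlt s hs
  have h1 := path hdev (γ := γ) (v := v) hcont ?_
  · rwa [hγ0, hγ1] at h1
  · intro t ht
    rw [hγ0]
    rcases eq_or_lt_of_le ht.2 with h1 | h1
    · rw [h1, hγ1, hdevq]
    · rw [hγlt t h1, dev_mv hdev (h t ht.1 h1)]

end basic

section cd

variable {V Y : Type*} [NormedAddCommGroup V] [NormedSpace ℝ V] [TopologicalSpace Y] [T2Space Y]
  {dev : Y → V}

/-- the complete directions: all straight paths in these directions exist for all times -/
noncomputable def Cd (dev : Y → V) (hdev : IsLocalHomeomorph dev) : Submodule ℝ V where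
  carrier := {c | ∀ (y : Y) (t : ℝ), t • c ∈ E dev y}
  zero_mem' := fun y t => by rw [smul_zero]; exact zero_mem_E hdev y
  smul_mem' := fun a c hc y t => by rw [smul_smul]; exact hc y _
  add_mem' := fun {c c'} hc hc' y t => by
    have h1 := path hdev (γ := fun s => mv dev (mv dev y (s • t • c)) (s • t • c'))
      (v := t • (c + c')) ?_ ?_
    · have h2 := h1.1
      simp only [zero_smul] at h2
      rwa [mv_zero hdev, mv_zero hdev] at h2
    · have hf : ContinuousOn (fun s : ℝ => mv dev y (s • t • c)) (Icc 0 1) :=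
        continuousOn_mv_comp hdev continuousOn_const
          (continuous_id.smul continuous_const).continuousOn fun s _ => by
            rw [smul_smul]; exact hc y _
      exact continuousOn_mv_comp hdev hf (continuous_id.smul continuous_const).continuousOn
        fun s _ => by
          have := hc' (mv dev y (s • t • c)) (s * t)
          rwa [mul_smul] at this
    · intro s _
      have e1 : s • t • c ∈ E dev y := by rw [smul_smul]; exact hc y _
      have e2 : s • t • c' ∈ E dev (mv dev y (s • t • c)) := by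
        have := hc' (mv dev y (s • t • c)) (s * t)
        rwa [mul_smul] at this
      simp only [zero_smul]
      rw [mv_zero hdev, mv_zero hdev, dev_mv hdev e2, dev_mv hdev e1, smul_add, smul_add]
      abel

variable (hdev : IsLocalHomeomorph dev)

theorem mem_Cd {c : V} : c ∈ Cd dev hdev ↔ ∀ (y : Y) (t : ℝ), t • c ∈ E dev y := Iff.rfl

theorem mem_E_of_Cd {c : V} (hc : c ∈ Cd dev hdev) (y : Y) : c ∈ E dev y := by
  have := hc y 1
  rwa [one_smul] at this

/-- moving by a complete direction after `v` -/
theorem add_Cd {y : Y} {v c : V} (hv : v ∈ E dev y) (hc : c ∈ Cd dev hdev) :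
    v + c ∈ E dev y ∧ mv dev y (v + c) = mv dev (mv dev y v) c := by
  have h1 := path hdev (γ := fun s => mv dev (mv dev y (s • v)) (s • c)) (v := v + c) ?_ ?_
  · simp only [zero_smul, one_smul] at h1
    rwa [mv_zero hdev, mv_zero hdev] at h1
  · have hf : ContinuousOn (fun s : ℝ => mv dev y (s • v)) (Icc 0 1) :=
      continuousOn_mv_comp hdev continuousOn_const
        (continuous_id.smul continuous_const).continuousOn fun s hs => smul_mem_E hv hs.1 hs.2
    exact continuousOn_mv_comp hdev hf (continuous_id.smul continuous_const).continuousOn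
      fun s _ => hc _ _
  · intro s hs
    simp only [zero_smul]
    rw [mv_zero hdev, mv_zero hdev, dev_mv hdev (hc _ _), dev_mv hdev (smul_mem_E hv hs.1 hs.2),
      smul_add]
    abel

/-- moving by `v` after a complete direction -/
theorem Cd_add {y : Y} {v c : V} (hv : v ∈ E dev y) (hc : c ∈ Cd dev hdev) :
    v ∈ E dev (mv dev y c) ∧ mv dev (mv dev y c) v = mv dev y (v + c) := by
  have h1 := path hdev (γ := fun s => mv dev (mv dev y (s • v)) c) (v := v) ?_ ?_
  · simp only [zero_smul, one_smul] at h1
    rw [mv_zero hdev] at h1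
    rw [h1.2, (add_Cd hdev hv hc).2]
    exact ⟨h1.1, rfl⟩
  · have hf : ContinuousOn (fun s : ℝ => mv dev y (s • v)) (Icc 0 1) :=
      continuousOn_mv_comp hdev continuousOn_const
        (continuous_id.smul continuous_const).continuousOn fun s hs => smul_mem_E hv hs.1 hs.2
    exact continuousOn_mv_comp hdev hf continuousOn_const fun s _ => mem_E_of_Cd hdev hc _
  · intro s hs
    simp only [zero_smul]
    rw [mv_zero hdev, dev_mv hdev (mem_E_of_Cd hdev hc _), dev_mv hdev (mem_E_of_Cd hdev hc _),
      dev_mv hdev (smul_mem_E hv hs.1 hs.2)]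
    abel

theorem mv_neg_Cd {y : Y} {c : V} (hc : c ∈ Cd dev hdev) :
    mv dev (mv dev y c) (-c) = y := by
  have h := add_Cd hdev (y := y) (mem_E_of_Cd hdev hc y) (Submodule.neg_mem _ hc)
  rw [add_neg_cancel, mv_zero hdev] at h
  exact h.2.symm

theorem add_Cd_iff {y : Y} {v c : V} (hc : c ∈ Cd dev hdev) : v + c ∈ E dev y ↔ v ∈ E dev y := by
  refine ⟨fun h => ?_, fun h => (add_Cd hdev h hc).1⟩
  have h1 := (add_Cd hdev h (Submodule.neg_mem _ hc)).1
  rwa [add_neg_cancel_right] at h1

/-- the domain only depends on the leaf of the complete directions -/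
theorem E_mv_Cd {y : Y} {c : V} (hc : c ∈ Cd dev hdev) : E dev (mv dev y c) = E dev y := by
  ext v
  refine ⟨fun h => ?_, fun h => (Cd_add hdev h hc).1⟩
  have h1 := (Cd_add hdev h (Submodule.neg_mem _ hc)).1
  rwa [mv_neg_Cd hdev hc] at h1

/-- adding complete directions to the vector, equality of membership for differences in `Cd` -/
theorem mem_E_congr {y : Y} {v v' : V} (h : v' - v ∈ Cd dev hdev) :
    v' ∈ E dev y ↔ v ∈ E dev y := by
  have h1 := add_Cd_iff hdev (y := y) (v := v) h
  rwa [add_sub_cancel] at h1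

/-- if all directions are complete then `dev` is a homeomorphism -/
theorem complete_of_Cd [ConnectedSpace Y] (h : Cd dev hdev = ⊤) : ∃ e : Y ≃ₜ V, ⇑e = dev := by
  obtain ⟨y⟩ := (inferInstance : Nonempty Y)
  refine complete_of_dom_univ hdev (y := y) (eq_univ_of_forall fun x => ?_)
  have h1 : x - dev y ∈ Cd dev hdev := by rw [h]; trivial
  have h2 := mem_E_of_Cd hdev h1 y
  rwa [mem_E, add_sub_cancel] at h2

end cd

end Pool.Agent.CYC
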