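import Pool.Agent.CYC.Exp

/-!
# Equivariance, compactness and Step 0

Everything here holds for an arbitrary compact affine manifold (no condition on the holonomy).
-/

set_option autoImplicit false
set_option linter.unusedSectionVars false

open Set Filter Topology

namespace Pool.Agent.CYC

open Pool.Agent.Helper2.MK Pool.Agent.Helper50.HL Pool.Agent.Helper2.RO

variable {V G Y : Type*} [NormedAddCommGroup V] [NormedSpace ℝ V] [FiniteDimensional ℝ V]
  [Group G] [TopologicalSpace Y] [T2Space Y] [MulAction G Y] (M : AffineDeveloping V G Y)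

theorem E_smul (g : G) (y : Y) (v : V) : lin M g v ∈ E M.dev (g • y) ↔ v ∈ E M.dev y := by
  rw [mem_E, mem_E, ← dom_smul M g y (M.dev y + v), M.dev_smul]
  have h := hol_sub M g (M.dev y + v) (M.dev y)
  rw [add_sub_cancel_left, sub_eq_iff_eq_add] at h
  rw [h, add_comm]

theorem mv_smul (g : G) {y : Y} {v : V} (hv : v ∈ E M.dev y) :
    mv M.dev (g • y) (lin M g v) = g • mv M.dev y v := by
  unfold mv
  rw [← sec_smul M g y hv, M.dev_smul]
  have h := hol_sub M g (M.dev y + v) (M.dev y)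
  rw [add_sub_cancel_left, sub_eq_iff_eq_add] at h
  rw [h, add_comm]

theorem mem_E_smul_iff (g : G) (y : Y) (v : V) :
    v ∈ E M.dev (g • y) ↔ lin M g⁻¹ v ∈ E M.dev y := by
  rw [← E_smul M g y, lin_lin_inv]

theorem mv_smul' (g : G) {y : Y} {v : V} (hv : v ∈ E M.dev (g • y)) :
    mv M.dev (g • y) v = g • mv M.dev y (lin M g⁻¹ v) := by
  rw [mem_E_smul_iff] at hv
  rw [← mv_smul M g hv, lin_lin_inv]

theorem lin_smul (g : G) (a : ℝ) (v : V) : lin M g (a • v) = a • lin M g v := map_smul _ _ _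

theorem lin_add (g : G) (v w : V) : lin M g (v + w) = lin M g v + lin M g w := map_add _ _ _

theorem lin_sub (g : G) (v w : V) : lin M g (v - w) = lin M g v - lin M g w := map_sub _ _ _

theorem lin_neg (g : G) (v : V) : lin M g (-v) = -lin M g v := map_neg _ _

theorem lin_zero (g : G) : lin M g 0 = 0 := map_zero _

theorem lin_Cd (g : G) {c : V} (hc : c ∈ Cd M.dev M.dev_local) :
    lin M g c ∈ Cd M.dev M.dev_local := by
  intro y t
  have h := (E_smul M g (g⁻¹ • y) (t • c)).2 (hc _ t)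
  rwa [smul_inv_smul, lin_smul] at h

theorem lin_Cd_iff (g : G) {c : V} :
    lin M g c ∈ Cd M.dev M.dev_local ↔ c ∈ Cd M.dev M.dev_local := by
  refine ⟨fun h => ?_, lin_Cd M g⟩
  have h1 := lin_Cd M g⁻¹ h
  rwa [lin_inv_lin] at h1

/-- compactness constants -/
structure Cpt where
  /-- compact set meeting all orbits -/
  K : Set Y
  /-- compact set containing the closed half balls over `K` -/
  K1 : Set Y
  /-- radius of balls over `K` -/
  r : ℝ
  hK : IsCompact K
  hK1 : IsCompact K1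
  cover : ∀ y : Y, ∃ g : G, ∃ z ∈ K, y = g • z
  hr : 0 < r
  ball : ∀ z ∈ K, ∀ v : V, ‖v‖ < r → v ∈ E M.dev z
  half : ∀ z ∈ K, ∀ v : V, ‖v‖ ≤ r / 2 → mv M.dev z v ∈ K1

theorem exists_cpt : Nonempty (Cpt M) := by
  obtain ⟨Fr⟩ := exists_frame M
  refine ⟨⟨Fr.K, Fr.K1, Fr.r0, Fr.hK, Fr.hK1, Fr.cover, Fr.hr0, ?_, ?_⟩⟩
  · intro z hz v hv
    apply Fr.ball z hz
    rw [mem_ball_iff_norm, add_sub_cancel_left]
    exact hv
  · intro z hz v hv
    apply Fr.half z hz
    rw [add_sub_cancel_left]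
    exact hv

variable {M}

/-- a vector is visible from `g • z` if it is short for the norm of the frame `g` -/
theorem Cpt.mem_E (Q : Cpt M) (g : G) {z : Y} (hz : z ∈ Q.K) {v : V}
    (hv : ‖lin M g⁻¹ v‖ < Q.r) : v ∈ E M.dev (g • z) := by
  rw [mem_E_smul_iff]
  exact Q.ball z hz _ hv

theorem Cpt.mv_mem (Q : Cpt M) (g : G) {z : Y} (hz : z ∈ Q.K) {v : V}
    (hv : ‖lin M g⁻¹ v‖ ≤ Q.r / 2) : ∃ k ∈ Q.K1, mv M.dev (g • z) v = g • k := by
  have h1 : v ∈ E M.dev (g • z) := Q.mem_E g hz (by have := Q.hr; linarith)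
  exact ⟨_, Q.half z hz _ hv, mv_smul' M g h1⟩

/-- a uniform radius along a compact set of base points -/
theorem exists_ball {K : Set Y} (hK : IsCompact K) :
    ∃ r : ℝ, 0 < r ∧ ∀ z ∈ K, ∀ v : V, ‖v‖ < r → v ∈ E M.dev z := by
  obtain ⟨r, hr, h⟩ := exists_radius M.dev_local hK
  refine ⟨r, hr, fun z hz v hv => h z hz ?_⟩
  rw [mem_ball_iff_norm, add_sub_cancel_left]
  exact hv

variable (M)

/-- the vector `v` is visible for all times as soon as a fixed positive multiple is visible from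
every point -/
theorem mem_Cd_of_uniform {v : V} {δ : ℝ} (hδ : 0 < δ)
    (h : ∀ (y : Y) (s : ℝ), |s| ≤ δ → s • v ∈ E M.dev y) : v ∈ Cd M.dev M.dev_local := by
  have key : ∀ (n : ℕ) (ε : ℝ), |ε| ≤ 1 → ∀ y : Y, ((n : ℝ) * (ε * δ)) • v ∈ E M.dev y := by
    intro n ε hε
    induction n with
    | zero =>
      intro y
      rw [Nat.cast_zero, zero_mul, zero_smul]
      exact zero_mem_E M.dev_local y
    | succ n ih =>
      intro y
      have hb : |ε * δ| ≤ δ := by
        rw [abs_mul, abs_of_pos hδ]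
        exact mul_le_of_le_one_left hδ.le hε
      have h1 : (1 : ℝ) • ((ε * δ) • v) ∈ E M.dev y := by rw [one_smul]; exact h y _ hb
      have h2 : (n : ℝ) • ((ε * δ) • v) ∈ E M.dev (mv M.dev y ((1 : ℝ) • ((ε * δ) • v))) := by
        have h4 := ih (mv M.dev y ((1 : ℝ) • ((ε * δ) • v)))
        rwa [mul_smul (n : ℝ) (ε * δ) v] at h4
      have h3 := (ray_extend M.dev_local zero_le_one (Nat.cast_nonneg n) h1 h2).1
      rw [smul_smul] at h3
      have e : (((n + 1 : ℕ) : ℝ) * (ε * δ)) = (1 + (n : ℝ)) * (ε * δ) := by push_cast; ring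
      rw [e]
      exact h3
  intro y t
  obtain ⟨n, hn⟩ := exists_nat_gt (|t| / δ)
  have hn0 : (0 : ℝ) < n := lt_of_le_of_lt (div_nonneg (abs_nonneg _) hδ.le) hn
  have h1 := key n (t / (n * δ)) ?_ y
  · have e : (n : ℝ) * (t / (n * δ) * δ) = t := by
      field_simp
    rwa [e] at h1
  · rw [abs_div, abs_of_pos (mul_pos hn0 hδ), div_le_one (mul_pos hn0 hδ)]
    rw [div_lt_iff₀ hδ] at hn
    exact hn.le

/-- **Step 0.** A vector whose orbit under the linear holonomy stays at bounded distance from the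
complete directions is a complete direction. -/
theorem mem_Cd_of_bdd {v : V} {R : ℝ}
    (h : ∀ g : G, ∃ c ∈ Cd M.dev M.dev_local, ‖lin M g v - c‖ ≤ R) :
    v ∈ Cd M.dev M.dev_local := by
  obtain ⟨Q⟩ := exists_cpt M
  have hR : 0 ≤ R := by
    obtain ⟨c, -, hc⟩ := h 1
    exact (norm_nonneg _).trans hc
  have hr := Q.hr
  have hδ : 0 < Q.r / (2 * (R + 1)) := by positivity
  refine mem_Cd_of_uniform M hδ fun y s hs => ?_
  obtain ⟨g, z, hz, rfl⟩ := Q.cover y
  obtain ⟨c, hc, hc'⟩ := h g⁻¹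
  have h1 : lin M g⁻¹ (s • v) = s • (lin M g⁻¹ v - c) + s • c := by
    rw [lin_smul, smul_sub]; abel
  rw [mem_E_smul_iff, h1, add_Cd_iff M.dev_local (Submodule.smul_mem _ _ hc)]
  refine Q.ball z hz _ ?_
  rw [norm_smul, Real.norm_eq_abs]
  calc |s| * ‖lin M g⁻¹ v - c‖ ≤ Q.r / (2 * (R + 1)) * R :=
        mul_le_mul hs hc' (norm_nonneg _) hδ.le
    _ < Q.r := by
        rw [div_mul_eq_mul_div, div_lt_iff₀ (by positivity)]
        nlinarith

end Pool.Agent.CYC
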