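import Pool.Agent.CYC.Slab
import Pool.Agent.Helper2.MK.StarShaped

/-!
# Translations along the complete directions

Any rank; from `comm_TT` on the linear parts commute.
-/

set_option autoImplicit false
set_option linter.unusedSectionVars false

open Set Filter Topology

namespace Pool.Agent.CYC

open Pool.Agent.Helper2.MK Pool.Agent.Helper50.HL Pool.Agent.Helper2.RO

variable {V G Y : Type*} [NormedAddCommGroup V] [NormedSpace ℝ V] [FiniteDimensional ℝ V]
  [Group G] [TopologicalSpace Y] [T2Space Y] [MulAction G Y] (M : AffineDeveloping V G Y)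

/-- The translations along the complete directions: vectors `x` in `Cd` such that some element of
the group moves every point `y` to `y + x`. -/
noncomputable def TT : AddSubgroup V where
  carrier := {x | x ∈ Cd M.dev M.dev_local ∧
    ∃ g : G, (∀ v, lin M g v = v) ∧ ∀ y, g • y = mv M.dev y x}
  zero_mem' := by
    refine ⟨Submodule.zero_mem _, 1, fun v => lin_one M v, fun y => ?_⟩
    rw [one_smul, mv_zero M.dev_local]
  add_mem' := by
    rintro a b ⟨ha, g, hg, hg'⟩ ⟨hb, h, hh, hh'⟩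
    refine ⟨Submodule.add_mem _ ha hb, g * h, fun v => ?_, fun y => ?_⟩
    · rw [lin_mul, hh, hg]
    · rw [mul_smul, hg', hh', add_comm a b]
      exact (add_Cd M.dev_local (mem_E_of_Cd M.dev_local hb y) ha).2.symm
  neg_mem' := by
    rintro a ⟨ha, g, hg, hg'⟩
    refine ⟨Submodule.neg_mem _ ha, g⁻¹, fun v => ?_, fun y => ?_⟩
    · have h1 := lin_inv_lin M g v
      rwa [hg] at h1
    · rw [inv_smul_eq_iff, hg']
      have h1 := add_Cd M.dev_local (y := y)
        (mem_E_of_Cd M.dev_local (Submodule.neg_mem _ ha) y) ha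
      rw [neg_add_cancel, mv_zero M.dev_local] at h1
      exact h1.2

theorem mem_TT {x : V} : x ∈ TT M ↔ x ∈ Cd M.dev M.dev_local ∧
    ∃ g : G, (∀ v, lin M g v = v) ∧ ∀ y, g • y = mv M.dev y x := Iff.rfl

theorem TT_le : (TT M : Set V) ⊆ Cd M.dev M.dev_local := fun x hx => hx.1

theorem TT_discrete [Nonempty Y] : ∃ ε : ℝ, 0 < ε ∧ ∀ x ∈ TT M, ‖x‖ < ε → x = 0 := by
  classical
  obtain ⟨y⟩ := (inferInstance : Nonempty Y)
  obtain ⟨Q⟩ := exists_cpt M
  obtain ⟨-, z, hz, -⟩ := Q.cover y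
  have hr := Q.hr
  have hfin := M.covering.proper Q.K1 Q.hK1
  set F : Set V := (fun g : G => M.dev (g • z) - M.dev z) ''
    {g : G | (((fun y => g • y) '' Q.K1) ∩ Q.K1).Nonempty} \ {0} with hF
  have hFfin : F.Finite := (hfin.image _).subset sdiff_subset
  have hU : Fᶜ ∈ 𝓝 (0 : V) := hFfin.isClosed.isOpen_compl.mem_nhds fun h => h.2 rfl
  obtain ⟨ε, hε, hball⟩ := Metric.mem_nhds_iff.1 hU
  refine ⟨min ε (Q.r / 2), lt_min hε (by linarith), ?_⟩
  rintro x ⟨hx, g, -, hg⟩ hn
  by_contra hne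
  have h0 : z ∈ Q.K1 := by
    have h1 := Q.half z hz 0 (by rw [norm_zero]; linarith)
    rwa [mv_zero M.dev_local] at h1
  have h2 : g • z ∈ Q.K1 := by
    rw [hg z]
    exact Q.half z hz x (hn.le.trans (min_le_right _ _))
  have h4 : M.dev (g • z) - M.dev z = x := by
    rw [hg z, dev_mv M.dev_local (mem_E_of_Cd M.dev_local hx z), add_sub_cancel_left]
  refine hball (by rw [mem_ball_zero_iff]; exact hn.trans_le (min_le_left _ _)) (?_ : x ∈ F)
  exact ⟨⟨g, ⟨g • z, ⟨z, h0, rfl⟩, h2⟩, h4⟩, hne⟩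

theorem TT_lin (h : G) {x : V} (hx : x ∈ TT M) : lin M h x ∈ TT M := by
  obtain ⟨hc, g, hg, hg'⟩ := hx
  refine ⟨lin_Cd M h hc, h * g * h⁻¹, fun v => ?_, fun y => ?_⟩
  · rw [lin_mul, lin_mul, hg, lin_lin_inv]
  · rw [mul_smul, mul_smul, hg', ← mv_smul M h (mem_E_of_Cd M.dev_local hc _), smul_inv_smul]

theorem span_lin (h : G) {x : V} (hx : x ∈ Submodule.span ℝ (TT M : Set V)) :
    lin M h x ∈ Submodule.span ℝ (TT M : Set V) := by
  have h1 : Submodule.span ℝ (TT M : Set V) ≤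
      (Submodule.span ℝ (TT M : Set V)).comap (lin M h).toLinearMap := by
    rw [Submodule.span_le]
    intro x hx
    exact Submodule.subset_span (TT_lin M h hx)
  exact h1 hx

theorem span_le_Cd : Submodule.span ℝ (TT M : Set V) ≤ Cd M.dev M.dev_local :=
  Submodule.span_le.2 (TT_le M)

/-- `g` acts trivially modulo the complete directions -/
def Sg (P : V →L[ℝ] V) (g : G) : Prop :=
  (∀ y, Nr M g y ∧ P (xg M g y) = 0) ∧ ∀ v, P (lin M g v) = P v

variable {M} {P : V →L[ℝ] V} (hP : IsProj M P) (hinc : ∀ y, dom M.dev y ≠ univ)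
include hP hinc

theorem Sg_of [ConnectedSpace Y] {g : G} {y0 : Y} (h0 : Nr M g y0) (h1 : P (xg M g y0) = 0)
    (h2 : ∀ v, P (lin M g v) = P v) : Sg M P g :=
  ⟨fun y => nr_triv hP hinc h0 h1 h2 y, h2⟩

/-- an element with trivial linear part moving some point inside its leaf is a translation -/
theorem mem_TT_of [ConnectedSpace Y] {g : G} (hg : ∀ v, lin M g v = v) {y0 : Y}
    (hn : Nr M g y0) (h : P (xg M g y0) = 0) : xg M g y0 ∈ TT M := by
  refine ⟨(mem_Cd_iff_P hP _).2 h, g, hg, fun y => ?_⟩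
  have h1 := nr_triv hP hinc hn h (fun v => by rw [hg]) y
  have h2 : xg M g y = xg M g y0 := by
    rw [xg_eq M g y0 y, hg, sub_self, add_zero]
  rw [← h2]
  exact h1.1.2

omit hinc in
/-- the inverse of an element of `Sg` also moves every point along its leaf -/
theorem Sg_inv_smul {g : G} (hg : Sg M P g) (y : Y) :
    ∃ c ∈ Cd M.dev M.dev_local, g⁻¹ • y = mv M.dev y c := by
  have h1 := hg.1 (g⁻¹ • y)
  have hc : xg M g (g⁻¹ • y) ∈ Cd M.dev M.dev_local := (mem_Cd_iff_P hP _).2 h1.2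
  refine ⟨-xg M g (g⁻¹ • y), Submodule.neg_mem _ hc, ?_⟩
  have h2 : y = mv M.dev (g⁻¹ • y) (xg M g (g⁻¹ • y)) := by
    have := h1.1.2
    rwa [smul_inv_smul] at this
  have h3 : mv M.dev y (-xg M g (g⁻¹ • y)) = g⁻¹ • y := by
    have h4 := mv_neg_Cd M.dev_local (y := g⁻¹ • y) hc
    rwa [← h2] at h4
  exact h3.symm

/-- commutators of elements of `Sg` with arbitrary elements are translations in `TT` -/
theorem comm_TT [ConnectedSpace Y] (hcomm : ∀ (g h : G) (v : V), lin M g (lin M h v) = lin M h (lin M g v))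
    {g : G} (hg : Sg M P g) (h : G) :
    ∃ x ∈ TT M, ∀ z : V, M.hol h (M.hol g z) - M.hol g (M.hol h z) = x := by
  obtain ⟨y⟩ := (inferInstance : Nonempty Y)
  have hk : ∀ v, lin M (h * g * h⁻¹ * g⁻¹) v = v := by
    intro v
    rw [lin_mul, lin_mul, lin_mul, hcomm h g, lin_lin_inv, lin_lin_inv]
  obtain ⟨c1, hc1, h1⟩ := Sg_inv_smul hP hg y
  -- the commutator moves `y` along its leaf
  have hl1 : lin M h⁻¹ c1 ∈ Cd M.dev M.dev_local := lin_Cd M _ hc1
  set c2 : V := xg M g (mv M.dev (h⁻¹ • y) (lin M h⁻¹ c1)) with hc2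
  have h2 := hg.1 (mv M.dev (h⁻¹ • y) (lin M h⁻¹ c1))
  have hc2m : c2 ∈ Cd M.dev M.dev_local := (mem_Cd_iff_P hP _).2 h2.2
  have h3 : g • h⁻¹ • g⁻¹ • y = mv M.dev (h⁻¹ • y) (lin M h⁻¹ c1 + c2) := by
    rw [h1, ← mv_smul M h⁻¹ (mem_E_of_Cd M.dev_local hc1 y), h2.1.2]
    exact (add_Cd M.dev_local (mem_E_of_Cd M.dev_local hl1 _) hc2m).2.symm
  have hs : lin M h⁻¹ c1 + c2 ∈ Cd M.dev M.dev_local := Submodule.add_mem _ hl1 hc2m
  have h4 : (h * g * h⁻¹ * g⁻¹) • y = mv M.dev y (lin M h (lin M h⁻¹ c1 + c2)) := by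
    rw [mul_smul, mul_smul, mul_smul, h3, ← mv_smul M h (mem_E_of_Cd M.dev_local hs _),
      smul_inv_smul]
  have hs' : lin M h (lin M h⁻¹ c1 + c2) ∈ Cd M.dev M.dev_local := lin_Cd M _ hs
  have h5 : xg M (h * g * h⁻¹ * g⁻¹) y = lin M h (lin M h⁻¹ c1 + c2) := by
    unfold xg
    rw [h4, dev_mv M.dev_local (mem_E_of_Cd M.dev_local hs' y), add_sub_cancel_left]
  have hn : Nr M (h * g * h⁻¹ * g⁻¹) y := by
    refine ⟨?_, ?_⟩
    · rw [h5]; exact mem_E_of_Cd M.dev_local hs' y
    · rw [h5]; exact h4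
  have h6 := mem_TT_of hP hinc hk hn (by rw [h5]; exact (mem_Cd_iff_P hP _).1 hs')
  refine ⟨_, h6, fun z => ?_⟩
  have h7 : M.hol (h * g * h⁻¹ * g⁻¹) (M.hol g (M.hol h z)) = M.hol h (M.hol g z) := by
    rw [← M.hol_mul, ← M.hol_mul, ← M.hol_mul]
    congr 1
    group
  have h8 := hol_sub M (h * g * h⁻¹ * g⁻¹) (M.hol g (M.hol h z)) (M.dev y)
  rw [hk, h7, ← M.dev_smul] at h8
  unfold xg
  have h9 : M.hol h (M.hol g z) = M.hol g (M.hol h z) - M.dev y + M.dev ((h * g * h⁻¹ * g⁻¹) • y) :=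
    sub_eq_iff_eq_add.1 h8
  rw [h9]
  abel

omit hP hinc in
theorem lin_pow_succ (g : G) (n : ℕ) (v : V) : lin M (g ^ (n + 1)) v = lin M (g ^ n) (lin M g v) := by
  rw [pow_succ, lin_mul]

omit hP hinc in
/-- unipotent elements with bounded powers are trivial, modulo an invariant subspace -/
theorem sq_mem {g : G} (S : Submodule ℝ V) (hS : ∀ v ∈ S, lin M g v ∈ S) {κ : ℝ}
    (hb : ∀ (n : ℕ) (v : V), ‖lin M (g ^ n) v‖ ≤ κ * ‖v‖) {v : V}
    (hv : lin M g (lin M g v - v) - (lin M g v - v) ∈ S) : lin M g v - v ∈ S := by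
  set w : V := lin M g v - v with hw
  have hSn : ∀ (n : ℕ), ∀ v ∈ S, lin M (g ^ n) v ∈ S := by
    intro n
    induction n with
    | zero => intro v hv; rw [pow_zero, lin_one]; exact hv
    | succ n ih => intro v hv; rw [lin_pow_succ]; exact ih _ (hS v hv)
  have h1 : ∀ n : ℕ, lin M (g ^ n) w - w ∈ S := by
    intro n
    induction n with
    | zero => rw [pow_zero, lin_one, sub_self]; exact Submodule.zero_mem _
    | succ n ih =>
      rw [lin_pow_succ]
      have e : lin M (g ^ n) (lin M g w) - w =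
          lin M (g ^ n) (lin M g w - w) + (lin M (g ^ n) w - w) := by
        rw [lin_sub (g := g ^ n)]; abel
      rw [e]
      exact Submodule.add_mem _ (hSn n _ hv) ih
  have h2 : ∀ n : ℕ, lin M (g ^ n) v - v - (n : ℝ) • w ∈ S := by
    intro n
    induction n with
    | zero =>
      rw [pow_zero, lin_one, sub_self, Nat.cast_zero, zero_smul, sub_zero]
      exact Submodule.zero_mem _
    | succ n ih =>
      rw [lin_pow_succ]
      have e : lin M (g ^ n) (lin M g v) - v - ((n + 1 : ℕ) : ℝ) • w =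
          (lin M (g ^ n) w - w) + (lin M (g ^ n) v - v - (n : ℝ) • w) := by
        rw [hw, lin_sub, Nat.cast_succ, add_smul, one_smul]; abel
      rw [e]
      exact Submodule.add_mem _ (h1 n) ih
  -- `w` is a limit of elements of `S`
  have hcl : IsClosed (S : Set V) := S.closed_of_finiteDimensional
  have h3 : Tendsto (fun n : ℕ => -((n : ℝ)⁻¹ • (lin M (g ^ n) v - v - (n : ℝ) • w))) atTop
      (𝓝 w) := by
    have h4 : Tendsto (fun n : ℕ => (n : ℝ)⁻¹ • (lin M (g ^ n) v - v)) atTop (𝓝 0) := by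
      rw [tendsto_zero_iff_norm_tendsto_zero]
      refine squeeze_zero (g := fun n : ℕ => (n : ℝ)⁻¹ * (κ * ‖v‖ + ‖v‖)) (fun n => norm_nonneg _)
        (fun n => ?_) ?_
      · rw [norm_smul, norm_inv, Real.norm_natCast]
        exact mul_le_mul_of_nonneg_left ((norm_sub_le _ _).trans (by have := hb n v; linarith))
          (by positivity)
      · have h5 := (tendsto_inv_atTop_nhds_zero_nat (𝕜 := ℝ)).mul_const (κ * ‖v‖ + ‖v‖)
        rwa [zero_mul] at h5
    have h6 : Tendsto (fun n : ℕ => w - (n : ℝ)⁻¹ • (lin M (g ^ n) v - v)) atTop (𝓝 w) := by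
      have h7 := (tendsto_const_nhds (x := w)).sub h4
      rwa [sub_zero] at h7
    refine h6.congr' ?_
    filter_upwards [eventually_gt_atTop 0] with n hn
    have hn' : (n : ℝ) ≠ 0 := by positivity
    have e : (n : ℝ)⁻¹ • ((n : ℝ) • w) = w := by
      rw [smul_smul, inv_mul_cancel₀ hn', one_smul]
    rw [smul_sub _ (lin M (g ^ n) v - v), e]
    abel
  exact hcl.mem_of_tendsto h3 (Eventually.of_forall fun n =>
    Submodule.neg_mem _ (Submodule.smul_mem _ _ (h2 n)))

/-- an element of `Sg` whose powers have bounded linear parts has trivial linear part modulo the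
span of the translations (invariant affine subspaces, `convex_case`) -/
theorem central [ConnectedSpace Y]
    (hcomm : ∀ (g h : G) (v : V), lin M g (lin M h v) = lin M h (lin M g v))
    {g : G} (hg : Sg M P g) {κ : ℝ} (hb : ∀ (n : ℕ) (v : V), ‖lin M (g ^ n) v‖ ≤ κ * ‖v‖) (v : V) :
    lin M g v - v ∈ Submodule.span ℝ (TT M : Set V) := by
  set S : Submodule ℝ V := Submodule.span ℝ (TT M : Set V) with hS
  have hSlin : ∀ (h : G), ∀ x ∈ S, lin M h x ∈ S := fun h x hx => span_lin M h hx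
  -- the displacement of `g`
  obtain ⟨d, hd⟩ : ∃ d : V → V, ∀ x, d x = M.hol g x - x := ⟨_, fun _ => rfl⟩
  have hdsub : ∀ x x' : V, d x - d x' = lin M g (x - x') - (x - x') := by
    intro x x'
    rw [← hol_sub, hd, hd]
    abel
  have hsq : ∀ v : V, lin M g (lin M g v - v) - (lin M g v - v) ∈ S → lin M g v - v ∈ S :=
    fun v hv => sq_mem S (hSlin g) hb hv
  -- a point whose displacement is fixed by `g` modulo `S`
  obtain ⟨x0, hx0⟩ : ∃ x0 : V, lin M g (d x0) - d x0 ∈ S := by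
    set N : V →ₗ[ℝ] V := (lin M g).toLinearMap - LinearMap.id with hN
    have hNa : ∀ v, N v = lin M g v - v := fun v => rfl
    have hNS : S ≤ S.comap N := fun x hx => by
      rw [Submodule.mem_comap, hNa]
      exact Submodule.sub_mem _ (hSlin g x hx) hx
    set N' : (V ⧸ S) →ₗ[ℝ] (V ⧸ S) := S.mapQ S N hNS with hN'
    have hN'a : ∀ v, N' (S.mkQ v) = S.mkQ (N v) := fun v => rfl
    have hker : LinearMap.ker (N' ∘ₗ N') = LinearMap.ker N' := by
      refine le_antisymm ?_ ?_
      · intro w hw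
        obtain ⟨v, rfl⟩ := S.mkQ_surjective w
        rw [LinearMap.mem_ker, LinearMap.comp_apply, hN'a, hN'a, Submodule.mkQ_apply,
          Submodule.Quotient.mk_eq_zero, hNa, hNa] at hw
        rw [LinearMap.mem_ker, hN'a, Submodule.mkQ_apply, Submodule.Quotient.mk_eq_zero, hNa]
        exact hsq v hw
      · intro w hw
        rw [LinearMap.mem_ker] at hw
        rw [LinearMap.mem_ker, LinearMap.comp_apply, hw, map_zero]
    have hrange : LinearMap.range (N' ∘ₗ N') = LinearMap.range N' := by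
      refine Submodule.eq_of_le_of_finrank_eq (LinearMap.range_comp_le_range _ _) ?_
      have h1 := LinearMap.finrank_range_add_finrank_ker (N' ∘ₗ N')
      have h2 := LinearMap.finrank_range_add_finrank_ker N'
      rw [hker] at h1
      omega
    have hb0 : N' (S.mkQ (-(d 0))) ∈ LinearMap.range (N' ∘ₗ N') := by
      rw [hrange]
      exact ⟨_, rfl⟩
    obtain ⟨w, hw⟩ := hb0
    obtain ⟨x0, rfl⟩ := S.mkQ_surjective w
    refine ⟨x0, ?_⟩
    rw [LinearMap.comp_apply, hN'a, hN'a, hN'a, ← sub_eq_zero, ← map_sub, Submodule.mkQ_apply,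
      Submodule.Quotient.mk_eq_zero, ← map_sub, hNa, hNa] at hw
    have e : lin M g x0 - x0 - -(d 0) = d x0 := by
      have := hdsub x0 0
      rw [sub_zero] at this
      rw [← this]
      abel
    rwa [e] at hw
  set t0 : V := d x0 with ht0
  -- displacements transform by the linear holonomy
  have hdh : ∀ (h : G) (x : V), d (M.hol h x) - lin M h (d x) ∈ S := by
    intro h x
    obtain ⟨τ, hτ, hτ'⟩ := comm_TT hP hinc hcomm hg h
    have h1 := hτ' x
    have e : d (M.hol h x) - lin M h (d x) = -τ := by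
      rw [← h1, hd, hd, ← hol_sub]
      abel
    rw [e]
    exact Submodule.neg_mem _ (Submodule.subset_span hτ)
  have ht0h : ∀ h : G, lin M h t0 - t0 ∈ S := by
    intro h
    have h1 := hdh h x0
    have h2 : lin M g (d (M.hol h x0)) - d (M.hol h x0) ∈ S := by
      have h3 : lin M g (d (M.hol h x0) - lin M h t0) - (d (M.hol h x0) - lin M h t0) ∈ S :=
        Submodule.sub_mem _ (hSlin g _ h1) h1
      have h4 : lin M h (lin M g t0 - t0) ∈ S := hSlin h _ hx0
      have e : lin M g (d (M.hol h x0)) - d (M.hol h x0) =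
          (lin M g (d (M.hol h x0) - lin M h t0) - (d (M.hol h x0) - lin M h t0)) +
            lin M h (lin M g t0 - t0) := by
        rw [lin_sub M g, lin_sub M h, hcomm g h]
        abel
      rw [e]
      exact Submodule.add_mem _ h3 h4
    have h5 : d (M.hol h x0) - d x0 ∈ S := by
      rw [hdsub]
      refine hsq _ ?_
      rw [← hdsub (M.hol h x0) x0]
      have e : lin M g (d (M.hol h x0) - d x0) - (d (M.hol h x0) - d x0) =
          (lin M g (d (M.hol h x0)) - d (M.hol h x0)) - (lin M g (d x0) - d x0) := by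
        rw [lin_sub]; abel
      rw [e]
      exact Submodule.sub_mem _ h2 hx0
    have e : lin M h t0 - t0 = (d (M.hol h x0) - d x0) - (d (M.hol h x0) - lin M h (d x0)) := by
      rw [← ht0]; abel
    rw [e]
    exact Submodule.sub_mem _ h5 h1
  -- the invariant affine subspace
  set A : Set V := {x | d x - t0 ∈ S} with hA
  have hAconv : Convex ℝ A := by
    intro x hx y hy a b ha hb' hab
    have h1 : d (a • x + b • y) - t0 = a • (d x - t0) + b • (d y - t0) := by
      have h2 := hdsub (a • x + b • y) x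
      have h3 := hdsub y x
      have e1 : a • x + b • y - x = b • (y - x) := by
        have : a = 1 - b := by linarith
        rw [this]; module
      rw [e1, lin_smul, ← smul_sub, ← h3, sub_eq_iff_eq_add] at h2
      rw [h2]
      have : a = 1 - b := by linarith
      rw [this]; module
    show d (a • x + b • y) - t0 ∈ S
    rw [h1]
    exact Submodule.add_mem _ (Submodule.smul_mem _ _ hx) (Submodule.smul_mem _ _ hy)
  have hAinv : M.Invariant A := by
    intro h x hx
    have h1 := hdh h x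
    have h2 : lin M h (d x - t0) ∈ S := hSlin h _ hx
    have h3 := ht0h h
    show d (M.hol h x) - t0 ∈ S
    have e : d (M.hol h x) - t0 = (d (M.hol h x) - lin M h (d x)) + lin M h (d x - t0) +
        (lin M h t0 - t0) := by
      rw [lin_sub]; abel
    rw [e]
    exact Submodule.add_mem _ (Submodule.add_mem _ h1 h2) h3
  have hAne : A.Nonempty := ⟨x0, by
    show d x0 - t0 ∈ S
    rw [← ht0, sub_self]; exact Submodule.zero_mem _⟩
  have hAu := Pool.Agent.Results.MP_df2bd8_gt.NoInvariantStarShaped.convex_case M A hAinv hAne hAconv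
  have h1 : d v - t0 ∈ S := by
    have : v ∈ A := by rw [hAu]; trivial
    exact this
  have h2 : d 0 - t0 ∈ S := by
    have : (0 : V) ∈ A := by rw [hAu]; trivial
    exact this
  have h3 := Submodule.sub_mem _ h1 h2
  have e : d v - t0 - (d 0 - t0) = lin M g v - v := by
    have := hdsub v 0
    rw [sub_zero] at this
    rw [← this]; abel
  rwa [e] at h3

/-- near the identity such an element has trivial linear part -/
theorem lin_eq_self [ConnectedSpace Y]
    (hcomm : ∀ (g h : G) (v : V), lin M g (lin M h v) = lin M h (lin M g v)) :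
    ∃ ε : ℝ, 0 < ε ∧ ∀ g : G, Sg M P g →
      (∃ κ : ℝ, ∀ (n : ℕ) (v : V), ‖lin M (g ^ n) v‖ ≤ κ * ‖v‖) →
      (∀ v, ‖lin M g v - v‖ ≤ ε * ‖v‖) → ∀ v, lin M g v = v := by
  classical
  set S : Submodule ℝ V := Submodule.span ℝ (TT M : Set V) with hS
  obtain ⟨ε0, hε0, hdisc⟩ := TT_discrete M
  obtain ⟨s, hs, hspan⟩ := (Submodule.fg_span_iff_fg_span_finset_subset (R := ℝ) (TT M : Set V)).1
    (IsNoetherian.noetherian _)
  obtain ⟨R, hR⟩ : ∃ R : ℝ, ∀ x ∈ s, ‖x‖ ≤ R := by
    obtain ⟨R, hR⟩ := (s.image norm).bddAbove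
    exact ⟨R, fun x hx => hR (Finset.mem_coe.2 (Finset.mem_image_of_mem _ hx))⟩
  set R' : ℝ := max R 0 + 1 with hR'
  have hR'0 : 0 < R' := by have := le_max_right R 0; linarith
  refine ⟨ε0 / R', by positivity, ?_⟩
  rintro g hg ⟨κ, hb⟩ hclose
  have h1 : ∀ x ∈ s, lin M g x = x := by
    intro x hx
    have h2 : lin M g x - x ∈ TT M := AddSubgroup.sub_mem _ (TT_lin M g (hs hx)) (hs hx)
    have h3 : ‖lin M g x - x‖ < ε0 := by
      refine (hclose x).trans_lt ?_
      rw [div_mul_eq_mul_div, div_lt_iff₀ hR'0]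
      have h4 : ‖x‖ < R' := by
        have := hR x hx
        have := le_max_left R 0
        linarith
      exact mul_lt_mul_of_pos_left h4 hε0
    exact sub_eq_zero.1 (hdisc _ h2 h3)
  have h2 : ∀ x ∈ S, lin M g x = x := by
    intro x hx
    rw [hS, hspan] at hx
    induction hx using Submodule.span_induction with
    | mem x hx => exact h1 x hx
    | zero => exact lin_zero M g
    | add x y _ _ hx hy => rw [lin_add, hx, hy]
    | smul a x _ hx => rw [lin_smul, hx]
  intro v
  have h3 := central hP hinc hcomm hg hb v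
  have h4 := h2 _ h3
  have h5 := sq_mem (M := M) (g := g) (⊥ : Submodule ℝ V) (fun v hv => by
    rw [Submodule.mem_bot] at hv
    rw [hv, lin_zero]; exact Submodule.zero_mem _) hb (v := v) (by
      rw [Submodule.mem_bot, h4, sub_self])
  rw [Submodule.mem_bot] at h5
  exact sub_eq_zero.1 h5

/-- **The translations span the complete directions** as soon as the leaves are recurrent. -/
theorem span_TT [ConnectedSpace Y]
    (hcomm : ∀ (g h : G) (v : V), lin M g (lin M h v) = lin M h (lin M g v))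
    (hbd : ∀ g : G, (∀ v, P (lin M g v) = P v) →
      ∃ κ : ℝ, ∀ (n : ℕ) (v : V), ‖lin M (g ^ n) v‖ ≤ κ * ‖v‖)
    (y0 : Y)
    (hrec : ∀ c : ℕ → V, (∀ j, c j ∈ Cd M.dev M.dev_local) → ∀ ε : ℝ, 0 < ε →
      ∃ (j j' : ℕ) (g : G) (e : V), j < j' ∧ ‖e‖ < ε ∧ P e = 0 ∧
        (∀ v, P (lin M g v) = P v) ∧ (∀ v, ‖lin M g v - v‖ ≤ ε * ‖v‖) ∧
        g • mv M.dev y0 (c j) = mv M.dev y0 (c j' + e)) :
    Submodule.span ℝ (TT M : Set V) = Cd M.dev M.dev_local := by
  refine le_antisymm (span_le_Cd M) fun c0 hc0 => ?_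
  by_contra hc0S
  obtain ⟨f, hf0, hfS⟩ := Submodule.exists_le_ker_of_notMem hc0S
  set l : V →L[ℝ] ℝ := LinearMap.toContinuousLinearMap ((f c0)⁻¹ • f) with hl
  have hla : ∀ v, l v = (f c0)⁻¹ * f v := fun v => rfl
  have hl1 : l c0 = 1 := by rw [hla, inv_mul_cancel₀ hf0]
  have hlS : ∀ x ∈ TT M, l x = 0 := by
    intro x hx
    have h1 : f x = 0 := hfS (Submodule.subset_span hx)
    rw [hla, h1, mul_zero]
  obtain ⟨ε1, hε1, hlin⟩ := lin_eq_self hP hinc hcomm
  set ε : ℝ := min ε1 (1 / (‖l‖ + 1)) with hε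
  have hl0 : 0 ≤ ‖l‖ := norm_nonneg l
  have hε0 : 0 < ε := lt_min hε1 (by positivity)
  have hcj : ∀ j : ℕ, (j : ℝ) • c0 ∈ Cd M.dev M.dev_local := fun j => Submodule.smul_mem _ _ hc0
  obtain ⟨j, j', g, e, hjj, he, hPe, hPg, hgl, hgy⟩ := hrec (fun j => (j : ℝ) • c0) hcj ε hε0
  have heC : e ∈ Cd M.dev M.dev_local := (mem_Cd_iff_P hP e).2 hPe
  -- the displacement of `g` at `y1`
  set y1 : Y := mv M.dev y0 ((j : ℝ) • c0) with hy1
  set w : V := (j' : ℝ) • c0 - (j : ℝ) • c0 + e with hw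
  have hwC : w ∈ Cd M.dev M.dev_local :=
    Submodule.add_mem _ (Submodule.sub_mem _ (hcj j') (hcj j)) heC
  have h1 : g • y1 = mv M.dev y1 w := by
    rw [hgy, hy1]
    have h2 := (add_Cd M.dev_local (mem_E_of_Cd M.dev_local (hcj j) y0) hwC).2
    rw [← h2, hw]
    congr 1
    abel
  have h3 : xg M g y1 = w := by
    unfold xg
    rw [h1, dev_mv M.dev_local (mem_E_of_Cd M.dev_local hwC y1), add_sub_cancel_left]
  have h4 : Nr M g y1 := ⟨by rw [h3]; exact mem_E_of_Cd M.dev_local hwC y1, by rw [h3]; exact h1⟩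
  have h5 : P (xg M g y1) = 0 := by rw [h3]; exact (mem_Cd_iff_P hP _).1 hwC
  have h6 : Sg M P g := Sg_of hP hinc h4 h5 hPg
  have h7 := hlin g h6 (hbd g hPg) (fun v => (hgl v).trans
    (mul_le_mul_of_nonneg_right (min_le_left _ _) (norm_nonneg _)))
  have h8 := mem_TT_of hP hinc h7 h4 h5
  have h9 := hlS _ h8
  rw [h3, hw, map_add, map_sub, map_smul, map_smul, hl1, smul_eq_mul, smul_eq_mul, mul_one,
    mul_one] at h9
  have h10 : |l e| < 1 := by
    have h11 : ‖l e‖ ≤ ‖l‖ * ‖e‖ := l.le_opNorm e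
    rw [Real.norm_eq_abs] at h11
    have h12 : ‖e‖ < 1 / (‖l‖ + 1) := he.trans_le (min_le_right _ _)
    rw [lt_div_iff₀ (by positivity)] at h12
    have := norm_nonneg e
    nlinarith
  have h11 : (j : ℝ) + 1 ≤ j' := by exact_mod_cast hjj
  rw [abs_lt] at h10
  linarith [h10.1]

end Pool.Agent.CYC
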