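import Pool.Agent.CYC.Lat
import Pool.Agent.CYC.Buser
import Pool.Agent.CYC.Euclid

/-!
# Translations along the complete directions, without commutativity

The elements acting trivially modulo the complete directions form a group of affine isometries of a
leaf (for a suitable Euclidean norm); by the lemma of Buser its elements with small linear part are
translations.
-/

set_option autoImplicit false
set_option linter.unusedSectionVars false

open Set Filter Topology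

namespace Pool.Agent.CYC

open Pool.Agent.Helper2.MK Pool.Agent.Helper50.HL Pool.Agent.Helper2.RO

variable {V G Y : Type*} [NormedAddCommGroup V] [NormedSpace ℝ V] [FiniteDimensional ℝ V]
  [Group G] [TopologicalSpace Y] [T2Space Y] [MulAction G Y] (M : AffineDeveloping V G Y)

/-- the linear holonomy on the complete directions, as a linear map -/
noncomputable def lcMap (g : G) : Cd M.dev M.dev_local →ₗ[ℝ] Cd M.dev M.dev_local :=
  LinearMap.restrict ((lin M g : V ≃ₗ[ℝ] V) : V →ₗ[ℝ] V) fun _ hc => lin_Cd M g hc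

theorem lcMap_coe (g : G) (c : Cd M.dev M.dev_local) : (lcMap M g c : V) = lin M g c := rfl

/-- the linear holonomy on the complete directions -/
noncomputable def lc (g : G) : Cd M.dev M.dev_local ≃ₗ[ℝ] Cd M.dev M.dev_local :=
  LinearEquiv.ofLinearMap (lcMap M g) (lcMap M g⁻¹)
    (LinearMap.ext fun c => Subtype.ext (by
      rw [LinearMap.comp_apply, lcMap_coe, lcMap_coe, lin_lin_inv]; rfl))
    (LinearMap.ext fun c => Subtype.ext (by
      rw [LinearMap.comp_apply, lcMap_coe, lcMap_coe, lin_inv_lin]; rfl))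

theorem lc_coe (g : G) (c : Cd M.dev M.dev_local) : (lc M g c : V) = lin M g c := rfl

/-- the linear holonomy on the complete directions, as a homomorphism -/
noncomputable def lcHom : G →* (Cd M.dev M.dev_local ≃ₗ[ℝ] Cd M.dev M.dev_local) :=
  MonoidHom.mk' (lc M) fun g g' => LinearEquiv.ext fun c => Subtype.ext (by
    rw [LinearEquiv.mul_apply, lc_coe, lc_coe, lc_coe, lin_mul])

theorem lcHom_coe (g : G) (c : Cd M.dev M.dev_local) : (lcHom M g c : V) = lin M g c := rfl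

variable {M} {P : V →L[ℝ] V} (hP : IsProj M P)

/-- the elements acting trivially modulo the complete directions form a subgroup -/
noncomputable def sgSub : Subgroup G where
  carrier := {g | Sg M P g}
  one_mem' := by
    refine ⟨fun y => ?_, fun v => by rw [lin_one]⟩
    have h : xg M (1 : G) y = 0 := by unfold xg; rw [one_smul, sub_self]
    refine ⟨⟨?_, ?_⟩, ?_⟩
    · rw [h]; exact zero_mem_E M.dev_local y
    · rw [h, one_smul, mv_zero M.dev_local]
    · rw [h, map_zero]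
  mul_mem' := by
    intro g h hg hh
    refine ⟨fun y => ?_, fun v => by rw [lin_mul, hg.2, hh.2]⟩
    have h1 := hh.1 y
    have h2 := hg.1 (h • y)
    have hc1 : xg M h y ∈ Cd M.dev M.dev_local := (mem_Cd_iff_P hP _).2 h1.2
    have hc2 : xg M g (h • y) ∈ Cd M.dev M.dev_local := (mem_Cd_iff_P hP _).2 h2.2
    have e : xg M (g * h) y = xg M h y + xg M g (h • y) := by
      unfold xg; rw [mul_smul]; abel
    refine ⟨⟨?_, ?_⟩, ?_⟩
    · rw [e]; exact mem_E_of_Cd M.dev_local (Submodule.add_mem _ hc1 hc2) y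
    · rw [e, mul_smul, (add_Cd M.dev_local (mem_E_of_Cd M.dev_local hc1 y) hc2).2, ← h1.1.2]
      exact h2.1.2
    · rw [e, map_add, h1.2, h2.2, add_zero]
  inv_mem' := by
    intro g hg
    have hl : ∀ v, P (lin M g⁻¹ v) = P v := fun v => by
      rw [← hg.2 (lin M g⁻¹ v), lin_lin_inv]
    refine ⟨fun y => ?_, hl⟩
    obtain ⟨c, hc, hc'⟩ := Sg_inv_smul hP hg y
    have e : xg M g⁻¹ y = c := by
      unfold xg
      rw [hc', dev_mv M.dev_local (mem_E_of_Cd M.dev_local hc y), add_sub_cancel_left]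
    refine ⟨⟨?_, ?_⟩, ?_⟩
    · rw [e]; exact mem_E_of_Cd M.dev_local hc y
    · rw [e]; exact hc'
    · rw [e]; exact (mem_Cd_iff_P hP _).1 hc

theorem mem_sgSub {g : G} : g ∈ sgSub hP ↔ Sg M P g := Iff.rfl

include hP in
theorem sg_pow {g : G} (hg : Sg M P g) (n : ℕ) : Sg M P (g ^ n) := (sgSub hP).pow_mem hg n

theorem pow_P {g : G} (hg : ∀ v, P (lin M g v) = P v) (n : ℕ) (v : V) :
    P (lin M (g ^ n) v) = P v := by
  induction n generalizing v with
  | zero => rw [pow_zero, lin_one]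
  | succ n ih => rw [pow_succ, lin_mul, ih, hg]

/-- the displacement of the base point, as a complete direction -/
noncomputable def td (y0 : Y) (g : sgSub hP) : Cd M.dev M.dev_local :=
  ⟨xg M (g : G) y0, (mem_Cd_iff_P hP _).2 (g.2.1 y0).2⟩

theorem td_coe (y0 : Y) (g : sgSub hP) : (td hP y0 g : V) = xg M (g : G) y0 := rfl

theorem td_smul (y0 : Y) (g : sgSub hP) : (g : G) • y0 = mv M.dev y0 (td hP y0 g : V) :=
  (g.2.1 y0).1.2

theorem td_mul (y0 : Y) (g h : sgSub hP) : td hP y0 (g * h) = td hP y0 g + lc M g (td hP y0 h) := by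
  apply Subtype.ext
  rw [Submodule.coe_add, lc_coe, td_coe, td_coe, td_coe, Subgroup.coe_mul]
  have h1 := xg_eq M (g : G) y0 ((h : G) • y0)
  have h2 : xg M ((g : G) * h) y0 = xg M (h : G) y0 + xg M (g : G) ((h : G) • y0) := by
    unfold xg; rw [mul_smul]; abel
  rw [h2, h1]
  have h3 : M.dev ((h : G) • y0) - M.dev y0 = xg M (h : G) y0 := rfl
  rw [h3]
  abel

/-- only finitely many elements move the base point by a bounded amount along its leaf -/
theorem td_fin (y0 : Y) {E : Type*} [NormedAddCommGroup E] [NormedSpace ℝ E] [FiniteDimensional ℝ E]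
    (e : Cd M.dev M.dev_local ≃L[ℝ] E) (R : ℝ) : {g : sgSub hP | ‖e (td hP y0 g)‖ ≤ R}.Finite := by
  by_cases hR : 0 ≤ R
  swap
  · refine Set.Finite.subset finite_empty fun g hg => ?_
    exact absurd ((norm_nonneg _).trans hg) hR
  set f : E → Y := fun x => mv M.dev y0 ((e.symm x : Cd M.dev M.dev_local) : V) with hf
  have hcont : Continuous f := by
    rw [← continuousOn_univ]
    refine continuousOn_mv_comp M.dev_local (f := fun _ => y0)
      (g := fun x : E => ((e.symm x : Cd M.dev M.dev_local) : V)) continuousOn_const ?_ ?_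
    · exact (continuous_subtype_val.comp e.symm.continuous).continuousOn
    · intro x _
      exact mem_E_of_Cd M.dev_local (e.symm x).2 y0
  have : ProperSpace E := FiniteDimensional.proper ℝ E
  have hK : IsCompact (f '' Metric.closedBall 0 R) := (isCompact_closedBall _ _).image hcont
  have hfin := M.covering.proper _ hK
  refine Set.Finite.of_finite_image (f := fun g : sgSub hP => (g : G)) (hfin.subset ?_)
    Subtype.val_injective.injOn
  rintro _ ⟨g, hg, rfl⟩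
  have hy0 : y0 ∈ f '' Metric.closedBall 0 R := by
    refine ⟨0, by rw [mem_closedBall_zero_iff, norm_zero]; exact hR, ?_⟩
    rw [hf]
    simp only
    rw [map_zero, Submodule.coe_zero, mv_zero M.dev_local]
  refine ⟨(g : G) • y0, ⟨y0, hy0, rfl⟩, e (td hP y0 g), ?_, ?_⟩
  · rw [mem_closedBall_zero_iff]; exact hg
  · rw [hf]
    simp only
    rw [e.symm_apply_apply]
    exact (td_smul hP y0 g).symm

section euclid

variable {E : Type*} [NormedAddCommGroup E] [NormedSpace ℝ E] [FiniteDimensional ℝ E]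
  (e : Cd M.dev M.dev_local ≃L[ℝ] E)

/-- the linear parts on the complete directions, transported to `E` -/
noncomputable def rhoE : sgSub hP →* (E →L[ℝ] E) where
  toFun g := (e : Cd M.dev M.dev_local →L[ℝ] E).comp
    ((LinearMap.toContinuousLinearMap (lcMap M (g : G))).comp
      (e.symm : E →L[ℝ] Cd M.dev M.dev_local))
  map_one' := by
    refine ContinuousLinearMap.ext fun x => ?_
    show e (lcMap M ((1 : sgSub hP) : G) (e.symm x)) = x
    have h : lcMap M ((1 : sgSub hP) : G) (e.symm x) = e.symm x :=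
      Subtype.ext (by rw [lcMap_coe, Subgroup.coe_one, lin_one])
    rw [h, e.apply_symm_apply]
  map_mul' := by
    intro g h
    refine ContinuousLinearMap.ext fun x => ?_
    show e (lcMap M ((g * h : sgSub hP) : G) (e.symm x)) =
      e (lcMap M (g : G) (e.symm (e (lcMap M (h : G) (e.symm x)))))
    rw [e.symm_apply_apply]
    congr 1
    exact Subtype.ext (by
      rw [lcMap_coe, lcMap_coe, lcMap_coe, Subgroup.coe_mul, lin_mul])

theorem rhoE_apply (g : sgSub hP) (x : E) : rhoE hP e g x = e (lc M (g : G) (e.symm x)) := rfl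

theorem tE_mul (y0 : Y) (g h : sgSub hP) :
    e (td hP y0 (g * h)) = e (td hP y0 g) + rhoE hP e g (e (td hP y0 h)) := by
  rw [rhoE_apply, td_mul, map_add, e.symm_apply_apply]

theorem exists_const : ∃ K1 K2 : ℝ, 0 < K1 ∧ 0 < K2 ∧
    (∀ c : Cd M.dev M.dev_local, ‖e c‖ ≤ K1 * ‖(c : V)‖) ∧
    (∀ x : E, ‖((e.symm x : Cd M.dev M.dev_local) : V)‖ ≤ K2 * ‖x‖) := by
  refine ⟨‖(e : Cd M.dev M.dev_local →L[ℝ] E)‖ + 1,
    ‖(e.symm : E →L[ℝ] Cd M.dev M.dev_local)‖ + 1, ?_, ?_, ?_, ?_⟩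
  · have := norm_nonneg (e : Cd M.dev M.dev_local →L[ℝ] E); linarith
  · have := norm_nonneg (e.symm : E →L[ℝ] Cd M.dev M.dev_local); linarith
  · intro c
    have h1 := (e : Cd M.dev M.dev_local →L[ℝ] E).le_opNorm c
    have h2 := norm_nonneg (c : V)
    have h3 : ‖(c : V)‖ = ‖c‖ := rfl
    rw [h3] at h2 ⊢
    refine h1.trans (mul_le_mul_of_nonneg_right (by linarith) h2)
  · intro x
    have h1 := (e.symm : E →L[ℝ] Cd M.dev M.dev_local).le_opNorm x
    refine (show ‖((e.symm x : Cd M.dev M.dev_local) : V)‖ ≤ _ from h1).trans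
      (mul_le_mul_of_nonneg_right (by linarith) (norm_nonneg _))

theorem rot_close {K1 K2 : ℝ} (hK1 : 0 < K1)
    (he1 : ∀ c : Cd M.dev M.dev_local, ‖e c‖ ≤ K1 * ‖(c : V)‖)
    (he2 : ∀ x : E, ‖((e.symm x : Cd M.dev M.dev_local) : V)‖ ≤ K2 * ‖x‖) (g : sgSub hP) {δ : ℝ}
    (hδ : 0 ≤ δ) (hg : ∀ v, ‖lin M (g : G) v - v‖ ≤ δ * ‖v‖) (x : E) :
    ‖rhoE hP e g x - x‖ ≤ K1 * K2 * δ * ‖x‖ := by
  have h1 : rhoE hP e g x - x = e (lc M (g : G) (e.symm x) - e.symm x) := by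
    rw [rhoE_apply, map_sub, e.apply_symm_apply]
  rw [h1]
  have h2 := he1 (lc M (g : G) (e.symm x) - e.symm x)
  have h3 : ((lc M (g : G) (e.symm x) - e.symm x : Cd M.dev M.dev_local) : V) =
      lin M (g : G) (e.symm x : Cd M.dev M.dev_local) - (e.symm x : Cd M.dev M.dev_local) := rfl
  rw [h3] at h2
  calc _ ≤ K1 * ‖lin M (g : G) (e.symm x : Cd M.dev M.dev_local) -
        (e.symm x : Cd M.dev M.dev_local)‖ := h2
    _ ≤ K1 * (δ * (K2 * ‖x‖)) := mul_le_mul_of_nonneg_left ((hg _).trans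
        (mul_le_mul_of_nonneg_left (he2 x) hδ)) hK1.le
    _ = K1 * K2 * δ * ‖x‖ := by ring

/-- estimate of the translation part -/
theorem dir_est {u : E} (hu : ‖u‖ = 1) {L η ε : ℝ} (hL0 : 0 < L) (hη1 : η ≤ 1 / 2)
    (hη2 : η ≤ ε / 4) (hε : 0 < ε) {w d : E} (hw : w = L • u + d) (hd : ‖d‖ ≤ η * L) :
    w ≠ 0 ∧ ‖w - ‖w‖ • u‖ ≤ ε * ‖w‖ := by
  have hLu : ‖L • u‖ = L := by
    rw [norm_smul, hu, mul_one, Real.norm_eq_abs, abs_of_pos hL0]
  have hlow : L - η * L ≤ ‖w‖ := by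
    rw [hw]
    have := norm_sub_norm_le (L • u) (-d)
    rw [norm_neg, sub_neg_eq_add, hLu] at this
    linarith
  have hupp : ‖w‖ ≤ L + η * L := by
    rw [hw]
    have := norm_add_le (L • u) d
    rw [hLu] at this
    linarith
  have hhalf : L / 2 ≤ ‖w‖ := by nlinarith
  refine ⟨?_, ?_⟩
  · intro h0
    rw [h0, norm_zero] at hhalf
    linarith
  · have h1 : w - ‖w‖ • u = (L - ‖w‖) • u + d := by
      rw [sub_smul]
      nth_rewrite 1 [hw]
      abel
    rw [h1]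
    have h2 : ‖(L - ‖w‖) • u + d‖ ≤ |L - ‖w‖| + ‖d‖ := by
      refine (norm_add_le _ _).trans ?_
      rw [norm_smul, hu, mul_one, Real.norm_eq_abs]
    have h3 : |L - ‖w‖| ≤ η * L := by
      rw [abs_le]
      constructor <;> linarith
    have h4 : η * L + η * L ≤ ε * (L / 2) := by nlinarith
    have h5 : ε * (L / 2) ≤ ε * ‖w‖ := mul_le_mul_of_nonneg_left hhalf hε.le
    linarith

end euclid

section
variable (hinc : ∀ y, dom M.dev y ≠ univ)
include hP hinc

/-- an element returning a point of the leaf close to another point of the leaf -/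
theorem sg_of_rec [ConnectedSpace Y] {y0 : Y} {c c' e : V} (hc : c ∈ Cd M.dev M.dev_local)
    (hc' : c' ∈ Cd M.dev M.dev_local) {g : G} (hPe : P e = 0) (hPg : ∀ v, P (lin M g v) = P v)
    (hg : g • mv M.dev y0 c = mv M.dev y0 (c' + e)) :
    Sg M P g ∧ xg M g (mv M.dev y0 c) = c' - c + e ∧
      xg M g y0 = c' - c + e - (lin M g c - c) := by
  have heC : e ∈ Cd M.dev M.dev_local := (mem_Cd_iff_P hP e).2 hPe
  set y1 : Y := mv M.dev y0 c with hy1
  set w : V := c' - c + e with hw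
  have hwC : w ∈ Cd M.dev M.dev_local :=
    Submodule.add_mem _ (Submodule.sub_mem _ hc' hc) heC
  have h1 : g • y1 = mv M.dev y1 w := by
    rw [hg, hy1]
    have h2 := (add_Cd M.dev_local (mem_E_of_Cd M.dev_local hc y0) hwC).2
    rw [← h2, hw]
    congr 1
    abel
  have h3 : xg M g y1 = w := by
    unfold xg
    rw [h1, dev_mv M.dev_local (mem_E_of_Cd M.dev_local hwC y1), add_sub_cancel_left]
  have h4 : Nr M g y1 := ⟨by rw [h3]; exact mem_E_of_Cd M.dev_local hwC y1, by rw [h3]; exact h1⟩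
  have h5 : P (xg M g y1) = 0 := by rw [h3]; exact (mem_Cd_iff_P hP _).1 hwC
  refine ⟨Sg_of hP hinc h4 h5 hPg, h3, ?_⟩
  have h6 := xg_eq M g y1 y0
  have h7 : M.dev y0 - M.dev y1 = -c := by
    rw [hy1, dev_mv M.dev_local (mem_E_of_Cd M.dev_local hc y0)]; abel
  rw [h6, h3, h7, lin_neg]
  abel

/-- small rotations and translations in every direction -/
theorem exists_dir [ConnectedSpace Y] (y0 : Y)
    (hrec : ∀ c : ℕ → V, (∀ j, c j ∈ Cd M.dev M.dev_local) → ∀ ε : ℝ, 0 < ε →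
      ∃ (j j' : ℕ) (g : G) (e : V), j < j' ∧ ‖e‖ < ε ∧ P e = 0 ∧
        (∀ v, P (lin M g v) = P v) ∧ (∀ v, ‖lin M g v - v‖ ≤ ε * ‖v‖) ∧
        g • mv M.dev y0 (c j) = mv M.dev y0 (c j' + e))
    {E : Type*} [NormedAddCommGroup E] [NormedSpace ℝ E] [FiniteDimensional ℝ E]
    (e : Cd M.dev M.dev_local ≃L[ℝ] E) {u : E} (hu : ‖u‖ = 1) {ε : ℝ} (hε : 0 < ε) :
    ∃ g : sgSub hP, e (td hP y0 g) ≠ 0 ∧
      ‖e (td hP y0 g) - ‖e (td hP y0 g)‖ • u‖ ≤ ε * ‖e (td hP y0 g)‖ ∧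
      ∀ x, ‖rhoE hP e g x - x‖ ≤ ε * ‖x‖ := by
  obtain ⟨K1, K2, hK10, hK20, he1, he2⟩ := exists_const e
  obtain ⟨η, hη0, hη1, hη2⟩ : ∃ η : ℝ, 0 < η ∧ η ≤ 1 / 2 ∧ η ≤ ε / 4 :=
    ⟨min (ε / 4) (1 / 2), lt_min (by linarith) (by norm_num), min_le_right _ _, min_le_left _ _⟩
  obtain ⟨δ, hδ0, hδ1⟩ : ∃ δ : ℝ, 0 < δ ∧ K1 * (1 + K2) * δ = η :=
    ⟨η / (K1 * (1 + K2)), by positivity, by field_simp⟩
  obtain ⟨c0, hc0⟩ : ∃ c0 : V, c0 = (e.symm u : Cd M.dev M.dev_local) := ⟨_, rfl⟩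
  have hc0C : c0 ∈ Cd M.dev M.dev_local := by rw [hc0]; exact (e.symm u).2
  have hcj : ∀ j : ℕ, (2 : ℝ) ^ j • c0 ∈ Cd M.dev M.dev_local := fun j =>
    Submodule.smul_mem _ _ hc0C
  obtain ⟨j, j', g, ee, hjj, hee, hPe, hPg, hgl, hgy⟩ := hrec (fun j => (2 : ℝ) ^ j • c0) hcj δ hδ0
  obtain ⟨hS, -, hx⟩ := sg_of_rec hP hinc (hcj j) (hcj j') hPe hPg hgy
  obtain ⟨L, hL⟩ : ∃ L : ℝ, L = (2 : ℝ) ^ j' - (2 : ℝ) ^ j := ⟨_, rfl⟩
  have hL1 : (2 : ℝ) ^ j ≤ L := by
    have h1 : (2 : ℝ) ^ (j + 1) ≤ (2 : ℝ) ^ j' := pow_le_pow_right₀ (by norm_num) hjj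
    rw [pow_succ] at h1
    rw [hL]; linarith
  have hL2 : 1 ≤ L := (one_le_pow₀ (by norm_num)).trans hL1
  have heeC : ee ∈ Cd M.dev M.dev_local := (mem_Cd_iff_P hP ee).2 hPe
  have hdC : ee - (lin M g ((2 : ℝ) ^ j • c0) - (2 : ℝ) ^ j • c0) ∈ Cd M.dev M.dev_local :=
    Submodule.sub_mem _ heeC (Submodule.sub_mem _ (lin_Cd M g (hcj j)) (hcj j))
  obtain ⟨d, hd⟩ : ∃ d : Cd M.dev M.dev_local,
    (d : V) = ee - (lin M g ((2 : ℝ) ^ j • c0) - (2 : ℝ) ^ j • c0) := ⟨⟨_, hdC⟩, rfl⟩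
  have htd : td hP y0 ⟨g, hS⟩ = L • e.symm u + d := by
    apply Subtype.ext
    rw [td_coe, Submodule.coe_add, Submodule.coe_smul, hd, ← hc0]
    show xg M g y0 = _
    rw [hx, hL, sub_smul]
    abel
  have htg : e (td hP y0 ⟨g, hS⟩) = L • u + e d := by
    rw [htd, map_add, map_smul, e.apply_symm_apply]
  have hc0n : ‖c0‖ ≤ K2 := by
    have := he2 u
    rwa [hu, mul_one, ← hc0] at this
  have hdn : ‖e d‖ ≤ η * L := by
    have h1 := he1 d
    have h2 : ‖(d : V)‖ ≤ δ + δ * (2 ^ j * K2) := by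
      rw [hd]
      refine (norm_sub_le _ _).trans (add_le_add hee.le ((hgl _).trans ?_))
      rw [norm_smul, Real.norm_eq_abs, abs_of_pos (by positivity : (0 : ℝ) < 2 ^ j)]
      exact mul_le_mul_of_nonneg_left (mul_le_mul_of_nonneg_left hc0n (by positivity)) hδ0.le
    have h3 : δ + δ * (2 ^ j * K2) ≤ δ * ((1 + K2) * L) := by
      have h4 : δ * 1 ≤ δ * L := mul_le_mul_of_nonneg_left hL2 hδ0.le
      have h5 : δ * (2 ^ j * K2) ≤ δ * (L * K2) :=
        mul_le_mul_of_nonneg_left (mul_le_mul_of_nonneg_right hL1 hK20.le) hδ0.le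
      have h6 : δ * ((1 + K2) * L) = δ * L + δ * (L * K2) := by ring
      linarith
    calc ‖e d‖ ≤ K1 * ‖(d : V)‖ := h1
      _ ≤ K1 * (δ * ((1 + K2) * L)) := mul_le_mul_of_nonneg_left (h2.trans h3) hK10.le
      _ = K1 * (1 + K2) * δ * L := by ring
      _ = η * L := by rw [hδ1]
  obtain ⟨h1, h2⟩ := dir_est hu (by linarith) hη1 hη2 hε htg hdn
  refine ⟨⟨g, hS⟩, h1, h2, fun x => ?_⟩
  refine (rot_close hP e hK10 he1 he2 ⟨g, hS⟩ hδ0.le hgl x).trans ?_
  have h1 : K1 * K2 * δ ≤ ε := by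
    have h2 : K1 * K2 * δ ≤ K1 * (1 + K2) * δ :=
      mul_le_mul_of_nonneg_right (mul_le_mul_of_nonneg_left (by linarith) hK10.le) hδ0.le
    rw [hδ1] at h2
    linarith
  exact mul_le_mul_of_nonneg_right h1 (norm_nonneg _)

/-- near the identity the elements acting trivially modulo the complete directions have trivial
linear part -/
theorem lin_eq_self' [ConnectedSpace Y] {κ : ℝ}
    (hbd : ∀ g : G, (∀ v, P (lin M g v) = P v) → ∀ v : V, ‖lin M g v‖ ≤ κ * ‖v‖)
    (y0 : Y)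
    (hrec : ∀ c : ℕ → V, (∀ j, c j ∈ Cd M.dev M.dev_local) → ∀ ε : ℝ, 0 < ε →
      ∃ (j j' : ℕ) (g : G) (e : V), j < j' ∧ ‖e‖ < ε ∧ P e = 0 ∧
        (∀ v, P (lin M g v) = P v) ∧ (∀ v, ‖lin M g v - v‖ ≤ ε * ‖v‖) ∧
        g • mv M.dev y0 (c j) = mv M.dev y0 (c j' + e)) :
    ∃ ε : ℝ, 0 < ε ∧ ∀ g : G, Sg M P g →
      (∀ v, ‖lin M g v - v‖ ≤ ε * ‖v‖) → ∀ v, lin M g v = v := by
  -- an invariant Euclidean norm on the complete directions
  obtain ⟨e, he⟩ := exists_euclid ((sgSub hP).map (lcHom M)) κ (by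
    rintro _ ⟨g, hg, rfl⟩ v
    have hg' : Sg M P g := hg
    exact hbd g hg'.2 v)
  have hiso : ∀ (g : sgSub hP) x, ‖rhoE hP e g x‖ = ‖x‖ := by
    intro g x
    rw [rhoE_apply]
    have h1 := he (lcHom M g) (Subgroup.mem_map_of_mem _ g.2) (e.symm x)
    rw [e.apply_symm_apply] at h1
    exact h1
  obtain ⟨K1, K2, hK10, hK20, he1, he2⟩ := exists_const e
  have key := buser (rhoE hP e) (fun g => e (td hP y0 g)) hiso (tE_mul hP e y0) (td_fin hP y0 e)
    (fun u hu ε hε => exists_dir hP hinc y0 hrec e hu hε)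
  refine ⟨1 / (2 * (K1 * K2)), by positivity, fun g hg hgl => ?_⟩
  have h1 := key ⟨g, hg⟩ (fun x => by
    refine (rot_close hP e hK10 he1 he2 ⟨g, hg⟩ (by positivity) hgl x).trans (le_of_eq ?_)
    have : K1 * K2 * (1 / (2 * (K1 * K2))) = 1 / 2 := by field_simp
    rw [this])
  have h2 : ∀ c ∈ Cd M.dev M.dev_local, lin M g c = c := by
    intro c hc
    have h3 := h1 (e ⟨c, hc⟩)
    rw [rhoE_apply, e.symm_apply_apply] at h3
    have h4 := e.injective h3
    exact congrArg Subtype.val h4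
  intro v
  have h3 : lin M g v - v ∈ Cd M.dev M.dev_local := by
    rw [mem_Cd_iff_P hP, map_sub, hg.2, sub_self]
  have h4 := sq_mem (M := M) (g := g) (⊥ : Submodule ℝ V) (fun v hv => by
    rw [Submodule.mem_bot] at hv
    rw [hv, lin_zero]; exact Submodule.zero_mem _)
    (fun n v => hbd (g ^ n) (pow_P hg.2 n) v) (v := v) (by
      rw [Submodule.mem_bot, h2 _ h3, sub_self])
  rw [Submodule.mem_bot] at h4
  exact sub_eq_zero.1 h4

/-- **The translations span the complete directions** as soon as the leaves are recurrent. -/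
theorem span_TT' [ConnectedSpace Y] {κ : ℝ}
    (hbd : ∀ g : G, (∀ v, P (lin M g v) = P v) → ∀ v : V, ‖lin M g v‖ ≤ κ * ‖v‖)
    (y0 : Y)
    (hrec : ∀ c : ℕ → V, (∀ j, c j ∈ Cd M.dev M.dev_local) → ∀ ε : ℝ, 0 < ε →
      ∃ (j j' : ℕ) (g : G) (e : V), j < j' ∧ ‖e‖ < ε ∧ P e = 0 ∧
        (∀ v, P (lin M g v) = P v) ∧ (∀ v, ‖lin M g v - v‖ ≤ ε * ‖v‖) ∧
        g • mv M.dev y0 (c j) = mv M.dev y0 (c j' + e)) :
    Submodule.span ℝ (TT M : Set V) = Cd M.dev M.dev_local := by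
  refine le_antisymm (span_le_Cd M) fun c0 hc0 => ?_
  by_contra hc0S
  obtain ⟨f, hf0, hfS⟩ := Submodule.exists_le_ker_of_notMem hc0S
  set l : V →L[ℝ] ℝ := LinearMap.toContinuousLinearMap ((f c0)⁻¹ • f) with hl
  have hla : ∀ v, l v = (f c0)⁻¹ * f v := fun v => rfl
  have hl1 : l c0 = 1 := by rw [hla, inv_mul_cancel₀ hf0]
  have hlS : ∀ x ∈ TT M, l x = 0 := by
    intro x hx
    have h1 : f x = 0 := hfS (Submodule.subset_span hx)
    rw [hla, h1, mul_zero]
  obtain ⟨ε1, hε1, hlin⟩ := lin_eq_self' hP hinc hbd y0 hrec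
  set ε : ℝ := min ε1 (1 / (‖l‖ + 1)) with hε
  have hl0 : 0 ≤ ‖l‖ := norm_nonneg l
  have hε0 : 0 < ε := lt_min hε1 (by positivity)
  have hcj : ∀ j : ℕ, (j : ℝ) • c0 ∈ Cd M.dev M.dev_local := fun j => Submodule.smul_mem _ _ hc0
  obtain ⟨j, j', g, e, hjj, he, hPe, hPg, hgl, hgy⟩ := hrec (fun j => (j : ℝ) • c0) hcj ε hε0
  obtain ⟨h6, h3, -⟩ := sg_of_rec hP hinc (hcj j) (hcj j') hPe hPg hgy
  have h7 := hlin g h6 (fun v => (hgl v).trans
    (mul_le_mul_of_nonneg_right (min_le_left _ _) (norm_nonneg _)))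
  have h8 := mem_TT_of hP hinc h7 (h6.1 (mv M.dev y0 ((j : ℝ) • c0))).1
    (h6.1 (mv M.dev y0 ((j : ℝ) • c0))).2
  have h9 := hlS _ h8
  rw [h3, map_add, map_sub, map_smul, map_smul, hl1, smul_eq_mul, smul_eq_mul, mul_one,
    mul_one] at h9
  have h10 : |l e| < 1 := by
    have h11 : ‖l e‖ ≤ ‖l‖ * ‖e‖ := l.le_opNorm e
    rw [Real.norm_eq_abs] at h11
    have h12 : ‖e‖ < 1 / (‖l‖ + 1) := he.trans_le (min_le_right _ _)
    rw [lt_div_iff₀ (by positivity)] at h12
    have := norm_nonneg e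
    nlinarith
  have h11 : (j : ℝ) + 1 ≤ j' := by exact_mod_cast hjj
  rw [abs_lt] at h10
  linarith [h10.1]

end

end Pool.Agent.CYC
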