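import Pool.Agent.CYC.Lin

/-! # Determinants and lattices (project MP_df2bd8, Theorem CYC, row CY1, part (4)) -/

set_option autoImplicit false

namespace Pool.Agent.CYC
open Filter Topology

/-- a linear map preserving a lattice, with its inverse, has determinant `±1` -/
theorem det_lattice {E : Type*} [NormedAddCommGroup E] [NormedSpace ℝ E] [FiniteDimensional ℝ E]
    (T : AddSubgroup E) (hdisc : ∃ ε > 0, ∀ x ∈ T, ‖x‖ < ε → x = 0)
    (hspan : Submodule.span ℝ (T : Set E) = ⊤) (f g : E →ₗ[ℝ] E) (hfg : ∀ x ∈ T, f (g x) = x)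
    (hf : ∀ x ∈ T, f x ∈ T) (hg : ∀ x ∈ T, g x ∈ T) : |LinearMap.det f| = 1 := by
  classical
  set L : Submodule ℤ E := AddSubgroup.toIntSubmodule T with hL
  have hLT : ∀ x, x ∈ L ↔ x ∈ T := fun x => Iff.rfl
  obtain ⟨ε, hε, hd⟩ := hdisc
  have hdt : DiscreteTopology L := by
    rw [discreteTopology_iff_isOpen_singleton_zero]
    have h1 : ({0} : Set L) = (fun x : L => (x : E)) ⁻¹' Metric.ball (0 : E) ε := by
      ext x
      simp only [Set.mem_singleton_iff, Set.mem_preimage, Metric.mem_ball, dist_zero_right]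
      constructor
      · rintro rfl
        simpa using hε
      · intro hx
        exact Subtype.ext (hd x ((hLT _).1 x.2) hx)
    rw [h1]
    exact Metric.isOpen_ball.preimage continuous_subtype_val
  have hz : IsZLattice ℝ L := ⟨hspan⟩
  have hfin : Module.Finite ℤ L := ZLattice.module_finite ℝ L
  have hfree : Module.Free ℤ L := ZLattice.module_free ℝ L
  set b := Module.Free.chooseBasis ℤ L with hb
  set bR := b.ofZLatticeBasis ℝ L with hbR
  set fL : L →ₗ[ℤ] L :=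
    { toFun := fun x => ⟨f x, hf x x.2⟩
      map_add' := fun x y => Subtype.ext (by simp)
      map_smul' := fun c x => Subtype.ext (by simp) } with hfL
  set gL : L →ₗ[ℤ] L :=
    { toFun := fun x => ⟨g x, hg x x.2⟩
      map_add' := fun x y => Subtype.ext (by simp)
      map_smul' := fun c x => Subtype.ext (by simp) } with hgL
  have hcomp : fL ∘ₗ gL = LinearMap.id := by
    ext x
    exact hfg x x.2
  have hdet1 : LinearMap.det fL * LinearMap.det gL = 1 := by
    rw [← LinearMap.det_comp, hcomp, LinearMap.det_id]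
  have hunit : IsUnit (LinearMap.det fL) := IsUnit.of_mul_eq_one _ hdet1
  have hcast : LinearMap.det f = ((LinearMap.det fL : ℤ) : ℝ) := by
    rw [← LinearMap.det_toMatrix bR, ← LinearMap.det_toMatrix b]
    have h1 : LinearMap.toMatrix bR bR f = (LinearMap.toMatrix b b fL).map (Int.castRingHom ℝ) := by
      ext i j
      rw [LinearMap.toMatrix_apply, Matrix.map_apply, LinearMap.toMatrix_apply]
      have h2 : bR j = ((b j : L) : E) := by
        rw [hbR, Module.Basis.ofZLatticeBasis_apply]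
      have h3 : f (bR j) = ((fL (b j) : L) : E) := by rw [h2]; rfl
      rw [h3, hbR, Module.Basis.ofZLatticeBasis_repr_apply]
      rfl
    rw [h1]
    exact (RingHom.map_det (Int.castRingHom ℝ) _).symm
  rw [hcast]
  rcases Int.isUnit_iff.1 hunit with h | h <;> rw [h] <;> simp

variable {V : Type*} [NormedAddCommGroup V] [NormedSpace ℝ V] [FiniteDimensional ℝ V]

/-- the same for a lattice of a subspace -/
theorem det_lattice_sub (B : V ≃ₗ[ℝ] V) (C : Submodule ℝ V) (T : AddSubgroup V)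
    (hdisc : ∃ ε > 0, ∀ x ∈ T, ‖x‖ < ε → x = 0)
    (hspan : Submodule.span ℝ (T : Set V) = C) (hBC : C ≤ C.comap B.toLinearMap)
    (hB : ∀ x ∈ T, B x ∈ T) (hB' : ∀ x ∈ T, B⁻¹ x ∈ T) :
    |LinearMap.det (B.toLinearMap.restrict hBC)| = 1 := by
  have hTC : ∀ x ∈ T, x ∈ C := fun x hx => hspan ▸ Submodule.subset_span hx
  have hBC' : C ≤ C.comap (B⁻¹ : V ≃ₗ[ℝ] V).toLinearMap := by
    rw [← hspan, Submodule.span_le]
    intro x hx
    exact Submodule.subset_span (hB' x hx)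
  set T' : AddSubgroup C := T.comap C.subtype.toAddMonoidHom with hT'
  have hT'mem : ∀ x : C, x ∈ T' ↔ (x : V) ∈ T := fun _ => Iff.rfl
  refine det_lattice T' ?_ ?_ (B.toLinearMap.restrict hBC) ((B⁻¹ : V ≃ₗ[ℝ] V).toLinearMap.restrict hBC')
    ?_ ?_ ?_
  · obtain ⟨ε, hε, h⟩ := hdisc
    exact ⟨ε, hε, fun x hx hn => Subtype.ext (h x hx hn)⟩
  · rw [eq_top_iff]
    rintro ⟨x, hx⟩ -
    have h1 : x ∈ Submodule.span ℝ (T : Set V) := hspan ▸ hx
    have h2 : (T : Set V) = C.subtype '' (T' : Set C) := by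
      ext y
      constructor
      · intro hy
        exact ⟨⟨y, hTC y hy⟩, hy, rfl⟩
      · rintro ⟨z, hz, rfl⟩
        exact hz
    rw [h2, ← Submodule.map_span] at h1
    obtain ⟨z, hz, hzx⟩ := h1
    have : z = ⟨x, hx⟩ := Subtype.ext hzx
    rwa [← this]
  · intro x _
    apply Subtype.ext
    exact B.apply_symm_apply (x : V)
  · intro x hx
    exact hB _ hx
  · intro x hx
    exact hB' _ hx

/-- **(4)** if `B` preserves a lattice of `C ≠ ⊤` and `B⁻¹` contracts modulo `C` then `|det B| ≠ 1` -/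
theorem det_contra (B : V ≃ₗ[ℝ] V) (C : Submodule ℝ V) (hC : C ≠ ⊤) (T : AddSubgroup V)
    (hdisc : ∃ ε > 0, ∀ x ∈ T, ‖x‖ < ε → x = 0)
    (hspan : Submodule.span ℝ (T : Set V) = C)
    (hB : ∀ x ∈ T, B x ∈ T) (hB' : ∀ x ∈ T, B⁻¹ x ∈ T)
    (hcontr : ∀ ε > 0, ∃ m0 : ℕ, ∀ m ≥ m0, ∀ v : V, ∀ c ∈ C, ∃ c' ∈ C,
      ‖((B⁻¹) ^ m) v - c'‖ ≤ ε * ‖v - c‖)
    (hdet : |LinearMap.det B.toLinearMap| = 1) : False := by
  classical
  have hBC' : C ≤ C.comap (B⁻¹ : V ≃ₗ[ℝ] V).toLinearMap := by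
    rw [← hspan, Submodule.span_le]
    intro x hx
    exact Submodule.subset_span (hB' x hx)
  have hl := det_lattice_sub B⁻¹ C T hdisc hspan hBC' hB' (by rw [inv_inv]; exact hB)
  have hdetinv : |LinearMap.det (B⁻¹ : V ≃ₗ[ℝ] V).toLinearMap| = 1 := by
    have h1 : B.toLinearMap ∘ₗ (B⁻¹ : V ≃ₗ[ℝ] V).toLinearMap = LinearMap.id := by
      ext v
      exact B.apply_symm_apply v
    have h2 := congrArg LinearMap.det h1
    rw [LinearMap.det_comp, LinearMap.det_id] at h2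
    have h3 := congrArg abs h2
    rwa [abs_mul, hdet, one_mul, abs_one] at h3
  set Q : (V ⧸ C) →ₗ[ℝ] (V ⧸ C) := C.mapQ C (B⁻¹ : V ≃ₗ[ℝ] V).toLinearMap hBC' with hQ
  have hQdet : |LinearMap.det Q| = 1 := by
    have h1 := LinearMap.det_eq_det_mul_det C (B⁻¹ : V ≃ₗ[ℝ] V).toLinearMap hBC'
    have h2 := congrArg abs h1
    rw [abs_mul, hdetinv, hl, one_mul] at h2
    exact h2.symm
  obtain ⟨n, hn0, ⟨bQ⟩⟩ : ∃ n : ℕ, 0 < n ∧ Nonempty (Module.Basis (Fin n) ℝ (V ⧸ C)) := by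
    have : Nontrivial (V ⧸ C) := Submodule.Quotient.nontrivial_iff.2 hC
    exact ⟨_, Module.finrank_pos, ⟨Module.finBasis ℝ (V ⧸ C)⟩⟩
  choose v hv using fun j => C.mkQ_surjective (bQ j)
  set φ : Fin n → (V →L[ℝ] ℝ) := fun i => ((bQ.coord i) ∘ₗ C.mkQ).toContinuousLinearMap with hφ
  have hφa : ∀ i x, φ i x = bQ.repr (C.mkQ x) i := fun _ _ => rfl
  have hφC : ∀ i, ∀ c ∈ C, φ i c = 0 := by
    intro i c hc
    rw [hφa]
    have h1 : C.mkQ c = 0 := (Submodule.Quotient.mk_eq_zero C).2 hc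
    rw [h1, map_zero]
    rfl
  have hpow : ∀ (m : ℕ) (x : V), (Q ^ m) (C.mkQ x) = C.mkQ (((B⁻¹) ^ m) x) := by
    intro m
    induction m with
    | zero => intro x; simp
    | succ m ih =>
      intro x
      rw [pow_succ, Module.End.mul_apply]
      have h1 : Q (C.mkQ x) = C.mkQ (B⁻¹ x) := rfl
      rw [h1, ih, pow_succ]
      rfl
  have hentry : ∀ (m : ℕ) (i j : Fin n), LinearMap.toMatrix bQ bQ (Q ^ m) i j =
      φ i (((B⁻¹) ^ m) (v j)) := by
    intro m i j
    rw [LinearMap.toMatrix_apply, hφa, ← hpow, hv]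
  have hlim : Tendsto (fun m : ℕ => LinearMap.toMatrix bQ bQ (Q ^ m)) atTop (𝓝 0) := by
    refine tendsto_pi_nhds.2 fun i => ?_
    refine tendsto_pi_nhds.2 fun j => ?_
    rw [Metric.tendsto_atTop]
    intro ε hε
    set K : ℝ := ‖φ i‖ * ‖v j‖ + 1 with hK
    have hK0 : 0 < K := by positivity
    obtain ⟨m0, hm0⟩ := hcontr (ε / K) (by positivity)
    refine ⟨m0, fun m hm => ?_⟩
    rw [hentry]
    obtain ⟨c', hc', hle⟩ := hm0 m hm (v j) 0 (Submodule.zero_mem _)
    have h1 : φ i (((B⁻¹) ^ m) (v j)) = φ i (((B⁻¹) ^ m) (v j) - c') := by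
      rw [map_sub, hφC i c' hc', sub_zero]
    rw [h1]
    have h2 : ‖φ i (((B⁻¹) ^ m) (v j) - c')‖ ≤ ‖φ i‖ * (ε / K * ‖v j - 0‖) :=
      ((φ i).le_opNorm _).trans (mul_le_mul_of_nonneg_left hle (norm_nonneg _))
    rw [sub_zero] at h2
    show dist _ (0 : ℝ) < ε
    rw [dist_zero_right]
    refine h2.trans_lt ?_
    have h3 : ‖φ i‖ * (ε / K * ‖v j‖) = ε * ((‖φ i‖ * ‖v j‖) / K) := by ring
    rw [h3]
    have h4 : (‖φ i‖ * ‖v j‖) / K < 1 := by
      rw [div_lt_one hK0, hK]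
      linarith
    nlinarith
  have hdetlim : Tendsto (fun m : ℕ => (LinearMap.toMatrix bQ bQ (Q ^ m)).det) atTop (𝓝 0) := by
    have hc : Continuous fun M : Matrix (Fin n) (Fin n) ℝ => M.det := continuous_id.matrix_det
    have h1 := (hc.tendsto 0).comp hlim
    have h2 : (0 : Matrix (Fin n) (Fin n) ℝ).det = 0 := by
      have : Nonempty (Fin n) := ⟨⟨0, hn0⟩⟩
      exact Matrix.det_zero
    rw [h2] at h1
    exact h1
  have habs : Tendsto (fun m : ℕ => |(LinearMap.toMatrix bQ bQ (Q ^ m)).det|) atTop (𝓝 0) := by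
    simpa using hdetlim.abs
  have hone : ∀ m : ℕ, |(LinearMap.toMatrix bQ bQ (Q ^ m)).det| = 1 := by
    intro m
    rw [LinearMap.det_toMatrix, map_pow, abs_pow, hQdet, one_pow]
  simp only [hone] at habs
  exact one_ne_zero (tendsto_nhds_unique tendsto_const_nhds habs)

end Pool.Agent.CYC
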