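import Pool.Agent.CYC.Grp

/-!
# Exact ends and strips

`IsEnd dev p w`: the straight path from `p` with velocity `w` exists up to time one, exclusively.
The strip lemma (any rank): along an exact end, the directions contracted by the frames of the end
can be followed for a uniform time, and the end sweeps parallel to itself.
-/

set_option autoImplicit false
set_option linter.unusedSectionVars false

open Set Filter Topology

namespace Pool.Agent.CYC

open Pool.Agent.Helper2.MK Pool.Agent.Helper50.HL Pool.Agent.Helper2.RO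

section ends

variable {V Y : Type*} [NormedAddCommGroup V] [NormedSpace ℝ V] [TopologicalSpace Y] {dev : Y → V}

/-- exact ends -/
structure IsEnd (dev : Y → V) (p : Y) (w : V) : Prop where
  before : ∀ t : ℝ, 0 ≤ t → t < 1 → t • w ∈ E dev p
  miss : w ∉ E dev p

/-- every missing vector gives an exact end -/
theorem exists_end [T2Space Y] (hdev : IsLocalHomeomorph dev) {p : Y} {w : V}
    (h : w ∉ E dev p) : ∃ s : ℝ, 0 < s ∧ s ≤ 1 ∧ IsEnd dev p (s • w) := by
  set S : Set ℝ := {t | 0 ≤ t ∧ t ≤ 1 ∧ t • w ∉ E dev p} with hS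
  have h1 : (1 : ℝ) ∈ S := ⟨zero_le_one, le_rfl, by rwa [one_smul]⟩
  have hbdd : BddBelow S := ⟨0, fun t ht => ht.1⟩
  have hclosed : IsClosed S := by
    have h2 : Continuous fun t : ℝ => t • w := continuous_id.smul continuous_const
    have h3 : S = Icc 0 1 ∩ (fun t : ℝ => t • w) ⁻¹' (E dev p)ᶜ := by
      ext t
      constructor
      · rintro ⟨a, b, c⟩
        exact ⟨⟨a, b⟩, c⟩
      · rintro ⟨⟨a, b⟩, c⟩
        exact ⟨a, b, c⟩
    rw [h3]
    exact isClosed_Icc.inter ((isOpen_E p).isClosed_compl.preimage h2)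
  have hmem : sInf S ∈ S := hclosed.csInf_mem ⟨1, h1⟩ hbdd
  obtain ⟨h2, h3, h4⟩ := hmem
  have hpos : 0 < sInf S := by
    rcases eq_or_lt_of_le h2 with h5 | h5
    · exfalso
      rw [← h5, zero_smul] at h4
      exact h4 (zero_mem_E hdev p)
    · exact h5
  refine ⟨sInf S, hpos, h3, ⟨fun t ht0 ht1 => ?_, h4⟩⟩
  rw [smul_smul]
  by_contra h5
  have h6 : t * sInf S ∈ S := by
    refine ⟨mul_nonneg ht0 h2, ?_, h5⟩
    calc t * sInf S ≤ 1 * 1 := mul_le_mul ht1.le h3 h2 zero_le_one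
      _ = 1 := one_mul 1
  have h7 := csInf_le hbdd h6
  have h8 : t * sInf S < 1 * sInf S := mul_lt_mul_of_pos_right ht1 hpos
  linarith

end ends

variable {V G Y : Type*} [NormedAddCommGroup V] [NormedSpace ℝ V] [FiniteDimensional ℝ V]
  [Group G] [TopologicalSpace Y] [T2Space Y] [MulAction G Y] {M : AffineDeveloping V G Y}

/-- frames along a straight path -/
def Levels (Q : Cpt M) (p : Y) (w : V) (a : ℝ → G) : Prop :=
  ∀ t : ℝ, ∃ z ∈ Q.K, mv M.dev p (t • w) = a t • z

theorem exists_levels (Q : Cpt M) (p : Y) (w : V) : ∃ a : ℝ → G, Levels Q p w a := by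
  choose a ha using fun t : ℝ => Q.cover (mv M.dev p (t • w))
  exact ⟨a, ha⟩

/-- along an exact end the frames contract `w` at most like the remaining time -/
theorem IsEnd.le {Q : Cpt M} {p : Y} {w : V} (h : IsEnd M.dev p w) {a : ℝ → G}
    (ha : Levels Q p w a) {t : ℝ} (h0 : 0 ≤ t) (h1 : t < 1) :
    Q.r ≤ (1 - t) * ‖lin M (a t)⁻¹ w‖ := by
  by_contra hlt
  push Not at hlt
  obtain ⟨z, hz, hz'⟩ := ha t
  have h2 : (1 - t) • w ∈ E M.dev (mv M.dev p (t • w)) := by
    rw [hz']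
    refine Q.mem_E (a t) hz ?_
    rw [lin_smul, norm_smul, Real.norm_of_nonneg (by linarith)]
    exact hlt
  have h3 := (ray_extend M.dev_local h0 (by linarith : (0 : ℝ) ≤ 1 - t) (h.before t h0 h1) h2).1
  rw [add_sub_cancel, one_smul] at h3
  exact h.miss h3

/-- the frames along an exact end leave every finite set -/
theorem IsEnd.eventually_notMem {Q : Cpt M} {p : Y} {w : V} (h : IsEnd M.dev p w) {a : ℝ → G}
    (ha : Levels Q p w a) {F : Set G} (hF : F.Finite) : ∀ᶠ t in 𝓝[<] (1 : ℝ), a t ∉ F := by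
  obtain ⟨R, hR⟩ := (hF.image fun g => ‖lin M g⁻¹ w‖).bddAbove
  have h1 : Tendsto (fun t : ℝ => (1 - t) * R) (𝓝[<] 1) (𝓝 ((1 - 1) * R)) := by
    have : Continuous fun t : ℝ => (1 - t) * R :=
      (continuous_const.sub continuous_id).mul continuous_const
    exact (this.tendsto 1).mono_left nhdsWithin_le_nhds
  rw [sub_self, zero_mul] at h1
  have h2 := h1.eventually (gt_mem_nhds Q.hr)
  have h3 : ∀ᶠ t : ℝ in 𝓝[<] 1, 0 ≤ t := nhdsWithin_le_nhds (Ici_mem_nhds zero_lt_one)
  filter_upwards [h2, h3, self_mem_nhdsWithin] with t ht ht0 ht1 hmem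
  have h4 := h.le ha ht0 ht1
  have h5 : ‖lin M (a t)⁻¹ w‖ ≤ R := hR ⟨a t, hmem, rfl⟩
  have h6 : (1 - t) * ‖lin M (a t)⁻¹ w‖ ≤ (1 - t) * R :=
    mul_le_mul_of_nonneg_left h5 (by have : t < 1 := ht1; linarith)
  linarith

/-- **Strip lemma** (any rank). -/
theorem strip {Q : Cpt M} {p : Y} {w : V} (h : IsEnd M.dev p w) {a : ℝ → G}
    (ha : Levels Q p w a) {v : V}
    (hv : Tendsto (fun t => lin M (a t)⁻¹ v) (𝓝[<] 1) (𝓝 0)) :
    ∃ σ : ℝ, 0 < σ ∧ ∀ s : ℝ, |s| ≤ σ → s • v ∈ E M.dev p ∧ IsEnd M.dev (mv M.dev p (s • v)) w ∧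
      ∀ t : ℝ, 0 ≤ t → t < 1 → s • v ∈ E M.dev (mv M.dev p (t • w)) ∧
        mv M.dev (mv M.dev p (s • v)) (t • w) = mv M.dev (mv M.dev p (t • w)) (s • v) := by
  have hr := Q.hr
  -- the contracted part of the end
  have h1 : ∀ᶠ t in 𝓝[<] (1 : ℝ), ‖lin M (a t)⁻¹ v‖ < Q.r / 2 := by
    have h2 : Tendsto (fun t => ‖lin M (a t)⁻¹ v‖) (𝓝[<] 1) (𝓝 0) := by
      simpa using hv.norm
    exact h2.eventually (gt_mem_nhds (half_pos hr))
  obtain ⟨l, hl1, hl⟩ := (mem_nhdsLT_iff_exists_Ioo_subset).1 h1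
  set t0 := max 0 ((l + 1) / 2) with ht0
  have ht00 : 0 ≤ t0 := le_max_left _ _
  have ht01 : t0 < 1 := max_lt zero_lt_one (by have : l < 1 := hl1; linarith)
  have hsmall : ∀ t : ℝ, t0 ≤ t → t < 1 → ‖lin M (a t)⁻¹ v‖ < Q.r / 2 := by
    intro t ht ht'
    refine hl ⟨?_, ht'⟩
    have h3 : (l + 1) / 2 ≤ t0 := le_max_right _ _
    have : l < 1 := hl1
    linarith
  -- the compact part of the end
  have hcomp : IsCompact ((fun t : ℝ => mv M.dev p (t • w)) '' Icc 0 t0) := by
    refine isCompact_Icc.image_of_continuousOn ?_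
    exact continuousOn_mv_comp M.dev_local continuousOn_const
      (continuous_id.smul continuous_const).continuousOn
      fun t ht => h.before t ht.1 (ht.2.trans_lt ht01)
  obtain ⟨c, hc, hball⟩ := exists_ball (M := M) hcomp
  set σ := min 1 (c / (2 * (‖v‖ + 1))) with hσ
  have hv1 : 0 < ‖v‖ + 1 := by have := norm_nonneg v; linarith
  have hσ0 : 0 < σ := lt_min one_pos (by positivity)
  have hmem : ∀ s : ℝ, |s| ≤ σ → ∀ t : ℝ, 0 ≤ t → t < 1 →
      s • v ∈ E M.dev (mv M.dev p (t • w)) := by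
    intro s hs t h0 h1
    rcases le_total t t0 with h2 | h2
    · refine hball _ ⟨t, ⟨h0, h2⟩, rfl⟩ _ ?_
      rw [norm_smul, Real.norm_eq_abs]
      calc |s| * ‖v‖ ≤ c / (2 * (‖v‖ + 1)) * ‖v‖ :=
            mul_le_mul_of_nonneg_right (hs.trans (min_le_right _ _)) (norm_nonneg _)
        _ < c := by
            rw [div_mul_eq_mul_div, div_lt_iff₀ (by positivity)]
            nlinarith [norm_nonneg v]
    · obtain ⟨z, hz, hz'⟩ := ha t
      rw [hz']
      refine Q.mem_E (a t) hz ?_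
      rw [lin_smul, norm_smul, Real.norm_eq_abs]
      have h3 : |s| ≤ 1 := hs.trans (min_le_left _ _)
      have h4 := hsmall t h2 h1
      have h5 := mul_le_mul_of_nonneg_right h3 (norm_nonneg (lin M (a t)⁻¹ v))
      linarith
  have hp : ∀ s : ℝ, |s| ≤ σ → s • v ∈ E M.dev p := by
    intro s hs
    have h2 := hmem s hs 0 le_rfl zero_lt_one
    rwa [zero_smul, mv_zero M.dev_local] at h2
  have hpath : ∀ s : ℝ, |s| ≤ σ → ∀ t : ℝ, 0 ≤ t → t < 1 →
      t • w ∈ E M.dev (mv M.dev p (s • v)) ∧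
        mv M.dev (mv M.dev p (s • v)) (t • w) = mv M.dev (mv M.dev p (t • w)) (s • v) := by
    intro s hs t h0 h1
    have h2 := path M.dev_local (γ := fun τ => mv M.dev (mv M.dev p (τ • t • w)) (s • v))
      (v := t • w) ?_ ?_
    · simp only [zero_smul, one_smul] at h2
      rwa [mv_zero M.dev_local] at h2
    · have hf : ContinuousOn (fun τ : ℝ => mv M.dev p (τ • t • w)) (Icc 0 1) :=
        continuousOn_mv_comp M.dev_local continuousOn_const
          (continuous_id.smul continuous_const).continuousOn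
          fun τ hτ => smul_mem_E (h.before t h0 h1) hτ.1 hτ.2
      refine continuousOn_mv_comp M.dev_local hf continuousOn_const fun τ hτ => ?_
      rw [smul_smul]
      refine hmem s hs _ (mul_nonneg hτ.1 h0) ?_
      have := mul_le_mul_of_nonneg_right hτ.2 h0
      linarith
    · intro τ hτ
      have e1 : τ • t • w ∈ E M.dev p := smul_mem_E (h.before t h0 h1) hτ.1 hτ.2
      have e2 : s • v ∈ E M.dev (mv M.dev p (τ • t • w)) := by
        rw [smul_smul]
        refine hmem s hs _ (mul_nonneg hτ.1 h0) ?_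
        have := mul_le_mul_of_nonneg_right hτ.2 h0
        linarith
      simp only [zero_smul]
      rw [mv_zero M.dev_local, dev_mv M.dev_local e2, dev_mv M.dev_local e1,
        dev_mv M.dev_local (hp s hs)]
      abel
  refine ⟨σ, hσ0, fun s hs => ⟨hp s hs, ⟨fun t h0 h1 => (hpath s hs t h0 h1).1, ?_⟩,
    fun t h0 h1 => ⟨hmem s hs t h0 h1, (hpath s hs t h0 h1).2⟩⟩⟩
  intro hw
  -- otherwise the shifted path converges, against properness
  set q := mv M.dev p (s • v) with hq
  have hcomp2 : IsCompact ((fun t : ℝ => mv M.dev q (t • w)) '' Icc 0 1) := by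
    refine isCompact_Icc.image_of_continuousOn ?_
    exact continuousOn_mv_comp M.dev_local continuousOn_const
      (continuous_id.smul continuous_const).continuousOn
      fun t ht => smul_mem_E hw ht.1 ht.2
  have hfin := finite_of_compact M Q.hK1 hcomp2
  have h2 := h.eventually_notMem ha hfin
  have h3 : ∀ᶠ t in 𝓝[<] (1 : ℝ), t0 ≤ t := nhdsWithin_le_nhds (Ici_mem_nhds ht01)
  obtain ⟨t, ht, ht2, ht3⟩ := (h2.and (h3.and self_mem_nhdsWithin)).exists
  have ht0' : 0 ≤ t := ht00.trans ht2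
  have ht1' : t < 1 := ht3
  refine ht ?_
  obtain ⟨z, hz, hz'⟩ := ha t
  have h4 : ‖lin M (a t)⁻¹ (s • v)‖ ≤ Q.r / 2 := by
    rw [lin_smul, norm_smul, Real.norm_eq_abs]
    have h5 : |s| ≤ 1 := hs.trans (min_le_left _ _)
    have h6 := hsmall t ht2 ht1'
    have h7 := mul_le_mul_of_nonneg_right h5 (norm_nonneg (lin M (a t)⁻¹ v))
    linarith
  obtain ⟨k, hk, hk'⟩ := Q.mv_mem (a t) hz h4
  refine ⟨k, hk, ?_⟩
  refine ⟨t, ⟨ht0', ht1'.le⟩, ?_⟩
  simp only
  rw [(hpath s hs t ht0' ht1').2, hz', hk']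

/-- a direction contracted by some frame of the end is visible from the end: the sweeping
argument of two opposite ends -/
theorem mem_E_of_contracted {Q : Cpt M} {p : Y} {w : V} {a : ℝ → G} (ha : Levels Q p w a) {v : V}
    {t : ℝ} (h : ‖lin M (a t)⁻¹ v‖ < Q.r) : v ∈ E M.dev (mv M.dev p (t • w)) := by
  obtain ⟨z, hz, hz'⟩ := ha t
  rw [hz']
  exact Q.mem_E (a t) hz h

/-- Two families of directions which are contracted along each other's ends. -/
structure Opp (M : AffineDeveloping V G Y) (Q : Cpt M) (F F' : Submodule ℝ V) : Prop where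
  fwd : ∀ (p : Y) (w : V) (a : ℝ → G), w ∈ F → IsEnd M.dev p w → Levels Q p w a →
    ∀ v ∈ F', Tendsto (fun t => lin M (a t)⁻¹ v) (𝓝[<] 1) (𝓝 0)
  bwd : ∀ (p : Y) (w : V) (a : ℝ → G), w ∈ F' → IsEnd M.dev p w → Levels Q p w a →
    ∀ v ∈ F, Tendsto (fun t => lin M (a t)⁻¹ v) (𝓝[<] 1) (𝓝 0)

theorem Opp.symm {Q : Cpt M} {F F' : Submodule ℝ V} (h : Opp M Q F F') : Opp M Q F' F :=
  ⟨h.bwd, h.fwd⟩

/-- **Sweeping**: an exact end in a direction of `F` sweeps parallel to itself over `F'`. -/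
theorem sweep {Q : Cpt M} {F F' : Submodule ℝ V} (hop : Opp M Q F F') {p : Y} {w v : V}
    (hw : w ∈ F) (hend : IsEnd M.dev p w) (hv : v ∈ F') :
    v ∈ E M.dev p ∧ IsEnd M.dev (mv M.dev p v) w := by
  set Good : ℝ → Prop := fun τ => τ • v ∈ E M.dev p ∧ IsEnd M.dev (mv M.dev p (τ • v)) w
    with hGood
  suffices hall : ∀ τ : ℝ, 0 ≤ τ → τ ≤ 1 → Good τ by
    have := hall 1 zero_le_one le_rfl
    simpa [hGood] using this
  by_contra hcon
  push Not at hcon
  set B : Set ℝ := {τ | 0 ≤ τ ∧ τ ≤ 1 ∧ ¬ Good τ} with hB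
  have hBne : B.Nonempty := by
    obtain ⟨τ, h0, h1, h2⟩ := hcon
    exact ⟨τ, h0, h1, h2⟩
  have hBbdd : BddBelow B := ⟨0, fun τ h => h.1⟩
  set T := sInf B with hT
  have hT0 : 0 ≤ T := le_csInf hBne fun τ h => h.1
  have hT1 : T ≤ 1 := by
    obtain ⟨τ, hτ⟩ := hBne
    exact (csInf_le hBbdd hτ).trans hτ.2.1
  have hlt : ∀ τ : ℝ, 0 ≤ τ → τ < T → Good τ := by
    intro τ h0 h1
    by_contra h2
    exact absurd (csInf_le hBbdd ⟨h0, h1.le.trans hT1, h2⟩) (not_le.2 h1)
  have hgood : Good T := by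
    rcases eq_or_lt_of_le hT0 with h0 | h0
    · rw [← h0, hGood]
      simp only [zero_smul]
      rw [mv_zero M.dev_local]
      exact ⟨zero_mem_E M.dev_local p, hend⟩
    -- `T v` is visible
    have hTv : T • v ∈ E M.dev p := by
      by_contra hmiss
      have hend' : IsEnd M.dev p (T • v) := by
        refine ⟨fun t ht0 ht1 => ?_, hmiss⟩
        rw [smul_smul]
        refine (hlt (t * T) (mul_nonneg ht0 hT0) ?_).1
        have := mul_lt_mul_of_pos_right ht1 h0
        linarith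
      obtain ⟨b, hb⟩ := exists_levels Q p (T • v)
      have h1 := hop.bwd p (T • v) b (F'.smul_mem _ hv) hend' hb w hw
      have h2 : ∀ᶠ t in 𝓝[<] (1 : ℝ), ‖lin M (b t)⁻¹ w‖ < Q.r := by
        have h3 : Tendsto (fun t => ‖lin M (b t)⁻¹ w‖) (𝓝[<] 1) (𝓝 0) := by
          simpa using h1.norm
        exact h3.eventually (gt_mem_nhds Q.hr)
      have h3 : ∀ᶠ t : ℝ in 𝓝[<] 1, 0 ≤ t := nhdsWithin_le_nhds (Ici_mem_nhds zero_lt_one)
      obtain ⟨t, ht, ht0, ht1⟩ := (h2.and (h3.and self_mem_nhdsWithin)).exists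
      have h4 := mem_E_of_contracted hb ht
      have ht1' : t < 1 := ht1
      have h5 := (hlt (t * T) (mul_nonneg ht0 hT0) (by
        have := mul_lt_mul_of_pos_right ht1' h0
        linarith)).2.miss
      rw [smul_smul] at h4
      exact h5 h4
    have hcont : ContinuousOn (fun τ : ℝ => mv M.dev p (τ • v)) (Icc 0 T) :=
      continuousOn_mv_comp M.dev_local continuousOn_const
        (continuous_id.smul continuous_const).continuousOn
        fun τ hτ => smul_mem_E' hTv hτ.1 hτ.2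
    refine ⟨hTv, ⟨?_, ?_⟩⟩
    · -- everything before `w` is visible from `T v`
      intro t ht0 ht1
      by_contra hmiss
      obtain ⟨s, hs0, hs1, hse⟩ := exists_end M.dev_local hmiss
      rw [smul_smul] at hse
      obtain ⟨b, hb⟩ := exists_levels Q (mv M.dev p (T • v)) ((s * t) • w)
      have h1 := hop.fwd _ _ b (F.smul_mem _ hw) hse hb (-v) (F'.neg_mem hv)
      obtain ⟨σ, hσ0, hσ⟩ := strip hse hb h1
      have hm0 : 0 < min σ T := lt_min hσ0 h0
      have h2 := (hσ (min σ T) (by rw [abs_of_pos hm0]; exact min_le_left _ _)).2.1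
      have h3 : mv M.dev (mv M.dev p (T • v)) ((min σ T) • (-v)) =
          mv M.dev p ((T - min σ T) • v) := by
        have h4 := (tri M.dev_local (y := p) (u := T • v) (w := (min σ T) • (-v)) ?_).2
        · rw [h4]
          congr 1
          module
        · intro r hr
          have e : T • v + r • min σ T • -v = (T - r * min σ T) • v := by module
          rw [e]
          have h5 : r * min σ T ≤ T := by
            have := mul_le_mul hr.2 (min_le_right σ T) hm0.le zero_le_one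
            linarith
          refine smul_mem_E' hTv (by linarith) ?_
          have := mul_nonneg hr.1 hm0.le
          linarith
      rw [h3] at h2
      have h5 := (hlt (T - min σ T) (by have := min_le_right σ T; linarith)
        (by linarith)).2.before (s * t) (mul_nonneg hs0.le ht0) ?_
      · exact h2.miss h5
      · have := mul_le_mul_of_nonneg_right hs1 ht0
        linarith
    · -- `w` is missing from `T v`
      intro hmem
      have h1 := eventually_mem_E M.dev_local hmem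
      have h2 : Tendsto (fun τ : ℝ => (mv M.dev p (τ • v), w)) (𝓝[Icc 0 T] T)
          (𝓝 (mv M.dev p (T • v), w)) :=
        (hcont T ⟨hT0, le_rfl⟩).prodMk_nhds tendsto_const_nhds
      have h3 := h2.eventually h1
      have h4 : ∀ᶠ τ in 𝓝[<] T, w ∈ E M.dev (mv M.dev p (τ • v)) := by
        have h5 : 𝓝[Ico 0 T] T ≤ 𝓝[Icc 0 T] T := nhdsWithin_mono _ Ico_subset_Icc_self
        have h6 : 𝓝[Ico 0 T] T = 𝓝[<] T := nhdsWithin_Ico_eq_nhdsLT h0
        rw [← h6]
        exact h3.filter_mono h5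
      have h5 : ∀ᶠ τ : ℝ in 𝓝[<] T, 0 ≤ τ := nhdsWithin_le_nhds (Ici_mem_nhds h0)
      obtain ⟨τ, hτ, hτ0, hτ1⟩ := (h4.and (h5.and self_mem_nhdsWithin)).exists
      exact (hlt τ hτ0 hτ1).2.miss hτ
  -- a bit further
  obtain ⟨b, hb⟩ := exists_levels Q (mv M.dev p (T • v)) w
  obtain ⟨σ, hσ0, hσ⟩ := strip hgood.2 hb (hop.fwd _ _ b hw hgood.2 hb v hv)
  have hfar : ∀ τ ∈ B, T + σ ≤ τ := by
    intro τ hτ
    have h1 := csInf_le hBbdd hτ
    by_contra h2
    push Not at h2
    refine hτ.2.2 ?_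
    have h3 : 0 ≤ τ - T := by linarith
    obtain ⟨h4, h5, -⟩ := hσ (τ - T) (by rw [abs_of_nonneg h3]; linarith)
    have h6 := ray_extend M.dev_local hT0 h3 hgood.1 h4
    rw [add_sub_cancel] at h6
    refine ⟨h6.1, ?_⟩
    rw [h6.2]
    exact h5
  have := le_csInf hBne hfar
  linarith

/-- `F`-incompleteness is inherited by moves in `F'`, `F` and `Cd`. -/
def Inc (M : AffineDeveloping V G Y) (F : Submodule ℝ V) (y : Y) : Prop :=
  ∃ w ∈ F, w ∉ E M.dev y

theorem Inc.exists_isEnd {F : Submodule ℝ V} {y : Y} (h : Inc M F y) :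
    ∃ w ∈ F, IsEnd M.dev y w := by
  obtain ⟨w, hw, hmiss⟩ := h
  obtain ⟨s, -, -, hs⟩ := exists_end M.dev_local hmiss
  exact ⟨s • w, F.smul_mem _ hw, hs⟩

theorem Inc.opp {Q : Cpt M} {F F' : Submodule ℝ V} (hop : Opp M Q F F') {y : Y}
    (h : Inc M F y) {v : V} (hv : v ∈ F') : v ∈ E M.dev y ∧ Inc M F (mv M.dev y v) := by
  obtain ⟨w, hw, hend⟩ := h.exists_isEnd
  have h1 := sweep hop hw hend hv
  exact ⟨h1.1, w, hw, h1.2.miss⟩

theorem Inc.self {F : Submodule ℝ V} {y : Y} (h : Inc M F y) {v : V} (hv : v ∈ F)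
    (hvE : v ∈ E M.dev y) : Inc M F (mv M.dev y v) := by
  by_contra hcon
  unfold Inc at hcon
  push Not at hcon
  obtain ⟨w, hw, hmiss⟩ := h
  refine hmiss ?_
  -- go back from `y + v` to `y`, then to `w`
  have h1 := tri_convex M.dev_local (y := mv M.dev y v) (D := (F : Set V)) F.convex
    (fun u hu => hcon u hu) (F.neg_mem hv) (F.sub_mem hw hv)
  have h2 : mv M.dev (mv M.dev y v) (-v) = y := by
    have h3 := (tri M.dev_local (y := y) (u := v) (w := -v) ?_).2
    · rw [h3, add_neg_cancel, mv_zero M.dev_local]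
    · intro t ht
      have e : v + t • -v = (1 - t) • v := by module
      rw [e]
      exact smul_mem_E hvE (by linarith [ht.2]) (by linarith [ht.1])
  rw [h2] at h1
  have h4 := h1.1
  rwa [sub_neg_eq_add, sub_add_cancel] at h4

theorem Inc.cd {F : Submodule ℝ V} {y : Y} (h : Inc M F y) {c : V}
    (hc : c ∈ Cd M.dev M.dev_local) : Inc M F (mv M.dev y c) := by
  obtain ⟨w, hw, hmiss⟩ := h
  refine ⟨w, hw, ?_⟩
  rwa [E_mv_Cd M.dev_local hc]

/-- linear decomposition along three subspaces spanning `V` -/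
theorem exists_decomp {F F' C : Submodule ℝ V} (h : F ⊔ F' ⊔ C = ⊤) :
    ∃ π₁ π₂ π₃ : V →L[ℝ] V, (∀ v, π₁ v ∈ F) ∧ (∀ v, π₂ v ∈ F') ∧ (∀ v, π₃ v ∈ C) ∧
      ∀ v, π₂ v + π₁ v + π₃ v = v := by
  set f : (F × F') × C →ₗ[ℝ] V :=
    LinearMap.coprod (LinearMap.coprod F.subtype F'.subtype) C.subtype with hf
  have hsurj : LinearMap.range f = ⊤ := by
    rw [hf, LinearMap.range_coprod, LinearMap.range_coprod, Submodule.range_subtype,
      Submodule.range_subtype, Submodule.range_subtype, h]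
  obtain ⟨g, hg⟩ := f.exists_rightInverse_of_surjective hsurj
  refine ⟨LinearMap.toContinuousLinearMap (F.subtype ∘ₗ (LinearMap.fst ℝ F F') ∘ₗ
      (LinearMap.fst ℝ (F × F') C) ∘ₗ g),
    LinearMap.toContinuousLinearMap (F'.subtype ∘ₗ (LinearMap.snd ℝ F F') ∘ₗ
      (LinearMap.fst ℝ (F × F') C) ∘ₗ g),
    LinearMap.toContinuousLinearMap (C.subtype ∘ₗ (LinearMap.snd ℝ (F × F') C) ∘ₗ g),
    fun v => (g v).1.1.2, fun v => (g v).1.2.2, fun v => (g v).2.2, fun v => ?_⟩
  have h1 : f (g v) = v := by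
    have := congrArg (fun l => l v) hg
    simpa using this
  have h2 : f (g v) = ((g v).1.1 : V) + ((g v).1.2 : V) + ((g v).2 : V) := by
    rw [hf]; rfl
  rw [h2] at h1
  change ((g v).1.2 : V) + ((g v).1.1 : V) + ((g v).2 : V) = v
  rw [add_comm ((g v).1.2 : V)]
  exact h1

/-- incompleteness is inherited by all small moves -/
theorem Inc.move {Q : Cpt M} {F F' : Submodule ℝ V} (hop : Opp M Q F F')
    {π₁ π₂ π₃ : V →L[ℝ] V} (h₁ : ∀ v, π₁ v ∈ F) (h₂ : ∀ v, π₂ v ∈ F')
    (h₃ : ∀ v, π₃ v ∈ Cd M.dev M.dev_local) (hsum : ∀ v, π₂ v + π₁ v + π₃ v = v)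
    {y : Y} {r : ℝ} (hball : ∀ v : V, ‖v‖ < r → v ∈ E M.dev y) {e : V} (he : ‖e‖ < r)
    (he2 : ‖π₂ e‖ < r) (he12 : ‖π₂ e + π₁ e‖ < r) (h : Inc M F y) :
    Inc M F (mv M.dev y e) := by
  have hD : Convex ℝ (Metric.ball (0 : V) r) := convex_ball _ _
  have hDE : Metric.ball (0 : V) r ⊆ E M.dev y := fun v hv => hball v (by simpa using hv)
  have m0 : ∀ v : V, ‖v‖ < r → v ∈ Metric.ball (0 : V) r := fun v hv => by simpa using hv
  have h4 := (h.opp hop (h₂ e)).2
  have h5 := tri_convex M.dev_local hD hDE (m0 _ he2) (m0 _ he12)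
  rw [add_sub_cancel_left] at h5
  have h6 := h4.self (h₁ e) h5.1
  rw [h5.2] at h6
  have h7 := tri_convex M.dev_local hD hDE (m0 _ he12) (m0 _ he)
  have h8 : e - (π₂ e + π₁ e) = π₃ e := sub_eq_of_eq_add' (hsum e).symm
  rw [h8] at h7
  have h9 := h6.cd (h₃ e)
  rwa [h7.2] at h9

/-- **Step 1** (any rank): if `F`, `F'` are opposite and span together with the complete
directions, then one of them is complete. -/
theorem Opp.le_Cd_or [ConnectedSpace Y] {Q : Cpt M} {F F' : Submodule ℝ V}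
    (hop : Opp M Q F F') (hsup : F ⊔ F' ⊔ Cd M.dev M.dev_local = ⊤) :
    F ≤ Cd M.dev M.dev_local ∨ F' ≤ Cd M.dev M.dev_local := by
  obtain ⟨π₁, π₂, π₃, h₁, h₂, h₃, hsum⟩ := exists_decomp hsup
  set κ : ℝ := ‖π₁‖ + ‖π₂‖ + 1 with hκ
  have hκ1 : 1 ≤ κ := by
    have := norm_nonneg π₁
    have := norm_nonneg π₂
    linarith
  have hκ0 : 0 < κ := by linarith
  -- small moves
  have hmove : ∀ (y : Y) (r : ℝ), (∀ v : V, ‖v‖ < r → v ∈ E M.dev y) → ∀ e : V, ‖e‖ < r / κ →
      Inc M F y → Inc M F (mv M.dev y e) := by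
    intro y r hball e he h
    rw [lt_div_iff₀ hκ0] at he
    have hn := norm_nonneg e
    have e1 := π₁.le_opNorm e
    have e2 := π₂.le_opNorm e
    have e3 := norm_add_le (π₂ e) (π₁ e)
    have e4 := mul_nonneg (norm_nonneg π₁) hn
    have e5 := mul_nonneg (norm_nonneg π₂) hn
    refine h.move hop h₁ h₂ h₃ hsum hball ?_ ?_ ?_ <;> nlinarith
  have hnear : ∀ y : Y, ∀ᶠ y' in 𝓝 y, (Inc M F y ↔ Inc M F y') := by
    intro y
    obtain ⟨r, hr, hball⟩ := exists_ball (M := M) (isCompact_singleton (x := y))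
    have hball := hball y rfl
    have hC : Metric.ball (M.dev y) r ⊆ dom M.dev y := by
      intro x hx
      have h4 := hball (x - M.dev y) (by rwa [← mem_ball_iff_norm])
      rwa [mem_E, add_sub_cancel] at h4
    have e1 := near_convex M.dev_local Metric.isOpen_ball (convex_ball (M.dev y) r)
      (Metric.mem_ball_self hr) hC
    have hδ : 0 < r / 2 / κ := by positivity
    have e2 : ∀ᶠ y' in 𝓝 y, M.dev y' ∈ Metric.ball (M.dev y) (r / 2 / κ) :=
      M.dev_local.continuous.continuousAt.eventually_mem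
        (Metric.isOpen_ball.mem_nhds (Metric.mem_ball_self hδ))
    filter_upwards [e1, e2, near M.dev_local y] with y' h4 h5 h6
    rw [mem_ball_iff_norm] at h5
    obtain ⟨h7, h8, h9, h10⟩ := h6
    have h11 : r / 2 / κ ≤ r / κ := by
      apply div_le_div_of_nonneg_right _ hκ0.le
      linarith
    have h12 : r / 2 / κ ≤ r / 2 := div_le_self (by linarith) hκ1
    constructor
    · intro h
      have h13 := hmove y r hball (M.dev y' - M.dev y) (h5.trans_le h11) h
      unfold mv at h13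
      rwa [add_sub_cancel, h8] at h13
    · intro h
      have h13 := hmove y' (r / 2) (fun v hv => ?_) (M.dev y - M.dev y') ?_ h
      · unfold mv at h13
        rwa [add_sub_cancel, h10] at h13
      · refine h4.1 ?_
        rw [mem_ball_iff_norm]
        have e3 : M.dev y' + v - M.dev y = (M.dev y' - M.dev y) + v := by abel
        rw [e3]
        have := norm_add_le (M.dev y' - M.dev y) v
        linarith
      · rw [norm_sub_rev]
        exact h5
  have hclopen : IsClopen {y : Y | Inc M F y} := by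
    constructor
    · rw [← isOpen_compl_iff, isOpen_iff_mem_nhds]
      intro y hy
      filter_upwards [hnear y] with y' h
      exact fun h' => hy (h.2 h')
    · rw [isOpen_iff_mem_nhds]
      intro y hy
      filter_upwards [hnear y] with y' h
      exact h.1 hy
  rcases isClopen_iff.1 hclopen with h | h
  · left
    intro w hw y t
    by_contra hcon
    have h4 : y ∈ {y : Y | Inc M F y} := ⟨t • w, F.smul_mem _ hw, hcon⟩
    rw [h] at h4
    exact h4
  · right
    intro v hv y t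
    have h4 : y ∈ {y : Y | Inc M F y} := by rw [h]; trivial
    exact (Inc.opp hop h4 (F'.smul_mem t hv)).1

end Pool.Agent.CYC
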