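import Pool.Agent.CYC.DiscG
import Pool.Agent.CYC.Lat2
import Pool.Agent.CYC.LinDet
import Pool.Agent.CYC.Strip
import Pool.Agent.SOL.Lift

/-!
# Compact affine manifolds with linear holonomy of rank at most one

Assembly: `chi` is a homomorphism from the group to the reals such that the linear holonomy is
bounded on the sets `|chi| <= T`.
-/

set_option autoImplicit false
set_option linter.unusedSectionVars false

open Set Filter Topology

namespace Pool.Agent.CYC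

open Pool.Agent.Helper2.MK Pool.Agent.Helper50.HL Pool.Agent.Helper2.RO

variable {V G Y : Type*} [NormedAddCommGroup V] [NormedSpace ℝ V] [FiniteDimensional ℝ V]
  [Group G] [TopologicalSpace Y] [T2Space Y] [MulAction G Y] {M : AffineDeveloping V G Y}

variable (M) in
/-- the linear holonomy as a homomorphism -/
def linHom : G →* (V ≃ₗ[ℝ] V) :=
  MonoidHom.mk' (lin M) fun g g' => LinearEquiv.ext (lin_mul M g g')

theorem lin_zpow (g : G) (q : ℤ) (v : V) : lin M (g ^ q) v = (lin M g ^ q) v := by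
  have h := map_zpow (linHom M) g q
  exact LinearEquiv.congr_fun h v

theorem lin_inv_eq (g : G) : lin M g⁻¹ = (lin M g)⁻¹ := map_inv (linHom M) g

theorem IsHt.bdd' {χ : G → ℝ} (h : IsHt M χ) (T : ℝ) :
    ∃ κ : ℝ, 1 ≤ κ ∧ ∀ g, |χ g| ≤ T → ∀ v, ‖lin M g v‖ ≤ κ * ‖v‖ := by
  obtain ⟨κ, hκ⟩ := h.bdd T
  exact ⟨max κ 1, le_max_right _ _, fun g hg v =>
    (hκ g hg v).trans (mul_le_mul_of_nonneg_right (le_max_left _ _) (norm_nonneg _))⟩

theorem IsHt.split {χ : G → ℝ} (h : IsHt M χ) {g0 : G} (h0 : 0 < χ g0) (g : G) :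
    ∃ (q : ℤ) (k : G), g = k * g0 ^ q ∧ 0 ≤ χ k ∧ χ k ≤ χ g0 ∧ χ g = χ k + q * χ g0 ∧
      ∀ v, lin M g v = lin M k ((lin M g0 ^ q) v) := by
  set q := ⌊χ g / χ g0⌋ with hq
  have h1 : (q : ℝ) ≤ χ g / χ g0 := Int.floor_le _
  have h2 : χ g / χ g0 < q + 1 := Int.lt_floor_add_one _
  rw [le_div_iff₀ h0] at h1
  rw [div_lt_iff₀ h0] at h2
  have e : χ (g * (g0 ^ q)⁻¹) = χ g - q * χ g0 := by
    rw [h.hom, h.inv, h.zpow]; ring
  refine ⟨q, g * (g0 ^ q)⁻¹, by group, by rw [e]; linarith, ?_, by rw [e]; ring, fun v => ?_⟩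
  · rw [e]
    have : ((q : ℝ) + 1) * χ g0 = q * χ g0 + χ g0 := by ring
    linarith
  · rw [← lin_zpow, ← lin_mul, inv_mul_cancel_right]

/-- the stable subspace is uniformly contracted -/
theorem IsHt.es_contr {χ : G → ℝ} (h : IsHt M χ) {g0 : G} (h0 : 0 < χ g0) {ε : ℝ} (hε : 0 < ε) :
    ∃ T : ℝ, ∀ g, T ≤ χ g → ∀ v ∈ Es (lin M g0), ‖lin M g v‖ ≤ ε * ‖v‖ := by
  obtain ⟨κ, hκ1, hκ⟩ := h.bdd' (χ g0)
  have hκ0 : 0 < κ := by linarith
  obtain ⟨m0, hm0⟩ := Es_unif (lin M g0) (ε / κ) (by positivity)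
  refine ⟨(m0 + 1) * χ g0, fun g hg v hv => ?_⟩
  obtain ⟨q, k, -, hk0, hk1, hχ, hlin⟩ := h.split h0 g
  have h1 : (m0 : ℝ) * χ g0 ≤ q * χ g0 := by nlinarith
  have h2 : (m0 : ℝ) ≤ q := le_of_mul_le_mul_right h1 h0
  have h3 : (m0 : ℤ) ≤ q := by exact_mod_cast h2
  obtain ⟨n, rfl⟩ : ∃ n : ℕ, q = n := ⟨q.toNat, by omega⟩
  rw [hlin, zpow_natCast]
  have h4 := hκ k (by rw [abs_of_nonneg hk0]; exact hk1) ((lin M g0 ^ n) v)
  have h5 := hm0 n (by exact_mod_cast h3) v hv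
  calc ‖lin M k ((lin M g0 ^ n) v)‖ ≤ κ * ‖(lin M g0 ^ n) v‖ := h4
    _ ≤ κ * (ε / κ * ‖v‖) := mul_le_mul_of_nonneg_left h5 hκ0.le
    _ = ε * ‖v‖ := by field_simp

/-- the stable subspace is bounded for heights bounded below -/
theorem IsHt.es_bdd {χ : G → ℝ} (h : IsHt M χ) {g0 : G} (h0 : 0 < χ g0) (T : ℝ) :
    ∃ κ : ℝ, ∀ g, -T ≤ χ g → ∀ v ∈ Es (lin M g0), ‖lin M g v‖ ≤ κ * ‖v‖ := by
  obtain ⟨κ, hκ1, hκ⟩ := h.bdd' (χ g0)
  have hκ0 : 0 < κ := by linarith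
  obtain ⟨n, hn⟩ := exists_nat_gt (T / χ g0 + 1)
  obtain ⟨R, hR, hR'⟩ := Es_bdd (lin M g0) n
  refine ⟨κ * R, fun g hg v hv => ?_⟩
  obtain ⟨q, k, -, hk0, hk1, hχ, hlin⟩ := h.split h0 g
  have h1 : -(n : ℤ) ≤ q := by
    have h2 : T / χ g0 < n - 1 := by linarith
    rw [div_lt_iff₀ h0] at h2
    have h3 : (-(n : ℝ)) * χ g0 < q * χ g0 := by nlinarith
    have h4 : (-(n : ℝ)) < q := lt_of_mul_lt_mul_right h3 h0.le
    have h5 : -(n : ℤ) < q := by exact_mod_cast h4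
    exact h5.le
  rw [hlin]
  calc ‖lin M k ((lin M g0 ^ q) v)‖ ≤ κ * ‖(lin M g0 ^ q) v‖ :=
        hκ k (by rw [abs_of_nonneg hk0]; exact hk1) _
    _ ≤ κ * (R * ‖v‖) := mul_le_mul_of_nonneg_left (hR' q h1 v hv) hκ0.le
    _ = κ * R * ‖v‖ := by ring

/-- heights along an exact end in an unstable direction -/
theorem IsHt.fwd {χ : G → ℝ} (h : IsHt M χ) {g0 : G} (h0 : 0 < χ g0) {Q : Cpt M} {p : Y} {w : V}
    {a : ℝ → G} (hw : w ∈ Eu (lin M g0)) (hend : IsEnd M.dev p w) (ha : Levels Q p w a)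
    {v : V} (hv : v ∈ Es (lin M g0)) :
    Tendsto (fun t => lin M (a t)⁻¹ v) (𝓝[<] 1) (𝓝 0) := by
  -- heights
  have hh : ∀ T : ℝ, ∀ᶠ t in 𝓝[<] (1 : ℝ), T ≤ χ (a t)⁻¹ := by
    intro T
    have h0' : 0 < -χ g0⁻¹ := by rw [h.inv]; linarith
    obtain ⟨κ, hκ⟩ := h.neg.es_bdd (g0 := g0⁻¹) h0' T
    have h1 : Tendsto (fun t : ℝ => (1 - t) * (κ * ‖w‖)) (𝓝[<] 1) (𝓝 ((1 - 1) * (κ * ‖w‖))) := by
      have : Continuous fun t : ℝ => (1 - t) * (κ * ‖w‖) :=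
        (continuous_const.sub continuous_id).mul continuous_const
      exact (this.tendsto 1).mono_left nhdsWithin_le_nhds
    rw [sub_self, zero_mul] at h1
    have h2 : ∀ᶠ t : ℝ in 𝓝[<] 1, 0 ≤ t := nhdsWithin_le_nhds (Ici_mem_nhds zero_lt_one)
    filter_upwards [h1.eventually (gt_mem_nhds Q.hr), h2, self_mem_nhdsWithin] with t ht ht0 ht1
    by_contra hlt
    push Not at hlt
    have ht1' : t < 1 := ht1
    have h3 := hend.le ha ht0 ht1'
    have h4 := hκ (a t)⁻¹ (by linarith) w (by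
      rw [lin_inv_eq g0]; exact hw)
    have h5 := mul_le_mul_of_nonneg_left h4 (by linarith : (0 : ℝ) ≤ 1 - t)
    linarith
  rw [NormedAddGroup.tendsto_nhds_zero]
  intro ε hε
  have hv1 : 0 < ‖v‖ + 1 := by have := norm_nonneg v; linarith
  obtain ⟨T, hT⟩ := h.es_contr h0 (ε := ε / (‖v‖ + 1)) (by positivity)
  filter_upwards [hh T] with t ht
  refine (hT _ ht v hv).trans_lt ?_
  rw [div_mul_eq_mul_div, div_lt_iff₀ hv1]
  nlinarith [norm_nonneg v]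

theorem IsHt.opp {χ : G → ℝ} (h : IsHt M χ) {g0 : G} (h0 : 0 < χ g0) (Q : Cpt M) :
    Opp M Q (Eu (lin M g0)) (Es (lin M g0)) where
  fwd p w a hw hend ha v hv := h.fwd h0 hw hend ha hv
  bwd p w a hw hend ha v hv := by
    have h0' : 0 < -χ g0⁻¹ := by rw [h.inv]; linarith
    refine h.neg.fwd (g0 := g0⁻¹) h0' ?_ hend ha ?_
    · rw [lin_inv_eq]
      show w ∈ Es (lin M g0)⁻¹⁻¹
      rw [inv_inv]
      exact hw
    · rw [lin_inv_eq]
      exact hv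

/-- **Step 0**: the three subspaces span. -/
theorem IsHt.sup {χ : G → ℝ} (h : IsHt M χ) {g0 : G} (h0 : 0 < χ g0) :
    Es (lin M g0) ⊔ Eu (lin M g0) ⊔ Cd M.dev M.dev_local = ⊤ := by
  refine sup_eq_top (lin M g0) (Cd M.dev M.dev_local) fun v hv => ?_
  obtain ⟨R, hR⟩ := hv
  obtain ⟨κ, hκ1, hκ⟩ := h.bdd' (χ g0)
  refine mem_Cd_of_bdd M (R := κ * R) fun g => ?_
  obtain ⟨q, k, -, hk0, hk1, -, hlin⟩ := h.split h0 g
  obtain ⟨c, hc, hc'⟩ := hR q
  refine ⟨lin M k c, lin_Cd M k hc, ?_⟩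
  rw [hlin, ← lin_sub]
  exact (hκ k (by rw [abs_of_nonneg hk0]; exact hk1) _).trans
    (mul_le_mul_of_nonneg_left hc' (by linarith))

/-- there is an element of nonzero height unless the structure is complete -/
theorem IsHt.exists_pos {χ : G → ℝ} (h : IsHt M χ) (hC : Cd M.dev M.dev_local ≠ ⊤) :
    ∃ g0, 0 < χ g0 := by
  by_contra hcon
  push Not at hcon
  have hz : ∀ g, χ g = 0 := fun g => by
    have h1 := hcon g
    have h2 := hcon g⁻¹
    rw [h.inv] at h2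
    linarith
  refine hC (eq_top_iff.2 fun v _ => ?_)
  obtain ⟨κ, hκ⟩ := h.bdd 0
  exact mem_Cd_of_bdd M (R := κ * ‖v‖) fun g =>
    ⟨0, Submodule.zero_mem _, by rw [sub_zero]; exact hκ g (by rw [hz, abs_zero]) v⟩

/-- contraction modulo the complete directions -/
theorem IsHt.contr_P {χ : G → ℝ} (h : IsHt M χ) {g0 : G} (h0 : 0 < χ g0)
    (hsup : Eu (lin M g0) ⊔ Cd M.dev M.dev_local = ⊤) {P : V →L[ℝ] V} (hP : IsProj M P) {ε : ℝ}
    (hε : 0 < ε) : ∃ T : ℝ, ∀ g, χ g ≤ -T → ∀ v, ‖P (lin M g v)‖ ≤ ε * ‖P v‖ := by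
  obtain ⟨κ, hκ1, hκ⟩ := h.bdd' (χ g0)
  have hκ0 : 0 < κ := by linarith
  have hC : ∀ v ∈ Cd M.dev M.dev_local, (lin M g0)⁻¹ v ∈ Cd M.dev M.dev_local := by
    intro v hv
    rw [← lin_inv_eq]
    exact lin_Cd M _ hv
  obtain ⟨m0, hm0⟩ := quot_contr (lin M g0) (Cd M.dev M.dev_local) hC hsup
    (ε / ((‖P‖ + 1) * κ)) (by positivity)
  refine ⟨(m0 + 1) * χ g0, fun g hg v => ?_⟩
  obtain ⟨q, k, -, hk0, hk1, hχ, hlin⟩ := h.split h0 g
  have h1 : (q : ℝ) * χ g0 ≤ -(m0 : ℝ) * χ g0 := by nlinarith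
  have h2 : (q : ℝ) ≤ -(m0 : ℝ) := le_of_mul_le_mul_right h1 h0
  have h3 : q ≤ -(m0 : ℤ) := by exact_mod_cast h2
  obtain ⟨n, rfl⟩ : ∃ n : ℕ, q = -(n : ℤ) := ⟨(-q).toNat, by omega⟩
  have hn : m0 ≤ n := by omega
  obtain ⟨c', hc', hc''⟩ := hm0 n hn v (v - P v) (hP.sub_mem v)
  rw [sub_sub_cancel] at hc''
  have e1 : (lin M g0 ^ (-(n : ℤ))) v = ((lin M g0)⁻¹ ^ n) v := by
    rw [zpow_neg, zpow_natCast, inv_pow]
  rw [hlin, e1]
  have e2 : P (lin M k (((lin M g0)⁻¹ ^ n) v)) =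
      P (lin M k (((lin M g0)⁻¹ ^ n) v - c')) := by
    rw [lin_sub, map_sub, P_Cd hP (hP.ker c' hc') k, sub_zero]
  rw [e2]
  calc ‖P (lin M k (((lin M g0)⁻¹ ^ n) v - c'))‖
      ≤ ‖P‖ * ‖lin M k (((lin M g0)⁻¹ ^ n) v - c')‖ := P.le_opNorm _
    _ ≤ (‖P‖ + 1) * (κ * (ε / ((‖P‖ + 1) * κ) * ‖P v‖)) := by
        refine mul_le_mul (by linarith) ?_ (norm_nonneg _) (by positivity)
        exact (hκ k (by rw [abs_of_nonneg hk0]; exact hk1) _).trans
          (mul_le_mul_of_nonneg_left hc'' hκ0.le)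
    _ = ε * ‖P v‖ := by field_simp

/-- **Step 2**: the stable directions cannot be complete for an incomplete structure. -/
theorem IsHt.contra [ConnectedSpace Y] {χ : G → ℝ} (h : IsHt M χ)
    (hinc : ∀ y, dom M.dev y ≠ univ) {g0 : G} (h0 : 0 < χ g0)
    (hEs : Es (lin M g0) ≤ Cd M.dev M.dev_local) : False := by
  obtain ⟨Q⟩ := exists_cpt M
  obtain ⟨P, hP⟩ := exists_proj M
  obtain ⟨y0⟩ := (inferInstance : Nonempty Y)
  have hCne : Cd M.dev M.dev_local ≠ ⊤ := by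
    intro hC
    refine hinc y0 (eq_univ_of_forall fun x => ?_)
    have h1 : x - M.dev y0 ∈ Cd M.dev M.dev_local := by rw [hC]; trivial
    have h2 := mem_E_of_Cd M.dev_local h1 y0
    rwa [mem_E, add_sub_cancel] at h2
  have hPne : ∃ v, P v ≠ 0 := by
    by_contra hcon
    push Not at hcon
    exact hCne (eq_top_iff.2 fun v _ => (mem_Cd_iff_P hP v).2 (hcon v))
  have hsup : Eu (lin M g0) ⊔ Cd M.dev M.dev_local = ⊤ := by
    have h1 := h.sup h0
    rw [eq_top_iff, ← h1]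
    refine sup_le (sup_le (hEs.trans le_sup_right) le_sup_left) le_sup_right
  have hcP : ∀ ε : ℝ, 0 < ε → ∃ T : ℝ, ∀ g, χ g ≤ -T → ∀ v, ‖P (lin M g v)‖ ≤ ε * ‖P v‖ :=
    fun ε hε => h.contr_P h0 hsup hP hε
  have hfix : ∀ v, P (lin M g0 v) = P v → P v = 0 := by
    intro v hv'
    have hv : P (lin M g0⁻¹ v) = P v := by
      have e1 : P (lin M g0⁻¹ (P (lin M g0 v))) = P (lin M g0⁻¹ (P v)) := by rw [hv']
      rw [P_lin hP, P_lin hP, lin_inv_lin] at e1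
      exact e1.symm
    obtain ⟨T, hT⟩ := hcP (1 / 2) (by norm_num)
    obtain ⟨n, hn⟩ := exists_nat_gt (T / χ g0)
    rw [div_lt_iff₀ h0] at hn
    have h3 : ∀ n : ℕ, P (lin M (g0⁻¹ ^ n) v) = P v := by
      intro n
      induction n with
      | zero => rw [pow_zero, lin_one]
      | succ n ih =>
        rw [pow_succ', lin_mul, ← P_lin hP g0⁻¹ (lin M (g0⁻¹ ^ n) v), ih, P_lin hP, hv]
    have h4 := hT (g0⁻¹ ^ n) (by rw [h.npow, h.inv]; linarith) v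
    rw [h3] at h4
    have h5 := norm_nonneg (P v)
    exact norm_eq_zero.1 (by linarith)
  obtain ⟨ε1, hε1, hdisc⟩ := discG_eps hP hinc h h0 hcP hfix y0
  have hspan : Submodule.span ℝ (TT M : Set V) = Cd M.dev M.dev_local := by
    obtain ⟨κ, hκ⟩ := h.bdd 0
    refine span_TT' hP hinc (κ := κ) (fun g hg => hκ g (by
      rw [(bdd_pow_of_triv hP hinc h.hom h.bdd hcP hPne hg).1, abs_zero])) y0 ?_
    intro c hc ε hε
    have hp : 0 < ‖P‖ + 1 := by positivity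
    have hm : 0 < min ε (ε1 / (‖P‖ + 1)) := lt_min hε (by positivity)
    obtain ⟨j, j', g, e, hjj, he, hl, heE, hg⟩ :=
      recurrence hP hinc Q h.inv h.bdd hcP y0 hc hm
    have hlen : ∀ x : V, ‖P x‖ ≤ (‖P‖ + 1) * ‖x‖ := fun x =>
      (P.le_opNorm x).trans (mul_le_mul_of_nonneg_right (by linarith) (norm_nonneg _))
    have hsm : (‖P‖ + 1) * min ε (ε1 / (‖P‖ + 1)) ≤ ε1 := by
      calc (‖P‖ + 1) * min ε (ε1 / (‖P‖ + 1)) ≤ (‖P‖ + 1) * (ε1 / (‖P‖ + 1)) :=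
            mul_le_mul_of_nonneg_left (min_le_right _ _) hp.le
        _ = ε1 := by field_simp
    set x : V := (e + c j') + -lin M g (c j) with hx
    have hcg : -lin M g (c j) ∈ Cd M.dev M.dev_local := Submodule.neg_mem _ (lin_Cd M g (hc j))
    have hE1 : e + c j' ∈ E M.dev y0 := (add_Cd_iff M.dev_local (hc j')).2 heE
    have hgy : g • y0 = mv M.dev y0 x := by
      have h1 : mv M.dev (mv M.dev y0 (c j)) (-(c j)) = y0 := mv_neg_Cd M.dev_local (hc j)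
      have h2 : -(c j) ∈ E M.dev (mv M.dev y0 (c j)) :=
        mem_E_of_Cd M.dev_local (Submodule.neg_mem _ (hc j)) _
      have h3 := mv_smul M g h2
      rw [h1, hg, lin_neg, add_comm (c j') e] at h3
      rw [← h3, hx, (add_Cd M.dev_local hE1 hcg).2]
    have hxE : x ∈ E M.dev y0 := (add_Cd M.dev_local hE1 hcg).1
    have hxg : xg M g y0 = x := by
      unfold xg
      rw [hgy, dev_mv M.dev_local hxE]
      abel
    have hPx : P x = P e := by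
      rw [hx, map_add, map_add, hP.ker _ (hc j'), hP.ker _ hcg, add_zero, add_zero]
    have hnr : Nr M g y0 := ⟨by rw [hxg]; exact hxE, by rw [hxg]; exact hgy⟩
    have h4 := hdisc g hnr (by
      rw [hxg, hPx]
      exact ((hlen e).trans_lt (mul_lt_mul_of_pos_left he hp)).trans_le hsm) (by
      intro v
      rw [← map_sub]
      refine (hlen _).trans ?_
      calc (‖P‖ + 1) * ‖lin M g v - v‖ ≤ (‖P‖ + 1) * (min ε (ε1 / (‖P‖ + 1)) * ‖v‖) :=
            mul_le_mul_of_nonneg_left (hl v) hp.le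
        _ = (‖P‖ + 1) * min ε (ε1 / (‖P‖ + 1)) * ‖v‖ := by ring
        _ ≤ ε1 * ‖v‖ := mul_le_mul_of_nonneg_right hsm (norm_nonneg _))
    refine ⟨j, j', g, e, hjj, he.trans_le (min_le_left _ _), ?_, h4.2, fun v => ?_, hg⟩
    · rw [← hPx, ← hxg]; exact h4.1
    · exact (hl v).trans (mul_le_mul_of_nonneg_right (min_le_left _ _) (norm_nonneg _))
  have hC : ∀ v ∈ Cd M.dev M.dev_local, (lin M g0)⁻¹ v ∈ Cd M.dev M.dev_local := by
    intro v hv
    rw [← lin_inv_eq]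
    exact lin_Cd M _ hv
  have hne : Nonempty Y := ⟨y0⟩
  exact det_contra (lin M g0) (Cd M.dev M.dev_local) hCne (TT M) (TT_discrete M) hspan
    (fun x hx => TT_lin M g0 hx)
    (fun x hx => by rw [← lin_inv_eq]; exact TT_lin M _ hx)
    (quot_contr (lin M g0) (Cd M.dev M.dev_local) hC hsup) (M.volume_hol g0)

/-- The theorem for the whole group. -/
theorem IsHt.complete [ConnectedSpace Y] {χ : G → ℝ} (h : IsHt M χ) :
    ∃ e : Y ≃ₜ V, ⇑e = M.dev := by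
  by_contra hcon
  have hinc : ∀ y, dom M.dev y ≠ univ := fun y hy =>
    hcon (complete_of_dom_univ M.dev_local hy)
  have hC : Cd M.dev M.dev_local ≠ ⊤ := fun hC => hcon (complete_of_Cd M.dev_local hC)
  obtain ⟨g0, h0⟩ := h.exists_pos hC
  obtain ⟨Q⟩ := exists_cpt M
  have hsup := h.sup h0
  rw [sup_comm (Es (lin M g0))] at hsup
  rcases (h.opp h0 Q).le_Cd_or hsup with h1 | h1
  · have h0' : 0 < -χ g0⁻¹ := by rw [h.inv]; linarith
    refine h.neg.contra hinc (g0 := g0⁻¹) h0' ?_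
    rw [lin_inv_eq]
    exact h1
  · exact h.contra hinc h0 h1

/-- **Main theorem**: a compact affine manifold with parallel volume is complete if a subgroup of
finite index has a homomorphism `chi` to the reals such that the linear parts are bounded on the
sets `|chi| <= T`. -/
theorem main_rank_one [ConnectedSpace Y] (M : AffineDeveloping V G Y) (H : Subgroup G)
    (hH : H.FiniteIndex) (χ : H → ℝ) (hχ : ∀ g h : H, χ (g * h) = χ g + χ h)
    (hb : ∀ T : ℝ, ∃ κ : ℝ, ∀ g : H, |χ g| ≤ T → ∀ v, ‖(M.hol (g : G)).linear v‖ ≤ κ * ‖v‖) :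
    ∃ e : Y ≃ₜ V, ⇑e = M.dev := by
  have hht : IsHt (Pool.Agent.SOL.restrictFI M H) χ := ⟨hχ, hb⟩
  exact hht.complete

end Pool.Agent.CYC
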