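import Pool.Agent.CYC.Grp

/-!
# Slabs: the radius modulo the complete directions, and elements moving a point along a straight path

Any rank, no condition on the holonomy.  `P` is a linear projection of `V` with kernel `Cd`.
-/

set_option autoImplicit false
set_option linter.unusedSectionVars false

open Set Filter Topology

namespace Pool.Agent.CYC

open Pool.Agent.Helper2.MK Pool.Agent.Helper50.HL Pool.Agent.Helper2.RO

variable {V G Y : Type*} [NormedAddCommGroup V] [NormedSpace ℝ V] [FiniteDimensional ℝ V]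
  [Group G] [TopologicalSpace Y] [T2Space Y] [MulAction G Y] (M : AffineDeveloping V G Y)

/-- `P` is a projection with kernel the complete directions. -/
structure IsProj (P : V →L[ℝ] V) : Prop where
  sub_mem : ∀ v, v - P v ∈ Cd M.dev M.dev_local
  ker : ∀ c ∈ Cd M.dev M.dev_local, P c = 0

theorem exists_proj : ∃ P : V →L[ℝ] V, IsProj M P := by
  obtain ⟨q, hq⟩ := Submodule.exists_isCompl (Cd M.dev M.dev_local)
  set f : V →ₗ[ℝ] V := LinearMap.id - (Cd M.dev M.dev_local).subtype ∘ₗ
    Submodule.projectionOnto (Cd M.dev M.dev_local) q hq with hf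
  have hfv : ∀ v, (LinearMap.toContinuousLinearMap f) v =
      v - (Submodule.projectionOnto (Cd M.dev M.dev_local) q hq v : V) := fun v => rfl
  refine ⟨LinearMap.toContinuousLinearMap f, ⟨fun v => ?_, fun c hc => ?_⟩⟩
  · rw [hfv, sub_sub_cancel]
    exact Submodule.coe_mem _
  · rw [hfv]
    have h := Submodule.projectionOnto_apply_left hq ⟨c, hc⟩
    rw [show Submodule.projectionOnto (Cd M.dev M.dev_local) q hq c = ⟨c, hc⟩ from h, sub_self]

/-- displacement of the developed base point -/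
def xg (g : G) (y : Y) : V := M.dev (g • y) - M.dev y

theorem xg_eq (g : G) (y y' : Y) : xg M g y' = xg M g y + (lin M g (M.dev y' - M.dev y) -
    (M.dev y' - M.dev y)) := by
  unfold xg
  rw [M.dev_smul, M.dev_smul, ← hol_sub]
  abel

/-- `g • y` is reached from `y` along a straight path -/
def Nr (g : G) (y : Y) : Prop := xg M g y ∈ E M.dev y ∧ g • y = mv M.dev y (xg M g y)

/-- the radius modulo complete directions -/
noncomputable def rr (P : V →L[ℝ] V) (y : Y) : ℝ := rad M.dev y P

variable {M} {P : V →L[ℝ] V} (hP : IsProj M P)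

section
include hP

theorem P_P (v : V) : P (P v) = P v := by
  have h := hP.ker _ (hP.sub_mem v)
  rw [map_sub, sub_eq_zero] at h
  exact h.symm

theorem mem_Cd_iff_P (v : V) : v ∈ Cd M.dev M.dev_local ↔ P v = 0 := by
  refine ⟨hP.ker v, fun h => ?_⟩
  have h1 := hP.sub_mem v
  rwa [h, sub_zero] at h1

theorem mem_E_P (y : Y) (v : V) : v ∈ E M.dev y ↔ P v ∈ E M.dev y :=
  mem_E_congr M.dev_local (hP.sub_mem v)

omit hP in
theorem mem_E_of_lt' {y : Y} {v : V} (h : ‖P v‖ < rr M P y) : v ∈ E M.dev y := by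
  rw [mem_E]
  refine mem_dom_of_lt (T := P) ?_
  rw [add_sub_cancel_left]
  exact h

theorem mem_E_of_lt {y : Y} {v : V} (h : ‖P v‖ < rr M P y) : v ∈ E M.dev y := mem_E_of_lt' h

/-- P of the linear holonomy only depends on P -/
theorem P_lin (g : G) (v : V) : P (lin M g (P v)) = P (lin M g v) := by
  have h := hP.ker _ (lin_Cd M g (hP.sub_mem v))
  rw [map_sub, map_sub, sub_eq_zero] at h
  exact h.symm

end

section
variable (hinc : ∀ y, dom M.dev y ≠ univ)
include hP hinc

theorem le_rr {y : Y} {r : ℝ} (h : ∀ v, ‖P v‖ < r → v ∈ E M.dev y) : r ≤ rr M P y := by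
  refine le_rad hinc fun x hx => ?_
  have h1 := h _ hx
  rwa [mem_E, add_sub_cancel] at h1

theorem rr_pos (y : Y) : 0 < rr M P y := by
  obtain ⟨r, hr, hb⟩ := exists_ball (M := M) (isCompact_singleton (x := y))
  refine lt_of_lt_of_le hr (le_rr hP hinc fun v hv => ?_)
  rw [mem_E_P hP]
  exact hb y rfl _ hv

theorem rr_cont : Continuous (rr M P) :=
  rad_continuous_base hinc M.dev_local (rr_pos hP hinc)

theorem rr_near_miss (y : Y) {ε : ℝ} (hε : 0 < ε) :
    ∃ v, v ∉ E M.dev y ∧ ‖P v‖ < rr M P y + ε := by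
  obtain ⟨x0, hx0⟩ := rad_exists_notMem hinc y
  have hne : ((fun b => ‖P (b - M.dev y)‖) '' (dom M.dev y)ᶜ).Nonempty :=
    ⟨_, mem_image_of_mem _ hx0⟩
  have hlt : sInf ((fun b => ‖P (b - M.dev y)‖) '' (dom M.dev y)ᶜ) < rr M P y + ε := by
    have : rr M P y = sInf ((fun b => ‖P (b - M.dev y)‖) '' (dom M.dev y)ᶜ) := rfl
    linarith
  obtain ⟨_, ⟨b, hb, rfl⟩, hb'⟩ := exists_lt_of_csInf_lt hne hlt
  refine ⟨b - M.dev y, ?_, hb'⟩
  rw [mem_E, add_sub_cancel]
  exact hb

theorem rr_le_of_E {y y' : Y} (h : E M.dev y ⊆ E M.dev y') : rr M P y ≤ rr M P y' :=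
  le_rr hP hinc fun _ hv => h (mem_E_of_lt hP hv)

theorem rr_Cd {y : Y} {c : V} (hc : c ∈ Cd M.dev M.dev_local) :
    rr M P (mv M.dev y c) = rr M P y := by
  have h := E_mv_Cd M.dev_local (y := y) hc
  exact le_antisymm (rr_le_of_E hP hinc h.subset) (rr_le_of_E hP hinc h.symm.subset)

theorem rr_smul_le (g : G) (y : Y) {κ : ℝ} (hκ : 0 < κ) (h : ∀ v, ‖P (lin M g v)‖ ≤ κ * ‖P v‖) :
    rr M P (g • y) ≤ κ * rr M P y := by
  have h1 : rr M P (g • y) / κ ≤ rr M P y := by
    refine le_rr hP hinc fun v hv => ?_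
    rw [← E_smul M g y]
    refine mem_E_of_lt hP (lt_of_le_of_lt (h v) ?_)
    rw [lt_div_iff₀ hκ] at hv
    linarith
  rw [div_le_iff₀ hκ] at h1
  linarith

theorem rr_smul_eq (g : G) (y : Y) (h : ∀ v, P (lin M g v) = P v) :
    rr M P (g • y) = rr M P y := by
  refine le_antisymm ?_ ?_
  · have h1 := rr_smul_le hP hinc g y (κ := 1) one_pos fun v => by rw [h, one_mul]
    rwa [one_mul] at h1
  · have h1 := rr_smul_le hP hinc g⁻¹ (g • y) (κ := 1) one_pos fun v => by
      have h2 := h (lin M g⁻¹ v)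
      rw [lin_lin_inv] at h2
      rw [← h2, one_mul]
    rwa [one_mul, inv_smul_smul] at h1

omit hP hinc in
theorem convex_slab (r : ℝ) : Convex ℝ {v : V | ‖P v‖ < r} := by
  have h := convex_tball P (0 : V) r
  simpa only [sub_zero] using h

/-- the slab is convex, so all moves inside it compose -/
theorem slab_tri {y : Y} {u u' : V} (hu : ‖P u‖ < rr M P y) (hu' : ‖P u'‖ < rr M P y) :
    u' - u ∈ E M.dev (mv M.dev y u) ∧ mv M.dev (mv M.dev y u) (u' - u) = mv M.dev y u' :=
  tri_convex M.dev_local (convex_slab (P := P) (rr M P y)) (fun _ hv => mem_E_of_lt hP hv) hu hu'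

/-- Lipschitz along slab moves -/
theorem rr_mv {y : Y} {v : V} (hv : ‖P v‖ < rr M P y) :
    rr M P y - ‖P v‖ ≤ rr M P (mv M.dev y v) ∧ rr M P (mv M.dev y v) ≤ rr M P y + ‖P v‖ := by
  have h0 : ‖P (0 : V)‖ < rr M P y := by
    rw [map_zero, norm_zero]
    exact rr_pos hP hinc y
  have hback := slab_tri hP hinc hv h0
  rw [zero_sub, mv_zero M.dev_local] at hback
  constructor
  · refine le_rr hP hinc fun u hu => ?_
    have h1 : ‖P (v + u)‖ < rr M P y := by
      rw [map_add]
      have := norm_add_le (P v) (P u)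
      linarith
    have h2 := (slab_tri hP hinc hv h1).1
    rwa [add_sub_cancel_left] at h2
  · have h1 : rr M P (mv M.dev y v) - ‖P v‖ ≤ rr M P y := by
      refine le_rr hP hinc fun u hu => ?_
      have hpu := norm_nonneg (P u)
      have h2 : ‖P (-v)‖ < rr M P (mv M.dev y v) := by
        rw [map_neg, norm_neg]
        linarith
      have h3 : ‖P (-v + u)‖ < rr M P (mv M.dev y v) := by
        rw [map_add]
        have h4 := norm_add_le (P (-v)) (P u)
        rw [map_neg, norm_neg] at h4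
        rw [map_neg]
        linarith
      have h4 := (slab_tri hP hinc h2 h3).1
      rwa [add_sub_cancel_left, hback.2] at h4
    linarith

/-- moving the base point of an element which acts along straight paths -/
theorem nr_move {g : G} {y : Y} {e : V} (hg : Nr M g y) (h1 : ‖P (xg M g y)‖ < rr M P y)
    (h2 : ‖P e‖ < rr M P y) (h3 : ‖P (xg M g y + lin M g e)‖ < rr M P y) :
    Nr M g (mv M.dev y e) := by
  have heE : e ∈ E M.dev y := mem_E_of_lt hP h2
  have hx : xg M g (mv M.dev y e) = (xg M g y + lin M g e) - e := by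
    rw [xg_eq M g y (mv M.dev y e), dev_mv M.dev_local heE, add_sub_cancel_left]
    abel
  have a1 := slab_tri hP hinc h1 h3
  rw [add_sub_cancel_left] at a1
  have a2 := slab_tri hP hinc h2 h3
  refine ⟨?_, ?_⟩
  · rw [hx]
    exact a2.1
  · rw [hx, a2.2, ← a1.2, ← hg.2, mv_smul M g heE]

/-- points near `y` are small moves of `y` and conversely -/
theorem near_mv (y : Y) {ε : ℝ} (hε : 0 < ε) : ∀ᶠ y' in 𝓝 y,
    (∃ e, ‖e‖ < ε ∧ ‖P e‖ < ε ∧ y' = mv M.dev y e) ∧
    (∃ e, ‖e‖ < ε ∧ ‖P e‖ < ε ∧ y = mv M.dev y' e) := by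
  have hd : Continuous fun y' => M.dev y' - M.dev y :=
    M.dev_local.continuous.sub continuous_const
  have h1 : ∀ᶠ y' in 𝓝 y, ‖M.dev y' - M.dev y‖ < ε := by
    have : Tendsto (fun y' => ‖M.dev y' - M.dev y‖) (𝓝 y) (𝓝 0) := by
      have := hd.norm.tendsto y
      simpa using this
    exact this.eventually (gt_mem_nhds hε)
  have h2 : ∀ᶠ y' in 𝓝 y, ‖P (M.dev y' - M.dev y)‖ < ε := by
    have : Tendsto (fun y' => ‖P (M.dev y' - M.dev y)‖) (𝓝 y) (𝓝 0) := by
      have := (P.continuous.comp hd).norm.tendsto y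
      simpa using this
    exact this.eventually (gt_mem_nhds hε)
  filter_upwards [near M.dev_local y, h1, h2] with y' hn ha hb
  refine ⟨⟨M.dev y' - M.dev y, ha, hb, ?_⟩, ⟨M.dev y - M.dev y', ?_, ?_, ?_⟩⟩
  · unfold mv
    rw [add_sub_cancel, hn.2.1]
  · rwa [norm_sub_rev]
  · rw [← neg_sub, map_neg, norm_neg]
    exact hb
  · unfold mv
    rw [add_sub_cancel, hn.2.2.2]

/-- a sequence of elements, tending to the identity modulo complete directions at one point,
eventually acts along straight paths at every point -/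
theorem nr_all [ConnectedSpace Y] {g : ℕ → G} {y0 : Y} (h0 : ∀ k, Nr M (g k) y0)
    (h1 : Tendsto (fun k => P (xg M (g k) y0)) atTop (𝓝 0))
    (h2 : ∀ v, Tendsto (fun k => P (lin M (g k) v)) atTop (𝓝 (P v))) (y : Y) :
    (∀ᶠ k in atTop, Nr M (g k) y) ∧ Tendsto (fun k => P (xg M (g k) y)) atTop (𝓝 0) := by
  have hlim : ∀ y, Tendsto (fun k => P (xg M (g k) y)) atTop (𝓝 0) := by
    intro y
    have e1 : (fun k => P (xg M (g k) y)) = fun k => P (xg M (g k) y0) +
        (P (lin M (g k) (M.dev y - M.dev y0)) - P (M.dev y - M.dev y0)) := by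
      funext k
      rw [xg_eq M (g k) y0 y, map_add, map_sub]
    rw [e1]
    have e2 := h1.add ((h2 (M.dev y - M.dev y0)).sub
      (tendsto_const_nhds (x := P (M.dev y - M.dev y0))))
    rwa [sub_self, add_zero] at e2
  refine ⟨?_, hlim y⟩
  set S : Set Y := {y | ∀ᶠ k in atTop, Nr M (g k) y} with hS
  have hstep : ∀ y e, ‖P e‖ < rr M P y → y ∈ S → mv M.dev y e ∈ S := by
    intro y e he hy
    have hr := rr_pos hP hinc y
    have a1 : ∀ᶠ k in atTop, ‖P (xg M (g k) y)‖ < rr M P y := by
      have := (hlim y).norm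
      rw [norm_zero] at this
      exact this.eventually (gt_mem_nhds hr)
    have a2 : ∀ᶠ k in atTop, ‖P (xg M (g k) y + lin M (g k) e)‖ < rr M P y := by
      have := ((hlim y).add (h2 e)).norm
      rw [zero_add] at this
      have a3 := this.eventually (gt_mem_nhds he)
      filter_upwards [a3] with k hk
      rw [map_add]
      exact hk
    have hy' : ∀ᶠ k in atTop, Nr M (g k) y := hy
    show ∀ᶠ k in atTop, Nr M (g k) (mv M.dev y e)
    filter_upwards [hy', a1, a2] with k b1 b2 b3
    exact nr_move hP hinc b1 b2 he b3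
  have hopen : IsOpen S := by
    rw [isOpen_iff_mem_nhds]
    intro y hy
    filter_upwards [near_mv hP hinc y (rr_pos hP hinc y)] with y' hy'
    obtain ⟨⟨e, -, he, rfl⟩, -⟩ := hy'
    exact hstep y e he hy
  have hclosed : IsClosed S := by
    rw [← isOpen_compl_iff, isOpen_iff_mem_nhds]
    intro y hy
    have hr := rr_pos hP hinc y
    have hc : ∀ᶠ y' in 𝓝 y, rr M P y / 2 < rr M P y' :=
      ((rr_cont hP hinc).tendsto y).eventually (lt_mem_nhds (by linarith))
    filter_upwards [near_mv hP hinc y (half_pos hr), hc] with y' hy' hc' hS'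
    obtain ⟨-, ⟨e, -, he, hye⟩⟩ := hy'
    refine hy ?_
    rw [hye]
    exact hstep y' e (he.trans hc') hS'
  have huniv : S = univ := IsClopen.eq_univ ⟨hclosed, hopen⟩ ⟨y0, Eventually.of_forall h0⟩
  have : y ∈ S := by rw [huniv]; trivial
  exact this

/-- an element which acts trivially modulo complete directions acts along straight paths
everywhere as soon as it does so at one point -/
theorem nr_triv [ConnectedSpace Y] {g : G} {y0 : Y} (h0 : Nr M g y0)
    (h1 : P (xg M g y0) = 0) (h2 : ∀ v, P (lin M g v) = P v) (y : Y) :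
    Nr M g y ∧ P (xg M g y) = 0 := by
  have h := nr_all hP hinc (g := fun _ => g) (y0 := y0) (fun _ => h0)
    (by simp only [h1]; exact tendsto_const_nhds)
    (fun v => by simp only [h2]; exact tendsto_const_nhds) y
  refine ⟨?_, ?_⟩
  · obtain ⟨k, hk⟩ := h.1.exists
    exact hk
  · exact tendsto_nhds_unique tendsto_const_nhds h.2

end

end Pool.Agent.CYC
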