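import Pool.Agent.CYC.Disc2

/-!
# No approximate translations

Any rank: there is no sequence of elements tending to the identity modulo the complete directions,
whose linear parts differ from the identity much less than their displacements: rescaled, they
would converge to a translation and its direction would be complete.
-/

set_option autoImplicit false
set_option linter.unusedSectionVars false

open Set Filter Topology

namespace Pool.Agent.CYC

open Pool.Agent.Helper2.MK Pool.Agent.Helper50.HL Pool.Agent.Helper2.RO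

variable {V G Y : Type*} [NormedAddCommGroup V] [NormedSpace ℝ V] [FiniteDimensional ℝ V]
  [Group G] [TopologicalSpace Y] [T2Space Y] [MulAction G Y] {M : AffineDeveloping V G Y}

variable {P : V →L[ℝ] V} (hP : IsProj M P) (hinc : ∀ y, dom M.dev y ≠ univ)
include hP hinc

/-- replacing a vector of a slab by its projection -/
theorem rr_mv_P {y : Y} {v : V} (hv : ‖P v‖ < rr M P y) :
    rr M P (mv M.dev y v) = rr M P (mv M.dev y (P v)) := by
  have h1 : P v ∈ E M.dev y := mem_E_of_lt hP (by rw [P_P hP]; exact hv)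
  have h2 := (add_Cd M.dev_local h1 (hP.sub_mem v)).2
  rw [add_sub_cancel] at h2
  rw [h2, rr_Cd hP hinc (hP.sub_mem v)]

/-- powers of an element which is almost a translation -/
theorem approx_pow {g : G} {y : Y} {x : V} {a b s : ℝ} (hn : Nr M g y) (ha : 0 ≤ a)
    (hb : 0 ≤ b) (hx : ‖P (xg M g y) - x‖ ≤ a * ‖x‖)
    (hlin : ∀ v, ‖P (lin M g v) - P v‖ ≤ b * ‖x‖ * ‖P v‖)
    (hs1 : s * (a + b * (s + 1)) ≤ 1) (hs2 : s + s * (a + b * (s + 1)) < rr M P y)
    (hxr : ‖P (xg M g y)‖ < rr M P y) (n : ℕ) (h : (n : ℝ) * ‖x‖ ≤ s) :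
    ∃ v : V, g ^ n • y = mv M.dev y v ∧ ‖P v - (n : ℝ) • x‖ ≤ n * ‖x‖ * (a + b * (s + 1)) := by
  have hx0 := norm_nonneg x
  induction n with
  | zero =>
    refine ⟨0, ?_, ?_⟩
    · rw [pow_zero, one_smul, mv_zero M.dev_local]
    · rw [map_zero, Nat.cast_zero, zero_smul, sub_zero, norm_zero, zero_mul, zero_mul]
  | succ n ih =>
    have hn0 : (0 : ℝ) ≤ n := Nat.cast_nonneg n
    have hn1 : (n : ℝ) * ‖x‖ ≤ s := by
      push_cast at h
      nlinarith
    have hs0 : 0 ≤ s := le_trans (mul_nonneg hn0 hx0) hn1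
    have hab : 0 ≤ a + b * (s + 1) := by positivity
    obtain ⟨v, hv, hv'⟩ := ih hn1
    have hPv : ‖P v‖ ≤ s + s * (a + b * (s + 1)) := by
      have e1 : P v = (P v - (n : ℝ) • x) + (n : ℝ) • x := by abel
      have e2 : ‖(n : ℝ) • x‖ = n * ‖x‖ := by rw [norm_smul, Real.norm_of_nonneg hn0]
      have e3 := norm_add_le (P v - (n : ℝ) • x) ((n : ℝ) • x)
      rw [← e1, e2] at e3
      have e4 : (n : ℝ) * ‖x‖ * (a + b * (s + 1)) ≤ s * (a + b * (s + 1)) :=
        mul_le_mul_of_nonneg_right hn1 hab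
      linarith
    have hPv1 : ‖P v‖ ≤ s + 1 := by linarith
    set w : V := xg M g y + lin M g v with hw
    have hPw : ‖P w - ((n + 1 : ℕ) : ℝ) • x‖ ≤ ((n + 1 : ℕ) : ℝ) * ‖x‖ * (a + b * (s + 1)) := by
      have e1 : P w - ((n + 1 : ℕ) : ℝ) • x = (P (xg M g y) - x) + (P (lin M g v) - P v) +
          (P v - (n : ℝ) • x) := by
        rw [hw, map_add]
        push_cast
        module
      rw [e1]
      have e2 := norm_add₃_le (a := P (xg M g y) - x) (b := P (lin M g v) - P v)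
        (c := P v - (n : ℝ) • x)
      have e3 := hlin v
      have e4 : b * ‖x‖ * ‖P v‖ ≤ b * ‖x‖ * (s + 1) :=
        mul_le_mul_of_nonneg_left hPv1 (mul_nonneg hb hx0)
      push_cast
      have e5 : ((n : ℝ) + 1) * ‖x‖ * (a + b * (s + 1)) =
          a * ‖x‖ + b * ‖x‖ * (s + 1) + n * ‖x‖ * (a + b * (s + 1)) := by ring
      rw [e5]
      linarith
    have hPw2 : ‖P w‖ ≤ s + s * (a + b * (s + 1)) := by
      have e1 : P w = (P w - ((n + 1 : ℕ) : ℝ) • x) + ((n + 1 : ℕ) : ℝ) • x := by abel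
      have e2 : ‖((n + 1 : ℕ) : ℝ) • x‖ = ((n + 1 : ℕ) : ℝ) * ‖x‖ := by
        rw [norm_smul, Real.norm_of_nonneg (Nat.cast_nonneg _)]
      have e3 := norm_add_le (P w - ((n + 1 : ℕ) : ℝ) • x) (((n + 1 : ℕ) : ℝ) • x)
      rw [← e1, e2] at e3
      have e4 : ((n + 1 : ℕ) : ℝ) * ‖x‖ * (a + b * (s + 1)) ≤ s * (a + b * (s + 1)) :=
        mul_le_mul_of_nonneg_right h hab
      linarith
    refine ⟨w, ?_, hPw⟩
    have m1 : v ∈ E M.dev y := mem_E_of_lt hP (by linarith)
    have h3 := (slab_tri hP hinc (u := xg M g y) (u' := w) hxr (by linarith)).2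
    rw [hw, add_sub_cancel_left] at h3
    rw [pow_succ', mul_smul, hv, ← mv_smul M g m1, hn.2]
    exact h3

/-- change of the radius under powers -/
theorem rr_pow {g : G} {b : ℝ} (hb : 0 ≤ b) (hb1 : b ≤ 1 / 2)
    (hlin : ∀ v, ‖P (lin M g v) - P v‖ ≤ b * ‖P v‖) (y : Y) (n : ℕ) :
    (1 - b) ^ n * rr M P y ≤ rr M P (g ^ n • y) ∧
      rr M P (g ^ n • y) ≤ (1 + b) ^ n * rr M P y := by
  have h1 : ∀ v, ‖P (lin M g v)‖ ≤ (1 + b) * ‖P v‖ := by
    intro v
    have e1 : P (lin M g v) = (P (lin M g v) - P v) + P v := by abel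
    have e2 := norm_add_le (P (lin M g v) - P v) (P v)
    rw [← e1] at e2
    have := hlin v
    linarith
  have h2 : ∀ v, ‖P (lin M g⁻¹ v)‖ ≤ (1 - b)⁻¹ * ‖P v‖ := by
    intro v
    have e0 := hlin (lin M g⁻¹ v)
    rw [lin_lin_inv] at e0
    have e1 := norm_sub_norm_le (P (lin M g⁻¹ v)) (P v)
    rw [norm_sub_rev] at e1
    have e3 : (1 - b) * ‖P (lin M g⁻¹ v)‖ ≤ ‖P v‖ := by linarith
    rw [inv_mul_eq_div, le_div_iff₀ (by linarith)]
    linarith
  have h3 : ∀ y', rr M P (g • y') ≤ (1 + b) * rr M P y' := fun y' =>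
    rr_smul_le hP hinc g y' (by linarith) h1
  have h4 : ∀ y', (1 - b) * rr M P y' ≤ rr M P (g • y') := by
    intro y'
    have e1 := rr_smul_le hP hinc g⁻¹ (g • y') (inv_pos.2 (by linarith)) h2
    rw [inv_smul_smul] at e1
    have e2 := mul_le_mul_of_nonneg_left e1 (by linarith : (0 : ℝ) ≤ 1 - b)
    rwa [← mul_assoc, mul_inv_cancel₀ (by linarith : (1 - b) ≠ 0), one_mul] at e2
  induction n with
  | zero => simp
  | succ n ih =>
    rw [pow_succ' g, mul_smul]
    constructor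
    · refine le_trans ?_ (h4 _)
      rw [pow_succ', mul_assoc]
      exact mul_le_mul_of_nonneg_left ih.1 (by linarith)
    · refine (h3 _).trans ?_
      rw [pow_succ', mul_assoc]
      exact mul_le_mul_of_nonneg_left ih.2 (by linarith)

/-- invariance of the radius in the limit direction -/
theorem rr_limit' [ConnectedSpace Y] {g : ℕ → G} {y0 : Y} (hn : ∀ k, Nr M (g k) y0)
    (hne : ∀ k, P (xg M (g k) y0) ≠ 0)
    (h0 : Tendsto (fun k => P (xg M (g k) y0)) atTop (𝓝 0)) {η : ℕ → ℝ} (hη0 : ∀ k, 0 ≤ η k)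
    (hη : Tendsto η atTop (𝓝 0))
    (hlin : ∀ k v, ‖P (lin M (g k) v) - P v‖ ≤ η k * ‖P (xg M (g k) y0)‖ * ‖P v‖) {e : V}
    (he : Tendsto (fun k => ‖P (xg M (g k) y0)‖⁻¹ • P (xg M (g k) y0)) atTop (𝓝 e))
    (y : Y) {s : ℝ} (hs0 : 0 ≤ s) (hs : s < rr M P y) :
    s • e ∈ E M.dev y ∧ rr M P (mv M.dev y (s • e)) = rr M P y := by
  set x : ℕ → V := fun k => P (xg M (g k) y0) with hx
  have hxpos : ∀ k, 0 < ‖x k‖ := fun k => norm_pos_iff.2 (hne k)
  have hPe : P e = e := by
    have h1 : Tendsto (fun k => P (‖x k‖⁻¹ • x k)) atTop (𝓝 (P e)) :=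
      (P.continuous.tendsto e).comp he
    refine tendsto_nhds_unique h1 (he.congr fun k => ?_)
    rw [map_smul, hx]
    simp only
    rw [P_P hP]
  have hne1 : ‖e‖ = 1 := by
    have h1 : Tendsto (fun k => ‖‖x k‖⁻¹ • x k‖) atTop (𝓝 ‖e‖) := he.norm
    refine tendsto_nhds_unique h1 (tendsto_const_nhds.congr fun k => ?_)
    rw [norm_smul, norm_inv, norm_norm, inv_mul_cancel₀ (hxpos k).ne']
  have hse : ‖P (s • e)‖ < rr M P y := by
    rw [map_smul, hPe, norm_smul, hne1, mul_one, Real.norm_of_nonneg hs0]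
    exact hs
  have hmem := mem_E_of_lt hP hse
  refine ⟨hmem, ?_⟩
  have hx0 : Tendsto (fun k => ‖x k‖) atTop (𝓝 0) := by simpa using h0.norm
  have hηx : Tendsto (fun k => η k * ‖x k‖) atTop (𝓝 0) := by simpa using hη.mul hx0
  -- the multiples
  set n : ℕ → ℕ := fun k => ⌊s / ‖x k‖⌋₊ with hnn
  have hle : ∀ k, (n k : ℝ) * ‖x k‖ ≤ s := fun k => by
    have h1 := Nat.floor_le (div_nonneg hs0 (hxpos k).le)
    rwa [le_div_iff₀ (hxpos k)] at h1
  have hge : ∀ k, s - ‖x k‖ ≤ (n k : ℝ) * ‖x k‖ := fun k => by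
    have h1 := Nat.lt_floor_add_one (s / ‖x k‖)
    rw [div_lt_iff₀ (hxpos k)] at h1
    have h2 : ((n k : ℝ) + 1) * ‖x k‖ = (n k : ℝ) * ‖x k‖ + ‖x k‖ := by ring
    linarith
  have hlim : Tendsto (fun k => (n k : ℝ) * ‖x k‖) atTop (𝓝 s) := by
    have h1 : Tendsto (fun k => s - ‖x k‖) atTop (𝓝 s) := by
      simpa using tendsto_const_nhds.sub hx0
    exact tendsto_of_tendsto_of_tendsto_of_le_of_le h1 tendsto_const_nhds hge hle
  have hlim2 : Tendsto (fun k => (n k : ℝ) • x k) atTop (𝓝 (s • e)) := by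
    refine (hlim.smul he).congr fun k => ?_
    rw [smul_smul, mul_assoc, mul_inv_cancel₀ (hxpos k).ne', mul_one]
  -- constants at `y`
  set D := ‖P (M.dev y - M.dev y0)‖ with hD
  have hD0 : 0 ≤ D := norm_nonneg _
  set c : ℕ → ℝ := fun k => η k * D + η k * (s + 1) with hc
  have hc0 : ∀ k, 0 ≤ c k := fun k => by
    have := hη0 k
    positivity
  have hct : Tendsto (fun k => s * c k) atTop (𝓝 0) := by
    have h1 : Tendsto (fun k => s * (η k * D + η k * (s + 1))) atTop
        (𝓝 (s * (0 * D + 0 * (s + 1)))) :=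
      ((hη.mul_const D).add (hη.mul_const (s + 1))).const_mul s
    simpa using h1
  have hall := nr_all hP hinc hn h0 (fun v => by
    have h6 : Tendsto (fun k => P (lin M (g k) v) - P v) atTop (𝓝 0) := by
      refine squeeze_zero_norm (fun k => hlin k v) ?_
      have := hηx.mul_const ‖P v‖
      rwa [zero_mul] at this
    have h7 := h6.add_const (P v)
    simpa using h7) y
  have hev1 : ∀ᶠ k in atTop, s * c k ≤ 1 := hct.eventually (ge_mem_nhds one_pos)
  have hev2 : ∀ᶠ k in atTop, s + s * c k < rr M P y := by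
    have h1 : Tendsto (fun k => s + s * c k) atTop (𝓝 (s + 0)) := tendsto_const_nhds.add hct
    rw [add_zero] at h1
    exact h1.eventually (gt_mem_nhds hs)
  have hev3 : ∀ᶠ k in atTop, ‖P (xg M (g k) y)‖ < rr M P y := by
    have h1 : Tendsto (fun k => ‖P (xg M (g k) y)‖) atTop (𝓝 0) := by simpa using hall.2.norm
    exact h1.eventually (gt_mem_nhds (rr_pos hP hinc y))
  have hev4 : ∀ᶠ k in atTop, η k * ‖x k‖ ≤ 1 / 2 :=
    hηx.eventually (ge_mem_nhds (by norm_num))
  have hdisp : ∀ k, ‖P (xg M (g k) y) - x k‖ ≤ η k * D * ‖x k‖ := by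
    intro k
    have e1 : P (xg M (g k) y) - x k = P (lin M (g k) (M.dev y - M.dev y0)) -
        P (M.dev y - M.dev y0) := by
      rw [hx]
      simp only
      rw [xg_eq M (g k) y0 y, map_add, map_sub (P : V →L[ℝ] V) (lin M (g k) (M.dev y - M.dev y0))]
      abel
    rw [e1]
    have := hlin k (M.dev y - M.dev y0)
    calc _ ≤ η k * ‖x k‖ * D := this
      _ = η k * D * ‖x k‖ := by ring
  have key : ∀ᶠ k in atTop, ∃ v : V, g k ^ n k • y = mv M.dev y v ∧
      ‖P v - (n k : ℝ) • x k‖ ≤ s * c k ∧ ‖P v‖ < rr M P y := by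
    filter_upwards [hall.1, hev1, hev2, hev3] with k k1 k2 k3 k4
    obtain ⟨v, hv, hv'⟩ := approx_pow hP hinc (x := x k) (a := η k * D) (b := η k) (s := s) k1
      (mul_nonneg (hη0 k) hD0) (hη0 k) (hdisp k) (hlin k) k2 k3 k4 (n k) (hle k)
    have h1 : (n k : ℝ) * ‖x k‖ * (η k * D + η k * (s + 1)) ≤ s * c k :=
      mul_le_mul_of_nonneg_right (hle k) (hc0 k)
    refine ⟨v, hv, hv'.trans h1, ?_⟩
    have e1 : P v = (P v - (n k : ℝ) • x k) + (n k : ℝ) • x k := by abel
    have e2 : ‖(n k : ℝ) • x k‖ = n k * ‖x k‖ := by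
      rw [norm_smul, Real.norm_of_nonneg (Nat.cast_nonneg _)]
    have e3 := norm_add_le (P v - (n k : ℝ) • x k) ((n k : ℝ) • x k)
    rw [← e1, e2] at e3
    have := hle k
    linarith
  -- choose the vectors
  classical
  choose! v hv using fun k (hk : ∃ v : V, g k ^ n k • y = mv M.dev y v ∧
      ‖P v - (n k : ℝ) • x k‖ ≤ s * c k ∧ ‖P v‖ < rr M P y) => hk
  have hlimv : Tendsto (fun k => P (v k)) atTop (𝓝 (s • e)) := by
    have h1 : Tendsto (fun k => P (v k) - (n k : ℝ) • x k) atTop (𝓝 0) := by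
      refine squeeze_zero_norm' ?_ hct
      filter_upwards [key] with k hk
      exact (hv k hk).2.1
    have h2 := h1.add hlim2
    simpa using h2
  have hlim3 : Tendsto (fun k => rr M P (mv M.dev y (P (v k)))) atTop
      (𝓝 (rr M P (mv M.dev y (s • e)))) := by
    have h1 : Tendsto (fun k => ((y, P (v k)) : Y × V)) atTop (𝓝 (y, s • e)) :=
      tendsto_const_nhds.prodMk_nhds hlimv
    have h2 := (continuousAt_mv M.dev_local hmem).tendsto.comp h1
    exact ((rr_cont hP hinc).tendsto _).comp h2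
  have hη1 : Tendsto (fun k => (1 - s * η k) * rr M P y) atTop (𝓝 (rr M P y)) := by
    have h1 : Tendsto (fun k => (1 - s * η k) * rr M P y) atTop
        (𝓝 ((1 - s * 0) * rr M P y)) :=
      (tendsto_const_nhds.sub (hη.const_mul s)).mul_const _
    simpa using h1
  have hη2 : Tendsto (fun k => Real.exp (s * η k) * rr M P y) atTop (𝓝 (rr M P y)) := by
    have h1 : Tendsto (fun k => Real.exp (s * η k) * rr M P y) atTop
        (𝓝 (Real.exp (s * 0) * rr M P y)) :=
      ((Real.continuous_exp.tendsto _).comp (hη.const_mul s)).mul_const _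
    simpa using h1
  refine tendsto_nhds_unique hlim3 ?_
  have hr := rr_pos hP hinc y
  refine tendsto_of_tendsto_of_tendsto_of_le_of_le' hη1 hη2 ?_ ?_
  · filter_upwards [key, hev4] with k hk k4
    obtain ⟨h1, -, h3⟩ := hv k hk
    rw [← rr_mv_P hP hinc h3, ← h1]
    refine le_trans ?_ (rr_pow hP hinc (mul_nonneg (hη0 k) (hxpos k).le) k4 (hlin k) y (n k)).1
    refine mul_le_mul_of_nonneg_right ?_ hr.le
    have h4 : (-2 : ℝ) ≤ -(η k * ‖x k‖) := by linarith
    have h5 := one_add_mul_le_pow h4 (n k)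
    have h6 : (n k : ℝ) * (η k * ‖x k‖) ≤ s * η k := by
      calc (n k : ℝ) * (η k * ‖x k‖) = (n k * ‖x k‖) * η k := by ring
        _ ≤ s * η k := mul_le_mul_of_nonneg_right (hle k) (hη0 k)
    have h7 : (1 + -(η k * ‖x k‖)) ^ n k = (1 - η k * ‖x k‖) ^ n k := by ring
    rw [h7] at h5
    linarith
  · filter_upwards [key, hev4] with k hk k4
    obtain ⟨h1, -, h3⟩ := hv k hk
    rw [← rr_mv_P hP hinc h3, ← h1]
    refine le_trans (rr_pow hP hinc (mul_nonneg (hη0 k) (hxpos k).le) k4 (hlin k) y (n k)).2 ?_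
    refine mul_le_mul_of_nonneg_right ?_ hr.le
    have h4 : 1 + η k * ‖x k‖ ≤ Real.exp (η k * ‖x k‖) := by
      have := Real.add_one_le_exp (η k * ‖x k‖)
      linarith
    have h5 : (0 : ℝ) ≤ 1 + η k * ‖x k‖ := by
      have := mul_nonneg (hη0 k) (hxpos k).le
      linarith
    calc (1 + η k * ‖x k‖) ^ n k ≤ Real.exp (η k * ‖x k‖) ^ n k := pow_le_pow_left₀ h5 h4 _
      _ = Real.exp (n k * (η k * ‖x k‖)) := by rw [← Real.exp_nat_mul]
      _ ≤ Real.exp (s * η k) := by
        apply Real.exp_le_exp.2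
        calc (n k : ℝ) * (η k * ‖x k‖) = (n k * ‖x k‖) * η k := by ring
          _ ≤ s * η k := mul_le_mul_of_nonneg_right (hle k) (hη0 k)

/-- a direction along which the radius is locally constant is complete -/
theorem mem_Cd_of_rr {e : V} (hPe : P e = e) (hne1 : ‖e‖ = 1)
    (h : ∀ (y : Y) (s : ℝ), 0 ≤ s → s < rr M P y →
      s • e ∈ E M.dev y ∧ rr M P (mv M.dev y (s • e)) = rr M P y) :
    e ∈ Cd M.dev M.dev_local := by
  have hpos : ∀ (y : Y) (s : ℝ), 0 ≤ s →
      s • e ∈ E M.dev y ∧ rr M P (mv M.dev y (s • e)) = rr M P y := by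
    intro y s hs0
    have hr := rr_pos hP hinc y
    -- divide the path in short steps
    obtain ⟨n, hn⟩ := exists_nat_gt (s / (rr M P y))
    rw [div_lt_iff₀ hr] at hn
    have hn0 : (0 : ℝ) < n := by
      by_contra hle
      push Not at hle
      have : (n : ℝ) = 0 := le_antisymm hle (Nat.cast_nonneg n)
      rw [this, zero_mul] at hn
      linarith
    set d := s / n with hd
    have hd0 : 0 ≤ d := div_nonneg hs0 hn0.le
    have hd1 : d < rr M P y := by
      rw [hd, div_lt_iff₀ hn0]; linarith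
    have key : ∀ m : ℕ, ((m : ℝ) * d) • e ∈ E M.dev y ∧
        rr M P (mv M.dev y (((m : ℝ) * d) • e)) = rr M P y := by
      intro m
      induction m with
      | zero =>
        rw [Nat.cast_zero, zero_mul, zero_smul, mv_zero M.dev_local]
        exact ⟨zero_mem_E M.dev_local y, rfl⟩
      | succ m ih =>
        obtain ⟨h1, h2⟩ := ih
        have h3 := h (mv M.dev y (((m : ℝ) * d) • e)) d hd0 (by rw [h2]; exact hd1)
        have h4 := ray_extend M.dev_local (v := e) (by positivity) hd0 h1 h3.1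
        have e1 : (m : ℝ) * d + d = ((m + 1 : ℕ) : ℝ) * d := by push_cast; ring
        rw [e1] at h4
        exact ⟨h4.1, by rw [h4.2, h3.2, h2]⟩
    have h1 := key n
    have e1 : (n : ℝ) * d = s := by rw [hd]; field_simp
    rwa [e1] at h1
  -- the opposite direction
  have hneg1 : ∀ (y : Y) (s : ℝ), 0 ≤ s → s < rr M P y →
      s • (-e) ∈ E M.dev y ∧ rr M P (mv M.dev y (s • (-e))) = rr M P y := by
    intro y s hs0 hs
    have h1 : ‖P (s • (-e))‖ < rr M P y := by
      rw [map_smul, map_neg, hPe, norm_smul, norm_neg, hne1, mul_one, Real.norm_of_nonneg hs0]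
      exact hs
    have h2 := mem_E_of_lt hP h1
    have h3 := (slab_tri hP hinc (y := y) (u := s • (-e)) (u' := 0) h1 (by
      rw [map_zero, norm_zero]; exact rr_pos hP hinc y)).2
    rw [mv_zero M.dev_local] at h3
    have e1 : (0 : V) - s • (-e) = s • e := by module
    rw [e1] at h3
    have h4 := (hpos (mv M.dev y (s • (-e))) s hs0).2
    rw [h3] at h4
    exact ⟨h2, h4.symm⟩
  intro y t
  rcases le_total 0 t with ht | ht
  · exact (hpos y t ht).1
  · have hr := rr_pos hP hinc y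
    obtain ⟨n, hn⟩ := exists_nat_gt ((-t) / (rr M P y))
    rw [div_lt_iff₀ hr] at hn
    have hn0 : (0 : ℝ) < n := by
      by_contra hle
      push Not at hle
      have : (n : ℝ) = 0 := le_antisymm hle (Nat.cast_nonneg n)
      rw [this, zero_mul] at hn
      linarith
    set d := (-t) / n with hd
    have hd0 : 0 ≤ d := div_nonneg (by linarith) hn0.le
    have hd1 : d < rr M P y := by
      rw [hd, div_lt_iff₀ hn0]; linarith
    have key : ∀ m : ℕ, ((m : ℝ) * d) • (-e) ∈ E M.dev y ∧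
        rr M P (mv M.dev y (((m : ℝ) * d) • (-e))) = rr M P y := by
      intro m
      induction m with
      | zero =>
        rw [Nat.cast_zero, zero_mul, zero_smul, mv_zero M.dev_local]
        exact ⟨zero_mem_E M.dev_local y, rfl⟩
      | succ m ih =>
        obtain ⟨h1, h2⟩ := ih
        have h3 := hneg1 (mv M.dev y (((m : ℝ) * d) • (-e))) d hd0 (by rw [h2]; exact hd1)
        have h4 := ray_extend M.dev_local (v := -e) (by positivity) hd0 h1 h3.1
        have e1 : (m : ℝ) * d + d = ((m + 1 : ℕ) : ℝ) * d := by push_cast; ring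
        rw [e1] at h4
        exact ⟨h4.1, by rw [h4.2, h3.2, h2]⟩
    have h1 := (key n).1
    have e1 : ((n : ℝ) * d) • (-e) = t • e := by
      have e2 : (n : ℝ) * d = -t := by rw [hd]; field_simp
      rw [e2]; module
    rwa [e1] at h1

/-- **No approximate translations.** -/
theorem no_approx_transl [ConnectedSpace Y] {g : ℕ → G} {y0 : Y} (hn : ∀ k, Nr M (g k) y0)
    (hne : ∀ k, P (xg M (g k) y0) ≠ 0)
    (h0 : Tendsto (fun k => P (xg M (g k) y0)) atTop (𝓝 0)) {η : ℕ → ℝ} (hη0 : ∀ k, 0 ≤ η k)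
    (hη : Tendsto η atTop (𝓝 0))
    (hlin : ∀ k v, ‖P (lin M (g k) v) - P v‖ ≤ η k * ‖P (xg M (g k) y0)‖ * ‖P v‖) : False := by
  have : ProperSpace V := FiniteDimensional.proper ℝ V
  have hsph : ∀ k, ‖P (xg M (g k) y0)‖⁻¹ • P (xg M (g k) y0) ∈ Metric.sphere (0 : V) 1 := by
    intro k
    rw [mem_sphere_zero_iff_norm, norm_smul, norm_inv, norm_norm,
      inv_mul_cancel₀ (norm_ne_zero_iff.2 (hne k))]
  obtain ⟨e, he, ψ, hψ, hlim⟩ := (isCompact_sphere (0 : V) 1).tendsto_subseq hsph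
  have hψt := hψ.tendsto_atTop
  have hne1 : ‖e‖ = 1 := mem_sphere_zero_iff_norm.1 he
  have hPe : P e = e := by
    have h3 : Tendsto (fun k => P (‖P (xg M (g (ψ k)) y0)‖⁻¹ • P (xg M (g (ψ k)) y0))) atTop
        (𝓝 (P e)) := (P.continuous.tendsto e).comp hlim
    refine tendsto_nhds_unique h3 (hlim.congr fun k => ?_)
    show _ = P _
    rw [map_smul, P_P hP]
    rfl
  have hmem := mem_Cd_of_rr hP hinc hPe hne1 fun y s hs0 hs =>
    rr_limit' hP hinc (g := fun k => g (ψ k)) (fun k => hn _) (fun k => hne _)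
      (h0.comp hψt) (η := fun k => η (ψ k)) (fun k => hη0 _) (hη.comp hψt)
      (fun k v => hlin _ v) hlim y hs0 hs
  have h1 := hP.ker e hmem
  rw [hPe] at h1
  rw [h1, norm_zero] at hne1
  exact zero_ne_one hne1

end Pool.Agent.CYC
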